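import Mathlib

set_option autoImplicit false

/-!
# THEOREM QL (quantum liar): basic definitions

`Op H`: bounded operators of a real Hilbert space. `IsWorld X L K`: symmetric involutions `X i` and a
filtration `L 0 ≤ L 1 ≤ …`, such that the `X i` commute on vectors of degree `≤ K - 2`.
`W X a`: the span of the words of length `≤ a` in the `X i`. `Bf ι`: formulas in `¬, ∨`;
`wt`, `cop`: the weight `a(F)` and the positive operator `c(F)` of a formula.
`fc A f`: the function `f` of the symmetric operator `A` (finite dimension).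
-/

namespace Pool.H6.QL

/-- Bounded operators. -/
abbrev Op (H : Type) [NormedAddCommGroup H] [InnerProductSpace ℝ H] : Type := H →L[ℝ] H

section world

variable {H : Type} [NormedAddCommGroup H] [InnerProductSpace ℝ H] {ι : Type}

/-- A world: symmetric involutions which commute on low degree vectors. -/
structure IsWorld (X : ι → Op H) (L : ℕ → Submodule ℝ H) (K : ℕ) : Prop where
  sq : ∀ i, X i * X i = 1
  sym : ∀ i u v, inner ℝ (X i u) v = inner ℝ u (X i v)
  mono : Monotone L
  step : ∀ i k, k + 1 ≤ K → ∀ p ∈ L k, X i p ∈ L (k + 1)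
  comm : ∀ i j k, k + 2 ≤ K → ∀ p ∈ L k, X i (X j p) = X j (X i p)

/-- Span of the words of length at most `a`. -/
def W (X : ι → Op H) (a : ℕ) : Submodule ℝ (Op H) :=
  Submodule.span ℝ {A | ∃ l : List ι, l.length ≤ a ∧ A = (l.map X).prod}

/-- Symmetric operator with `lo ≤ A ≤ hi`. -/
structure Pos (A : Op H) (lo hi : ℝ) : Prop where
  sym : ∀ u v, inner ℝ (A u) v = inner ℝ u (A v)
  lo : ∀ u, lo * ‖u‖ ^ 2 ≤ inner ℝ (A u) u
  hi : ∀ u, inner ℝ (A u) u ≤ hi * ‖u‖ ^ 2

end world

/-- Formulas in `¬, ∨`. -/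
inductive Bf (ι : Type) : Type
  | var : ι → Bf ι
  | neg : Bf ι → Bf ι
  | or : Bf ι → Bf ι → Bf ι

/-- Number of occurrences of variables. -/
def Bf.sz {ι : Type} : Bf ι → ℕ
  | .var _ => 1
  | .neg F => F.sz
  | .or F G => F.sz + G.sz

/-- Depth: number of nested disjunctions (negations are free). -/
def Bf.dp {ι : Type} : Bf ι → ℕ
  | .var _ => 0
  | .neg F => F.dp
  | .or F G => max F.dp G.dp + 1

/-- The weight `a(F)`. -/
noncomputable def wt {ι : Type} (lam del : ℝ) : Bf ι → ℝ
  | .var _ => lam⁻¹
  | .neg F => wt lam del F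
  | .or F G => (1 + del) ^ 3 * Real.sqrt (wt lam del F ^ 2 + wt lam del G ^ 2)

/-- The weights `κ` of the two summands of a disjunction. -/
noncomputable def kap (a b : ℝ) : ℝ := a / Real.sqrt (a ^ 2 + b ^ 2)

section ops

variable {H : Type} [NormedAddCommGroup H] [InnerProductSpace ℝ H] {ι : Type}

/-- The positive operator `c(F)`. -/
noncomputable def cop (lam del : ℝ) (X : ι → Op H) : Bf ι → Op H
  | .var i => ((lam + lam⁻¹) / 2) • (1 : Op H) + ((lam - lam⁻¹) / 2) • X i
  | .neg F => Ring.inverse (cop lam del X F)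
  | .or F G => kap (wt lam del F) (wt lam del G) • cop lam del X F +
      kap (wt lam del G) (wt lam del F) • cop lam del X G

/-- Cayley transform. -/
noncomputable def cay (τ t : ℝ) : ℝ := (t - τ) / (t + τ)

/-- `mu = (lam - 1) / (lam + 1)`. -/
noncomputable def mu (lam : ℝ) : ℝ := (lam - 1) / (lam + 1)

/-- Existence of an orthonormal basis of eigenvectors (for symmetric operators in finite dimension). -/
def HasEig (A : Op H) : Prop :=
  ∃ (m : ℕ) (e : OrthonormalBasis (Fin m) ℝ H) (t : Fin m → ℝ), ∀ i, A (e i) = t i • e i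

open Classical in
/-- Functions of a symmetric operator: `f(A) v = ∑ f(t i) ⟨e i, v⟩ e i`. -/
noncomputable def fc (A : Op H) (f : ℝ → ℝ) : Op H :=
  if h : HasEig A then
    ∑ i, f (h.choose_spec.choose_spec.choose i) •
      ((innerSL ℝ (h.choose_spec.choose i)).smulRight (h.choose_spec.choose i))
  else 0

end ops

end Pool.H6.QL
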