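import Mathlib
import Pool.Agent.H6.QL.Defs
import Pool.Agent.H3.Frg.Formula

set_option autoImplicit false

/-!
# THEOREM QL: interfaces between the chapters

* `BHom X L K R E P T`: approximate homomorphism on the formulas `F : Bf ι` with `P F`; `T F ∈ W X R`;
  all relations hold up to `E ‖p‖` on `p ∈ L k`, `k + 8 R ≤ K`. (Chapters 0-4; proved in `Hom`.)
* `FHom X L K R E s T`: the same for the formulas of the Frege system (`Fm V`, connectives `neg`, `imp`)
  with at most `s` occurrences of variables, of ANY depth. Here `X : Option V → Op H` with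
  `X none = 1` (the constant true is the variable `none`). (Chapter 5.)
* `PE n K Γ`: a pseudo-expectation of degree `2 K` for the clauses in `Γ` (lists of literals
  `(i, b)`: `b = true` is `x i`, `b = false` is `¬ x i`; the value `1` of `X i` is true).
  (Chapters 0 and 7.)
* `Win s Γ r A`: in the Prover-Liar game with queries of at most `s` leaves Prover wins in `r`
  further rounds from the answers `A`. (Chapter 6.)
-/

namespace Pool.H6.QL

open Pool.Agent.H3.Frg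

section

variable {H : Type} [NormedAddCommGroup H] [InnerProductSpace ℝ H] {ι : Type}

structure BHom (X : ι → Op H) (L : ℕ → Submodule ℝ H) (K R : ℕ) (E : ℝ) (P : Bf ι → Prop)
    (T : Bf ι → Op H) : Prop where
  deg : ∀ F, P F → T F ∈ W X R
  norm : ∀ F, P F → ‖T F‖ ≤ 1 + E ∧ ‖1 - T F‖ ≤ 1 + E
  var : ∀ i, ‖T (.var i) - (1 / 2 : ℝ) • (1 + X i)‖ ≤ E
  neg : ∀ F, P F → ‖T (.neg F) - (1 - T F)‖ ≤ E
  idem : ∀ F, P F → ∀ k, k + 8 * R ≤ K → ∀ p ∈ L k, ‖T F (T F p) - T F p‖ ≤ E * ‖p‖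
  or : ∀ F G, P (.or F G) → ∀ k, k + 8 * R ≤ K → ∀ p ∈ L k,
    ‖T (.or F G) p - (T F p + T G p - T F (T G p))‖ ≤ E * ‖p‖

structure FHom {V : Type} (X : Option V → Op H) (L : ℕ → Submodule ℝ H) (K R : ℕ) (E : ℝ) (s : ℕ)
    (T : Fm V → Op H) : Prop where
  deg : ∀ A : Fm V, A.leaves ≤ s → T A ∈ W X R
  norm : ∀ A : Fm V, A.leaves ≤ s → ‖T A‖ ≤ 1 + E ∧ ‖1 - T A‖ ≤ 1 + E
  var : ∀ i : V, ‖T (.var i) - (1 / 2 : ℝ) • (1 + X (some i))‖ ≤ E
  neg : ∀ A : Fm V, A.leaves ≤ s → ∀ k, k + 8 * R ≤ K → ∀ p ∈ L k,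
    ‖T (.neg A) p - (p - T A p)‖ ≤ E * ‖p‖
  idem : ∀ A : Fm V, A.leaves ≤ s → ∀ k, k + 8 * R ≤ K → ∀ p ∈ L k,
    ‖T A (T A p) - T A p‖ ≤ E * ‖p‖
  imp : ∀ A B : Fm V, (Fm.imp A B).leaves ≤ s → ∀ k, k + 8 * R ≤ K → ∀ p ∈ L k,
    ‖T (.imp A B) p - (p - T A p + T A (T B p))‖ ≤ E * ‖p‖

end

/-- A literal as a formula. -/
def litF {V : Type} (l : V × Bool) : Fm V := if l.2 = true then Fm.var l.1 else Fm.neg (Fm.var l.1)

/-- The clause `a ∨ c₁ ∨ c₂ ∨ …` as a formula (`B ∨ C` is `¬B → C`). -/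
def clF {V : Type} : V × Bool → List (V × Bool) → Fm V
  | a, [] => litF a
  | a, b :: c => Fm.imp (Fm.neg (litF a)) (clF b c)

/-- The sign of a literal: the variable `i` is true iff `x i = 1`. -/
def sg (b : Bool) : ℝ := if b = true then 1 else -1

/-- `pe E c U = E~ [ f_c x^U ]`, where `f_c = ∏ (1 - sg b x i) / 2` is the indicator function of the
assignments that falsify the clause `c`, and `E U = E~ [ x^U ]`. -/
noncomputable def pe {n : ℕ} (E : Finset (Fin n) → ℝ) :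
    List (Fin n × Bool) → Finset (Fin n) → ℝ
  | [], U => E U
  | l :: c, U => (pe E c U - sg l.2 * pe E c (symmDiff U {l.1})) / 2

/-- A pseudo-expectation of degree `2 K` for the clauses in `Γ`: `E~ 1 = 1`, `E~ p² ≥ 0` for
`deg p ≤ K`, `E~ [f_c q] = 0` for all clauses `c ∈ Γ` and `deg q + |c| ≤ 2 K`. -/
def PE (n K : ℕ) (Γ : Set (List (Fin n × Bool))) : Prop :=
  ∃ E : Finset (Fin n) → ℝ, E ∅ = 1 ∧
    (∀ p : Finset (Fin n) → ℝ, (∀ S, K < S.card → p S = 0) →
      0 ≤ ∑ S, ∑ T, p S * p T * E (symmDiff S T)) ∧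
    ∀ c ∈ Γ, ∀ U : Finset (Fin n), U.card + c.length ≤ 2 * K → pe E c U = 0

/-- The Prover-Liar game: from the answers `A` (a list of formulas with truth values) Prover reaches
a violated connective or a false axiom in at most `r` further queries of formulas with at most
`s` leaves. -/
inductive Win {V : Type} (s : ℕ) (Γ : Set (Fm V)) : ℕ → List (Fm V × Bool) → Prop
  | ax (r : ℕ) (A : List (Fm V × Bool)) (C : Fm V) : C ∈ Γ → (C, false) ∈ A → Win s Γ r A
  | same (r : ℕ) (A : List (Fm V × Bool)) (F : Fm V) :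
      (F, true) ∈ A → (F, false) ∈ A → Win s Γ r A
  | neg (r : ℕ) (A : List (Fm V × Bool)) (F : Fm V) (b : Bool) :
      (Fm.neg F, b) ∈ A → (F, b) ∈ A → Win s Γ r A
  | imp1 (r : ℕ) (A : List (Fm V × Bool)) (F G : Fm V) :
      (Fm.imp F G, true) ∈ A → (F, true) ∈ A → (G, false) ∈ A → Win s Γ r A
  | imp2 (r : ℕ) (A : List (Fm V × Bool)) (F G : Fm V) :
      (Fm.imp F G, false) ∈ A → (F, false) ∈ A → Win s Γ r A
  | imp3 (r : ℕ) (A : List (Fm V × Bool)) (F G : Fm V) :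
      (Fm.imp F G, false) ∈ A → (G, true) ∈ A → Win s Γ r A
  | ask (r : ℕ) (A : List (Fm V × Bool)) (Q : Fm V) : Q.leaves ≤ s →
      Win s Γ r ((Q, true) :: A) → Win s Γ r ((Q, false) :: A) → Win s Γ (r + 1) A

end Pool.H6.QL
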