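import Mathlib
import Pool.Agent.H6.QL.Ifc
import Pool.Agent.H81.QG.Defs

set_option autoImplicit false

/-!
# THEOREM QL: the ring world (definitions)

`Rn n`: the ring of real functions on the cube. `yy i`: the variable `i` with values `0, 1`; `fal c`: the
indicator function of the assignments that falsify the clause `c`. `RW n K Gam X L cl dg`: a world
`X, L` together with the class map `cl : Rn n → H` (`cl q` is the vector `q(X) u` for a unit vector `u` of
degree `0`) and the degree filtration `dg` of `Rn n`.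
-/

namespace Pool.H6.QL

open Pool.Agent.H3.Frg Pool.Agent.H81.QG

/-- Real functions on the cube. -/
abbrev Rn (n : ℕ) : Type := (Fin n → Bool) → ℝ

/-- The variable `i`. -/
def yy {n : ℕ} (i : Fin n) : Rn n := fun a => if a i = true then 1 else 0

/-- Indicator function of the assignments that falsify the clause `c`. -/
def fal {n : ℕ} (c : List (Fin n × Bool)) : Rn n := fun a => if ∀ l ∈ c, a l.1 ≠ l.2 then 1 else 0

structure RW {H : Type} [NormedAddCommGroup H] [InnerProductSpace ℝ H] (n K : ℕ)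
    (Gam : Set (List (Fin n × Bool))) (X : Option (Fin n) → Op H) (L : ℕ → Submodule ℝ H)
    (cl : Rn n →ₗ[ℝ] H) (dg : ℕ → Submodule ℝ (Rn n)) : Prop where
  wld : IsWorld X L K
  none : X none = 1
  liar : Liar cl dg K
  into : ∀ k ≤ K, ∀ p ∈ dg k, cl p ∈ L k
  lift : ∀ a, ∀ A ∈ W X a, ∃ r ∈ dg a, ∀ b, a + b ≤ K → ∀ q ∈ dg b, cl (r * q) = A (cl q)
  ymem : ∀ i, yy i ∈ dg 1
  yval : ∀ i b, 1 + b ≤ K → ∀ q ∈ dg b, cl (yy i * q) = (1 / 2 : ℝ) • (cl q + X (some i) (cl q))
  null : ∀ c ∈ Gam, ∀ b, b + c.length ≤ K → ∀ q ∈ dg b, cl (fal c * q) = 0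

end Pool.H6.QL
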