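import Mathlib
import Pool.Agent.H6.QL.RwDefs
import Pool.Agent.H3.Frg2.Defs

set_option autoImplicit false

namespace Pool.H6.QL

open Pool.Agent.H3.Frg Pool.Agent.H3.Frg2 Pool.Agent.H81.QG

/-- The clauses as formulas. -/
def Cls {V : Type} (Γ : Set (List (V × Bool))) : Set (Fm V) := {A | ∃ a c, a :: c ∈ Γ ∧ A = clF a c}

theorem ev_litF {n : ℕ} (l : Fin n × Bool) (x : Fin n → Bool) :
    ev (R := Rn n) yy (litF l) x = if x l.1 = l.2 then 1 else 0 := by
  obtain ⟨i, b⟩ := l
  cases b
  · show ev (R := Rn n) yy (Fm.neg (Fm.var i)) x = _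
    show (1 : ℝ) - (if x i = true then 1 else 0) = if x i = false then 1 else 0
    cases x i <;> simp
  · show (if x i = true then (1 : ℝ) else 0) = if x i = true then 1 else 0
    rfl

theorem ev_clF {n : ℕ} (a : Fin n × Bool) (c : List (Fin n × Bool)) :
    1 - ev (R := Rn n) yy (clF a c) = fal (a :: c) := by
  induction c generalizing a with
  | nil =>
    funext x
    show (1 : ℝ) - ev (R := Rn n) yy (litF a) x = if ∀ l ∈ [a], x l.1 ≠ l.2 then 1 else 0
    rw [ev_litF]
    by_cases h : x a.1 = a.2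
    · simp [h]
    · simp [h]
  | cons b c ih =>
    funext x
    have h1 := congrFun (ih b) x
    have h2 : ev (R := Rn n) yy (clF b c) x = 1 - fal (b :: c) x := by
      have : (1 : ℝ) - ev (R := Rn n) yy (clF b c) x = fal (b :: c) x := h1
      linarith
    have h3 : ev (R := Rn n) yy (clF a (b :: c)) x =
        1 - (1 - ev (R := Rn n) yy (litF a) x) +
          (1 - ev (R := Rn n) yy (litF a) x) * ev (R := Rn n) yy (clF b c) x := rfl
    show (1 : ℝ) - ev (R := Rn n) yy (clF a (b :: c)) x =
      if ∀ l ∈ a :: b :: c, x l.1 ≠ l.2 then 1 else 0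
    rw [h3, h2, ev_litF]
    show (1 : ℝ) - (1 - (1 - if x a.1 = a.2 then 1 else 0) +
          (1 - if x a.1 = a.2 then 1 else 0) * (1 - if ∀ l ∈ b :: c, x l.1 ≠ l.2 then 1 else 0)) =
      if ∀ l ∈ a :: b :: c, x l.1 ≠ l.2 then 1 else 0
    by_cases h : x a.1 = a.2
    · have h4 : ¬ ∀ l ∈ a :: b :: c, x l.1 ≠ l.2 := fun h5 => h5 a List.mem_cons_self h
      rw [if_pos h, if_neg h4]
      ring
    · rw [if_neg h]
      by_cases h5 : ∀ l ∈ b :: c, x l.1 ≠ l.2
      · have h6 : ∀ l ∈ a :: b :: c, x l.1 ≠ l.2 := by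
          intro l hl
          rcases List.mem_cons.mp hl with rfl | hl
          · exact h
          · exact h5 l hl
        rw [if_pos h5, if_pos h6]
        ring
      · have h6 : ¬ ∀ l ∈ a :: b :: c, x l.1 ≠ l.2 := fun h7 =>
          h5 fun l hl => h7 l (List.mem_cons_of_mem _ hl)
        rw [if_neg h5, if_neg h6]
        ring

theorem len_litF {V : Type} (a : V × Bool) : (litF a).len ≤ 2 := by
  obtain ⟨i, b⟩ := a
  cases b
  · exact le_rfl
  · exact (by norm_num : 1 ≤ 2)

theorem len_clF {V : Type} (a : V × Bool) (c : List (V × Bool)) :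
    (clF a c).len ≤ 4 * (c.length + 1) := by
  induction c generalizing a with
  | nil =>
    have := len_litF a
    show (litF a).len ≤ _
    simp only [List.length_nil]
    omega
  | cons b c ih =>
    have h1 := len_litF a
    have h2 := ih b
    show (litF a).len + 1 + (clF b c).len + 1 ≤ _
    simp only [List.length_cons]
    omega

end Pool.H6.QL
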