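import Mathlib
import Pool.Agent.H6.QL.RwDefs

set_option autoImplicit false

/-!
# THEOREM QL: statements of the bridges (B1)-(B4), as propositions

`RwExists`: (B1). `ViExists`: (B2) + (B3) with chapter (5). The proofs are in H90/QL and H61/QL.
-/

namespace Pool.H6.QL

open Pool.Agent.H3.Frg Pool.Agent.H81.QG

/-- (B1) -/
def RwExists : Prop := ∀ (n K : ℕ) (Gam : Set (List (Fin n × Bool))), PE n K Gam →
  ∃ (m : ℕ) (X : Option (Fin n) → Op (EuclideanSpace ℝ (Fin m)))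
    (L : ℕ → Submodule ℝ (EuclideanSpace ℝ (Fin m)))
    (cl : Rn n →ₗ[ℝ] EuclideanSpace ℝ (Fin m)) (dg : ℕ → Submodule ℝ (Rn n)),
    RW n K Gam X L cl dg

/-- (B2), (B3) -/
def ViExists : Prop := ∀ eps : ℝ, 0 < eps → ∃ C : ℕ, ∀ (m n K : ℕ)
  (Gam : Set (List (Fin n × Bool))) (X : Option (Fin n) → Op (EuclideanSpace ℝ (Fin m)))
  (L : ℕ → Submodule ℝ (EuclideanSpace ℝ (Fin m)))
  (cl : Rn n →ₗ[ℝ] EuclideanSpace ℝ (Fin m)) (dg : ℕ → Submodule ℝ (Rn n)),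
  RW n K Gam X L cl dg → ∀ (s R : ℕ) (E : ℝ)
  (T : Bf (Option (Fin n)) → Op (EuclideanSpace ℝ (Fin m))), 1 ≤ s → 0 < E →
  (C : ℝ) * (s : ℝ) ^ C * E ≤ 1 →
  BHom X L K R E (fun F => (F.sz : ℝ) ≤ C * (s : ℝ) ^ (1 + eps) ∧
    F.dp ≤ C * (Nat.log 2 s + 1) ^ 2) T →
  ∃ V : Fm (Fin n) → Rn n, ∀ k, k + C * (Nat.log 2 s + 1) * (R + 1) ≤ K →
    VI cl dg V yy (C * (Nat.log 2 s + 1) * (R + 1)) s k ((C : ℝ) * (s : ℝ) ^ C * E)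

/-- (B4) -/
def AxVi : Prop := ∀ (m n K : ℕ)
  (Gam : Set (List (Fin n × Bool))) (X : Option (Fin n) → Op (EuclideanSpace ℝ (Fin m)))
  (L : ℕ → Submodule ℝ (EuclideanSpace ℝ (Fin m)))
  (cl : Rn n →ₗ[ℝ] EuclideanSpace ℝ (Fin m)) (dg : ℕ → Submodule ℝ (Rn n)),
  RW n K Gam X L cl dg → ∀ (V : Fm (Fin n) → Rn n) (Wd s k k' : ℕ) (η : ℝ), 0 ≤ η → η ≤ 1 →
  VI cl dg V yy Wd s k η → ∀ (a : Fin n × Bool) (c : List (Fin n × Bool)), a :: c ∈ Gam →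
  c.length + 1 ≤ s → k' + 2 * (Wd + c.length + 1) ≤ k → k + 2 * (Wd + c.length + 1) ≤ K →
  Sml cl dg k' (3 * 2 ^ (c.length + 1) * η) (V (clF a c) - 1)

end Pool.H6.QL
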