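import Mathlib
import Pool.Agent.H6.QL.Defs

set_option autoImplicit false

/-!
# [H6 QL WRD] Words and low degree vectors

`W X a` is the span of the products of lists `l` with `l.length ≤ a`.
* `W_mul`: `Submodule.span_induction` in both factors; the product of two words is the word of the
  appended list.
* `world_mem`: for a word by induction on the list (`IsWorld.step`, `mono`), then linearity.
* `world_comm`: both sides are linear in `A` and `B`, so let `A`, `B` be words. First: for a list `l`
  and `i` with `l.length + 1 + k ≤ K`, `p ∈ L k`: `X i (l.prod p) = l.prod (X i p)` by induction on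
  `l` (the vector on which `X i`, `X j` are exchanged is `l'.prod p ∈ L (k + l'.length)`). Then
  induction on the list of `A`.
* `world_sym`: for a word `l` and `p, q`: `⟨l.prod p, q⟩ = ⟨p, l.reverse.prod q⟩` (`sym`), and
  `l.reverse.prod q = l.prod q` for `q ∈ L k`, `l.length + k ≤ K` (by `world_comm` and induction).
* `X_iso`: `‖X i u‖² = ⟨X u, X u⟩ = ⟨u, X X u⟩ = ‖u‖²`.
-/

namespace Pool.H6.QL

variable {H : Type} [NormedAddCommGroup H] [InnerProductSpace ℝ H] {ι : Type}
variable {X : ι → Op H} {L : ℕ → Submodule ℝ H} {K : ℕ}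

theorem W_mono {a b : ℕ} (h : a ≤ b) : W X a ≤ W X b := by
  refine Submodule.span_mono ?_
  rintro A ⟨l, hl, rfl⟩
  exact ⟨l, hl.trans h, rfl⟩

theorem one_mem_W (a : ℕ) : (1 : Op H) ∈ W X a := by
  refine Submodule.subset_span ⟨[], Nat.zero_le _, ?_⟩
  rw [List.map_nil, List.prod_nil]

theorem X_mem_W (i : ι) : X i ∈ W X 1 := by
  refine Submodule.subset_span ⟨[i], le_rfl, ?_⟩
  rw [List.map_cons, List.map_nil, List.prod_cons, List.prod_nil, mul_one]

theorem W_mul {a b : ℕ} {A B : Op H} (hA : A ∈ W X a) (hB : B ∈ W X b) :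
    A * B ∈ W X (a + b) := by
  have h := Submodule.mul_mem_mul hA hB
  unfold W at h
  rw [Submodule.span_mul_span] at h
  refine Submodule.span_mono ?_ h
  rintro _ ⟨_, ⟨l, hl, rfl⟩, _, ⟨l', hl', rfl⟩, rfl⟩
  refine ⟨l ++ l', ?_, ?_⟩
  · rw [List.length_append]
    omega
  · show (l.map X).prod * (l'.map X).prod = _
    rw [List.map_append, List.prod_append]

private theorem pow_mem_W {J : ℕ} {A : Op H} (hA : A ∈ W X J) (n : ℕ) : A ^ n ∈ W X (n * J) := by
  induction n with
  | zero =>
    rw [pow_zero]
    exact one_mem_W _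
  | succ n ih =>
    rw [pow_succ, Nat.succ_mul]
    exact W_mul ih hA

/-- Polynomials of degree at most `N` in an element of degree `J`. -/
theorem aeval_mem_W {J N : ℕ} {A : Op H} (hA : A ∈ W X J) {P : Polynomial ℝ}
    (hP : P.natDegree ≤ N) : Polynomial.aeval A P ∈ W X (N * J) := by
  rw [Polynomial.aeval_eq_sum_range' (Nat.lt_succ_of_le hP)]
  refine Submodule.sum_mem _ fun i hi => Submodule.smul_mem _ _ ?_
  refine W_mono ?_ (pow_mem_W hA i)
  exact Nat.mul_le_mul_right _ (Nat.lt_succ_iff.1 (Finset.mem_range.1 hi))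

private theorem word_mem (hW : IsWorld X L K) (l : List ι) {k : ℕ} (hk : l.length + k ≤ K) {p : H}
    (hp : p ∈ L k) : (l.map X).prod p ∈ L (k + l.length) := by
  induction l with
  | nil =>
    rw [List.map_nil, List.prod_nil]
    exact hp
  | cons i l ih =>
    rw [List.length_cons] at hk
    rw [List.map_cons, List.prod_cons, List.length_cons, ← add_assoc]
    exact hW.step i (k + l.length) (by omega) _ (ih (by omega))

theorem world_mem (hW : IsWorld X L K) {a k : ℕ} (hk : a + k ≤ K) {A : Op H} (hA : A ∈ W X a)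
    {p : H} (hp : p ∈ L k) : A p ∈ L (k + a) := by
  unfold W at hA
  refine Submodule.span_induction (p := fun A _ => A p ∈ L (k + a)) ?_ ?_ ?_ ?_ hA
  · rintro _ ⟨l, hl, rfl⟩
    exact hW.mono (by omega) (word_mem hW l (by omega) hp)
  · rw [zero_apply]
    exact zero_mem _
  · intro A B _ _ h1 h2
    rw [add_apply]
    exact add_mem h1 h2
  · intro c A _ h1
    rw [smul_apply]
    exact Submodule.smul_mem _ _ h1

private theorem word_X (hW : IsWorld X L K) (i : ι) (l : List ι) {k : ℕ} (hk : l.length + 1 + k ≤ K)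
    {p : H} (hp : p ∈ L k) : X i ((l.map X).prod p) = (l.map X).prod (X i p) := by
  induction l with
  | nil => rfl
  | cons j l ih =>
    rw [List.length_cons] at hk
    rw [List.map_cons, List.prod_cons]
    show X i (X j ((l.map X).prod p)) = X j ((l.map X).prod (X i p))
    rw [hW.comm i j (k + l.length) (by omega) _ (word_mem hW l (by omega) hp), ih (by omega)]

private theorem word_comm (hW : IsWorld X L K) (l l' : List ι) {k : ℕ}
    (hk : l.length + l'.length + k ≤ K) {p : H} (hp : p ∈ L k) :
    (l.map X).prod ((l'.map X).prod p) = (l'.map X).prod ((l.map X).prod p) := by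
  induction l with
  | nil => rfl
  | cons i l ih =>
    rw [List.length_cons] at hk
    rw [List.map_cons, List.prod_cons]
    show X i ((l.map X).prod ((l'.map X).prod p)) = (l'.map X).prod (X i ((l.map X).prod p))
    rw [ih (by omega), word_X hW i l' (k := k + l.length) (by omega) (word_mem hW l (by omega) hp)]

theorem world_comm (hW : IsWorld X L K) {a b k : ℕ} (hk : a + b + k ≤ K) {A B : Op H}
    (hA : A ∈ W X a) (hB : B ∈ W X b) {p : H} (hp : p ∈ L k) : A (B p) = B (A p) := by
  unfold W at hA hB
  refine Submodule.span_induction (p := fun A _ => A (B p) = B (A p)) ?_ ?_ ?_ ?_ hA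
  · rintro _ ⟨l, hl, rfl⟩
    refine Submodule.span_induction
      (p := fun B _ => (l.map X).prod (B p) = B ((l.map X).prod p)) ?_ ?_ ?_ ?_ hB
    · rintro _ ⟨l', hl', rfl⟩
      exact word_comm hW l l' (by omega) hp
    · rw [zero_apply, zero_apply, map_zero]
    · intro A B _ _ h1 h2
      rw [add_apply, add_apply, map_add, h1, h2]
    · intro c A _ h1
      rw [smul_apply, smul_apply, map_smul, h1]
  · rw [zero_apply, zero_apply, map_zero]
  · intro A C _ _ h1 h2
    rw [add_apply, add_apply, map_add, h1, h2]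
  · intro c A _ h1
    rw [smul_apply, smul_apply, map_smul, h1]

private theorem word_sym (hW : IsWorld X L K) (l : List ι) : ∀ {k : ℕ}, l.length + k ≤ K →
    ∀ {p q : H}, p ∈ L k → q ∈ L k →
      inner ℝ ((l.map X).prod p) q = inner ℝ p ((l.map X).prod q) := by
  induction l with
  | nil =>
    intro k _ p q _ _
    rfl
  | cons i l ih =>
    intro k hk p q hp hq
    rw [List.length_cons] at hk
    rw [List.map_cons, List.prod_cons]
    show inner ℝ (X i ((l.map X).prod p)) q = inner ℝ p (X i ((l.map X).prod q))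
    rw [hW.sym, ih (k := k + 1) (by omega) (hW.mono (Nat.le_succ k) hp) (hW.step i k (by omega) q hq),
      word_X hW i l (by omega) hq]

theorem world_sym (hW : IsWorld X L K) {a k : ℕ} (hk : a + k ≤ K) {A : Op H} (hA : A ∈ W X a)
    {p q : H} (hp : p ∈ L k) (hq : q ∈ L k) : inner ℝ (A p) q = inner ℝ p (A q) := by
  unfold W at hA
  refine Submodule.span_induction (p := fun A _ => inner ℝ (A p) q = inner ℝ p (A q)) ?_ ?_ ?_ ?_ hA
  · rintro _ ⟨l, hl, rfl⟩
    exact word_sym hW l (by omega) hp hq
  · rw [zero_apply, zero_apply, inner_zero_left,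
      inner_zero_right]
  · intro A B _ _ h1 h2
    rw [add_apply, add_apply, inner_add_left, inner_add_right,
      h1, h2]
  · intro c A _ h1
    rw [smul_apply, smul_apply, real_inner_smul_left,
      real_inner_smul_right, h1]

theorem X_norm (hsq : ∀ i, X i * X i = 1)
    (hsym : ∀ i u v, inner ℝ (X i u) v = inner ℝ u (X i v)) (i : ι) (u : H) :
    ‖X i u‖ = ‖u‖ := by
  have h1 : ‖X i u‖ ^ 2 = ‖u‖ ^ 2 := by
    rw [← real_inner_self_eq_norm_sq, ← real_inner_self_eq_norm_sq, hsym]
    have h2 : X i (X i u) = u := by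
      have h3 := congrArg (fun A : Op H => A u) (hsq i)
      exact h3
    rw [h2]
  exact (pow_left_inj₀ (norm_nonneg _) (norm_nonneg _) two_ne_zero).1 h1

theorem X_opnorm (hsq : ∀ i, X i * X i = 1)
    (hsym : ∀ i u v, inner ℝ (X i u) v = inner ℝ u (X i v)) (i : ι) : ‖X i‖ ≤ 1 := by
  refine ContinuousLinearMap.opNorm_le_bound _ zero_le_one fun u => ?_
  rw [X_norm hsq hsym, one_mul]

end Pool.H6.QL
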