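import Mathlib
import Pool.Agent.H6.QL.Wrd

set_option autoImplicit false

/-!
# [H6 QL BIN] The majority polynomial

`bpol N y = P[Bin(N, (1 + y)/2) > N/2]`, written as
`∑_(j ≤ N, N < 2j) C(N, j) / 2^N (1 + y)^j (1 - y)^(N - j)`.
* `bpol_mem`: `(1 + y)^j (1 - y)^(N-j) ≥ 0` for `|y| ≤ 1` and the full sum over `j ≤ N` is
  `((1 + y) + (1 - y))^N / 2^N = 1` (binomial theorem `add_pow`).
* `bpol_lo`: for `y ≤ -d`, `0 ≤ d ≤ 1` (Chernoff): for `2j > N` and `0 < 1 + y`,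
  `(1+y)^j (1-y)^(N-j) ≤ (1+y)^(N/2) (1-y)^(N/2)` (as `(1+y)/(1-y) ≤ 1`), more precisely
  `((1+y)^j (1-y)^(N-j))² ≤ (1 - y²)^N`; so `bpol ≤ (1 - y²)^(N/2) ≤ exp(-N d²/2)`
  (`∑ C(N,j) ≤ 2^N`, `1 - y² ≤ 1 - d² ≤ exp(-d²)`). If you prefer real powers: prove
  `bpol² ≤ exp(-N d²)`. `y = -1` is trivial (`j ≥ 1`).
* `bpol_neg`: `N` odd: `j ↦ N - j` exchanges `2j > N` and `2j < N`, all `j ≤ N` are covered.
* `bpol_hi`: from `bpol_lo` for `-y` and `bpol_neg`.
* `bpol_pert`: every term is a product of `N` factors `1 ± A`, norms at most `3`; telescoping the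
  product gives `‖(1+A)^j(1-A)^(N-j) - (1+B)^j(1-B)^(N-j)‖ ≤ N 3^N ‖A - B‖`
  (general: `‖x^n - y^n‖ ≤ n M^(n-1) ‖x - y‖` for `‖x‖, ‖y‖ ≤ M`), and `∑ C(N,j)/2^N ≤ 1`.
* `bpol_mem_W`: `aeval_mem_W`.
-/

namespace Pool.H6.QL

/-- The majority polynomial. -/
noncomputable def bpol (N : ℕ) : Polynomial ℝ :=
  ∑ j ∈ (Finset.range (N + 1)).filter (fun j => N < 2 * j),
    Polynomial.C ((N.choose j : ℝ) / 2 ^ N) *
      ((1 + Polynomial.X) ^ j * (1 - Polynomial.X) ^ (N - j))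

private theorem bpol_eval (N : ℕ) (y : ℝ) :
    (bpol N).eval y = ∑ j ∈ (Finset.range (N + 1)).filter (fun j => N < 2 * j),
      ((N.choose j : ℝ) / 2 ^ N) * ((1 + y) ^ j * (1 - y) ^ (N - j)) := by
  unfold bpol
  rw [Polynomial.eval_finsetSum]
  refine Finset.sum_congr rfl fun j _ => ?_
  simp only [Polynomial.eval_mul, Polynomial.eval_C, Polynomial.eval_pow, Polynomial.eval_add,
    Polynomial.eval_sub, Polynomial.eval_one, Polynomial.eval_X]

private theorem full_sum (N : ℕ) (y : ℝ) :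
    ∑ j ∈ Finset.range (N + 1), ((N.choose j : ℝ) / 2 ^ N) * ((1 + y) ^ j * (1 - y) ^ (N - j)) = 1 := by
  have h1 := add_pow (1 + y) (1 - y) N
  have h2 : (1 + y) + (1 - y) = 2 := by ring
  rw [h2] at h1
  have h3 : ∑ j ∈ Finset.range (N + 1), ((N.choose j : ℝ) / 2 ^ N) * ((1 + y) ^ j * (1 - y) ^ (N - j)) =
      (∑ j ∈ Finset.range (N + 1), (1 + y) ^ j * (1 - y) ^ (N - j) * (N.choose j : ℝ)) / 2 ^ N := by
    rw [Finset.sum_div]
    refine Finset.sum_congr rfl fun j _ => ?_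
    ring
  rw [h3, ← h1]
  exact div_self (by positivity)

private theorem choose_sum (N : ℕ) :
    ∑ j ∈ (Finset.range (N + 1)).filter (fun j => N < 2 * j), (N.choose j : ℝ) / 2 ^ N ≤ 1 := by
  refine (Finset.sum_le_sum_of_subset_of_nonneg (Finset.filter_subset _ _) fun j _ _ => by positivity).trans ?_
  have h := full_sum N 0
  simp only [add_zero, sub_zero, one_pow, mul_one] at h
  exact h.le

theorem bpol_deg (N : ℕ) : (bpol N).natDegree ≤ N := by
  unfold bpol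
  refine Polynomial.natDegree_sum_le_of_forall_le _ _ fun j hj => ?_
  have hj1 : j ≤ N := by
    have h := Finset.mem_range.1 (Finset.mem_filter.1 hj).1
    omega
  refine (Polynomial.natDegree_C_mul_le _ _).trans ?_
  refine Polynomial.natDegree_mul_le.trans ?_
  have h1 : ((1 + Polynomial.X : Polynomial ℝ) ^ j).natDegree ≤ j := by
    refine Polynomial.natDegree_pow_le.trans ?_
    have h2 : (1 + Polynomial.X : Polynomial ℝ).natDegree ≤ 1 := by
      refine (Polynomial.natDegree_add_le _ _).trans ?_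
      simp
    calc j * (1 + Polynomial.X : Polynomial ℝ).natDegree ≤ j * 1 := Nat.mul_le_mul_left _ h2
      _ = j := mul_one j
  have h3 : ((1 - Polynomial.X : Polynomial ℝ) ^ (N - j)).natDegree ≤ N - j := by
    refine Polynomial.natDegree_pow_le.trans ?_
    have h2 : (1 - Polynomial.X : Polynomial ℝ).natDegree ≤ 1 := by
      refine (Polynomial.natDegree_sub_le _ _).trans ?_
      simp
    calc (N - j) * (1 - Polynomial.X : Polynomial ℝ).natDegree ≤ (N - j) * 1 := Nat.mul_le_mul_left _ h2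
      _ = N - j := mul_one _
  omega

theorem bpol_mem (N : ℕ) {y : ℝ} (h1 : -1 ≤ y) (h2 : y ≤ 1) :
    0 ≤ (bpol N).eval y ∧ (bpol N).eval y ≤ 1 := by
  have hp : 0 ≤ 1 + y := by linarith
  have hq : 0 ≤ 1 - y := by linarith
  rw [bpol_eval]
  refine ⟨Finset.sum_nonneg fun j _ => by positivity, ?_⟩
  refine (Finset.sum_le_sum_of_subset_of_nonneg (Finset.filter_subset _ _) fun j _ _ => by positivity).trans ?_
  exact (full_sum N y).le

private theorem term_le {N j : ℕ} (hj : j ≤ N) (hj2 : N < 2 * j) {y d : ℝ} (h1 : -1 ≤ y) (hd : 0 ≤ d)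
    (h2 : y ≤ -d) : (1 + y) ^ j * (1 - y) ^ (N - j) ≤ Real.exp (-(N : ℝ) * d ^ 2 / 2) := by
  have hp : 0 ≤ 1 + y := by linarith
  have hq : 0 ≤ 1 - y := by linarith
  have hpq : 1 + y ≤ 1 - y := by linarith
  have hb : (1 + y) * (1 - y) ≤ Real.exp (-d ^ 2) := by
    have h3 := Real.add_one_le_exp (-d ^ 2)
    nlinarith
  have e1 : ((1 + y) ^ j * (1 - y) ^ (N - j)) ^ 2 ≤ ((1 + y) * (1 - y)) ^ N := by
    have h4 : ((1 + y) ^ j * (1 - y) ^ (N - j)) ^ 2 =
        (1 + y) ^ N * ((1 + y) ^ (2 * j - N) * (1 - y) ^ (2 * (N - j))) := by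
      rw [mul_pow, ← pow_mul, ← pow_mul, ← mul_assoc, ← pow_add, mul_comm j 2, mul_comm (N - j) 2]
      congr 2
      omega
    have h5 : ((1 + y) * (1 - y)) ^ N = (1 + y) ^ N * ((1 - y) ^ (2 * j - N) * (1 - y) ^ (2 * (N - j))) := by
      rw [mul_pow, ← pow_add]
      congr 2
      omega
    rw [h4, h5]
    gcongr
  have e2 : ((1 + y) * (1 - y)) ^ N ≤ (Real.exp (-(N : ℝ) * d ^ 2 / 2)) ^ 2 := by
    refine (pow_le_pow_left₀ (mul_nonneg hp hq) hb N).trans ?_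
    rw [← Real.exp_nat_mul, ← Real.exp_nat_mul]
    refine le_of_eq ?_
    congr 1
    push_cast
    ring
  exact (pow_le_pow_iff_left₀ (by positivity) (Real.exp_pos _).le two_ne_zero).1 (e1.trans e2)

theorem bpol_lo (N : ℕ) {y d : ℝ} (h1 : -1 ≤ y) (hd : 0 ≤ d) (h2 : y ≤ -d) :
    (bpol N).eval y ≤ Real.exp (-(N : ℝ) * d ^ 2 / 2) := by
  rw [bpol_eval]
  calc ∑ j ∈ (Finset.range (N + 1)).filter (fun j => N < 2 * j),
        ((N.choose j : ℝ) / 2 ^ N) * ((1 + y) ^ j * (1 - y) ^ (N - j))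
      ≤ ∑ j ∈ (Finset.range (N + 1)).filter (fun j => N < 2 * j),
        ((N.choose j : ℝ) / 2 ^ N) * Real.exp (-(N : ℝ) * d ^ 2 / 2) := by
        refine Finset.sum_le_sum fun j hj => ?_
        obtain ⟨h3, h4⟩ := Finset.mem_filter.1 hj
        refine mul_le_mul_of_nonneg_left ?_ (by positivity)
        exact term_le (by have := Finset.mem_range.1 h3; omega) h4 h1 hd h2
    _ = (∑ j ∈ (Finset.range (N + 1)).filter (fun j => N < 2 * j), (N.choose j : ℝ) / 2 ^ N) *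
        Real.exp (-(N : ℝ) * d ^ 2 / 2) := by rw [Finset.sum_mul]
    _ ≤ 1 * Real.exp (-(N : ℝ) * d ^ 2 / 2) :=
        mul_le_mul_of_nonneg_right (choose_sum N) (Real.exp_pos _).le
    _ = Real.exp (-(N : ℝ) * d ^ 2 / 2) := one_mul _

theorem bpol_neg {N : ℕ} (hN : Odd N) (y : ℝ) :
    (bpol N).eval (-y) = 1 - (bpol N).eval y := by
  rw [eq_sub_iff_add_eq, bpol_eval, bpol_eval, Finset.sum_filter, Finset.sum_filter,
    ← Finset.sum_flip (fun j => if N < 2 * j then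
      ((N.choose j : ℝ) / 2 ^ N) * ((1 + -y) ^ j * (1 - -y) ^ (N - j)) else 0),
    ← Finset.sum_add_distrib]
  refine Eq.trans (Finset.sum_congr rfl fun j hj => ?_) (full_sum N y)
  have hj1 : j ≤ N := by
    have h := Finset.mem_range.1 hj
    omega
  obtain ⟨m, hm⟩ := hN
  by_cases h : N < 2 * j
  · have h2 : ¬ N < 2 * (N - j) := by omega
    rw [if_pos h, if_neg h2, zero_add]
  · have h2 : N < 2 * (N - j) := by omega
    rw [if_neg h, if_pos h2, add_zero, Nat.choose_symm hj1]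
    have h3 : N - (N - j) = j := by omega
    rw [h3]
    ring

theorem bpol_hi {N : ℕ} (hN : Odd N) {y d : ℝ} (h1 : y ≤ 1) (hd : 0 ≤ d) (h2 : d ≤ y) :
    1 - Real.exp (-(N : ℝ) * d ^ 2 / 2) ≤ (bpol N).eval y := by
  have h3 := bpol_lo N (y := -y) (d := d) (by linarith) hd (by linarith)
  rw [bpol_neg hN] at h3
  linarith

variable {H : Type} [NormedAddCommGroup H] [InnerProductSpace ℝ H] {ι : Type} {X : ι → Op H}

private theorem op_one_norm : ‖(1 : Op H)‖ ≤ 1 := ContinuousLinearMap.norm_id_le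

private theorem op_pow_norm {A : Op H} (hA : ‖A‖ ≤ 3) (n : ℕ) : ‖A ^ n‖ ≤ 3 ^ n := by
  induction n with
  | zero => rw [pow_zero, pow_zero]; exact op_one_norm
  | succ n ih =>
    rw [pow_succ, pow_succ]
    exact (norm_mul_le _ _).trans (mul_le_mul ih hA (norm_nonneg _) (by positivity))

private theorem op_pow_sub {A B : Op H} (hA : ‖A‖ ≤ 3) (hB : ‖B‖ ≤ 3) (n : ℕ) :
    ‖A ^ n - B ^ n‖ ≤ n * 3 ^ n * ‖A - B‖ := by
  induction n with
  | zero => simp
  | succ n ih =>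
    have h1 : A ^ (n + 1) - B ^ (n + 1) = A ^ n * (A - B) + (A ^ n - B ^ n) * B := by
      rw [pow_succ, pow_succ, mul_sub, sub_mul]
      abel
    rw [h1]
    have h2 : ‖A ^ n * (A - B)‖ ≤ 3 ^ n * ‖A - B‖ :=
      (norm_mul_le _ _).trans (mul_le_mul_of_nonneg_right (op_pow_norm hA n) (norm_nonneg _))
    have h3 : ‖(A ^ n - B ^ n) * B‖ ≤ n * 3 ^ n * ‖A - B‖ * 3 :=
      (norm_mul_le _ _).trans (mul_le_mul ih hB (norm_nonneg _) (by positivity))
    refine (norm_add_le _ _).trans ?_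
    have h4 : 0 ≤ (3 : ℝ) ^ n * ‖A - B‖ := by positivity
    rw [pow_succ]
    push_cast
    nlinarith

theorem bpol_pert (N : ℕ) {A B : Op H} (hA : ‖A‖ ≤ 1) (hB : ‖B‖ ≤ 2) :
    ‖Polynomial.aeval A (bpol N) - Polynomial.aeval B (bpol N)‖ ≤ N * 3 ^ N * ‖A - B‖ := by
  have hev : ∀ C : Op H, Polynomial.aeval C (bpol N) =
      ∑ j ∈ (Finset.range (N + 1)).filter (fun j => N < 2 * j),
        ((N.choose j : ℝ) / 2 ^ N) • ((1 + C) ^ j * (1 - C) ^ (N - j)) := by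
    intro C
    unfold bpol
    rw [map_sum]
    refine Finset.sum_congr rfl fun j _ => ?_
    rw [map_mul, Polynomial.aeval_C, map_mul, map_pow, map_pow, map_add, map_sub, map_one,
      Polynomial.aeval_X, Algebra.smul_def]
  rw [hev, hev, ← Finset.sum_sub_distrib]
  have h1 := op_one_norm (H := H)
  have a1 : ‖1 + A‖ ≤ 3 := (norm_add_le _ _).trans (by linarith)
  have a2 : ‖1 - A‖ ≤ 3 := (norm_sub_le _ _).trans (by linarith)
  have b1 : ‖1 + B‖ ≤ 3 := (norm_add_le _ _).trans (by linarith)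
  have b2 : ‖1 - B‖ ≤ 3 := (norm_sub_le _ _).trans (by linarith)
  have key : ∀ j ∈ (Finset.range (N + 1)).filter (fun j => N < 2 * j),
      ‖((N.choose j : ℝ) / 2 ^ N) • ((1 + A) ^ j * (1 - A) ^ (N - j)) -
        ((N.choose j : ℝ) / 2 ^ N) • ((1 + B) ^ j * (1 - B) ^ (N - j))‖ ≤
      ((N.choose j : ℝ) / 2 ^ N) * (N * 3 ^ N * ‖A - B‖) := by
    intro j hj
    have hj1 : j ≤ N := by
      have h := Finset.mem_range.1 (Finset.mem_filter.1 hj).1
      omega
    rw [← smul_sub, norm_smul, Real.norm_of_nonneg (by positivity)]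
    refine mul_le_mul_of_nonneg_left ?_ (by positivity)
    have h2 : (1 + A) ^ j * (1 - A) ^ (N - j) - (1 + B) ^ j * (1 - B) ^ (N - j) =
        (1 + A) ^ j * ((1 - A) ^ (N - j) - (1 - B) ^ (N - j)) +
          ((1 + A) ^ j - (1 + B) ^ j) * (1 - B) ^ (N - j) := by
      rw [mul_sub, sub_mul]
      abel
    have e1 : ‖(1 - A) - (1 - B)‖ = ‖A - B‖ := by
      rw [show (1 - A) - (1 - B) = -(A - B) by abel, norm_neg]
    have e2 : ‖(1 + A) - (1 + B)‖ = ‖A - B‖ := by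
      rw [show (1 + A) - (1 + B) = A - B by abel]
    have h3 := op_pow_sub a2 b2 (N - j)
    have h4 := op_pow_sub a1 b1 j
    rw [e1] at h3
    rw [e2] at h4
    have h5 := op_pow_norm a1 j
    have h6 := op_pow_norm b2 (N - j)
    rw [h2]
    refine (norm_add_le _ _).trans ?_
    have h7 : ‖(1 + A) ^ j * ((1 - A) ^ (N - j) - (1 - B) ^ (N - j))‖ ≤
        3 ^ j * (((N - j : ℕ) : ℝ) * 3 ^ (N - j) * ‖A - B‖) :=
      (norm_mul_le _ _).trans (mul_le_mul h5 h3 (norm_nonneg _) (by positivity))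
    have h8 : ‖((1 + A) ^ j - (1 + B) ^ j) * (1 - B) ^ (N - j)‖ ≤
        (j * 3 ^ j * ‖A - B‖) * 3 ^ (N - j) :=
      (norm_mul_le _ _).trans (mul_le_mul h4 h6 (norm_nonneg _) (by positivity))
    refine (add_le_add h7 h8).trans (le_of_eq ?_)
    have h9 : (3 : ℝ) ^ N = 3 ^ j * 3 ^ (N - j) := by
      rw [← pow_add]
      congr 1
      omega
    have h10 : ((N - j : ℕ) : ℝ) = (N : ℝ) - j := by
      rw [Nat.cast_sub hj1]
    rw [h9, h10]
    ring
  refine (norm_sum_le_of_le _ key).trans ?_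
  rw [← Finset.sum_mul]
  have h2 := choose_sum N
  have h3 : 0 ≤ (N : ℝ) * 3 ^ N * ‖A - B‖ := by positivity
  nlinarith

theorem bpol_mem_W (N : ℕ) {J : ℕ} {A : Op H} (hA : A ∈ W X J) :
    Polynomial.aeval A (bpol N) ∈ W X (N * J) := aeval_mem_W hA (bpol_deg N)

end Pool.H6.QL
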