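import Mathlib
import Pool.Agent.H6.QL.Bin

set_option autoImplicit false

/-!
# [H6 QL BFS] The scalar functions `bfn N τ t = bpol N (cay τ t)` and `gf`

For `t, τ > 0`: `cay τ t ∈ (-1, 1)`, `cay τ t⁻¹ = - cay τ⁻¹ t`, and `t ≥ (1 + d) τ` gives
`cay τ t ≥ d / (2 + d) ≥ d / 3`, `t ≤ τ / (1 + d)` gives `cay τ t ≤ - d / (2 + d) ≤ - d / 3`
(`0 < d ≤ 1`). So with `exp(-N d² / 18) ≤ η`: `bfn_hi`, `bfn_lo` (from `bpol_hi`, `bpol_lo` with
`d / 3`). `gf N a d t = bfn (a (1 + d)) t - bfn (a (1 + d))⁻¹ t` detects the gap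
`(a, 1/a)`. `a ≤ 1/4`, `d ≤ 1/10` below.
* `gf_abs_h`: `|gf t| ≤ |1 - bfn (a(1+d))⁻¹ t| + η`: if `t ≥ a(1+d)²`, the first function is in
  `[1-η, 1]`; if `t ≤ a(1+d)²`: then `t ≤ (a(1+d))⁻¹/(1+d)`, so the second function is `≤ η` and
  `|gf| ≤ 1 ≤ |1 - bfn| + η`. In short: `gf = (1 - h) - (1 - u)`, `0 ≤ u, h ≤ 1`, so
  `gf ≤ 1 - h`, and `gf ≥ -η` always (`gf_ge`: either `u ≥ 1 - η` or `h ≤ η`).
* `gf_abs_u`: `gf ≤ u`, `gf ≥ -η`.
* `gf_one`: `|bfn 1 t (bfn 1 t - 1)| ≤ |gf t| + 2η` and `|bfn 1 t - h t| ≤ |gf t| + 2η`,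
  `|bfn 1 t - u t| ≤ |gf t| + 2η`: for `t ≥ 1 + d`: `bfn 1 t ∈ [1-η,1]`, `u t ∈ [1-η,1]`; for
  `t ≤ 1/(1+d)`: `bfn 1 t ≤ η`, `h t ≤ η`; in between `u ≥ 1 - η`, `h ≤ η`, `gf ≥ 1 - 2η`
  (`a (1+d)³ ≤ 1` because `a ≤ 1/4`, `d ≤ 1/10`).
* `gf_inv`: `gf t⁻¹ = gf t`, from `bfn_inv`.
* `gf_leaf`: `a = lam⁻¹ ≤ 1/4`: `|gf lam| ≤ η`, `|gf lam⁻¹| ≤ η`: at `lam` both functions are
  `≥ 1 - η` (`lam = (1 + d) (a(1+d))⁻¹`), at `lam⁻¹` both are `≤ η`.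
-/

namespace Pool.H6.QL

/-- `bpol N` of the Cayley transform. -/
noncomputable def bfn (N : ℕ) (τ t : ℝ) : ℝ := (bpol N).eval (cay τ t)

/-- The gap function. -/
noncomputable def gf (N : ℕ) (a d t : ℝ) : ℝ :=
  bfn N (a * (1 + d)) t - bfn N (a * (1 + d))⁻¹ t

private theorem cay_mem {τ t : ℝ} (hτ : 0 < τ) (ht : 0 < t) : -1 ≤ cay τ t ∧ cay τ t ≤ 1 := by
  unfold cay
  have h : 0 < t + τ := by linarith
  rw [le_div_iff₀ h, div_le_iff₀ h]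
  constructor <;> linarith

theorem bfn_mem (N : ℕ) {τ t : ℝ} (hτ : 0 < τ) (ht : 0 < t) :
    0 ≤ bfn N τ t ∧ bfn N τ t ≤ 1 :=
  bpol_mem N (cay_mem hτ ht).1 (cay_mem hτ ht).2

theorem bfn_inv {N : ℕ} (hN : Odd N) {τ t : ℝ} (hτ : 0 < τ) (ht : 0 < t) :
    bfn N τ t⁻¹ = 1 - bfn N τ⁻¹ t := by
  unfold bfn
  have h : cay τ t⁻¹ = -cay τ⁻¹ t := by
    unfold cay
    have h1 : 0 < t⁻¹ + τ := by positivity
    have h2 : 0 < t + τ⁻¹ := by positivity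
    rw [← neg_div, div_eq_div_iff h1.ne' h2.ne']
    field_simp
    ring
  rw [h, bpol_neg hN]

theorem bfn_hi {N : ℕ} (hN : Odd N) {τ t d η : ℝ} (hτ : 0 < τ) (hd : 0 < d) (hd1 : d ≤ 1)
    (hη : Real.exp (-(N : ℝ) * d ^ 2 / 18) ≤ η) (h : (1 + d) * τ ≤ t) : 1 - η ≤ bfn N τ t := by
  have ht : 0 < t := lt_of_lt_of_le (by positivity) h
  have h1 : d / 3 ≤ cay τ t := by
    unfold cay
    have h2 : 0 < t + τ := by linarith
    rw [le_div_iff₀ h2]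
    nlinarith [mul_nonneg hτ.le (mul_nonneg hd.le (sub_nonneg.2 hd1)), mul_nonneg (sub_nonneg.2 h) hd.le]
  have h3 := bpol_hi hN (cay_mem hτ ht).2 (by positivity) h1
  have h4 : -(N : ℝ) * (d / 3) ^ 2 / 2 = -(N : ℝ) * d ^ 2 / 18 := by ring
  rw [h4] at h3
  unfold bfn
  linarith

theorem bfn_lo {N : ℕ} {τ t d η : ℝ} (hτ : 0 < τ) (ht : 0 < t) (hd : 0 < d) (hd1 : d ≤ 1)
    (hη : Real.exp (-(N : ℝ) * d ^ 2 / 18) ≤ η) (h : t * (1 + d) ≤ τ) : bfn N τ t ≤ η := by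
  have h1 : cay τ t ≤ -(d / 3) := by
    unfold cay
    have h2 : 0 < t + τ := by linarith
    rw [div_le_iff₀ h2]
    nlinarith [mul_nonneg ht.le (mul_nonneg hd.le (sub_nonneg.2 hd1)), mul_nonneg (sub_nonneg.2 h) hd.le]
  have h3 := bpol_lo N (cay_mem hτ ht).1 (by positivity) h1
  have h4 : -(N : ℝ) * (d / 3) ^ 2 / 2 = -(N : ℝ) * d ^ 2 / 18 := by ring
  rw [h4] at h3
  unfold bfn
  linarith

section

variable {N : ℕ} (hN : Odd N) {a d η t : ℝ} (ha : 0 < a) (ha1 : a ≤ 1 / 4) (hd : 0 < d)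
  (hd1 : d ≤ 1 / 10) (hη : Real.exp (-(N : ℝ) * d ^ 2 / 18) ≤ η) (ht : 0 < t)

include hN ha ha1 hd hd1 hη ht

omit hN ha1 hd1 hη in
private theorem uh_mem : (0 ≤ bfn N (a * (1 + d)) t ∧ bfn N (a * (1 + d)) t ≤ 1) ∧
    (0 ≤ bfn N (a * (1 + d))⁻¹ t ∧ bfn N (a * (1 + d))⁻¹ t ≤ 1) :=
  ⟨bfn_mem N (by positivity) ht, bfn_mem N (by positivity) ht⟩

private theorem gf_ge : -η ≤ gf N a d t := by
  obtain ⟨⟨u0, u1⟩, h0, h1⟩ := uh_mem (N := N) ha hd ht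
  unfold gf
  have hp : 0 < a * (1 + d) := by positivity
  rcases le_total ((1 + d) * (a * (1 + d))) t with hc | hc
  · have := bfn_hi hN hp hd (by linarith) hη hc
    linarith
  · have h2 : t * (1 + d) ≤ (a * (1 + d))⁻¹ := by
      rw [le_inv_comm₀ (by positivity) hp, ← one_div, le_div_iff₀ (by positivity)]
      have h3 : a * (1 + d) * (t * (1 + d)) ≤ a * (1 + d) * (((1 + d) * (a * (1 + d))) * (1 + d)) := by
        gcongr
      have h4 : a * (1 + d) * (((1 + d) * (a * (1 + d))) * (1 + d)) ≤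
          1 / 4 * (1 + 1 / 10) * (((1 + 1 / 10) * (1 / 4 * (1 + 1 / 10))) * (1 + 1 / 10)) := by
        gcongr
      refine (h3.trans h4).trans (by norm_num)
    have := bfn_lo (inv_pos.2 hp) ht hd (by linarith) hη h2
    linarith

private theorem gf_tri : (1 - η ≤ bfn N 1 t ∧ 1 - η ≤ bfn N (a * (1 + d)) t) ∨
    (bfn N 1 t ≤ η ∧ bfn N (a * (1 + d))⁻¹ t ≤ η) ∨
    (1 - η ≤ bfn N (a * (1 + d)) t ∧ bfn N (a * (1 + d))⁻¹ t ≤ η) := by
  have hp : 0 < a * (1 + d) := by positivity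
  have hdd : d ≤ 1 := by linarith
  have hb : a * (1 + d) * ((1 + d) * (1 + d)) ≤ 1 := by
    have h4 : a * (1 + d) * ((1 + d) * (1 + d)) ≤ 1 / 4 * (1 + 1 / 10) * ((1 + 1 / 10) * (1 + 1 / 10)) := by
      gcongr
    exact h4.trans (by norm_num)
  have hb1 : a * (1 + d) * (1 + d) ≤ 1 := by
    refine le_trans ?_ hb
    have h5 : a * (1 + d) * (1 + d) * 1 ≤ a * (1 + d) * (1 + d) * (1 + d) := by
      gcongr
      linarith
    linarith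
  rcases le_total (1 + d) t with hc | hc
  · left
    refine ⟨bfn_hi hN one_pos hd hdd hη (by linarith), bfn_hi hN hp hd hdd hη ?_⟩
    refine le_trans ?_ hc
    nlinarith
  · rcases le_total (t * (1 + d)) 1 with hc2 | hc2
    · right; left
      refine ⟨bfn_lo one_pos ht hd hdd hη hc2, bfn_lo (inv_pos.2 hp) ht hd hdd hη ?_⟩
      refine hc2.trans ?_
      rw [one_le_inv₀ hp]
      nlinarith
    · right; right
      refine ⟨bfn_hi hN hp hd hdd hη ?_, bfn_lo (inv_pos.2 hp) ht hd hdd hη ?_⟩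
      · have h6 : (1 + d) * (a * (1 + d)) * (1 + d) ≤ t * (1 + d) := by
          refine le_trans ?_ hc2
          linarith
        exact le_of_mul_le_mul_right h6 (by linarith)
      · rw [le_inv_comm₀ (by positivity) hp, ← one_div, le_div_iff₀ (by positivity)]
        have h7 : a * (1 + d) * (t * (1 + d)) ≤ a * (1 + d) * ((1 + d) * (1 + d)) := by
          gcongr
        exact h7.trans hb

omit hN ha ha1 hd hd1 ht in
private theorem eta_nonneg : 0 ≤ η := (Real.exp_pos _).le.trans hη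

theorem gf_abs_one : |gf N a d t| ≤ 1 := by
  obtain ⟨⟨u0, u1⟩, h0, h1⟩ := uh_mem (N := N) ha hd ht
  unfold gf
  rw [abs_le]
  constructor <;> linarith

theorem gf_abs_h : |gf N a d t| ≤ |1 - bfn N (a * (1 + d))⁻¹ t| + η := by
  obtain ⟨⟨u0, u1⟩, h0, h1⟩ := uh_mem (N := N) ha hd ht
  have hg := gf_ge hN ha ha1 hd hd1 hη ht
  have he := eta_nonneg hη
  rw [abs_of_nonneg (sub_nonneg.2 h1), abs_le]
  unfold gf at hg ⊢
  constructor <;> linarith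

theorem gf_abs_u : |gf N a d t| ≤ |bfn N (a * (1 + d)) t| + η := by
  obtain ⟨⟨u0, u1⟩, h0, h1⟩ := uh_mem (N := N) ha hd ht
  have hg := gf_ge hN ha ha1 hd hd1 hη ht
  have he := eta_nonneg hη
  rw [abs_of_nonneg u0, abs_le]
  unfold gf at hg ⊢
  constructor <;> linarith

theorem gf_idem : |bfn N 1 t * bfn N 1 t - bfn N 1 t| ≤ |gf N a d t| + 2 * η := by
  obtain ⟨⟨u0, u1⟩, h0, h1⟩ := uh_mem (N := N) ha hd ht
  obtain ⟨b0, b1⟩ := bfn_mem N one_pos ht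
  have he := eta_nonneg hη
  have hgl := le_abs_self (gf N a d t)
  have hgn := abs_nonneg (gf N a d t)
  rw [abs_le]
  rcases gf_tri hN ha ha1 hd hd1 hη ht with ⟨k1, k2⟩ | ⟨k1, k2⟩ | ⟨k1, k2⟩
  · constructor <;> nlinarith
  · constructor <;> nlinarith
  · unfold gf at hgl hgn ⊢
    constructor <;> nlinarith

theorem gf_one_h : |bfn N 1 t - bfn N (a * (1 + d))⁻¹ t| ≤ |gf N a d t| + 2 * η := by
  obtain ⟨⟨u0, u1⟩, h0, h1⟩ := uh_mem (N := N) ha hd ht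
  obtain ⟨b0, b1⟩ := bfn_mem N one_pos ht
  have he := eta_nonneg hη
  have hgl := le_abs_self (gf N a d t)
  have hgn := abs_nonneg (gf N a d t)
  rw [abs_le]
  rcases gf_tri hN ha ha1 hd hd1 hη ht with ⟨k1, k2⟩ | ⟨k1, k2⟩ | ⟨k1, k2⟩ <;> unfold gf at hgl hgn ⊢ <;>
    constructor <;> linarith

theorem gf_one_u : |bfn N 1 t - bfn N (a * (1 + d)) t| ≤ |gf N a d t| + 2 * η := by
  obtain ⟨⟨u0, u1⟩, h0, h1⟩ := uh_mem (N := N) ha hd ht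
  obtain ⟨b0, b1⟩ := bfn_mem N one_pos ht
  have he := eta_nonneg hη
  have hgl := le_abs_self (gf N a d t)
  have hgn := abs_nonneg (gf N a d t)
  rw [abs_le]
  rcases gf_tri hN ha ha1 hd hd1 hη ht with ⟨k1, k2⟩ | ⟨k1, k2⟩ | ⟨k1, k2⟩ <;> unfold gf at hgl hgn ⊢ <;>
    constructor <;> linarith

theorem gf_inv : gf N a d t⁻¹ = gf N a d t := by
  have hp : 0 < a * (1 + d) := by positivity
  unfold gf
  rw [bfn_inv hN hp ht, bfn_inv hN (inv_pos.2 hp) ht, inv_inv]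
  ring

end

theorem gf_leaf {N : ℕ} (hN : Odd N) {lam d η : ℝ} (hl : 4 ≤ lam) (hd : 0 < d)
    (hd1 : d ≤ 1 / 10) (hη : Real.exp (-(N : ℝ) * d ^ 2 / 18) ≤ η) :
    |gf N lam⁻¹ d lam| ≤ η ∧ |gf N lam⁻¹ d lam⁻¹| ≤ η := by
  have hl0 : 0 < lam := by linarith
  have ha : 0 < lam⁻¹ := inv_pos.2 hl0
  have ha1 : lam⁻¹ ≤ 1 / 4 := by
    rw [inv_le_comm₀ hl0 (by norm_num)]
    linarith
  have hp : 0 < lam⁻¹ * (1 + d) := by positivity
  have key : |gf N lam⁻¹ d lam| ≤ η := by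
    obtain ⟨⟨u0, u1⟩, h0, h1⟩ := uh_mem (N := N) ha hd hl0
    have k1 : 1 - η ≤ bfn N (lam⁻¹ * (1 + d)) lam := by
      refine bfn_hi hN hp hd (by linarith) hη ?_
      have h2 : (1 + d) * (lam⁻¹ * (1 + d)) ≤ (1 + 1 / 10) * (1 / 4 * (1 + 1 / 10)) := by gcongr
      refine h2.trans ?_
      linarith
    have k2 : 1 - η ≤ bfn N (lam⁻¹ * (1 + d))⁻¹ lam := by
      refine bfn_hi hN (inv_pos.2 hp) hd (by linarith) hη (le_of_eq ?_)
      rw [mul_inv, inv_inv]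
      have h3 : (1 + d) ≠ 0 := by positivity
      field_simp
    unfold gf
    rw [abs_le]
    constructor <;> linarith
  refine ⟨key, ?_⟩
  rw [gf_inv hN ha ha1 hd hd1 hη hl0]
  exact key

end Pool.H6.QL
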