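import Mathlib
import Pool.Agent.H6.QL.Defs

set_option autoImplicit false

/-!
# [H6 QL SPC] Functions of a symmetric operator

`fc_rep`: the basis chosen in the definition of `fc`. `HasEig A` holds for symmetric `A` in finite
dimension: `LinearMap.IsSymmetric.eigenvectorBasis` (take `m = finrank ℝ H`, reindex if necessary;
`A` is symmetric: `Pos.sym`). Then `fc A f v = ∑ i, (f (t i) * ⟨e i, v⟩) • e i` by unfolding
(`dif_pos`), and `lo ≤ t i ≤ hi` by `Pos.lo`, `Pos.hi` for `u = e i` (norm 1).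
All other lemmas follow from `fc_rep` by comparing coefficients in the basis `e`:
`⟨e j, fc A f v⟩ = f (t j) ⟨e j, v⟩`, `‖v‖ ^ 2 = ∑ ⟨e i, v⟩ ^ 2`
(`OrthonormalBasis.sum_sq_norm_inner_right` or `e.repr`, a linear isometry onto `EuclideanSpace`).
`fc_cmp`: Minkowski: `|f| ≤ |g| + M` on the `t i`, so `‖fc f v‖ ≤ ‖ (|g| + M) v‖ ≤ ‖fc g v‖ + M ‖v‖`
(norm of the vector with coefficients `(|g (t i)| + M) |⟨e i, v⟩|`).
`fc_comp`: `fc` does not depend on the eigenbasis: for every `f` and finitely many points there is a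
polynomial `P` (`Lagrange.interpolate`) with `P = f` at these points, and
`fc B f = Polynomial.aeval B P` if `P = f` on the eigenvalues of `B` (use `fc_id`, `fc_mul`, `fc_add`,
`fc_const`: induction on `P`, this is `fc_aeval`). Apply this to `B = fc A g` with a `P` that agrees
with `f` on the eigenvalues of `B` and on the `g (t i)`.
`pos_inv`: `Ring.inverse A = fc A (·⁻¹)` because `A * fc A (·⁻¹) = fc A 1 = 1` on both sides
(`Ring.inverse_eq`? or `Ring.inverse_mul_cancel` with `IsUnit A` from the two-sided inverse).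
-/

namespace Pool.H6.QL

variable {H : Type} [NormedAddCommGroup H] [InnerProductSpace ℝ H] [FiniteDimensional ℝ H]

theorem hasEig {A : Op H} {lo hi : ℝ} (hA : Pos A lo hi) : HasEig A := by
  have hT : (A : H →ₗ[ℝ] H).IsSymmetric := fun u v => hA.sym u v
  refine ⟨Module.finrank ℝ H, hT.eigenvectorBasis rfl, hT.eigenvalues rfl, fun i => ?_⟩
  exact hT.apply_eigenvectorBasis rfl i

theorem fc_rep {A : Op H} {lo hi : ℝ} (hA : Pos A lo hi) :
    ∃ (m : ℕ) (e : OrthonormalBasis (Fin m) ℝ H) (t : Fin m → ℝ),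
      (∀ i, A (e i) = t i • e i) ∧ (∀ i, lo ≤ t i ∧ t i ≤ hi) ∧
      ∀ (f : ℝ → ℝ) (v : H), fc A f v = ∑ i, (f (t i) * inner ℝ (e i) v) • e i := by
  classical
  have h := hasEig hA
  refine ⟨h.choose, h.choose_spec.choose, h.choose_spec.choose_spec.choose,
    h.choose_spec.choose_spec.choose_spec, ?_, ?_⟩
  · intro i
    have h1 := h.choose_spec.choose_spec.choose_spec i
    have h2 : ‖h.choose_spec.choose i‖ = 1 := h.choose_spec.choose.orthonormal.1 i
    have h3 := hA.lo (h.choose_spec.choose i)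
    have h4 := hA.hi (h.choose_spec.choose i)
    rw [h1, real_inner_smul_left, real_inner_self_eq_norm_sq, h2, one_pow, mul_one, mul_one] at h3 h4
    exact ⟨h3, h4⟩
  · intro f v
    unfold fc
    rw [dif_pos h, ContinuousLinearMap.sum_apply]
    refine Finset.sum_congr rfl fun i _ => ?_
    rw [smul_apply, ContinuousLinearMap.smulRight_apply, innerSL_apply_apply, smul_smul]

private theorem rep_inner {m : ℕ} (e : OrthonormalBasis (Fin m) ℝ H) (c : Fin m → ℝ) (j : Fin m) :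
    inner ℝ (e j) (∑ i, c i • e i) = c j := by
  classical
  rw [inner_sum, Finset.sum_eq_single j]
  · rw [real_inner_smul_right, real_inner_self_eq_norm_sq, e.orthonormal.1 j, one_pow, mul_one]
  · intro i _ hi
    rw [real_inner_smul_right, e.orthonormal.2 (Ne.symm hi), mul_zero]
  · intro h
    exact absurd (Finset.mem_univ _) h

private theorem rep_self {m : ℕ} (e : OrthonormalBasis (Fin m) ℝ H) (v : H) :
    ∑ i, inner ℝ (e i) v • e i = v := e.sum_repr' v

private theorem rep_inner2 {m : ℕ} (e : OrthonormalBasis (Fin m) ℝ H) (c : Fin m → ℝ) (v : H) :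
    inner ℝ (∑ i, c i • e i) v = ∑ i, c i * inner ℝ (e i) v := by
  rw [sum_inner]
  refine Finset.sum_congr rfl fun i _ => ?_
  rw [real_inner_smul_left]

private theorem rep_norm {m : ℕ} (e : OrthonormalBasis (Fin m) ℝ H) (c : Fin m → ℝ) :
    ‖∑ i, c i • e i‖ ^ 2 = ∑ i, c i ^ 2 := by
  rw [← real_inner_self_eq_norm_sq, rep_inner2]
  refine Finset.sum_congr rfl fun i _ => ?_
  rw [rep_inner, sq]

theorem fc_id {A : Op H} {lo hi : ℝ} (hA : Pos A lo hi) : fc A (fun t => t) = A := by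
  obtain ⟨m, e, t, h1, h2, h3⟩ := fc_rep hA
  refine ContinuousLinearMap.ext fun v => ?_
  rw [h3]
  conv_rhs => rw [← rep_self e v, map_sum]
  refine Finset.sum_congr rfl fun i _ => ?_
  rw [map_smul, h1, smul_smul, mul_comm]

theorem fc_const {A : Op H} {lo hi : ℝ} (hA : Pos A lo hi) (c : ℝ) :
    fc A (fun _ => c) = c • (1 : Op H) := by
  obtain ⟨m, e, t, h1, h2, h3⟩ := fc_rep hA
  refine ContinuousLinearMap.ext fun v => ?_
  rw [h3]
  show _ = c • v
  conv_rhs => rw [← rep_self e v, Finset.smul_sum]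
  refine Finset.sum_congr rfl fun i _ => ?_
  rw [smul_smul]

theorem fc_mul {A : Op H} {lo hi : ℝ} (hA : Pos A lo hi) (f g : ℝ → ℝ) :
    fc A f * fc A g = fc A (fun t => f t * g t) := by
  obtain ⟨m, e, t, h1, h2, h3⟩ := fc_rep hA
  refine ContinuousLinearMap.ext fun v => ?_
  show fc A f (fc A g v) = _
  rw [h3, h3, h3]
  refine Finset.sum_congr rfl fun i _ => ?_
  rw [rep_inner, mul_assoc]

theorem fc_add {A : Op H} {lo hi : ℝ} (hA : Pos A lo hi) (f g : ℝ → ℝ) :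
    fc A f + fc A g = fc A (fun t => f t + g t) := by
  obtain ⟨m, e, t, h1, h2, h3⟩ := fc_rep hA
  refine ContinuousLinearMap.ext fun v => ?_
  rw [add_apply, h3, h3, h3, ← Finset.sum_add_distrib]
  refine Finset.sum_congr rfl fun i _ => ?_
  rw [← add_smul, add_mul]

theorem fc_smul {A : Op H} {lo hi : ℝ} (hA : Pos A lo hi) (c : ℝ) (f : ℝ → ℝ) :
    c • fc A f = fc A (fun t => c * f t) := by
  obtain ⟨m, e, t, h1, h2, h3⟩ := fc_rep hA
  refine ContinuousLinearMap.ext fun v => ?_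
  rw [smul_apply, h3, h3, Finset.smul_sum]
  refine Finset.sum_congr rfl fun i _ => ?_
  rw [smul_smul, mul_assoc]

theorem fc_sub {A : Op H} {lo hi : ℝ} (hA : Pos A lo hi) (f g : ℝ → ℝ) :
    fc A f - fc A g = fc A (fun t => f t - g t) := by
  have h1 : fc A f - fc A g = fc A f + (-1 : ℝ) • fc A g := by
    rw [neg_one_smul, sub_eq_add_neg]
  rw [h1, fc_smul hA, fc_add hA]
  congr 1
  funext t
  ring

theorem fc_sym {A : Op H} {lo hi : ℝ} (hA : Pos A lo hi) (f : ℝ → ℝ) (u v : H) :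
    inner ℝ (fc A f u) v = inner ℝ u (fc A f v) := by
  obtain ⟨m, e, t, h1, h2, h3⟩ := fc_rep hA
  rw [real_inner_comm (fc A f v) u, h3, h3, rep_inner2, rep_inner2]
  refine Finset.sum_congr rfl fun i _ => ?_
  ring

theorem fc_congr {A : Op H} {lo hi : ℝ} (hA : Pos A lo hi) {f g : ℝ → ℝ}
    (h : ∀ t, lo ≤ t → t ≤ hi → f t = g t) : fc A f = fc A g := by
  obtain ⟨m, e, t, h1, h2, h3⟩ := fc_rep hA
  refine ContinuousLinearMap.ext fun v => ?_
  rw [h3, h3]
  refine Finset.sum_congr rfl fun i _ => ?_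
  rw [h (t i) (h2 i).1 (h2 i).2]

private theorem sq_le {m : ℕ} (e : OrthonormalBasis (Fin m) ℝ H) {c d : Fin m → ℝ}
    (h : ∀ i, |c i| ≤ d i) : ‖∑ i, c i • e i‖ ≤ ‖∑ i, d i • e i‖ := by
  have h1 : ‖∑ i, c i • e i‖ ^ 2 ≤ ‖∑ i, d i • e i‖ ^ 2 := by
    rw [rep_norm, rep_norm]
    refine Finset.sum_le_sum fun i _ => ?_
    exact sq_le_sq.2 ((h i).trans (le_abs_self _))
  exact (sq_le_sq₀ (norm_nonneg _) (norm_nonneg _)).1 h1

private theorem abs_norm {m : ℕ} (e : OrthonormalBasis (Fin m) ℝ H) (c : Fin m → ℝ) :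
    ‖∑ i, |c i| • e i‖ = ‖∑ i, c i • e i‖ := by
  have h1 : ‖∑ i, |c i| • e i‖ ^ 2 = ‖∑ i, c i • e i‖ ^ 2 := by
    rw [rep_norm, rep_norm]
    exact Finset.sum_congr rfl fun i _ => sq_abs _
  exact (pow_left_inj₀ (norm_nonneg _) (norm_nonneg _) two_ne_zero).1 h1

theorem fc_cmp {A : Op H} {lo hi : ℝ} (hA : Pos A lo hi) {f g : ℝ → ℝ} {M : ℝ} (hM : 0 ≤ M)
    (h : ∀ t, lo ≤ t → t ≤ hi → |f t| ≤ |g t| + M) (v : H) :
    ‖fc A f v‖ ≤ ‖fc A g v‖ + M * ‖v‖ := by
  obtain ⟨m, e, t, h1, h2, h3⟩ := fc_rep hA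
  have h4 : ‖fc A f v‖ ≤ ‖∑ i, (|g (t i) * inner ℝ (e i) v| + M * |inner ℝ (e i) v|) • e i‖ := by
    rw [h3]
    refine sq_le e fun i => ?_
    rw [abs_mul, abs_mul, ← add_mul]
    exact mul_le_mul_of_nonneg_right (h _ (h2 i).1 (h2 i).2) (abs_nonneg _)
  have h5 : ∑ i, (|g (t i) * inner ℝ (e i) v| + M * |inner ℝ (e i) v|) • e i =
      ∑ i, |g (t i) * inner ℝ (e i) v| • e i + M • ∑ i, |inner ℝ (e i) v| • e i := by
    rw [Finset.smul_sum, ← Finset.sum_add_distrib]
    refine Finset.sum_congr rfl fun i _ => ?_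
    rw [add_smul, smul_smul]
  rw [h5] at h4
  refine h4.trans ((norm_add_le _ _).trans ?_)
  rw [norm_smul, abs_norm, abs_norm, rep_self, Real.norm_of_nonneg hM, ← h3]

theorem fc_norm {A : Op H} {lo hi : ℝ} (hA : Pos A lo hi) {f : ℝ → ℝ} {M : ℝ} (hM : 0 ≤ M)
    (h : ∀ t, lo ≤ t → t ≤ hi → |f t| ≤ M) (v : H) : ‖fc A f v‖ ≤ M * ‖v‖ := by
  have h1 := fc_cmp hA (f := f) (g := fun _ => 0) hM (fun t h1 h2 => by
    rw [abs_zero, zero_add]
    exact h t h1 h2) v
  rw [fc_const hA, zero_smul, zero_apply, norm_zero, zero_add] at h1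
  exact h1

theorem fc_inner_le {A : Op H} {lo hi : ℝ} (hA : Pos A lo hi) {f g : ℝ → ℝ}
    (h : ∀ t, lo ≤ t → t ≤ hi → f t ≤ g t) (v : H) :
    inner ℝ (fc A f v) v ≤ inner ℝ (fc A g v) v := by
  obtain ⟨m, e, t, h1, h2, h3⟩ := fc_rep hA
  rw [h3, h3, rep_inner2, rep_inner2]
  refine Finset.sum_le_sum fun i _ => ?_
  rw [mul_assoc, mul_assoc]
  exact mul_le_mul_of_nonneg_right (h _ (h2 i).1 (h2 i).2) (mul_self_nonneg _)

/-- Polynomials of functions of `A`. -/
theorem fc_aeval {A : Op H} {lo hi : ℝ} (hA : Pos A lo hi) (g : ℝ → ℝ) (P : Polynomial ℝ) :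
    Polynomial.aeval (fc A g) P = fc A (fun t => P.eval (g t)) := by
  induction P using Polynomial.induction_on with
  | C a =>
    rw [Polynomial.aeval_C, Algebra.algebraMap_eq_smul_one]
    simp only [Polynomial.eval_C]
    rw [fc_const hA]
  | add p q hp hq =>
    rw [map_add, hp, hq, fc_add hA]
    simp only [Polynomial.eval_add]
  | monomial n a ih =>
    rw [pow_succ, ← mul_assoc, map_mul, ih, Polynomial.aeval_X, fc_mul hA]
    simp only [Polynomial.eval_mul, Polynomial.eval_X, Polynomial.eval_C, Polynomial.eval_pow]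

/-- Composition. -/
theorem fc_comp {A : Op H} {lo hi lo' hi' : ℝ} (hA : Pos A lo hi) (g f : ℝ → ℝ)
    (hg : Pos (fc A g) lo' hi') : fc (fc A g) f = fc A (fun t => f (g t)) := by
  classical
  obtain ⟨m, e, t, h1, h2, h3⟩ := fc_rep hA
  obtain ⟨m', e', t', h1', h2', h3'⟩ := fc_rep hg
  obtain ⟨S, hS⟩ : ∃ S : Finset ℝ, S = Finset.univ.image (fun i => g (t i)) ∪ Finset.univ.image t' :=
    ⟨_, rfl⟩
  obtain ⟨P, hP⟩ : ∃ P : Polynomial ℝ, ∀ s ∈ S, P.eval s = f s :=
    ⟨Lagrange.interpolate S id f, fun s hs => Lagrange.eval_interpolate_at_node f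
      (Function.injective_id.injOn) hs⟩
  have e1 : fc (fc A g) f = fc (fc A g) (fun t => P.eval t) := by
    refine ContinuousLinearMap.ext fun v => ?_
    rw [h3', h3']
    refine Finset.sum_congr rfl fun i _ => ?_
    rw [hP (t' i) (by
      rw [hS]
      exact Finset.mem_union_right _ (Finset.mem_image_of_mem _ (Finset.mem_univ _)))]
  have e2 := fc_aeval hg (fun t => t) P
  rw [fc_id hg, fc_aeval hA] at e2
  rw [e1, ← e2]
  refine ContinuousLinearMap.ext fun v => ?_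
  rw [h3, h3]
  refine Finset.sum_congr rfl fun i _ => ?_
  rw [hP (g (t i)) (by
    rw [hS]
    exact Finset.mem_union_left _ (Finset.mem_image_of_mem (fun i => g (t i)) (Finset.mem_univ _)))]

private theorem inner_const {A : Op H} {lo hi : ℝ} (hA : Pos A lo hi) (c : ℝ) (u : H) :
    inner ℝ (fc A (fun _ => c) u) u = c * ‖u‖ ^ 2 := by
  rw [fc_const hA, smul_apply, real_inner_smul_left, ← real_inner_self_eq_norm_sq]
  rfl

theorem pos_fc {A : Op H} {lo hi lo' hi' : ℝ} (hA : Pos A lo hi) {g : ℝ → ℝ}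
    (h : ∀ t, lo ≤ t → t ≤ hi → lo' ≤ g t ∧ g t ≤ hi') : Pos (fc A g) lo' hi' := by
  refine ⟨fc_sym hA g, fun u => ?_, fun u => ?_⟩
  · rw [← inner_const hA]
    exact fc_inner_le hA (fun t h1 h2 => (h t h1 h2).1) u
  · rw [← inner_const hA]
    exact fc_inner_le hA (fun t h1 h2 => (h t h1 h2).2) u

theorem inv_fc {A : Op H} {lo hi : ℝ} (hA : Pos A lo hi) (hlo : 0 < lo) :
    Ring.inverse A = fc A (fun t => t⁻¹) ∧ A * Ring.inverse A = 1 ∧ Ring.inverse A * A = 1 := by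
  have h1 : A * fc A (fun t => t⁻¹) = 1 := by
    have h2 : fc A (fun t => t) * fc A (fun t => t⁻¹) = 1 := by
      rw [fc_mul hA, fc_congr hA (g := fun _ => 1) (fun t h3 _ => mul_inv_cancel₀ (by linarith : t ≠ 0)),
        fc_const hA, one_smul]
    rwa [fc_id hA] at h2
  have h1' : fc A (fun t => t⁻¹) * A = 1 := by
    have h2 : fc A (fun t => t⁻¹) * fc A (fun t => t) = 1 := by
      rw [fc_mul hA, fc_congr hA (g := fun _ => 1) (fun t h3 _ => inv_mul_cancel₀ (by linarith : t ≠ 0)),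
        fc_const hA, one_smul]
    rwa [fc_id hA] at h2
  have h2 : Ring.inverse A = fc A (fun t => t⁻¹) := by
    have h3 : Ring.inverse ((⟨A, fc A (fun t => t⁻¹), h1, h1'⟩ : (Op H)ˣ) : Op H) = _ :=
      Ring.inverse_unit _
    exact h3
  rw [h2]
  exact ⟨rfl, h1, h1'⟩

theorem pos_inv {A : Op H} {lo hi : ℝ} (hA : Pos A lo hi) (hlo : 0 < lo) (hle : lo ≤ hi) :
    Pos (Ring.inverse A) hi⁻¹ lo⁻¹ := by
  rw [(inv_fc hA hlo).1]
  refine pos_fc hA fun t h1 h2 => ⟨?_, ?_⟩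
  · exact inv_anti₀ (by linarith) h2
  · exact inv_anti₀ hlo h1

end Pool.H6.QL
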