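import Mathlib
import Pool.Agent.H6.QL.Spc
import Pool.Agent.H6.QL.Wrd

set_option autoImplicit false

/-!
# [H6 QL POC] The operators `c(F)` are positive

`wt_pos`, `wt_ge`: by induction (`(1 + del) ^ 3 ≥ 1`, `sqrt (a² + b²) ≥ a`).
`cop_pos`, by induction on `F`, `a = wt F`, `lo = (lam² a)⁻¹`, `hi = lam² a`:
* `var`: `⟨c u, u⟩ = (lam + lam⁻¹)/2 ‖u‖² + (lam - lam⁻¹)/2 ⟨X u, u⟩`, `|⟨X u, u⟩| ≤ ‖u‖²` (`X_norm`,
  Cauchy-Schwarz), `lam - lam⁻¹ ≥ 0`: between `lam⁻¹ ‖u‖²` and `lam ‖u‖²`; here `lam² a = lam`.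
* `neg`: `pos_inv` (`lo ≤ hi` because `lam² a ≥ lam ≥ 1`).
* `or`: `r = sqrt (a² + b²)`, `κ = a / r`, `κ' = b / r`. Upper bound
  `κ lam² a + κ' lam² b = lam² r ≤ lam² (1 + del)³ r`. Lower bound
  `κ / (lam² a) + κ' / (lam² b) = 2 / (lam² r) ≥ 1 / (lam² (1 + del)³ r)`.
-/

namespace Pool.H6.QL

variable {H : Type} [NormedAddCommGroup H] [InnerProductSpace ℝ H] [FiniteDimensional ℝ H]
variable {ι : Type} {X : ι → Op H}

private theorem poc_sqrt_le {a b : ℝ} (_ha : 0 ≤ a) : a ≤ Real.sqrt (a ^ 2 + b ^ 2) :=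
  Real.le_sqrt_of_sq_le (by nlinarith [sq_nonneg b])

private theorem poc_one_le {del : ℝ} (hdel : 0 ≤ del) : 1 ≤ (1 + del) ^ 3 :=
  one_le_pow₀ (by linarith)

theorem wt_ge {lam del : ℝ} (hlam : 1 ≤ lam) (hdel : 0 ≤ del) (F : Bf ι) :
    lam⁻¹ ≤ wt lam del F := by
  have hl : 0 < lam⁻¹ := inv_pos.2 (by linarith)
  induction F with
  | var i => exact le_rfl
  | neg F ih => exact ih
  | or F G ihF ihG =>
    have h1 := poc_sqrt_le (b := wt lam del G) (hl.le.trans ihF)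
    have h2 := poc_one_le hdel
    have h3 : 0 ≤ Real.sqrt (wt lam del F ^ 2 + wt lam del G ^ 2) := Real.sqrt_nonneg _
    calc lam⁻¹ ≤ Real.sqrt (wt lam del F ^ 2 + wt lam del G ^ 2) := ihF.trans h1
      _ ≤ (1 + del) ^ 3 * Real.sqrt (wt lam del F ^ 2 + wt lam del G ^ 2) := by nlinarith

theorem wt_pos {lam del : ℝ} (hlam : 1 ≤ lam) (hdel : 0 ≤ del) (F : Bf ι) :
    0 < wt lam del F :=
  lt_of_lt_of_le (inv_pos.2 (by linarith)) (wt_ge hlam hdel F)

theorem wt_or_left {lam del : ℝ} (hlam : 1 ≤ lam) (hdel : 0 ≤ del) (F G : Bf ι) :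
    wt lam del F ≤ wt lam del (F.or G) := by
  have h1 := poc_sqrt_le (b := wt lam del G) (wt_pos hlam hdel F).le
  have h2 := poc_one_le hdel
  have h3 : 0 ≤ Real.sqrt (wt lam del F ^ 2 + wt lam del G ^ 2) := Real.sqrt_nonneg _
  calc wt lam del F ≤ Real.sqrt (wt lam del F ^ 2 + wt lam del G ^ 2) := h1
    _ ≤ (1 + del) ^ 3 * Real.sqrt (wt lam del F ^ 2 + wt lam del G ^ 2) := by nlinarith

theorem wt_or_right {lam del : ℝ} (hlam : 1 ≤ lam) (hdel : 0 ≤ del) (F G : Bf ι) :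
    wt lam del G ≤ wt lam del (F.or G) := by
  have h1 := poc_sqrt_le (b := wt lam del F) (wt_pos hlam hdel G).le
  have h2 := poc_one_le hdel
  have h3 : 0 ≤ Real.sqrt (wt lam del F ^ 2 + wt lam del G ^ 2) := Real.sqrt_nonneg _
  have h4 : wt lam del G ^ 2 + wt lam del F ^ 2 = wt lam del F ^ 2 + wt lam del G ^ 2 := add_comm _ _
  rw [h4] at h1
  calc wt lam del G ≤ Real.sqrt (wt lam del F ^ 2 + wt lam del G ^ 2) := h1
    _ ≤ (1 + del) ^ 3 * Real.sqrt (wt lam del F ^ 2 + wt lam del G ^ 2) := by nlinarith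

/-- `a(F) ≤ (1 + del) ^ (3 dp F) sqrt (sz F) / lam`. -/
theorem wt_le {lam del : ℝ} (hlam : 1 ≤ lam) (hdel : 0 ≤ del) (F : Bf ι) :
    wt lam del F ≤ (1 + del) ^ (3 * F.dp) * Real.sqrt F.sz / lam := by
  have hl : 0 < lam := by linarith
  have h1d : 1 ≤ 1 + del := by linarith
  induction F with
  | var i =>
    change lam⁻¹ ≤ (1 + del) ^ (3 * 0) * Real.sqrt ((1 : ℕ) : ℝ) / lam
    rw [Nat.cast_one, Real.sqrt_one, mul_zero, pow_zero, one_mul, one_div]
  | neg F ih => exact ih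
  | or F G ihF ihG =>
    have hF := (wt_pos hlam hdel F).le
    have hG := (wt_pos hlam hdel G).le
    obtain ⟨m, hm⟩ : ∃ m, m = max F.dp G.dp := ⟨_, rfl⟩
    have hpow : ∀ k, k ≤ m → (1 + del) ^ (3 * k) ≤ (1 + del) ^ (3 * m) := fun k hk =>
      pow_le_pow_right₀ h1d (by omega)
    obtain ⟨c, hc⟩ : ∃ c, c = (1 + del) ^ (3 * m) := ⟨_, rfl⟩
    have hc0 : 0 ≤ c := by rw [hc]; positivity
    have e1 : wt lam del F ≤ c * Real.sqrt F.sz / lam := by
      refine ihF.trans ?_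
      rw [hc]
      have := hpow F.dp (by omega)
      gcongr
    have e2 : wt lam del G ≤ c * Real.sqrt G.sz / lam := by
      refine ihG.trans ?_
      rw [hc]
      have := hpow G.dp (by omega)
      gcongr
    have s1 : wt lam del F ^ 2 ≤ (c / lam) ^ 2 * F.sz := by
      have h2 := pow_le_pow_left₀ hF e1 2
      have h3 : (c * Real.sqrt F.sz / lam) ^ 2 = (c / lam) ^ 2 * F.sz := by
        rw [div_pow, mul_pow, Real.sq_sqrt (Nat.cast_nonneg _), div_pow]
        ring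
      rw [h3] at h2
      exact h2
    have s2 : wt lam del G ^ 2 ≤ (c / lam) ^ 2 * G.sz := by
      have h2 := pow_le_pow_left₀ hG e2 2
      have h3 : (c * Real.sqrt G.sz / lam) ^ 2 = (c / lam) ^ 2 * G.sz := by
        rw [div_pow, mul_pow, Real.sq_sqrt (Nat.cast_nonneg _), div_pow]
        ring
      rw [h3] at h2
      exact h2
    have s3 : Real.sqrt (wt lam del F ^ 2 + wt lam del G ^ 2) ≤
        c / lam * Real.sqrt ((F.sz + G.sz : ℕ) : ℝ) := by
      have h2 : wt lam del F ^ 2 + wt lam del G ^ 2 ≤ (c / lam) ^ 2 * ((F.sz + G.sz : ℕ) : ℝ) := by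
        push_cast
        linarith
      have h3 := Real.sqrt_le_sqrt h2
      rw [Real.sqrt_mul (by positivity), Real.sqrt_sq (by positivity)] at h3
      exact h3
    change (1 + del) ^ 3 * Real.sqrt (wt lam del F ^ 2 + wt lam del G ^ 2) ≤
      (1 + del) ^ (3 * (max F.dp G.dp + 1)) * Real.sqrt ((F.sz + G.sz : ℕ) : ℝ) / lam
    calc (1 + del) ^ 3 * Real.sqrt (wt lam del F ^ 2 + wt lam del G ^ 2)
        ≤ (1 + del) ^ 3 * (c / lam * Real.sqrt ((F.sz + G.sz : ℕ) : ℝ)) := by gcongr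
      _ = (1 + del) ^ (3 * (max F.dp G.dp + 1)) * Real.sqrt ((F.sz + G.sz : ℕ) : ℝ) / lam := by
          rw [hc, hm, mul_add, pow_add]
          ring

theorem cop_pos {lam del : ℝ} (hlam : 1 ≤ lam) (hdel : 0 ≤ del) (hsq : ∀ i, X i * X i = 1)
    (hsym : ∀ i u v, inner ℝ (X i u) v = inner ℝ u (X i v)) (F : Bf ι) :
    Pos (cop lam del X F) (lam ^ 2 * wt lam del F)⁻¹ (lam ^ 2 * wt lam del F) := by
  have hl : 0 < lam := by linarith
  have hli : lam⁻¹ ≤ lam := (inv_le_one_of_one_le₀ hlam).trans hlam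
  induction F with
  | var i =>
    have h0 : lam ^ 2 * wt lam del (Bf.var i : Bf ι) = lam := by
      change lam ^ 2 * lam⁻¹ = lam
      field_simp
    rw [h0]
    have hin : ∀ u, |inner ℝ (X i u) u| ≤ ‖u‖ ^ 2 := by
      intro u
      have h1 := abs_real_inner_le_norm (X i u) u
      rw [X_norm hsq hsym i u] at h1
      rw [sq]
      exact h1
    have hval : ∀ u, inner ℝ (cop lam del X (Bf.var i) u) u =
        (lam + lam⁻¹) / 2 * ‖u‖ ^ 2 + (lam - lam⁻¹) / 2 * inner ℝ (X i u) u := by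
      intro u
      have h1 : cop lam del X (Bf.var i) u =
          ((lam + lam⁻¹) / 2) • u + ((lam - lam⁻¹) / 2) • X i u := rfl
      rw [h1, inner_add_left, real_inner_smul_left, real_inner_smul_left,
        real_inner_self_eq_norm_sq]
    refine ⟨?_, ?_, ?_⟩
    · intro u v
      change inner ℝ (((lam + lam⁻¹) / 2) • u + ((lam - lam⁻¹) / 2) • X i u) v =
        inner ℝ u (((lam + lam⁻¹) / 2) • v + ((lam - lam⁻¹) / 2) • X i v)
      rw [inner_add_left, inner_add_right, real_inner_smul_left, real_inner_smul_left,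
        real_inner_smul_right, real_inner_smul_right, hsym]
    · intro u
      rw [hval]
      have h1 := (abs_le.1 (hin u)).1
      nlinarith [h1, hli]
    · intro u
      rw [hval]
      have h1 := (abs_le.1 (hin u)).2
      nlinarith [h1, hli]
  | neg F ih =>
    have ha := wt_pos hlam hdel F
    have hge := wt_ge hlam hdel F
    have h1 : 1 ≤ lam ^ 2 * wt lam del F := by
      have h2 : lam ^ 2 * lam⁻¹ ≤ lam ^ 2 * wt lam del F := by gcongr
      have h3 : lam ^ 2 * lam⁻¹ = lam := by field_simp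
      linarith
    have h2 := pos_inv ih (by positivity) ((inv_le_one_of_one_le₀ h1).trans h1)
    rw [inv_inv] at h2
    exact h2
  | or F G ihF ihG =>
    have ha := wt_pos hlam hdel F
    have hb := wt_pos hlam hdel G
    obtain ⟨a, hadef⟩ : ∃ a, a = wt lam del F := ⟨_, rfl⟩
    obtain ⟨b, hbdef⟩ : ∃ b, b = wt lam del G := ⟨_, rfl⟩
    have hwt : wt lam del (F.or G) = (1 + del) ^ 3 * Real.sqrt (a ^ 2 + b ^ 2) := by
      rw [hadef, hbdef]
      rfl
    have hcop : ∀ u, cop lam del X (F.or G) u = kap a b • cop lam del X F u +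
        kap b a • cop lam del X G u := by
      intro u
      rw [hadef, hbdef]
      rfl
    rw [← hadef] at ihF ha
    rw [← hbdef] at ihG hb
    obtain ⟨r, hr⟩ : ∃ r, r = Real.sqrt (a ^ 2 + b ^ 2) := ⟨_, rfl⟩
    have hr2 : r ^ 2 = a ^ 2 + b ^ 2 := by
      rw [hr]
      exact Real.sq_sqrt (by positivity)
    have hr0 : 0 < r := by
      rw [hr]
      exact Real.sqrt_pos.2 (by positivity)
    have hk1 : kap a b = a / r := by rw [kap, hr]
    have hk2 : kap b a = b / r := by rw [kap, hr, add_comm]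
    have hD := poc_one_le hdel
    rw [hwt, ← hr]
    have hval : ∀ u, inner ℝ (cop lam del X (F.or G) u) u =
        a / r * inner ℝ (cop lam del X F u) u + b / r * inner ℝ (cop lam del X G u) u := by
      intro u
      rw [hcop, hk1, hk2, inner_add_left, real_inner_smul_left, real_inner_smul_left]
    refine ⟨?_, ?_, ?_⟩
    · intro u v
      rw [hcop, hcop, inner_add_left, inner_add_right, real_inner_smul_left,
        real_inner_smul_left, real_inner_smul_right, real_inner_smul_right, ihF.sym, ihG.sym]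
    · intro u
      rw [hval]
      have h1 := ihF.lo u
      have h2 := ihG.lo u
      have e1 : a / r * ((lam ^ 2 * a)⁻¹ * ‖u‖ ^ 2) = (lam ^ 2 * r)⁻¹ * ‖u‖ ^ 2 := by
        field_simp
      have e2 : b / r * ((lam ^ 2 * b)⁻¹ * ‖u‖ ^ 2) = (lam ^ 2 * r)⁻¹ * ‖u‖ ^ 2 := by
        field_simp
      have h3 : a / r * ((lam ^ 2 * a)⁻¹ * ‖u‖ ^ 2) ≤ a / r * inner ℝ (cop lam del X F u) u :=
        mul_le_mul_of_nonneg_left h1 (by positivity)
      have h4 : b / r * ((lam ^ 2 * b)⁻¹ * ‖u‖ ^ 2) ≤ b / r * inner ℝ (cop lam del X G u) u :=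
        mul_le_mul_of_nonneg_left h2 (by positivity)
      rw [e1] at h3
      rw [e2] at h4
      have h5 : (lam ^ 2 * ((1 + del) ^ 3 * r))⁻¹ ≤ (lam ^ 2 * r)⁻¹ := by
        apply inv_anti₀ (by positivity)
        have : r ≤ (1 + del) ^ 3 * r := by nlinarith
        gcongr
      have h6 : (lam ^ 2 * ((1 + del) ^ 3 * r))⁻¹ * ‖u‖ ^ 2 ≤ (lam ^ 2 * r)⁻¹ * ‖u‖ ^ 2 := by
        gcongr
      have h7 : 0 ≤ (lam ^ 2 * r)⁻¹ * ‖u‖ ^ 2 := by positivity
      linarith
    · intro u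
      rw [hval]
      have h1 := ihF.hi u
      have h2 := ihG.hi u
      have h3 : a / r * inner ℝ (cop lam del X F u) u ≤ a / r * (lam ^ 2 * a * ‖u‖ ^ 2) :=
        mul_le_mul_of_nonneg_left h1 (by positivity)
      have h4 : b / r * inner ℝ (cop lam del X G u) u ≤ b / r * (lam ^ 2 * b * ‖u‖ ^ 2) :=
        mul_le_mul_of_nonneg_left h2 (by positivity)
      have e1 : a / r * (lam ^ 2 * a * ‖u‖ ^ 2) + b / r * (lam ^ 2 * b * ‖u‖ ^ 2) =
          lam ^ 2 * r * ‖u‖ ^ 2 := by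
        have h5 : a / r * (lam ^ 2 * a * ‖u‖ ^ 2) + b / r * (lam ^ 2 * b * ‖u‖ ^ 2) =
            lam ^ 2 * ((a ^ 2 + b ^ 2) / r) * ‖u‖ ^ 2 := by ring
        rw [h5, ← hr2]
        field_simp
      have h6 : lam ^ 2 * r * ‖u‖ ^ 2 ≤ lam ^ 2 * ((1 + del) ^ 3 * r) * ‖u‖ ^ 2 := by
        have : r ≤ (1 + del) ^ 3 * r := by nlinarith
        gcongr
      linarith

end Pool.H6.QL
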