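import Mathlib
import Pool.Agent.H6.QL.PosC

set_option autoImplicit false

/-!
# THEOREM QL: formal power series of operators (definitions)

`ser F`: the formal series of `c(F)` in `z`: leaves `(1 + z X)(1 - z X)⁻¹ = 1 + 2 ∑ z^j X^j`.
`Acc f`: accretive (`C + C* ≥ 0` for all block Toeplitz matrices of `f`).
`Good X f γ`: constant coefficient `γ > 0`, accretive, coefficient of `z^j` in `W X j`.
`Evs m f A`: `∑ m^j f_j = A`, absolutely.
-/

namespace Pool.H6.QL

variable {H : Type} [NormedAddCommGroup H] [InnerProductSpace ℝ H] {ι : Type}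

/-- Accretive series. -/
def Acc (f : PowerSeries (Op H)) : Prop :=
  ∀ (U : PowerSeries (Op H)) (w : H) (J : ℕ),
    0 ≤ ∑ i ∈ Finset.range (J + 1),
      inner ℝ ((PowerSeries.coeff i (f * U)) w) ((PowerSeries.coeff i U) w)

/-- Graded series. -/
def Gr (X : ι → Op H) (f : PowerSeries (Op H)) : Prop :=
  ∀ j, PowerSeries.coeff j f ∈ W X j

structure Good (X : ι → Op H) (f : PowerSeries (Op H)) (γ : ℝ) : Prop where
  pos : 0 < γ
  const : PowerSeries.constantCoeff f = γ • (1 : Op H)
  acc : Acc f
  gr : Gr X f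

/-- The series of a leaf. -/
noncomputable def lser (Y : Op H) : PowerSeries (Op H) :=
  PowerSeries.mk fun j => if j = 0 then 1 else (2 : ℝ) • Y ^ j

/-- The series of `c(F)`. -/
noncomputable def ser (lam del : ℝ) (X : ι → Op H) : Bf ι → PowerSeries (Op H)
  | .var i => lser (X i)
  | .neg F => Ring.inverse (ser lam del X F)
  | .or F G => kap (wt lam del F) (wt lam del G) • ser lam del X F +
      kap (wt lam del G) (wt lam del F) • ser lam del X G

/-- Absolutely convergent evaluation. -/
def Evs (m : ℝ) (f : PowerSeries (Op H)) (A : Op H) : Prop :=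
  (Summable fun j => ‖m ^ j • PowerSeries.coeff j f‖) ∧
    HasSum (fun j => m ^ j • PowerSeries.coeff j f) A

end Pool.H6.QL
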