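import Mathlib
import Pool.Agent.H6.QL.PwDefs

set_option autoImplicit false

/-!
# [H6 QL PWB] Leaves, positive sums, coefficient bound

* `good_leaf`: `lser Y * (1 - z Y) = 1 + z Y` and both orders; `1 - z Y` (i.e.
  `1 - PowerSeries.X * PowerSeries.C Y`; `PowerSeries.X` is central) is a unit with inverse
  `∑ z^j Y^j`. Given `U` put `V = (1 - zY)⁻¹ U`, so `U = V - zYV`, `f U = V + zYV`, and with
  `v_i = coeff i V w`: `⟨v_i + Y v_(i-1), v_i - Y v_(i-1)⟩ = ‖v_i‖² - ‖Y v_(i-1)‖² ` (symmetry of `Y`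
  is not needed: the cross terms cancel over the reals), and `‖Y v‖ ≤ ‖v‖`: the sum over `i ≤ J`
  is at least `‖v_J‖² ≥ 0` (telescoping). The hypothesis is only `‖Y v‖ ≤ ‖v‖` for all `v`.
  Grading: `Y = X i`, `Y^j` is the word `List.replicate j i`.
* `good_lin`: coefficients of `(a • f + b • g) * U` are `a • coeff (f U) + b • coeff (g U)`.
* `good_coef`: `j = 0`: `‖γ • 1‖ ≤ γ`. `j ≥ 1`, `c = coeff j f`, `s = 1 / (2γ)`: take
  `U = 1 - s z^j c` (`PowerSeries.monomial j (-(s • c))`), `J = j`: the coefficient `0` of `f U` is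
  `γ`, of `U` is `1`; for `0 < i < j` the coefficient of `U` is 0; coefficient `j` of `f U` is
  `c - s γ c = c / 2`, of `U` it is `-s c`. So `0 ≤ γ ‖w‖² - (s/2) ‖c w‖²`, i.e.
  `‖c w‖² ≤ 4 γ² ‖w‖²`.
-/

namespace Pool.H6.QL

variable {H : Type} [NormedAddCommGroup H] [InnerProductSpace ℝ H] {ι : Type} {X : ι → Op H}

private theorem pwb_geo (Y : Op H) :
    (PowerSeries.mk fun j => Y ^ j) =
      1 + PowerSeries.X * (PowerSeries.C Y * (PowerSeries.mk fun j => Y ^ j)) := by
  ext1 n
  cases n with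
  | zero =>
    rw [map_add, PowerSeries.coeff_mk, PowerSeries.coeff_zero_X_mul, pow_zero, add_zero,
      PowerSeries.coeff_zero_one]
  | succ n =>
    rw [map_add, PowerSeries.coeff_mk, PowerSeries.coeff_succ_X_mul, PowerSeries.coeff_C_mul,
      PowerSeries.coeff_mk, PowerSeries.coeff_one, if_neg (Nat.succ_ne_zero n), zero_add, pow_succ']

private theorem pwb_ls (Y : Op H) :
    lser Y = (PowerSeries.mk fun j => Y ^ j) +
      PowerSeries.X * (PowerSeries.C Y * (PowerSeries.mk fun j => Y ^ j)) := by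
  ext1 n
  unfold lser
  cases n with
  | zero =>
    rw [map_add, PowerSeries.coeff_mk, PowerSeries.coeff_mk, PowerSeries.coeff_zero_X_mul, pow_zero,
      add_zero, if_pos rfl]
  | succ n =>
    rw [map_add, PowerSeries.coeff_mk, PowerSeries.coeff_mk, PowerSeries.coeff_succ_X_mul,
      PowerSeries.coeff_C_mul, PowerSeries.coeff_mk, if_neg (Nat.succ_ne_zero n), two_smul, pow_succ']

theorem acc_leaf {Y : Op H} (hY : ∀ v, ‖Y v‖ ≤ ‖v‖) : Acc (lser Y) := by
  intro U w J
  obtain ⟨V, hV⟩ : ∃ V : PowerSeries (Op H), V = (PowerSeries.mk fun j => Y ^ j) * U := ⟨_, rfl⟩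
  have h1 : V = U + PowerSeries.X * (PowerSeries.C Y * V) := by
    have h := congrArg (fun f => f * U) (pwb_geo Y)
    simp only [add_mul, one_mul, mul_assoc] at h
    rw [hV]
    exact h
  have h2 : lser Y * U = V + PowerSeries.X * (PowerSeries.C Y * V) := by
    rw [pwb_ls, hV]
    simp only [add_mul, mul_assoc]
  have h3 : U = V - PowerSeries.X * (PowerSeries.C Y * V) := by
    rw [eq_sub_iff_add_eq]
    exact h1.symm
  have hin : ∀ x y : H, inner ℝ (x + y) (x - y) = ‖x‖ ^ 2 - ‖y‖ ^ 2 := by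
    intro x y
    rw [inner_add_left, inner_sub_right, inner_sub_right, real_inner_self_eq_norm_sq,
      real_inner_self_eq_norm_sq, real_inner_comm x y]
    ring
  have key : ∀ J : ℕ, ‖PowerSeries.coeff J V w‖ ^ 2 ≤ ∑ i ∈ Finset.range (J + 1),
      inner ℝ ((PowerSeries.coeff i (lser Y * U)) w) ((PowerSeries.coeff i U) w) := by
    intro J
    induction J with
    | zero =>
      rw [Finset.sum_range_one, h2]
      have e : PowerSeries.coeff 0 U = PowerSeries.coeff 0 V := by
        conv_lhs => rw [h3]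
        rw [map_sub, PowerSeries.coeff_zero_X_mul, sub_zero]
      rw [e, map_add, PowerSeries.coeff_zero_X_mul, add_zero, real_inner_self_eq_norm_sq]
    | succ J ih =>
      rw [Finset.sum_range_succ]
      have e : PowerSeries.coeff (J + 1) U =
          PowerSeries.coeff (J + 1) V - Y * PowerSeries.coeff J V := by
        conv_lhs => rw [h3]
        rw [map_sub, PowerSeries.coeff_succ_X_mul, PowerSeries.coeff_C_mul]
      have e2 : PowerSeries.coeff (J + 1) (lser Y * U) =
          PowerSeries.coeff (J + 1) V + Y * PowerSeries.coeff J V := by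
        rw [h2, map_add, PowerSeries.coeff_succ_X_mul, PowerSeries.coeff_C_mul]
      have e3 : inner ℝ ((PowerSeries.coeff (J + 1) (lser Y * U)) w)
          ((PowerSeries.coeff (J + 1) U) w) = ‖PowerSeries.coeff (J + 1) V w‖ ^ 2 -
            ‖Y (PowerSeries.coeff J V w)‖ ^ 2 := by
        rw [e, e2]
        exact hin _ _
      rw [e3]
      have h4 := hY (PowerSeries.coeff J V w)
      have h5 : ‖Y (PowerSeries.coeff J V w)‖ ^ 2 ≤ ‖PowerSeries.coeff J V w‖ ^ 2 :=
        pow_le_pow_left₀ (norm_nonneg _) h4 2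
      linarith
  exact (sq_nonneg _).trans (key J)

theorem good_leaf (hn : ∀ i v, ‖X i v‖ ≤ ‖v‖) (i : ι) : Good X (lser (X i)) 1 := by
  refine ⟨one_pos, ?_, acc_leaf (hn i), ?_⟩
  · rw [one_smul, ← PowerSeries.coeff_zero_eq_constantCoeff_apply]
    unfold lser
    rw [PowerSeries.coeff_mk, if_pos rfl]
  · intro j
    unfold lser
    rw [PowerSeries.coeff_mk]
    split_ifs with h
    · refine Submodule.subset_span ⟨[], Nat.zero_le _, ?_⟩
      rw [List.map_nil, List.prod_nil]
    · refine Submodule.smul_mem _ _ (Submodule.subset_span ⟨List.replicate j i, ?_, ?_⟩)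
      · rw [List.length_replicate]
      · rw [List.map_replicate, List.prod_replicate]

theorem good_lin {f g : PowerSeries (Op H)} {γ γ' a b : ℝ} (hf : Good X f γ) (hg : Good X g γ')
    (ha : 0 < a) (hb : 0 < b) : Good X (a • f + b • g) (a * γ + b * γ') := by
  have hc : ∀ (F G : PowerSeries (Op H)) (i : ℕ), PowerSeries.coeff i (a • F + b • G) =
      a • PowerSeries.coeff i F + b • PowerSeries.coeff i G := by
    intro F G i
    rw [map_add]
    rfl
  refine ⟨add_pos (mul_pos ha hf.pos) (mul_pos hb hg.pos), ?_, ?_, ?_⟩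
  · have h1 := hf.const
    have h2 := hg.const
    rw [← PowerSeries.coeff_zero_eq_constantCoeff_apply] at h1 h2 ⊢
    rw [hc, h1, h2, smul_smul, smul_smul, add_smul]
  · intro U w J
    have e : (a • f + b • g) * U = a • (f * U) + b • (g * U) := by
      rw [add_mul, smul_mul_assoc, smul_mul_assoc]
    have e1 : ∑ i ∈ Finset.range (J + 1),
        inner ℝ ((PowerSeries.coeff i ((a • f + b • g) * U)) w) ((PowerSeries.coeff i U) w) =
        a * ∑ i ∈ Finset.range (J + 1),
          inner ℝ ((PowerSeries.coeff i (f * U)) w) ((PowerSeries.coeff i U) w) +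
        b * ∑ i ∈ Finset.range (J + 1),
          inner ℝ ((PowerSeries.coeff i (g * U)) w) ((PowerSeries.coeff i U) w) := by
      rw [Finset.mul_sum, Finset.mul_sum, ← Finset.sum_add_distrib]
      refine Finset.sum_congr rfl fun i _ => ?_
      rw [e, hc, ContinuousLinearMap.add_apply, ContinuousLinearMap.smul_apply,
        ContinuousLinearMap.smul_apply, inner_add_left, real_inner_smul_left, real_inner_smul_left]
    rw [e1]
    exact add_nonneg (mul_nonneg ha.le (hf.acc U w J)) (mul_nonneg hb.le (hg.acc U w J))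
  · intro j
    rw [hc]
    exact Submodule.add_mem _ (Submodule.smul_mem _ _ (hf.gr j)) (Submodule.smul_mem _ _ (hg.gr j))

theorem good_coef {f : PowerSeries (Op H)} {γ : ℝ} (hf : Good X f γ) (j : ℕ) :
    ‖PowerSeries.coeff j f‖ ≤ 2 * γ := by
  have hγ := hf.pos
  have h0 : PowerSeries.coeff 0 f = γ • (1 : Op H) := by
    rw [PowerSeries.coeff_zero_eq_constantCoeff_apply]
    exact hf.const
  refine ContinuousLinearMap.opNorm_le_bound _ (by linarith) fun w => ?_
  rcases Nat.eq_zero_or_pos j with rfl | hj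
  · rw [h0]
    have e : (γ • (1 : Op H)) w = γ • w := rfl
    rw [e, norm_smul, Real.norm_of_nonneg hγ.le]
    have := norm_nonneg w
    nlinarith
  obtain ⟨c, hc⟩ : ∃ c, c = PowerSeries.coeff j f := ⟨_, rfl⟩
  obtain ⟨s, hs⟩ : ∃ s : ℝ, s = 1 / (2 * γ) := ⟨_, rfl⟩
  have hs0 : 0 < s := by rw [hs]; positivity
  have hsγ : s * γ = 1 / 2 := by
    rw [hs]
    field_simp
  obtain ⟨U, hU⟩ : ∃ U : PowerSeries (Op H), U = 1 - PowerSeries.C (s • c) * PowerSeries.X ^ j :=
    ⟨_, rfl⟩
  have hUc : ∀ i, PowerSeries.coeff i U = PowerSeries.coeff i (1 : PowerSeries (Op H)) -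
      if i = j then s • c else 0 := by
    intro i
    rw [hU, map_sub, PowerSeries.coeff_C_mul, PowerSeries.coeff_X_pow]
    split_ifs with h
    · rw [mul_one]
    · rw [mul_zero]
  have hfU : ∀ i ≤ j, PowerSeries.coeff i (f * U) = PowerSeries.coeff i f -
      if i = j then (1 / 2 : ℝ) • c else 0 := by
    intro i hi
    rw [hU, mul_sub, mul_one, ← mul_assoc, map_sub, PowerSeries.coeff_mul_X_pow']
    by_cases h : i = j
    · rw [if_pos h, if_pos h.ge, h, Nat.sub_self, PowerSeries.coeff_mul_C, h0, smul_mul_assoc,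
        one_mul, smul_smul, mul_comm, hsγ]
    · rw [if_neg h, if_neg (by omega)]
  have hacc := hf.acc U w j
  rw [Finset.sum_range_succ, Finset.sum_eq_single_of_mem 0 (Finset.mem_range.2 hj)] at hacc
  · have e1 : PowerSeries.coeff 0 (f * U) = γ • (1 : Op H) := by
      rw [hfU 0 (Nat.zero_le _), if_neg hj.ne, sub_zero, h0]
    have e2 : PowerSeries.coeff 0 U = (1 : Op H) := by
      rw [hUc, if_neg hj.ne, sub_zero, PowerSeries.coeff_zero_one]
    have e3 : PowerSeries.coeff j (f * U) = (1 / 2 : ℝ) • c := by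
      rw [hfU j le_rfl, if_pos rfl, ← hc]
      have : c = (1 : ℝ) • c := (one_smul _ _).symm
      nth_rw 1 [this]
      rw [← sub_smul]
      norm_num
    have e4 : PowerSeries.coeff j U = (-s) • c := by
      rw [hUc, if_pos rfl, PowerSeries.coeff_one, if_neg hj.ne', zero_sub, neg_smul]
    rw [e1, e2, e3, e4] at hacc
    have e5 : inner ℝ ((γ • (1 : Op H)) w) ((1 : Op H) w) = γ * ‖w‖ ^ 2 := by
      have e : (γ • (1 : Op H)) w = γ • w := rfl
      have e' : (1 : Op H) w = w := rfl
      rw [e, e', real_inner_smul_left, real_inner_self_eq_norm_sq]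
    have e6 : inner ℝ (((1 / 2 : ℝ) • c) w) (((-s) • c) w) = - (s / 2) * ‖c w‖ ^ 2 := by
      rw [ContinuousLinearMap.smul_apply, ContinuousLinearMap.smul_apply, real_inner_smul_left,
        real_inner_smul_right, real_inner_self_eq_norm_sq]
      ring
    rw [e5, e6] at hacc
    rw [← hc]
    have h6 : ‖c w‖ ^ 2 ≤ (2 * γ * ‖w‖) ^ 2 := by
      have h7 : s / 2 * ‖c w‖ ^ 2 ≤ γ * ‖w‖ ^ 2 := by linarith
      have h8 : 4 * γ * (s / 2 * ‖c w‖ ^ 2) ≤ 4 * γ * (γ * ‖w‖ ^ 2) :=
        mul_le_mul_of_nonneg_left h7 (by linarith)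
      have h9 : 4 * γ * (s / 2 * ‖c w‖ ^ 2) = 2 * (s * γ) * ‖c w‖ ^ 2 := by ring
      rw [h9, hsγ] at h8
      nlinarith
    exact (pow_le_pow_iff_left₀ (norm_nonneg _) (by positivity) two_ne_zero).1 h6
  · intro i hi hi0
    have hij : i ≠ j := (Finset.mem_range.1 hi).ne
    rw [hUc, if_neg hij, sub_zero, PowerSeries.coeff_one, if_neg hi0]
    have e : (0 : Op H) w = 0 := rfl
    rw [e, inner_zero_right]

end Pool.H6.QL
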