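import Mathlib
import Pool.Agent.H6.QL.PwDefs

set_option autoImplicit false

/-!
# [H6 QL PWA] Inverse of a good series

If the constant coefficient of `f` is `γ • 1`, `γ > 0`, then `f` is a unit of `PowerSeries (Op H)`
(`PowerSeries.mul_invOfUnit`, `PowerSeries.invOfUnit_mul` or `MvPowerSeries.invOfUnit_mul`), so
`f * Ring.inverse f = 1 = Ring.inverse f * f` (`Ring.mul_inverse_cancel`, `Ring.inverse_mul_cancel`).
* `const`: the constant coefficient of the product is 1.
* `acc`: `U = f * (f⁻¹ * U)`; with `V = f⁻¹ * U` the sum is `∑ ⟨coeff V w, coeff (f * V) w⟩ ≥ 0`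
  (`real_inner_comm`).
* `gr`: strong induction on `j`: the coefficient `j ≥ 1` of `f * g = 1` (`g = f⁻¹`) is
  `γ g_j + ∑_(a + b = j, a ≥ 1) f_a g_b = 0`, and `f_a g_b ∈ W (a + b)` (`W_mul`).
-/

namespace Pool.H6.QL

variable {H : Type} [NormedAddCommGroup H] [InnerProductSpace ℝ H] {ι : Type} {X : ι → Op H}

theorem unit_of_const {f : PowerSeries (Op H)} {γ : ℝ} (hγ : 0 < γ)
    (h : PowerSeries.constantCoeff f = γ • (1 : Op H)) :
    f * Ring.inverse f = 1 ∧ Ring.inverse f * f = 1 := by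
  obtain ⟨u, hu⟩ : ∃ u : (Op H)ˣ, (u : Op H) = γ • (1 : Op H) := by
    refine ⟨⟨γ • (1 : Op H), γ⁻¹ • (1 : Op H), ?_, ?_⟩, rfl⟩
    · rw [smul_mul_smul_comm, mul_inv_cancel₀ hγ.ne', one_smul, mul_one]
    · rw [smul_mul_smul_comm, inv_mul_cancel₀ hγ.ne', one_smul, mul_one]
  have h1 : f * PowerSeries.invOfUnit f u = 1 := PowerSeries.mul_invOfUnit f u (by rw [h, hu])
  have h2 : PowerSeries.invOfUnit f u * f = 1 := MvPowerSeries.invOfUnit_mul f u (by
    rw [hu]
    exact h)
  have hun : IsUnit f := ⟨⟨f, _, h1, h2⟩, rfl⟩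
  exact ⟨Ring.mul_inverse_cancel f hun, Ring.inverse_mul_cancel f hun⟩

theorem gr_mul {f g : PowerSeries (Op H)} (hf : Gr X f) (hg : Gr X g) : Gr X (f * g) := by
  intro j
  rw [PowerSeries.coeff_mul]
  refine Submodule.sum_mem _ fun p hp => ?_
  rw [← Finset.HasAntidiagonal.mem_antidiagonal.1 hp]
  exact W_mul (hf _) (hg _)

private theorem const_inv {f : PowerSeries (Op H)} {γ : ℝ} (hγ : 0 < γ)
    (h : PowerSeries.constantCoeff f = γ • (1 : Op H)) :
    PowerSeries.constantCoeff (Ring.inverse f) = γ⁻¹ • (1 : Op H) := by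
  have h1 := congrArg PowerSeries.constantCoeff (unit_of_const hγ h).1
  rw [map_mul, h, map_one, smul_mul_assoc, one_mul] at h1
  rw [← h1, smul_smul, inv_mul_cancel₀ hγ.ne', one_smul]

theorem gr_inv {f : PowerSeries (Op H)} {γ : ℝ} (hγ : 0 < γ)
    (h : PowerSeries.constantCoeff f = γ • (1 : Op H)) (hf : Gr X f) :
    Gr X (Ring.inverse f) := by
  intro j
  induction j using Nat.strong_induction_on with
  | _ j ih =>
    rcases j with _ | n
    · rw [PowerSeries.coeff_zero_eq_constantCoeff_apply, const_inv hγ h]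
      exact Submodule.smul_mem _ _ (one_mem_W 0)
    · have h1 := congrArg (PowerSeries.coeff (n + 1)) (unit_of_const hγ h).1
      rw [PowerSeries.coeff_mul, Finset.Nat.sum_antidiagonal_succ, PowerSeries.coeff_one,
        if_neg (Nat.succ_ne_zero n), PowerSeries.coeff_zero_eq_constantCoeff_apply, h,
        smul_mul_assoc, one_mul] at h1
      have h2 : PowerSeries.coeff (n + 1) (Ring.inverse f) = γ⁻¹ •
          (-∑ p ∈ Finset.HasAntidiagonal.antidiagonal n, PowerSeries.coeff (p.1 + 1) f *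
            PowerSeries.coeff p.2 (Ring.inverse f)) := by
        rw [← eq_neg_of_add_eq_zero_left h1, smul_smul, inv_mul_cancel₀ hγ.ne', one_smul]
      rw [h2]
      refine Submodule.smul_mem _ _ (Submodule.neg_mem _ (Submodule.sum_mem _ fun p hp => ?_))
      have hp' := Finset.HasAntidiagonal.mem_antidiagonal.1 hp
      have h3 : n + 1 = p.1 + 1 + p.2 := by omega
      rw [h3]
      exact W_mul (hf _) (ih p.2 (by omega))

theorem good_inv {f : PowerSeries (Op H)} {γ : ℝ} (hf : Good X f γ) :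
    Good X (Ring.inverse f) γ⁻¹ := by
  refine ⟨inv_pos.2 hf.pos, const_inv hf.pos hf.const, ?_, gr_inv hf.pos hf.const hf.gr⟩
  intro U w J
  have h1 : f * (Ring.inverse f * U) = U := by
    rw [← mul_assoc, (unit_of_const hf.pos hf.const).1, one_mul]
  have h2 := hf.acc (Ring.inverse f * U) w J
  rw [h1] at h2
  refine h2.trans (le_of_eq (Finset.sum_congr rfl fun i _ => ?_))
  exact real_inner_comm _ _

end Pool.H6.QL
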