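import Mathlib
import Pool.Agent.H6.QL.PwA

set_option autoImplicit false

/-!
# [H6 QL PWC] The Cayley transform of a good series is a contraction

`T = PowerSeries.C (τ • 1)` (central: `τ • 1` commutes with every operator). `f + T` has constant
coefficient `(γ + τ) • 1`, so it is a unit (`unit_of_const`), and `m = (f - T) * (f + T)⁻¹`.
Grading: `gr_mul`, `gr_inv` (`T` is graded: constant `τ • 1 ∈ W 0`).
Contraction: let `w : H`, `V = (f + T)⁻¹` (so `U = (f + T) * V = 1`), `a_i = coeff i (f * V) w`,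
`v_i = coeff i V w`. Then `coeff i 1 w = a_i + τ v_i`, `coeff i m w = a_i - τ v_i`
(`m = (f - T) * V`), and `‖a + τ v‖² - ‖a - τ v‖² = 4 τ ⟨a, v⟩`, whose sum over `i ≤ J` is
`≥ 0` by `Acc f` (with `U := V`). Hence
`∑_(i ≤ J) ‖coeff i m w‖² ≤ ∑_(i ≤ J) ‖coeff i 1 w‖² = ‖w‖²`, in particular
`‖coeff J m w‖ ≤ ‖w‖`. `m * (f + T) = f - T` because `V * (f + T) = 1`.
-/

namespace Pool.H6.QL

variable {H : Type} [NormedAddCommGroup H] [InnerProductSpace ℝ H] {ι : Type} {X : ι → Op H}

theorem good_cay {f : PowerSeries (Op H)} {γ : ℝ} (hf : Good X f γ) {τ : ℝ} (hτ : 0 < τ) :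
    ∃ m : PowerSeries (Op H),
      m * (f + PowerSeries.C (τ • (1 : Op H))) = f - PowerSeries.C (τ • (1 : Op H)) ∧
      Gr X m ∧ ∀ j, ‖PowerSeries.coeff j m‖ ≤ 1 := by
  obtain ⟨T, hT⟩ : ∃ T : PowerSeries (Op H), T = PowerSeries.C (τ • (1 : Op H)) := ⟨_, rfl⟩
  rw [← hT]
  have hTc : ∀ F : PowerSeries (Op H), ∀ i, PowerSeries.coeff i (T * F) =
      τ • PowerSeries.coeff i F := by
    intro F i
    rw [hT, PowerSeries.coeff_C_mul, smul_mul_assoc, one_mul]
  have hTg : Gr X T := by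
    intro j
    rw [hT, PowerSeries.coeff_C]
    split_ifs with h
    · refine Submodule.smul_mem _ _ (Submodule.subset_span ⟨[], Nat.zero_le _, ?_⟩)
      rw [List.map_nil, List.prod_nil]
    · exact Submodule.zero_mem _
  have hconst : PowerSeries.constantCoeff (f + T) = (γ + τ) • (1 : Op H) := by
    rw [map_add, hf.const, hT, PowerSeries.constantCoeff_C, add_smul]
  have hpos : 0 < γ + τ := add_pos hf.pos hτ
  obtain ⟨hV1, hV2⟩ := unit_of_const hpos hconst
  obtain ⟨V, hV⟩ : ∃ V, V = Ring.inverse (f + T) := ⟨_, rfl⟩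
  rw [← hV] at hV1 hV2
  have hgadd : Gr X (f + T) := by
    intro j
    rw [map_add]
    exact Submodule.add_mem _ (hf.gr j) (hTg j)
  have hgsub : Gr X (f - T) := by
    intro j
    rw [map_sub]
    exact Submodule.sub_mem _ (hf.gr j) (hTg j)
  have hgV : Gr X V := by
    rw [hV]
    exact gr_inv hpos hconst hgadd
  refine ⟨(f - T) * V, ?_, gr_mul hgsub hgV, ?_⟩
  · rw [mul_assoc, hV2, mul_one]
  · intro J
    refine ContinuousLinearMap.opNorm_le_bound _ zero_le_one fun w => ?_
    rw [one_mul]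
    have h1 : ∀ i, PowerSeries.coeff i (1 : PowerSeries (Op H)) w =
        PowerSeries.coeff i (f * V) w + τ • PowerSeries.coeff i V w := by
      intro i
      rw [← hV1, add_mul, map_add, hTc]
      rfl
    have h2 : ∀ i, PowerSeries.coeff i ((f - T) * V) w =
        PowerSeries.coeff i (f * V) w - τ • PowerSeries.coeff i V w := by
      intro i
      rw [sub_mul, map_sub, hTc]
      rfl
    have h3 : ∀ i, ‖PowerSeries.coeff i ((f - T) * V) w‖ ^ 2 =
        ‖PowerSeries.coeff i (1 : PowerSeries (Op H)) w‖ ^ 2 -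
          4 * τ * inner ℝ (PowerSeries.coeff i (f * V) w) (PowerSeries.coeff i V w) := by
      intro i
      rw [h1, h2, norm_sub_sq_real, norm_add_sq_real, real_inner_smul_right]
      ring
    have h4 : ∑ i ∈ Finset.range (J + 1), ‖PowerSeries.coeff i (1 : PowerSeries (Op H)) w‖ ^ 2 =
        ‖w‖ ^ 2 := by
      rw [Finset.sum_eq_single_of_mem 0 (Finset.mem_range.2 (Nat.succ_pos J))]
      · rw [PowerSeries.coeff_zero_one]
        rfl
      · intro i _ hi
        rw [PowerSeries.coeff_one, if_neg hi]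
        have e : (0 : Op H) w = 0 := rfl
        rw [e, norm_zero]
        norm_num
    have h5 : ∑ i ∈ Finset.range (J + 1), ‖PowerSeries.coeff i ((f - T) * V) w‖ ^ 2 ≤ ‖w‖ ^ 2 := by
      rw [← h4]
      have h6 := hf.acc V w J
      have h7 : ∑ i ∈ Finset.range (J + 1), ‖PowerSeries.coeff i ((f - T) * V) w‖ ^ 2 =
          ∑ i ∈ Finset.range (J + 1), ‖PowerSeries.coeff i (1 : PowerSeries (Op H)) w‖ ^ 2 -
          4 * τ * ∑ i ∈ Finset.range (J + 1),
            inner ℝ (PowerSeries.coeff i (f * V) w) (PowerSeries.coeff i V w) := by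
        rw [Finset.mul_sum, ← Finset.sum_sub_distrib]
        exact Finset.sum_congr rfl fun i _ => h3 i
      rw [h7]
      have h8 : 0 ≤ 4 * τ * ∑ i ∈ Finset.range (J + 1),
            inner ℝ (PowerSeries.coeff i (f * V) w) (PowerSeries.coeff i V w) :=
        mul_nonneg (by linarith) h6
      linarith
    have h9 : ‖PowerSeries.coeff J ((f - T) * V) w‖ ^ 2 ≤ ‖w‖ ^ 2 := by
      refine le_trans ?_ h5
      exact Finset.single_le_sum (f := fun i => ‖PowerSeries.coeff i ((f - T) * V) w‖ ^ 2)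
        (fun i _ => sq_nonneg _) (Finset.mem_range.2 (Nat.lt_succ_self J))
    exact (pow_le_pow_iff_left₀ (norm_nonneg _) (norm_nonneg _) two_ne_zero).1 h9

end Pool.H6.QL
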