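import Mathlib
import Pool.Agent.H6.QL.PwDefs

set_option autoImplicit false

/-!
# [H6 QL PWD] Evaluation of series

`Op H` is a complete normed ring (`H` is finite dimensional: `FiniteDimensional.complete ℝ H`,
then `ContinuousLinearMap` is complete). Products: `summable_norm_sum_mul_antidiagonal_of_summable_norm`
and `tsum_mul_tsum_eq_tsum_sum_antidiagonal_of_summable_norm`, with
`m^(a+b) • (x * y) = (m^a • x) * (m^b • y)` and `PowerSeries.coeff_mul`.
`evs_tail`: `A - ∑_(j ≤ J) m^j • f_j = ∑_(j > J)`, norm at most `∑_(j > J) m^j = m^(J+1) / (1 - m)`.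
`evs_leaf`: with `Y * Y = 1`: the coefficient of `z^j` is `2` (`j` even, `> 0`), `2 Y` (`j` odd), `1`
(`j = 0`); simplest proof: the series is absolutely summable with some sum `A` (`evs_of_bdd`) and
`lser Y * (1 - z Y) = 1 + z Y` gives `A * (1 - m Y) = 1 + m Y` by `evs_mul`; multiply by
`(1 + m Y) / (1 - m²)`, which is the inverse of `1 - m Y`. For `m = mu lam` this is
`(lam + lam⁻¹)/2 + (lam - lam⁻¹)/2 Y` because `(1 + m²)/(1 - m²) = (lam + lam⁻¹)/2`,
`2m/(1 - m²) = (lam - lam⁻¹)/2`.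
-/

namespace Pool.H6.QL

variable {H : Type} [NormedAddCommGroup H] [InnerProductSpace ℝ H] [FiniteDimensional ℝ H]
variable {ι : Type} {X : ι → Op H}

private theorem pwd_coeff_smul (a : ℝ) (f : PowerSeries (Op H)) (j : ℕ) :
    PowerSeries.coeff j (a • f) = a • PowerSeries.coeff j f := rfl

omit [FiniteDimensional ℝ H] in
theorem evs_unique {m : ℝ} {f : PowerSeries (Op H)} {A B : Op H} (hA : Evs m f A)
    (hB : Evs m f B) : A = B := hA.2.unique hB.2

theorem evs_of_bdd {m M : ℝ} (h0 : 0 ≤ m) (h1 : m < 1) {f : PowerSeries (Op H)}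
    (hf : ∀ j, ‖PowerSeries.coeff j f‖ ≤ M) : ∃ A, Evs m f A := by
  have hc : CompleteSpace H := FiniteDimensional.complete ℝ H
  have hs : Summable fun j => ‖m ^ j • PowerSeries.coeff j f‖ := by
    refine Summable.of_nonneg_of_le (fun j => norm_nonneg _) (fun j => ?_)
      ((summable_geometric_of_lt_one h0 h1).mul_right M)
    rw [norm_smul, norm_pow, Real.norm_of_nonneg h0]
    exact mul_le_mul_of_nonneg_left (hf j) (pow_nonneg h0 j)
  exact ⟨∑' j, m ^ j • PowerSeries.coeff j f, hs, hs.of_norm.hasSum⟩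

theorem evs_C (m : ℝ) (A : Op H) : Evs m (PowerSeries.C A) A := by
  have h1 : ∀ j, j ≠ 0 → m ^ j • PowerSeries.coeff j (PowerSeries.C A) = 0 := by
    intro j hj
    rw [PowerSeries.coeff_C, if_neg hj, smul_zero]
  refine ⟨?_, ?_⟩
  · refine summable_of_ne_finset_zero (s := {0}) fun j hj => ?_
    rw [h1 j (fun h => hj (by rw [h]; exact Finset.mem_singleton_self 0)), norm_zero]
  · have h2 := hasSum_single (f := fun j => m ^ j • PowerSeries.coeff j (PowerSeries.C A)) 0 h1
    have h3 : m ^ 0 • PowerSeries.coeff 0 (PowerSeries.C A) = A := by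
      rw [PowerSeries.coeff_C, if_pos rfl, pow_zero, one_smul]
    rw [h3] at h2
    exact h2

theorem evs_lin {m a b : ℝ} {f g : PowerSeries (Op H)} {A B : Op H} (hA : Evs m f A)
    (hB : Evs m g B) : Evs m (a • f + b • g) (a • A + b • B) := by
  have he : (fun j => m ^ j • PowerSeries.coeff j (a • f + b • g)) =
      fun j => a • (m ^ j • PowerSeries.coeff j f) + b • (m ^ j • PowerSeries.coeff j g) := by
    funext j
    rw [map_add, pwd_coeff_smul, pwd_coeff_smul, smul_add, smul_comm (m ^ j) a,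
      smul_comm (m ^ j) b]
  refine ⟨?_, ?_⟩
  · refine Summable.of_nonneg_of_le (fun j => norm_nonneg _) (fun j => ?_)
      ((hA.1.mul_left ‖a‖).add (hB.1.mul_left ‖b‖))
    have h1 : m ^ j • PowerSeries.coeff j (a • f + b • g) =
      a • (m ^ j • PowerSeries.coeff j f) + b • (m ^ j • PowerSeries.coeff j g) := congrFun he j
    rw [h1]
    refine (norm_add_le _ _).trans ?_
    rw [norm_smul a, norm_smul b]
  · rw [he]
    exact (hA.2.const_smul a).add (hB.2.const_smul b)

theorem evs_mul {m : ℝ} {f g : PowerSeries (Op H)} {A B : Op H} (hA : Evs m f A)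
    (hB : Evs m g B) : Evs m (f * g) (A * B) := by
  have hc : CompleteSpace H := FiniteDimensional.complete ℝ H
  have he : (fun n => m ^ n • PowerSeries.coeff n (f * g)) =
      fun n => ∑ kl ∈ Finset.HasAntidiagonal.antidiagonal n,
        (m ^ kl.1 • PowerSeries.coeff kl.1 f) * (m ^ kl.2 • PowerSeries.coeff kl.2 g) := by
    funext n
    rw [PowerSeries.coeff_mul, Finset.smul_sum]
    refine Finset.sum_congr rfl fun kl hkl => ?_
    rw [← Finset.HasAntidiagonal.mem_antidiagonal.1 hkl, pow_add, smul_mul_smul_comm]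
  have hs := summable_norm_sum_mul_antidiagonal_of_summable_norm hA.1 hB.1
  have hs' : Summable fun n => ‖m ^ n • PowerSeries.coeff n (f * g)‖ := by
    have h1 : (fun n => ‖m ^ n • PowerSeries.coeff n (f * g)‖) = fun n =>
        ‖∑ kl ∈ Finset.HasAntidiagonal.antidiagonal n,
          (m ^ kl.1 • PowerSeries.coeff kl.1 f) * (m ^ kl.2 • PowerSeries.coeff kl.2 g)‖ :=
      congrArg (fun (u : ℕ → Op H) => fun n => ‖u n‖) he
    rw [h1]
    exact hs
  refine ⟨hs', ?_⟩
  have ht := tsum_mul_tsum_eq_tsum_sum_antidiagonal_of_summable_norm hA.1 hB.1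
  rw [hA.2.tsum_eq, hB.2.tsum_eq] at ht
  rw [ht, ← he]
  exact hs'.of_norm.hasSum

private theorem pwd_real {x : ℝ} (hx : |x| < 1) :
    HasSum (fun j : ℕ => if j = 0 then (1 : ℝ) else 2 * x ^ j) ((1 + x) / (1 - x)) := by
  have h1 := (hasSum_geometric_of_abs_lt_one hx).mul_left 2
  have h2 := hasSum_ite_eq (0 : ℕ) (1 : ℝ)
  have h3 := h1.sub h2
  have hx1 : 1 - x ≠ 0 := by
    have := (abs_lt.1 hx).2
    linarith
  have h4 : 2 * (1 - x)⁻¹ - 1 = (1 + x) / (1 - x) := by
    field_simp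
    ring
  rw [h4] at h3
  have h5 : (fun j : ℕ => if j = 0 then (1 : ℝ) else 2 * x ^ j) =
      fun j : ℕ => 2 * x ^ j - if j = 0 then (1 : ℝ) else 0 := by
    funext j
    split_ifs with h0
    · rw [h0, pow_zero]
      norm_num
    · rw [sub_zero]
  rw [h5]
  exact h3

theorem evs_leaf {lam : ℝ} (hlam : 1 ≤ lam) {Y : Op H} (hY : Y * Y = 1) (hn : ‖Y‖ ≤ 1) :
    Evs (mu lam) (lser Y) (((lam + lam⁻¹) / 2) • (1 : Op H) + ((lam - lam⁻¹) / 2) • Y) := by
  have hl : 0 < lam := by linarith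
  have hm0 : 0 ≤ mu lam := div_nonneg (by linarith) (by linarith)
  have hm1 : mu lam < 1 := by
    unfold mu
    rw [div_lt_one (by linarith)]
    linarith
  have hpow : ∀ j : ℕ, ‖Y ^ j‖ ≤ 1 := by
    intro j
    induction j with
    | zero =>
      rw [pow_zero]
      exact ContinuousLinearMap.norm_id_le
    | succ j ih =>
      rw [pow_succ]
      refine (norm_mul_le _ _).trans ?_
      exact mul_le_one₀ ih (norm_nonneg _) hn
  have hb : ∀ j, ‖PowerSeries.coeff j (lser Y)‖ ≤ 2 := by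
    intro j
    unfold lser
    rw [PowerSeries.coeff_mk]
    split_ifs with h0
    · have h1 : ‖(1 : Op H)‖ ≤ 1 := ContinuousLinearMap.norm_id_le
      linarith
    · rw [norm_smul, Real.norm_of_nonneg (by norm_num : (0 : ℝ) ≤ 2)]
      have := hpow j
      linarith
  obtain ⟨A, hA⟩ := evs_of_bdd hm0 hm1 hb
  obtain ⟨P, hP⟩ : ∃ P : Op H, P = (1 / 2 : ℝ) • (1 + Y) := ⟨_, rfl⟩
  obtain ⟨Q, hQ⟩ : ∃ Q : Op H, Q = (1 / 2 : ℝ) • (1 - Y) := ⟨_, rfl⟩
  have hYj : ∀ j : ℕ, Y ^ j = P + ((-1 : ℝ) ^ j) • Q := by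
    intro j
    rcases Nat.even_or_odd j with ⟨k, hk⟩ | ⟨k, hk⟩
    · have h1 : Y ^ j = 1 := by rw [hk, ← two_mul, pow_mul, sq, hY, one_pow]
      have h2 : (-1 : ℝ) ^ j = 1 := Even.neg_one_pow ⟨k, hk⟩
      rw [h1, h2, hP, hQ]
      module
    · have h1 : Y ^ j = Y := by rw [hk, pow_succ, pow_mul, sq, hY, one_pow, one_mul]
      have h2 : (-1 : ℝ) ^ j = -1 := Odd.neg_one_pow ⟨k, hk⟩
      rw [h1, h2, hP, hQ]
      module
  have hr1 := pwd_real (x := mu lam) (by rw [abs_of_nonneg hm0]; exact hm1)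
  have hr2 := pwd_real (x := -mu lam) (by rw [abs_neg, abs_of_nonneg hm0]; exact hm1)
  have e1 : (1 + mu lam) / (1 - mu lam) = lam := by
    have h3 : lam + 1 ≠ 0 := by linarith
    have h4 : 1 - mu lam = 2 / (lam + 1) := by
      unfold mu
      rw [eq_div_iff h3, sub_mul, div_mul_cancel₀ _ h3]
      ring
    have h5 : 1 + mu lam = 2 * lam / (lam + 1) := by
      unfold mu
      rw [eq_div_iff h3, add_mul, div_mul_cancel₀ _ h3]
      ring
    rw [h4, h5]
    field_simp
  have e2 : (1 + -mu lam) / (1 - -mu lam) = lam⁻¹ := by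
    have h3 : lam + 1 ≠ 0 := by linarith
    have h4 : 1 + -mu lam = 2 / (lam + 1) := by
      unfold mu
      rw [eq_div_iff h3, add_mul, neg_mul, div_mul_cancel₀ _ h3]
      ring
    have h5 : 1 - -mu lam = 2 * lam / (lam + 1) := by
      unfold mu
      rw [eq_div_iff h3, sub_mul, neg_mul, div_mul_cancel₀ _ h3]
      ring
    rw [h4, h5]
    field_simp
  rw [e1] at hr1
  rw [e2] at hr2
  have hs := (hr1.smul_const P).add (hr2.smul_const Q)
  have he : (fun j : ℕ => (if j = 0 then (1 : ℝ) else 2 * mu lam ^ j) • P +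
      (if j = 0 then (1 : ℝ) else 2 * (-mu lam) ^ j) • Q) =
      fun j => mu lam ^ j • PowerSeries.coeff j (lser Y) := by
    funext j
    unfold lser
    rw [PowerSeries.coeff_mk]
    split_ifs with h0
    · rw [h0, pow_zero, hP, hQ]
      module
    · rw [hYj j, neg_pow]
      module
  have hs' : HasSum (fun j => mu lam ^ j • PowerSeries.coeff j (lser Y)) (lam • P + lam⁻¹ • Q) := by
    rw [← he]
    exact hs
  have hfin : lam • P + lam⁻¹ • Q =
      ((lam + lam⁻¹) / 2) • (1 : Op H) + ((lam - lam⁻¹) / 2) • Y := by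
    rw [hP, hQ]
    module
  rw [← hfin]
  exact ⟨hA.1, hs'⟩

/-- Truncation. -/
theorem evs_tail {m : ℝ} (h0 : 0 ≤ m) (h1 : m < 1) {f : PowerSeries (Op H)} {A : Op H}
    (hA : Evs m f A) (hf : ∀ j, ‖PowerSeries.coeff j f‖ ≤ 1) (hg : Gr X f) (J : ℕ) :
    ∃ B ∈ W X J, ‖A - B‖ ≤ m ^ (J + 1) / (1 - m) := by
  have hc : CompleteSpace H := FiniteDimensional.complete ℝ H
  refine ⟨∑ j ∈ Finset.range (J + 1), m ^ j • PowerSeries.coeff j f, ?_, ?_⟩
  · refine Submodule.sum_mem _ fun j hj => Submodule.smul_mem _ _ ?_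
    exact W_mono (by have := Finset.mem_range.1 hj; omega) (hg j)
  · have h2 := hA.2.summable.sum_add_tsum_nat_add (J + 1)
    rw [hA.2.tsum_eq] at h2
    rw [← h2, add_sub_cancel_left]
    have hn : ∀ j, ‖m ^ (j + (J + 1)) • PowerSeries.coeff (j + (J + 1)) f‖ ≤
        m ^ (J + 1) * m ^ j := by
      intro j
      rw [norm_smul, norm_pow, Real.norm_of_nonneg h0]
      have h3 : m ^ (J + 1) * m ^ j = m ^ (j + (J + 1)) * 1 := by
        rw [mul_one, pow_add m j, mul_comm]
      rw [h3]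
      exact mul_le_mul_of_nonneg_left (hf _) (pow_nonneg h0 _)
    have hg2 := (summable_geometric_of_lt_one h0 h1).mul_left (m ^ (J + 1))
    have h4 := tsum_of_norm_bounded (f := fun j =>
      m ^ (j + (J + 1)) • PowerSeries.coeff (j + (J + 1)) f) hg2.hasSum hn
    rw [tsum_mul_left, tsum_geometric_of_lt_one h0 h1] at h4
    rw [div_eq_mul_inv]
    exact h4

end Pool.H6.QL
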