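import Mathlib
import Pool.Agent.H6.QL.PwB
import Pool.Agent.H6.QL.PwC
import Pool.Agent.H6.QL.PwD

set_option autoImplicit false

/-!
# [H6 QL PWE] LOCALITY of the Cayley transforms

`ser_good`, by induction on `F`: `var`: `good_leaf` (`X_norm`), `evs_leaf` (`X_opnorm`). `neg`:
`good_inv`; the coefficients of the inverse are bounded (`good_coef`), so it is summable with a sum
`B` (`evs_of_bdd`), and `cop F * B = 1 = B * cop F` by `evs_mul`, `unit_of_const`, `evs_C` (`1`),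
`evs_unique`; so `B = Ring.inverse (cop F)` (`inv_fc` with `cop_pos`, or uniqueness of inverses).
`or`: `good_lin`, `evs_lin`, with `kap > 0` (`wt_pos`).
`locality`: `good_cay` gives `m`; `evs_of_bdd`: `Evs (mu lam) m A`; `evs_mul` and `evs_unique`:
`A * (c + τ) = c - τ` (`c = cop F`), so `A = (c - τ)(c + τ)⁻¹ = fc c (cay τ)`: indeed
`fc c (cay τ) * (c + τ) = c - τ` by `fc_mul`, `fc_id`, `fc_const`, `fc_add`, `fc_congr`, and `c + τ` is
invertible (`fc c (fun t => (t + τ)⁻¹)`). Then `evs_tail`. `0 ≤ mu lam < 1` for `lam ≥ 1`.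
-/

namespace Pool.H6.QL

variable {H : Type} [NormedAddCommGroup H] [InnerProductSpace ℝ H] [FiniteDimensional ℝ H]
variable {ι : Type} {X : ι → Op H}

private theorem pwe_mu {lam : ℝ} (hlam : 1 ≤ lam) : 0 ≤ mu lam ∧ mu lam < 1 := by
  refine ⟨div_nonneg (by linarith) (by linarith), ?_⟩
  unfold mu
  rw [div_lt_one (by linarith)]
  linarith

private theorem pwe_kap {a b : ℝ} (ha : 0 < a) : 0 < kap a b :=
  div_pos ha (Real.sqrt_pos.2 (by positivity))

theorem ser_good {lam del : ℝ} (hlam : 1 ≤ lam) (hdel : 0 ≤ del) (hsq : ∀ i, X i * X i = 1)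
    (hsym : ∀ i u v, inner ℝ (X i u) v = inner ℝ u (X i v)) (F : Bf ι) :
    (∃ γ, Good X (ser lam del X F) γ) ∧ Evs (mu lam) (ser lam del X F) (cop lam del X F) := by
  obtain ⟨h0, h1⟩ := pwe_mu hlam
  induction F with
  | var i =>
    exact ⟨⟨1, good_leaf (fun i v => (X_norm hsq hsym i v).le) i⟩,
      evs_leaf hlam (hsq i) (X_opnorm hsq hsym i)⟩
  | neg F ih =>
    obtain ⟨⟨γ, hg⟩, he⟩ := ih
    have hgi := good_inv hg
    refine ⟨⟨γ⁻¹, hgi⟩, ?_⟩
    obtain ⟨B, hB⟩ := evs_of_bdd h0 h1 (good_coef hgi)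
    have h2 := evs_mul he hB
    rw [(unit_of_const hg.pos hg.const).1, ← map_one PowerSeries.C] at h2
    have h3 : cop lam del X F * B = 1 := evs_unique h2 (evs_C (mu lam) 1)
    have hp := cop_pos (lam := lam) (del := del) hlam hdel hsq hsym F
    have hl : 0 < (lam ^ 2 * wt lam del F)⁻¹ := by
      have := wt_pos (lam := lam) (del := del) hlam hdel F
      have : 0 < lam := by linarith
      positivity
    obtain ⟨-, -, h4⟩ := inv_fc hp hl
    have h5 : B = Ring.inverse (cop lam del X F) := by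
      calc B = (Ring.inverse (cop lam del X F) * cop lam del X F) * B := by rw [h4, one_mul]
        _ = Ring.inverse (cop lam del X F) := by rw [mul_assoc, h3, mul_one]
    rw [h5] at hB
    exact hB
  | or F G ihF ihG =>
    obtain ⟨⟨γ, hg⟩, he⟩ := ihF
    obtain ⟨⟨γ', hg'⟩, he'⟩ := ihG
    exact ⟨⟨_, good_lin hg hg' (pwe_kap (wt_pos hlam hdel F)) (pwe_kap (wt_pos hlam hdel G))⟩,
      evs_lin he he'⟩

theorem locality {lam del : ℝ} (hlam : 1 ≤ lam) (hdel : 0 ≤ del) (hsq : ∀ i, X i * X i = 1)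
    (hsym : ∀ i u v, inner ℝ (X i u) v = inner ℝ u (X i v)) (F : Bf ι) {τ : ℝ} (hτ : 0 < τ)
    (J : ℕ) :
    ∃ B ∈ W X J, ‖fc (cop lam del X F) (cay τ) - B‖ ≤ mu lam ^ (J + 1) / (1 - mu lam) := by
  obtain ⟨h0, h1⟩ := pwe_mu hlam
  obtain ⟨⟨γ, hg⟩, he⟩ := ser_good hlam hdel hsq hsym F
  obtain ⟨m, hm, hgr, hco⟩ := good_cay hg hτ
  obtain ⟨A, hA⟩ := evs_of_bdd h0 h1 hco
  obtain ⟨c, hc⟩ : ∃ c, c = cop lam del X F := ⟨_, rfl⟩
  rw [← hc] at he
  have hp := cop_pos (lam := lam) (del := del) hlam hdel hsq hsym F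
  have hl : 0 < (lam ^ 2 * wt lam del F)⁻¹ := by
    have := wt_pos (lam := lam) (del := del) hlam hdel F
    have : 0 < lam := by linarith
    positivity
  rw [← hc] at hp
  have e1 : Evs (mu lam) (ser lam del X F + PowerSeries.C (τ • (1 : Op H)))
      (c + τ • (1 : Op H)) := by
    have h2 := evs_lin (a := 1) (b := 1) he (evs_C (mu lam) (τ • (1 : Op H)))
    rw [one_smul, one_smul, one_smul, one_smul] at h2
    exact h2
  have e2 : Evs (mu lam) (ser lam del X F - PowerSeries.C (τ • (1 : Op H)))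
      (c - τ • (1 : Op H)) := by
    have h2 := evs_lin (a := 1) (b := -1) he (evs_C (mu lam) (τ • (1 : Op H)))
    rw [one_smul, one_smul, neg_one_smul, neg_one_smul, ← sub_eq_add_neg, ← sub_eq_add_neg] at h2
    exact h2
  have e3 := evs_mul hA e1
  rw [hm] at e3
  have e4 : A * (c + τ • (1 : Op H)) = c - τ • (1 : Op H) := evs_unique e3 e2
  have f1 : c + τ • (1 : Op H) = fc c (fun t => t + τ) := by
    rw [← fc_add hp, fc_id hp, fc_const hp]
  have f2 : c - τ • (1 : Op H) = fc c (fun t => t - τ) := by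
    rw [← fc_sub hp, fc_id hp, fc_const hp]
  have f3 : fc c (cay τ) * (c + τ • (1 : Op H)) = c - τ • (1 : Op H) := by
    rw [f1, f2, fc_mul hp]
    refine fc_congr hp fun t ht _ => ?_
    have h3 : t + τ ≠ 0 := by linarith
    rw [cay, div_mul_cancel₀ _ h3]
  have f4 : (c + τ • (1 : Op H)) * fc c (fun t => (t + τ)⁻¹) = 1 := by
    rw [f1, fc_mul hp]
    have h4 : fc c (fun t => (t + τ) * (t + τ)⁻¹) = fc c (fun _ => 1) := by
      refine fc_congr hp fun t ht _ => ?_
      have h3 : t + τ ≠ 0 := by linarith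
      rw [mul_inv_cancel₀ h3]
    rw [h4, fc_const hp, one_smul]
  have f5 : A = fc c (cay τ) := by
    calc A = A * ((c + τ • (1 : Op H)) * fc c (fun t => (t + τ)⁻¹)) := by rw [f4, mul_one]
      _ = fc c (cay τ) * ((c + τ • (1 : Op H)) * fc c (fun t => (t + τ)⁻¹)) := by
        rw [← mul_assoc, e4, ← f3, mul_assoc]
      _ = fc c (cay τ) := by rw [f4, mul_one]
  rw [← hc, ← f5]
  exact evs_tail h0 h1 hA hco hgr J

end Pool.H6.QL
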