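import Mathlib
import Pool.Agent.H6.QL.PwE
import Pool.Agent.H6.QL.Bfs

set_option autoImplicit false

/-!
# [H6 QL BH] Low degree approximations of `bfn N τ (c(F))`

`locality` gives `B ∈ W J` with `‖fc c (cay τ) - B‖ ≤ θ := mu^(J+1)/(1-mu) ≤ 1`, and
`‖fc c (cay τ)‖ ≤ 1` (`fc_norm`, `cop_pos`: on `[lo, hi]`, `lo > 0`, `|cay τ t| ≤ 1`), so `‖B‖ ≤ 2`.
`aeval (fc c (cay τ)) (bpol N) = fc c (bfn N τ)` (`fc_aeval`), `bpol_pert`, `bpol_mem_W`.
-/

namespace Pool.H6.QL

variable {H : Type} [NormedAddCommGroup H] [InnerProductSpace ℝ H] [FiniteDimensional ℝ H]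
variable {ι : Type} {X : ι → Op H}

theorem bh_exists {lam del η : ℝ} (hlam : 1 ≤ lam) (hdel : 0 ≤ del) (hsq : ∀ i, X i * X i = 1)
    (hsym : ∀ i u v, inner ℝ (X i u) v = inner ℝ u (X i v)) (N J : ℕ)
    (h1 : mu lam ^ (J + 1) / (1 - mu lam) ≤ 1)
    (h2 : N * 3 ^ N * (mu lam ^ (J + 1) / (1 - mu lam)) ≤ η) :
    ∃ b : Bf ι → ℝ → Op H, ∀ F τ, 0 < τ →
      b F τ ∈ W X (N * J) ∧ ‖b F τ - fc (cop lam del X F) (bfn N τ)‖ ≤ η := by
  have key : ∀ (F : Bf ι) (τ : ℝ), ∃ b : Op H, 0 < τ →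
      b ∈ W X (N * J) ∧ ‖b - fc (cop lam del X F) (bfn N τ)‖ ≤ η := by
    intro F τ
    by_cases hτ : 0 < τ
    · obtain ⟨B, hB, hAB⟩ := locality hlam hdel hsq hsym F hτ J
      have hp := cop_pos (lam := lam) (del := del) hlam hdel hsq hsym F
      have hl : 0 < (lam ^ 2 * wt lam del F)⁻¹ := by
        have := wt_pos (lam := lam) (del := del) hlam hdel F
        have : 0 < lam := by linarith
        positivity
      have hA : ‖fc (cop lam del X F) (cay τ)‖ ≤ 1 := by
        refine ContinuousLinearMap.opNorm_le_bound _ zero_le_one fun v => ?_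
        refine fc_norm hp zero_le_one (fun t ht _ => ?_) v
        have h3 : 0 < t := lt_of_lt_of_le hl ht
        rw [cay, abs_div, abs_of_pos (by linarith : 0 < t + τ), div_le_one (by linarith), abs_le]
        constructor <;> linarith
      have hB2 : ‖B‖ ≤ 2 := by
        have h3 : B = fc (cop lam del X F) (cay τ) - (fc (cop lam del X F) (cay τ) - B) := by abel
        rw [h3]
        refine (norm_sub_le _ _).trans ?_
        linarith
      refine ⟨Polynomial.aeval B (bpol N), fun _ => ⟨bpol_mem_W N hB, ?_⟩⟩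
      have h3 := bpol_pert N hA hB2
      rw [fc_aeval hp] at h3
      rw [norm_sub_rev]
      refine h3.trans (le_trans ?_ h2)
      exact mul_le_mul_of_nonneg_left hAB (by positivity)
    · exact ⟨0, fun h => absurd h hτ⟩
  choose b hb using key
  exact ⟨b, hb⟩

end Pool.H6.QL
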