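import Mathlib
import Pool.Agent.H6.QL.Bfs
import Pool.Agent.H6.QL.PosC

set_option autoImplicit false

/-!
# THEOREM QL, chapters 3 and 4: parameters and low degree near-projections
-/

namespace Pool.H6.QL

variable {H : Type} [NormedAddCommGroup H] [InnerProductSpace ℝ H] {ι : Type}

/-- The parameters of the dichotomy chapter: `b F τ` is a word polynomial of degree `R` which is
`η`-close to `bfn N τ (c(F))`. -/
structure Par (X : ι → Op H) (L : ℕ → Submodule ℝ H) (K : ℕ) (lam del η : ℝ) (N R : ℕ)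
    (b : Bf ι → ℝ → Op H) : Prop where
  wld : IsWorld X L K
  lam4 : 4 ≤ lam
  del0 : 0 < del
  del1 : del ≤ 1 / 10
  eta0 : 0 < η
  eta1 : η ≤ 1 / 100
  odd : Odd N
  win : Real.exp (-(N : ℝ) * del ^ 2 / 18) ≤ η
  mem : ∀ F τ, 0 < τ → b F τ ∈ W X R
  apx : ∀ F τ, 0 < τ → ‖b F τ - fc (cop lam del X F) (bfn N τ)‖ ≤ η

/-- `c(F) ≥ 1/a(F)`, approximately; nearly zero for `c(F) ≤ 1/(a(F)(1+del)²)`. -/
noncomputable def hh (lam del : ℝ) (b : Bf ι → ℝ → Op H) (F : Bf ι) : Op H :=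
  b F (wt lam del F * (1 + del))⁻¹

/-- Nearly one for `c(F) ≥ a(F)(1+del)²`, nearly zero for `c(F) ≤ a(F)`. -/
noncomputable def uu (lam del : ℝ) (b : Bf ι → ℝ → Op H) (F : Bf ι) : Op H :=
  b F (wt lam del F * (1 + del))

/-- The error of the dichotomy for `F`. -/
noncomputable def ef (lam del η : ℝ) (F : Bf ι) : ℝ :=
  4 ^ (F.dp + 1) * (40 * lam / Real.sqrt del) * η

end Pool.H6.QL
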