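import Mathlib
import Pool.Agent.H6.QL.Spc

set_option autoImplicit false

/-!
# [H6 QL TRU] The operator monotonicity lemma (true side)

`A ≥ κ B` (forms), `c` is `ρ`-close to the spectral subspace `A ≤ α` and `ρ`-close to `B ≥ β`, with
`(1 + δ) α ≤ κ β`. Then `‖c‖ ≤ 3 ρ / sqrt δ`.

Proof. `R := fc A (fun t => (α + t)⁻¹)`, the inverse of `α + A`.
(i) `⟨R c, c⟩ ≥ (2α)⁻¹ (‖c‖² - ρ²)`: `(α + t)⁻¹ ≥ (2α)⁻¹ 1_(t ≤ α)` (`fc_inner_le`), and
`⟨fc A 1_(t ≤ α) c, c⟩ = ‖c‖² - ⟨fc A 1_(t > α) c, c⟩ = ‖c‖² - ‖fc A 1_(t > α) c‖²`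
(`fc_mul`, `fc_sym`, `fc_add`, `fc_const`: indicator functions).
(ii) `⟨R c, c⟩ ≤ ⟨S c, c⟩`, `S := fc B (fun t => (α + κ t)⁻¹)` the inverse of `α + κ B`: for all `v`:
`2⟨c, v⟩ - ⟨(α + κ B) v, v⟩ ≤ ⟨S c, c⟩` (complete the square: `⟨S w, w⟩ ≥ 0` for
`w = (α + κB) v - c`), take `v = R c`: `2⟨c, v⟩ - ⟨(α + κ B) v, v⟩ ≥ 2⟨c,v⟩ - ⟨(α + A) v, v⟩ = ⟨R c, c⟩`.
(iii) `⟨S c, c⟩ ≤ (α + κβ)⁻¹ ‖c‖² + α⁻¹ ρ²`: `(α + κ t)⁻¹ ≤ (α + κβ)⁻¹ + α⁻¹ 1_(t < β)`.
(iv) `α + κβ ≥ (2 + δ) α`. So `(1/2 - 1/(2+δ)) ‖c‖² ≤ (1/2 + 1) ρ²`, and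
`1/2 - 1/(2+δ) = δ/(2(2+δ)) ≥ δ/6` for `δ ≤ 1`.
-/

namespace Pool.H6.QL

variable {H : Type} [NormedAddCommGroup H] [InnerProductSpace ℝ H] [FiniteDimensional ℝ H]

private theorem fc_affine {A : Op H} {lo hi : ℝ} (hA : Pos A lo hi) (a b : ℝ) (f : ℝ → ℝ) (c : H) :
    inner ℝ (fc A (fun t => a + b * f t) c) c = a * ‖c‖ ^ 2 + b * inner ℝ (fc A f c) c := by
  rw [← fc_add hA (fun _ => a) (fun t => b * f t), ← fc_smul hA, fc_const hA]
  rw [ContinuousLinearMap.add_apply, inner_add_left, ContinuousLinearMap.smul_apply,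
    ContinuousLinearMap.smul_apply, ContinuousLinearMap.one_apply, inner_smul_left, inner_smul_left,
    real_inner_self_eq_norm_sq]
  rfl

private theorem fc_ind {A : Op H} {lo hi : ℝ} (hA : Pos A lo hi) {f : ℝ → ℝ}
    (hf : ∀ t, f t * f t = f t) (c : H) : inner ℝ (fc A f c) c = ‖fc A f c‖ ^ 2 := by
  have h1 : fc A f * fc A f = fc A f := by
    rw [fc_mul hA]
    congr 1
    funext t
    exact hf t
  rw [← real_inner_self_eq_norm_sq]
  rw [fc_sym hA f c (fc A f c)]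
  rw [← ContinuousLinearMap.mul_apply, h1, real_inner_comm]

private theorem fc_inv_aux {A : Op H} {lo hi : ℝ} (hA : Pos A lo hi) (hlo : 0 < lo) {α κ : ℝ}
    (hα : 0 < α) (hκ : 0 < κ) (v : H) :
    α • fc A (fun t => (α + κ * t)⁻¹) v + κ • A (fc A (fun t => (α + κ * t)⁻¹) v) = v ∧
    fc A (fun t => (α + κ * t)⁻¹) (α • v + κ • A v) = v := by
  have h0 : fc A (fun t => α + κ * t) = α • (1 : Op H) + κ • A := by
    rw [← fc_add hA (fun _ => α) (fun t => κ * t), ← fc_smul hA κ (fun t => t), fc_const hA, fc_id hA]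
  have h1 : fc A (fun t => α + κ * t) * fc A (fun t => (α + κ * t)⁻¹) = 1 := by
    rw [fc_mul hA, fc_congr hA (g := fun _ => 1), fc_const hA, one_smul]
    intro t ht _
    have : 0 < α + κ * t := add_pos hα (mul_pos hκ (lt_of_lt_of_le hlo ht))
    exact mul_inv_cancel₀ this.ne'
  have h2 : fc A (fun t => (α + κ * t)⁻¹) * fc A (fun t => α + κ * t) = 1 := by
    rw [fc_mul hA, fc_congr hA (g := fun _ => 1), fc_const hA, one_smul]
    intro t ht _
    have : 0 < α + κ * t := add_pos hα (mul_pos hκ (lt_of_lt_of_le hlo ht))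
    exact inv_mul_cancel₀ this.ne'
  rw [h0] at h1 h2
  constructor
  · have h3 := congrArg (fun T : Op H => T v) h1
    simpa using h3
  · have h3 := congrArg (fun T : Op H => T v) h2
    simpa using h3

open Classical in
theorem trueL {A B : Op H} {loA hiA loB hiB : ℝ} (hA : Pos A loA hiA) (hB : Pos B loB hiB)
    (hloA : 0 < loA) (hloB : 0 < loB) {κ α β δ ρ : ℝ} (hκ : 0 < κ) (hα : 0 < α) (hδ : 0 < δ)
    (hδ1 : δ ≤ 1) (hρ : 0 ≤ ρ) (hAB : ∀ u, κ * inner ℝ (B u) u ≤ inner ℝ (A u) u)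
    (hβ : (1 + δ) * α ≤ κ * β) {c : H}
    (h1 : ‖fc A (fun t => if α < t then 1 else 0) c‖ ≤ ρ)
    (h2 : ‖fc B (fun t => if t < β then 1 else 0) c‖ ≤ ρ) :
    ‖c‖ ≤ 3 * ρ / Real.sqrt δ := by
  have hκβ : 0 < α + κ * β := by nlinarith
  -- (i)
  have hi : (2 * α)⁻¹ * (‖c‖ ^ 2 - ρ ^ 2) ≤ inner ℝ (fc A (fun t => (α + 1 * t)⁻¹) c) c := by
    have h3 := fc_inner_le hA (f := fun t => (2 * α)⁻¹ + (-(2 * α)⁻¹) * (if α < t then 1 else 0))
      (g := fun t => (α + 1 * t)⁻¹) (by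
        intro t ht _
        have htp : 0 < t := lt_of_lt_of_le hloA ht
        by_cases hat : α < t
        · simp only [hat, if_true]
          rw [mul_one, add_neg_cancel]
          positivity
        · simp only [hat, if_false]
          rw [mul_zero, add_zero]
          apply inv_anti₀ (by positivity)
          linarith) c
    rw [fc_affine hA, fc_ind hA (fun t => by split_ifs <;> norm_num)] at h3
    have h4 : ‖fc A (fun t => if α < t then 1 else 0) c‖ ^ 2 ≤ ρ ^ 2 :=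
      pow_le_pow_left₀ (norm_nonneg _) h1 2
    have h5 : 0 < (2 * α)⁻¹ := by positivity
    nlinarith
  -- (iii)
  have hiii : inner ℝ (fc B (fun t => (α + κ * t)⁻¹) c) c ≤
      (α + κ * β)⁻¹ * ‖c‖ ^ 2 + α⁻¹ * ρ ^ 2 := by
    have h3 := fc_inner_le hB (f := fun t => (α + κ * t)⁻¹)
      (g := fun t => (α + κ * β)⁻¹ + α⁻¹ * (if t < β then 1 else 0)) (by
        intro t ht _
        have htp : 0 < t := lt_of_lt_of_le hloB ht
        by_cases hat : t < β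
        · simp only [hat, if_true]
          rw [mul_one]
          have h4 : (α + κ * t)⁻¹ ≤ α⁻¹ := by
            apply inv_anti₀ hα
            have := mul_pos hκ htp
            linarith
          have h5 : 0 < (α + κ * β)⁻¹ := inv_pos.2 hκβ
          linarith
        · simp only [hat, if_false]
          rw [mul_zero, add_zero]
          apply inv_anti₀ hκβ
          have : κ * β ≤ κ * t := mul_le_mul_of_nonneg_left (not_lt.1 hat) hκ.le
          linarith) c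
    rw [fc_affine hB, fc_ind hB (f := fun t => if t < β then (1 : ℝ) else 0)
      (fun t => by split_ifs <;> norm_num)] at h3
    have h4 : ‖fc B (fun t => if t < β then 1 else 0) c‖ ^ 2 ≤ ρ ^ 2 :=
      pow_le_pow_left₀ (norm_nonneg _) h2 2
    have h5 : 0 < α⁻¹ := by positivity
    nlinarith
  -- (ii)
  have hii : inner ℝ (fc A (fun t => (α + 1 * t)⁻¹) c) c ≤
      inner ℝ (fc B (fun t => (α + κ * t)⁻¹) c) c := by
    obtain ⟨v, hv⟩ : ∃ v, v = fc A (fun t => (α + 1 * t)⁻¹) c := ⟨_, rfl⟩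
    obtain ⟨s, hs⟩ : ∃ s, s = fc B (fun t => (α + κ * t)⁻¹) c := ⟨_, rfl⟩
    have e1 : α • v + A v = c := by
      have := (fc_inv_aux hA hloA hα one_pos c).1
      rw [← hv, one_smul] at this
      exact this
    have e2 : fc B (fun t => (α + κ * t)⁻¹) (α • v + κ • B v) = v :=
      (fc_inv_aux hB hloB hα hκ v).2
    have e3 : 0 ≤ inner ℝ (fc B (fun t => (α + κ * t)⁻¹) (α • v + κ • B v - c))
        (α • v + κ • B v - c) := by
      have h3 := fc_inner_le hB (f := fun _ => 0) (g := fun t => (α + κ * t)⁻¹) (by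
        intro t ht _
        have htp : 0 < t := lt_of_lt_of_le hloB ht
        positivity) (α • v + κ • B v - c)
      rw [fc_const hB, zero_smul, ContinuousLinearMap.zero_apply, inner_zero_left] at h3
      exact h3
    rw [map_sub, e2, ← hs] at e3
    have e4 : inner ℝ s (α • v + κ • B v) = inner ℝ c v := by
      rw [hs, fc_sym hB, e2]
    have e5 : inner ℝ (v - s) (α • v + κ • B v - c) =
        inner ℝ v (α • v + κ • B v) - inner ℝ v c - inner ℝ c v + inner ℝ s c := by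
      rw [inner_sub_left, inner_sub_right, inner_sub_right, e4]
      ring
    rw [e5] at e3
    have e6 : inner ℝ v (α • v + κ • B v) = α * ‖v‖ ^ 2 + κ * inner ℝ (B v) v := by
      rw [inner_add_right, inner_smul_right, inner_smul_right, real_inner_self_eq_norm_sq,
        real_inner_comm v (B v)]
    have e7 : inner ℝ v c = α * ‖v‖ ^ 2 + inner ℝ (A v) v := by
      conv_lhs => rw [← e1]
      rw [inner_add_right, inner_smul_right, real_inner_self_eq_norm_sq, real_inner_comm v (A v)]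
    have e8 := hAB v
    have e9 : inner ℝ c v = inner ℝ v c := real_inner_comm _ _
    rw [← hv, ← hs]
    linarith
  -- (iv)
  have h6 : (α + κ * β)⁻¹ ≤ ((2 + δ) * α)⁻¹ := by
    apply inv_anti₀ (by positivity)
    linarith
  have h7 : (2 * α)⁻¹ * (‖c‖ ^ 2 - ρ ^ 2) ≤ ((2 + δ) * α)⁻¹ * ‖c‖ ^ 2 + α⁻¹ * ρ ^ 2 := by
    have h8 : (α + κ * β)⁻¹ * ‖c‖ ^ 2 ≤ ((2 + δ) * α)⁻¹ * ‖c‖ ^ 2 :=
      mul_le_mul_of_nonneg_right h6 (sq_nonneg _)
    linarith
  have h9 : ‖c‖ ^ 2 * δ ≤ (3 * ρ) ^ 2 := by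
    have h10 : (2 + δ) * (‖c‖ ^ 2 - ρ ^ 2) ≤ 2 * ‖c‖ ^ 2 + 2 * (2 + δ) * ρ ^ 2 := by
      have h11 := mul_le_mul_of_nonneg_left h7 (show 0 ≤ 2 * (2 + δ) * α by positivity)
      have h12 : 2 * (2 + δ) * α * ((2 * α)⁻¹ * (‖c‖ ^ 2 - ρ ^ 2)) =
          (2 + δ) * (‖c‖ ^ 2 - ρ ^ 2) := by
        field_simp
      have h13 : 2 * (2 + δ) * α * (((2 + δ) * α)⁻¹ * ‖c‖ ^ 2 + α⁻¹ * ρ ^ 2) =
          2 * ‖c‖ ^ 2 + 2 * (2 + δ) * ρ ^ 2 := by
        field_simp
      rw [h12, h13] at h11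
      exact h11
    nlinarith [sq_nonneg ρ]
  rw [le_div_iff₀ (Real.sqrt_pos.2 hδ)]
  have h14 : (‖c‖ * Real.sqrt δ) ^ 2 ≤ (3 * ρ) ^ 2 := by
    rw [mul_pow, Real.sq_sqrt hδ.le]
    exact h9
  exact (pow_le_pow_iff_left₀ (by positivity) (by positivity) two_ne_zero).1 h14

end Pool.H6.QL
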