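import Mathlib
import Pool.Agent.H6.QL.DiDefs
import Pool.Agent.H6.QL.TruL

set_option autoImplicit false

/-!
# [H6 QL DIT] Local lemma, true side: `c(F) ≥ 1/a(F)` forces `c(F ∨ G) ≥ 1/a(F ∨ G)`

`M = F ∨ G`, `a = wt F`, `a' = wt G`, `r = sqrt (a² + a'²)`, `aM = wt M = (1+δ)³ r ≤ 1/4`, `κ = kap a a' = a / r`.
`nrm_b`: `‖b F τ‖ ≤ 1 + η`, `‖1 - b F τ‖ ≤ 1 + η` (`apx`, `fc_norm`, `bfn_mem`; `1 - fc = fc (1 - ·)`).
`chi := (1 - hh M)(hh F p) = hh F ((1 - hh M) p)` (`world_comm`, `k + 2R ≤ K`).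
(i) `‖fc c(M) 1_(t > aM⁻¹) chi‖ ≤ 2η ‖hh F p‖`: `1 - hh M` is `η`-close to `fc c(M) (1 - bfn (aM(1+δ))⁻¹)`,
    and for `t > aM⁻¹ = (1+δ)(aM(1+δ))⁻¹` this function is in `[0, η]` (`bfn_hi`); `fc_mul`, `fc_norm`.
(ii) `‖fc c(F) 1_(t < β) chi‖ ≤ 2η ‖(1 - hh M) p‖`, `β := (a (1+δ)²)⁻¹`: for `t < β`,
    `t (1+δ) ≤ (a(1+δ))⁻¹`, so `bfn ≤ η` (`bfn_lo`).
(iii) `trueL` with `A = c(M)`, `B = c(F)`, `α = aM⁻¹`, `δ`, `ρ = 2η(1+η)‖p‖`: `A = κ B + κ' C`, `C ≥ 0`
    gives the form inequality; `κ β = (r (1+δ)²)⁻¹ = (1+δ) aM⁻¹`. Result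
    `‖chi‖ ≤ 6η(1+η)‖p‖/sqrt δ ≤ 7η‖p‖/sqrt δ`.
`locT'`: the same for `G` (the weights in `cop (F.or G)` are symmetric).
-/

namespace Pool.H6.QL

variable {H : Type} [NormedAddCommGroup H] [InnerProductSpace ℝ H] [FiniteDimensional ℝ H]
variable {ι : Type} {X : ι → Op H} {L : ℕ → Submodule ℝ H} {K N R : ℕ} {lam del η : ℝ}
  {b : Bf ι → ℝ → Op H}

private theorem lam1 (h : Par X L K lam del η N R b) : 1 ≤ lam := by
  linarith [h.lam4]

private theorem pcop (h : Par X L K lam del η N R b) (F : Bf ι) :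
    Pos (cop lam del X F) (lam ^ 2 * wt lam del F)⁻¹ (lam ^ 2 * wt lam del F) :=
  cop_pos (lam1 h) h.del0.le h.wld.sq h.wld.sym F

private theorem lo_pos (h : Par X L K lam del η N R b) (F : Bf ι) :
    0 < (lam ^ 2 * wt lam del F)⁻¹ := by
  have h1 := wt_pos (lam1 h) h.del0.le F
  have h2 := lam1 h
  positivity

private theorem fc_op {A : Op H} {lo hi : ℝ} (hA : Pos A lo hi) {f : ℝ → ℝ} {M : ℝ} (hM : 0 ≤ M)
    (hf : ∀ t, lo ≤ t → t ≤ hi → |f t| ≤ M) : ‖fc A f‖ ≤ M :=
  ContinuousLinearMap.opNorm_le_bound _ hM fun v => fc_norm hA hM hf v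

theorem nrm_b (h : Par X L K lam del η N R b) (F : Bf ι) {τ : ℝ} (hτ : 0 < τ) :
    ‖b F τ‖ ≤ 1 + η ∧ ‖1 - b F τ‖ ≤ 1 + η := by
  have hA := pcop h F
  have h1 := h.apx F τ hτ
  have hb : ∀ t, (lam ^ 2 * wt lam del F)⁻¹ ≤ t → 0 ≤ bfn N τ t ∧ bfn N τ t ≤ 1 := fun t ht =>
    bfn_mem N hτ (lt_of_lt_of_le (lo_pos h F) ht)
  have h2 : ‖fc (cop lam del X F) (bfn N τ)‖ ≤ 1 := fc_op hA zero_le_one fun t ht _ => by
    rw [abs_of_nonneg (hb t ht).1]
    exact (hb t ht).2
  have h3 : ‖fc (cop lam del X F) (fun t => 1 - bfn N τ t)‖ ≤ 1 := fc_op hA zero_le_one fun t ht _ => by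
    rw [abs_of_nonneg (sub_nonneg.2 (hb t ht).2)]
    linarith [(hb t ht).1]
  constructor
  · have h4 : b F τ = fc (cop lam del X F) (bfn N τ) + (b F τ - fc (cop lam del X F) (bfn N τ)) := by
      abel
    rw [h4]
    exact (norm_add_le _ _).trans (add_le_add h2 h1)
  · have h4 : 1 - b F τ = fc (cop lam del X F) (fun t => 1 - bfn N τ t) -
        (b F τ - fc (cop lam del X F) (bfn N τ)) := by
      rw [← fc_sub hA (fun _ => 1) (bfn N τ), fc_const hA, one_smul]
      abel
    rw [h4]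
    exact (norm_sub_le _ _).trans (add_le_add h3 h1)

/-- an operator close to a function of `A` whose product with `f` is small -/
private theorem cut {A : Op H} {lo hi : ℝ} (hA : Pos A lo hi) {f g : ℝ → ℝ} {B : Op H}
    (hη : 0 ≤ η) (hB : ‖B - fc A g‖ ≤ η) (hf : ∀ t, lo ≤ t → t ≤ hi → |f t| ≤ 1)
    (hfg : ∀ t, lo ≤ t → t ≤ hi → |f t * g t| ≤ η) (q : H) :
    ‖fc A f (B q)‖ ≤ 2 * η * ‖q‖ := by
  have h1 : fc A f (B q) = fc A (fun t => f t * g t) q + fc A f ((B - fc A g) q) := by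
    rw [← fc_mul hA, ContinuousLinearMap.mul_apply, sub_apply, map_sub]
    abel
  have h2 := fc_norm hA hη hfg q
  have h3 := fc_norm hA zero_le_one hf ((B - fc A g) q)
  have h4 : ‖(B - fc A g) q‖ ≤ η * ‖q‖ :=
    ((B - fc A g).le_opNorm q).trans (mul_le_mul_of_nonneg_right hB (norm_nonneg _))
  rw [h1]
  refine (norm_add_le _ _).trans ?_
  linarith

private theorem loc_aux (h : Par X L K lam del η N R b) (F M : Bf ι) {κ : ℝ} (hκ : 0 < κ)
    (hform : ∀ u, κ * inner ℝ (cop lam del X F u) u ≤ inner ℝ (cop lam del X M u) u)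
    (hβ : (1 + del) * (wt lam del M)⁻¹ ≤ κ * (wt lam del F * (1 + del) ^ 2)⁻¹)
    {k : ℕ} (hk : k + 2 * R ≤ K) {p : H} (hp : p ∈ L k) :
    ‖hh lam del b F p - hh lam del b M (hh lam del b F p)‖ ≤ 7 * η / Real.sqrt del * ‖p‖ := by
  classical
  have hd := h.del0
  have hd1 : del ≤ 1 := by linarith [h.del1]
  have haF := wt_pos (lam1 h) hd.le F
  have haM := wt_pos (lam1 h) hd.le M
  have hτF : 0 < (wt lam del F * (1 + del))⁻¹ := by positivity
  have hτM : 0 < (wt lam del M * (1 + del))⁻¹ := by positivity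
  have hη := h.eta0
  obtain ⟨chi, hchi⟩ : ∃ c, c = hh lam del b F p - hh lam del b M (hh lam del b F p) := ⟨_, rfl⟩
  have hchi1 : chi = (1 - hh lam del b M) (hh lam del b F p) := by
    rw [hchi, sub_apply, one_apply_eq_self]
  have hchi2 : chi = hh lam del b F ((1 - hh lam del b M) p) := by
    rw [hchi, sub_apply, one_apply_eq_self, map_sub]
    have hc : hh lam del b M (hh lam del b F p) = hh lam del b F (hh lam del b M p) :=
      world_comm h.wld (k := k) (a := R) (b := R) (by omega) (h.mem M _ hτM) (h.mem F _ hτF) hp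
    rw [hc]
  have n1 : ‖hh lam del b F p‖ ≤ (1 + η) * ‖p‖ :=
    (ContinuousLinearMap.le_opNorm _ _).trans
      (mul_le_mul_of_nonneg_right (nrm_b h F hτF).1 (norm_nonneg _))
  have n2 : ‖(1 - hh lam del b M) p‖ ≤ (1 + η) * ‖p‖ :=
    (ContinuousLinearMap.le_opNorm _ _).trans
      (mul_le_mul_of_nonneg_right (nrm_b h M hτM).2 (norm_nonneg _))
  have hρ : 0 ≤ 2 * η * ((1 + η) * ‖p‖) := by positivity
  have k1 : ‖fc (cop lam del X M) (fun t => if (wt lam del M)⁻¹ < t then 1 else 0) chi‖ ≤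
      2 * η * ((1 + η) * ‖p‖) := by
    rw [hchi1]
    refine (cut (η := η) (g := fun t => 1 - bfn N (wt lam del M * (1 + del))⁻¹ t) (pcop h M) hη.le ?_
      ?_ ?_ _).trans (mul_le_mul_of_nonneg_left n1 (by positivity))
    · have h4 : (1 - hh lam del b M) -
          fc (cop lam del X M) (fun t => 1 - bfn N (wt lam del M * (1 + del))⁻¹ t) =
          -(b M (wt lam del M * (1 + del))⁻¹ -
            fc (cop lam del X M) (bfn N (wt lam del M * (1 + del))⁻¹)) := by
        rw [← fc_sub (pcop h M) (fun _ => 1) (bfn N _), fc_const (pcop h M), one_smul]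
        unfold hh
        abel
      rw [h4, norm_neg]
      exact h.apx M _ hτM
    · intro t _ _
      split_ifs <;> norm_num
    · intro t ht _
      have ht0 : 0 < t := lt_of_lt_of_le (lo_pos h M) ht
      by_cases hc : (wt lam del M)⁻¹ < t
      · simp only [hc, if_true, one_mul]
        have h5 := bfn_hi h.odd hτM hd hd1 h.win (t := t) (by
          have : (1 + del) * (wt lam del M * (1 + del))⁻¹ = (wt lam del M)⁻¹ := by
            field_simp
          rw [this]
          exact hc.le)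
        have h6 := (bfn_mem N hτM ht0).2
        rw [abs_of_nonneg (sub_nonneg.2 h6)]
        linarith
      · simp only [hc, if_false, zero_mul, abs_zero]
        exact hη.le
  have k2 : ‖fc (cop lam del X F) (fun t => if t < (wt lam del F * (1 + del) ^ 2)⁻¹ then 1 else 0) chi‖ ≤
      2 * η * ((1 + η) * ‖p‖) := by
    rw [hchi2]
    refine (cut (η := η) (g := bfn N (wt lam del F * (1 + del))⁻¹) (pcop h F) hη.le
      (h.apx F _ hτF) ?_ ?_ _).trans (mul_le_mul_of_nonneg_left n2 (by positivity))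
    · intro t _ _
      split_ifs <;> norm_num
    · intro t ht _
      have ht0 : 0 < t := lt_of_lt_of_le (lo_pos h F) ht
      by_cases hc : t < (wt lam del F * (1 + del) ^ 2)⁻¹
      · simp only [hc, if_true, one_mul]
        have h5 := bfn_lo (N := N) hτF ht0 hd hd1 h.win (by
          have h7 : (wt lam del F * (1 + del) ^ 2)⁻¹ * (1 + del) = (wt lam del F * (1 + del))⁻¹ := by
            field_simp
          rw [← h7]
          exact mul_le_mul_of_nonneg_right hc.le (by positivity))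
        rw [abs_of_nonneg (bfn_mem N hτF ht0).1]
        exact h5
      · simp only [hc, if_false, zero_mul, abs_zero]
        exact hη.le
  have h5 := trueL (pcop h M) (pcop h F) (lo_pos h M) (lo_pos h F) hκ (inv_pos.2 haM) hd hd1 hρ hform
    hβ k1 k2
  rw [← hchi]
  refine h5.trans ?_
  have hs : 0 < Real.sqrt del := Real.sqrt_pos.2 hd
  rw [div_mul_eq_mul_div]
  refine div_le_div_of_nonneg_right ?_ hs.le
  have h7 := h.eta1
  have h8 : 0 ≤ η * ‖p‖ := by positivity
  nlinarith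

private theorem kap_pos {a c : ℝ} (ha : 0 < a) : 0 < kap a c := by
  unfold kap
  have h1 : 0 < a ^ 2 + c ^ 2 := by positivity
  exact div_pos ha (Real.sqrt_pos.2 h1)

private theorem cop_nonneg (h : Par X L K lam del η N R b) (F : Bf ι) (u : H) :
    0 ≤ inner ℝ (cop lam del X F u) u :=
  le_trans (mul_nonneg (lo_pos h F).le (sq_nonneg _)) ((pcop h F).lo u)

theorem locT (h : Par X L K lam del η N R b) (F G : Bf ι) (hw : wt lam del (F.or G) ≤ 1 / 4)
    {k : ℕ} (hk : k + 2 * R ≤ K) {p : H} (hp : p ∈ L k) :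
    ‖hh lam del b F p - hh lam del b (F.or G) (hh lam del b F p)‖ ≤
      7 * η / Real.sqrt del * ‖p‖ := by
  have haF := wt_pos (lam1 h) h.del0.le F
  have haG := wt_pos (lam1 h) h.del0.le G
  have hd := h.del0
  refine loc_aux h F (F.or G) (kap_pos (c := wt lam del G) haF) (fun u => ?_) ?_ hk hp
  · have h1 : cop lam del X (F.or G) = kap (wt lam del F) (wt lam del G) • cop lam del X F +
      kap (wt lam del G) (wt lam del F) • cop lam del X G := rfl
    rw [h1, add_apply, inner_add_left, smul_apply,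
      smul_apply, real_inner_smul_left, real_inner_smul_left]
    have h2 := mul_nonneg (kap_pos (c := wt lam del F) haG).le (cop_nonneg h G u)
    linarith
  · have h1 : wt lam del (F.or G) = (1 + del) ^ 3 *
      Real.sqrt (wt lam del F ^ 2 + wt lam del G ^ 2) := rfl
    have h2 : 0 < Real.sqrt (wt lam del F ^ 2 + wt lam del G ^ 2) := Real.sqrt_pos.2 (by positivity)
    rw [h1]
    unfold kap
    apply le_of_eq
    field_simp

theorem locT' (h : Par X L K lam del η N R b) (F G : Bf ι) (hw : wt lam del (F.or G) ≤ 1 / 4)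
    {k : ℕ} (hk : k + 2 * R ≤ K) {p : H} (hp : p ∈ L k) :
    ‖hh lam del b G p - hh lam del b (F.or G) (hh lam del b G p)‖ ≤
      7 * η / Real.sqrt del * ‖p‖ := by
  have haF := wt_pos (lam1 h) h.del0.le F
  have haG := wt_pos (lam1 h) h.del0.le G
  have hd := h.del0
  refine loc_aux h G (F.or G) (kap_pos (c := wt lam del F) haG) (fun u => ?_) ?_ hk hp
  · have h1 : cop lam del X (F.or G) = kap (wt lam del F) (wt lam del G) • cop lam del X F +
      kap (wt lam del G) (wt lam del F) • cop lam del X G := rfl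
    rw [h1, add_apply, inner_add_left, smul_apply,
      smul_apply, real_inner_smul_left, real_inner_smul_left]
    have h2 := mul_nonneg (kap_pos (c := wt lam del G) haF).le (cop_nonneg h F u)
    linarith
  · have h1 : wt lam del (F.or G) = (1 + del) ^ 3 *
      Real.sqrt (wt lam del G ^ 2 + wt lam del F ^ 2) := by
      rw [add_comm (wt lam del G ^ 2)]
      rfl
    have h2 : 0 < Real.sqrt (wt lam del G ^ 2 + wt lam del F ^ 2) := Real.sqrt_pos.2 (by positivity)
    rw [h1]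
    unfold kap
    apply le_of_eq
    field_simp

end Pool.H6.QL
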