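import Mathlib
import Pool.Agent.H6.QL.Spc

set_option autoImplicit false

/-!
# [H6 QL FAL] The additivity lemma (false side)

`A = κ B + κ' C`, `c` is `ρ`-close to `A ≥ α`, `B ≤ β`, `C ≤ β'`, `(1 + δ)(κβ + κ'β') ≤ α`,
`B, C ≤ M`. Then `‖c‖² (δ/2) α ≤ (α + (κ + κ') M) ρ²`, so
`‖c‖ ≤ 3 l ρ / sqrt δ` if `κ, κ' ≤ 1`, `M ≤ l² α`, `1 ≤ l`.

Proof. `⟨A c, c⟩ ≥ α ‖c‖² - α ρ²`: `t ≥ α - α 1_(t < α)` on the spectrum (`t > 0`). `⟨B c, c⟩ ≤ β ‖c‖² + M ρ²`: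
`t ≤ β + M 1_(t > β)`, same for `C` (`fc_inner_le` with `fc_id`, and
`⟨fc 1_I c, c⟩ = ‖fc 1_I c‖² ≤ ρ²`). So `α ‖c‖² - αρ² ≤ (κβ + κ'β') ‖c‖² + (κ + κ') M ρ²`,
`(κβ + κ'β') ≤ α/(1+δ)`, `α - α/(1+δ) = αδ/(1+δ) ≥ αδ/2`. Hence
`‖c‖² ≤ (2/δ)(1 + 2 l²) ρ² ≤ (6 l²/δ) ρ² ≤ (3 l ρ)²/δ`.
-/

namespace Pool.H6.QL

variable {H : Type} [NormedAddCommGroup H] [InnerProductSpace ℝ H] [FiniteDimensional ℝ H]

private theorem fc_affine {A : Op H} {lo hi : ℝ} (hA : Pos A lo hi) (a b : ℝ) (f : ℝ → ℝ) (c : H) :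
    inner ℝ (fc A (fun t => a + b * f t) c) c = a * ‖c‖ ^ 2 + b * inner ℝ (fc A f c) c := by
  rw [← fc_add hA (fun _ => a) (fun t => b * f t), ← fc_smul hA, fc_const hA]
  rw [ContinuousLinearMap.add_apply, inner_add_left, ContinuousLinearMap.smul_apply,
    ContinuousLinearMap.smul_apply, ContinuousLinearMap.one_apply, inner_smul_left, inner_smul_left,
    real_inner_self_eq_norm_sq]
  rfl

private theorem fc_ind {A : Op H} {lo hi : ℝ} (hA : Pos A lo hi) {f : ℝ → ℝ}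
    (hf : ∀ t, f t * f t = f t) (c : H) : inner ℝ (fc A f c) c = ‖fc A f c‖ ^ 2 := by
  have h1 : fc A f * fc A f = fc A f := by
    rw [fc_mul hA]
    congr 1
    funext t
    exact hf t
  rw [← real_inner_self_eq_norm_sq]
  rw [fc_sym hA f c (fc A f c)]
  rw [← ContinuousLinearMap.mul_apply, h1, real_inner_comm]

open Classical in
private theorem upper {B : Op H} {lo hi : ℝ} (hB : Pos B lo hi) {β M ρ : ℝ} (hβ : 0 ≤ β)
    (hM : 0 ≤ M) (hhi : hi ≤ M) {c : H}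
    (h : ‖fc B (fun t => if β < t then 1 else 0) c‖ ≤ ρ) :
    inner ℝ (B c) c ≤ β * ‖c‖ ^ 2 + M * ρ ^ 2 := by
  have h3 := fc_inner_le hB (f := fun t => t) (g := fun t => β + M * (if β < t then 1 else 0)) (by
    intro t _ ht
    by_cases hat : β < t
    · simp only [hat, if_true]
      linarith
    · simp only [hat, if_false]
      rw [mul_zero, add_zero]
      exact not_lt.1 hat) c
  rw [fc_id hB, fc_affine hB, fc_ind hB (f := fun t => if β < t then (1 : ℝ) else 0)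
    (fun t => by split_ifs <;> norm_num)] at h3
  have h4 : ‖fc B (fun t => if β < t then 1 else 0) c‖ ^ 2 ≤ ρ ^ 2 :=
    pow_le_pow_left₀ (norm_nonneg _) h 2
  nlinarith

open Classical in
theorem falseL {A B C : Op H} {loA hiA loB hiB loC hiC : ℝ} (hA : Pos A loA hiA)
    (hB : Pos B loB hiB) (hC : Pos C loC hiC) (hloA : 0 < loA) (hloB : 0 < loB) (hloC : 0 < loC)
    {κ κ' α β β' δ ρ l : ℝ} (hκ : 0 < κ) (hκ' : 0 < κ') (hκ1 : κ ≤ 1) (hκ1' : κ' ≤ 1)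
    (hα : 0 < α) (hβ0 : 0 ≤ β) (hβ0' : 0 ≤ β') (hδ : 0 < δ) (hδ1 : δ ≤ 1) (hρ : 0 ≤ ρ)
    (hl : 1 ≤ l) (hMB : hiB ≤ l ^ 2 * α) (hMC : hiC ≤ l ^ 2 * α)
    (hAB : A = κ • B + κ' • C) (hβ : (1 + δ) * (κ * β + κ' * β') ≤ α) {c : H}
    (h1 : ‖fc A (fun t => if t < α then 1 else 0) c‖ ≤ ρ)
    (h2 : ‖fc B (fun t => if β < t then 1 else 0) c‖ ≤ ρ)
    (h3 : ‖fc C (fun t => if β' < t then 1 else 0) c‖ ≤ ρ) :
    ‖c‖ ≤ 3 * l * ρ / Real.sqrt δ := by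
  have hlow : α * ‖c‖ ^ 2 - α * ρ ^ 2 ≤ inner ℝ (A c) c := by
    have h4 := fc_inner_le hA (f := fun t => α + (-α) * (if t < α then 1 else 0))
      (g := fun t => t) (by
        intro t ht _
        have htp : 0 < t := lt_of_lt_of_le hloA ht
        by_cases hat : t < α
        · simp only [hat, if_true]
          linarith
        · simp only [hat, if_false]
          rw [mul_zero, add_zero]
          exact not_lt.1 hat) c
    rw [fc_id hA, fc_affine hA, fc_ind hA (f := fun t => if t < α then (1 : ℝ) else 0)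
      (fun t => by split_ifs <;> norm_num)] at h4
    have h5 : ‖fc A (fun t => if t < α then 1 else 0) c‖ ^ 2 ≤ ρ ^ 2 :=
      pow_le_pow_left₀ (norm_nonneg _) h1 2
    nlinarith
  have hM : 0 ≤ l ^ 2 * α := by positivity
  have hb := upper hB hβ0 hM hMB h2
  have hc := upper hC hβ0' hM hMC h3
  have hsum : inner ℝ (A c) c = κ * inner ℝ (B c) c + κ' * inner ℝ (C c) c := by
    rw [hAB, ContinuousLinearMap.add_apply, inner_add_left, ContinuousLinearMap.smul_apply,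
      ContinuousLinearMap.smul_apply, inner_smul_left, inner_smul_left]
    rfl
  have h6 : α * ‖c‖ ^ 2 - α * ρ ^ 2 ≤
      (κ * β + κ' * β') * ‖c‖ ^ 2 + (κ + κ') * (l ^ 2 * α * ρ ^ 2) := by
    have h7 := mul_le_mul_of_nonneg_left hb hκ.le
    have h8 := mul_le_mul_of_nonneg_left hc hκ'.le
    nlinarith
  have h9 : (κ + κ') * (l ^ 2 * α * ρ ^ 2) ≤ 2 * (l ^ 2 * α * ρ ^ 2) :=
    mul_le_mul_of_nonneg_right (by linarith) (by positivity)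
  have h10 : (1 + δ) * (κ * β + κ' * β') * ‖c‖ ^ 2 ≤ α * ‖c‖ ^ 2 :=
    mul_le_mul_of_nonneg_right hβ (sq_nonneg _)
  have h11 : (1 + δ) * (α * ‖c‖ ^ 2 - α * ρ ^ 2) ≤
      (1 + δ) * ((κ * β + κ' * β') * ‖c‖ ^ 2 + 2 * (l ^ 2 * α * ρ ^ 2)) :=
    mul_le_mul_of_nonneg_left (by linarith) (by linarith)
  have h12 : α * (δ * ‖c‖ ^ 2) ≤ α * ((1 + δ) * (1 + 2 * l ^ 2) * ρ ^ 2) := by
    nlinarith
  have h13 : δ * ‖c‖ ^ 2 ≤ (1 + δ) * (1 + 2 * l ^ 2) * ρ ^ 2 := le_of_mul_le_mul_left h12 hα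
  have hl2 : 1 ≤ l ^ 2 := one_le_pow₀ hl
  have h14 : (1 + δ) * (1 + 2 * l ^ 2) * ρ ^ 2 ≤ 9 * l ^ 2 * ρ ^ 2 := by
    apply mul_le_mul_of_nonneg_right _ (sq_nonneg _)
    nlinarith
  rw [le_div_iff₀ (Real.sqrt_pos.2 hδ)]
  have h15 : (‖c‖ * Real.sqrt δ) ^ 2 ≤ (3 * l * ρ) ^ 2 := by
    rw [mul_pow, Real.sq_sqrt hδ.le]
    nlinarith
  have hl0 : 0 ≤ l := by linarith
  exact (pow_le_pow_iff_left₀ (by positivity) (by positivity) two_ne_zero).1 h15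

end Pool.H6.QL
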