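import Mathlib
import Pool.Agent.H6.QL.DiT
import Pool.Agent.H6.QL.FalL

set_option autoImplicit false

/-!
# [H6 QL DIF] Local lemma, false side: `c(F) ≤ a(F)`, `c(G) ≤ a(G)` force `c(F ∨ G) ≤ a(F ∨ G)`

Notation as in `DiT`; `l_F = 1 - uu F`. `chi := uu M (l_F (l_G p))`; by `world_comm` (`k + 3R ≤ K`)
also `chi = l_F (uu M (l_G p)) = l_G (uu M (l_F p))`.
(i) `‖fc c(M) 1_(t < aM) chi‖ ≤ 2η ‖l_F l_G p‖`: for `t < aM`, `t (1+δ) ≤ aM(1+δ)`, `bfn ≤ η`.
(ii) `‖fc c(F) 1_(t > β) chi‖ ≤ 2η ‖uu M l_G p‖`, `β = a(1+δ)²`: for `t > β = (1+δ) a(1+δ)`,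
    `bfn ≥ 1 - η` (`bfn_hi`), so `|1 - bfn| ≤ η`. (iii) the same for `G`, `β' = a'(1+δ)²`.
(iv) `falseL` with `α = aM`, `(1+δ)(κβ + κ'β') = (1+δ)³ (κ a + κ' a') = (1+δ)³ r = aM`, `l = lam`,
    `hiB = lam² a ≤ lam² aM`, `κ, κ' ≤ 1`, `ρ = 2η(1+η)²‖p‖`: `‖chi‖ ≤ 3 lam ρ / sqrt δ ≤ 7 lam η ‖p‖ / sqrt δ`.
-/

namespace Pool.H6.QL

variable {H : Type} [NormedAddCommGroup H] [InnerProductSpace ℝ H] [FiniteDimensional ℝ H]
variable {ι : Type} {X : ι → Op H} {L : ℕ → Submodule ℝ H} {K N R : ℕ} {lam del η : ℝ}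
  {b : Bf ι → ℝ → Op H}

private theorem dif_near {A T : Op H} {lo hi η : ℝ} (hA : Pos A lo hi) (hη : 0 ≤ η)
    {g φ : ℝ → ℝ} (hT : ‖T - fc A g‖ ≤ η) (h1 : ∀ t, lo ≤ t → t ≤ hi → |φ t| ≤ 1)
    (h2 : ∀ t, lo ≤ t → t ≤ hi → |φ t * g t| ≤ η) (v : H) : ‖fc A φ (T v)‖ ≤ 2 * η * ‖v‖ := by
  have e : fc A φ (T v) = fc A (fun t => φ t * g t) v + fc A φ ((T - fc A g) v) := by
    have e1 : (T - fc A g) v = T v - fc A g v := rfl
    have e2 : fc A (fun t => φ t * g t) v = fc A φ (fc A g v) := by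
      rw [← fc_mul hA]
      rfl
    rw [e1, e2, map_sub]
    abel
  rw [e]
  have h3 := fc_norm hA hη h2 v
  have h4 := fc_norm hA zero_le_one h1 ((T - fc A g) v)
  have h5 := (T - fc A g).le_opNorm v
  have h6 : ‖T - fc A g‖ * ‖v‖ ≤ η * ‖v‖ := mul_le_mul_of_nonneg_right hT (norm_nonneg _)
  have h7 := norm_add_le (fc A (fun t => φ t * g t) v) (fc A φ ((T - fc A g) v))
  linarith

private theorem dif_pos' (h : Par X L K lam del η N R b) (F : Bf ι) :
    Pos (cop lam del X F) (lam ^ 2 * wt lam del F)⁻¹ (lam ^ 2 * wt lam del F) ∧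
      0 < (lam ^ 2 * wt lam del F)⁻¹ := by
  have h4 := h.lam4
  have hw := wt_pos (lam := lam) (by linarith) h.del0.le F
  refine ⟨cop_pos (by linarith) h.del0.le h.wld.sq h.wld.sym F, ?_⟩
  have hl : 0 < lam := by linarith
  positivity

private theorem dif_one (h : Par X L K lam del η N R b) (F : Bf ι) {τ : ℝ} (hτ : 0 < τ) :
    ‖(1 - b F τ) - fc (cop lam del X F) (fun t => 1 - bfn N τ t)‖ ≤ η := by
  have hA := (dif_pos' h F).1
  have e : fc (cop lam del X F) (fun t => 1 - bfn N τ t) =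
      1 - fc (cop lam del X F) (bfn N τ) := by
    have e1 := fc_sub hA (fun _ => 1) (bfn N τ)
    rw [fc_const hA, one_smul] at e1
    exact e1.symm
  have e2 : (1 - b F τ) - (1 - fc (cop lam del X F) (bfn N τ)) =
      -(b F τ - fc (cop lam del X F) (bfn N τ)) := by abel
  rw [e, e2, norm_neg]
  exact h.apx F τ hτ

open Classical in
/-- `1 - uu F` kills the part where `c(F)` is large -/
private theorem dif_side (h : Par X L K lam del η N R b) (F : Bf ι) (v : H) :
    ‖fc (cop lam del X F) (fun t => if wt lam del F * (1 + del) ^ 2 < t then 1 else 0)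
      ((1 - uu lam del b F) v)‖ ≤ 2 * η * ‖v‖ := by
  have h4 := h.lam4
  have hd := h.del0
  have hd1 := h.del1
  have ha := wt_pos (lam := lam) (by linarith) h.del0.le F
  have hτ : 0 < wt lam del F * (1 + del) := by positivity
  refine dif_near (dif_pos' h F).1 h.eta0.le (dif_one h F hτ) (fun t _ _ => ?_)
    (fun t ht _ => ?_) v
  · by_cases hc : wt lam del F * (1 + del) ^ 2 < t
    · simp only [hc, if_true]
      rw [abs_one]
    · simp only [hc, if_false]
      rw [abs_zero]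
      exact zero_le_one
  · have ht0 : 0 < t := lt_of_lt_of_le (dif_pos' h F).2 ht
    by_cases hc : wt lam del F * (1 + del) ^ 2 < t
    · simp only [hc, if_true]
      rw [one_mul]
      have h5 := bfn_hi h.odd hτ hd (by linarith) h.win (t := t) (by
        have e : (1 + del) * (wt lam del F * (1 + del)) = wt lam del F * (1 + del) ^ 2 := by ring
        rw [e]
        exact hc.le)
      have h6 := (bfn_mem N hτ ht0).2
      rw [abs_le]
      have h7 := h.eta0
      constructor <;> linarith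
    · simp only [hc, if_false]
      rw [zero_mul, abs_zero]
      exact h.eta0.le

open Classical in
/-- `uu M` kills the part where `c(M)` is small -/
private theorem dif_top (h : Par X L K lam del η N R b) (F : Bf ι) (v : H) :
    ‖fc (cop lam del X F) (fun t => if t < wt lam del F then 1 else 0)
      (uu lam del b F v)‖ ≤ 2 * η * ‖v‖ := by
  have h4 := h.lam4
  have hd := h.del0
  have hd1 := h.del1
  have ha := wt_pos (lam := lam) (by linarith) h.del0.le F
  have hτ : 0 < wt lam del F * (1 + del) := by positivity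
  refine dif_near (dif_pos' h F).1 h.eta0.le (h.apx F _ hτ) (fun t _ _ => ?_)
    (fun t ht _ => ?_) v
  · by_cases hc : t < wt lam del F
    · simp only [hc, if_true]
      rw [abs_one]
    · simp only [hc, if_false]
      rw [abs_zero]
      exact zero_le_one
  · have ht0 : 0 < t := lt_of_lt_of_le (dif_pos' h F).2 ht
    by_cases hc : t < wt lam del F
    · simp only [hc, if_true]
      rw [one_mul]
      have h5 := bfn_lo hτ ht0 hd (by linarith) h.win (t := t) (by
        exact mul_le_mul_of_nonneg_right hc.le (by linarith))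
      have h6 := (bfn_mem N hτ ht0).1
      rw [abs_of_nonneg h6]
      exact h5
    · simp only [hc, if_false]
      rw [zero_mul, abs_zero]
      exact h.eta0.le

theorem locF (h : Par X L K lam del η N R b) (F G : Bf ι) (hw : wt lam del (F.or G) ≤ 1 / 4)
    {k : ℕ} (hk : k + 3 * R ≤ K) {p : H} (hp : p ∈ L k) :
    ‖uu lam del b (F.or G) ((1 - uu lam del b F) ((1 - uu lam del b G) p))‖ ≤
      7 * lam * η / Real.sqrt del * ‖p‖ := by
  have h4 := h.lam4
  have hd := h.del0
  have hd1 := h.del1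
  have he := h.eta0
  have he1 := h.eta1
  have hlam1 : 1 ≤ lam := by linarith
  have hl0 : 0 < lam := by linarith
  have ha := wt_pos hlam1 hd.le F
  have ha' := wt_pos hlam1 hd.le G
  have haM := wt_pos hlam1 hd.le (F.or G)
  have hτ : ∀ E : Bf ι, 0 < wt lam del E * (1 + del) := fun E =>
    mul_pos (wt_pos hlam1 hd.le E) (by linarith)
  -- words
  have hu : ∀ E, uu lam del b E ∈ W X R := fun E => h.mem E _ (hτ E)
  have hl : ∀ E, 1 - uu lam del b E ∈ W X R := fun E => sub_mem (one_mem_W R) (hu E)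
  have hGp : (1 - uu lam del b G) p ∈ L (k + R) := world_mem h.wld (by omega) (hl G) hp
  have hFp : (1 - uu lam del b F) p ∈ L (k + R) := world_mem h.wld (by omega) (hl F) hp
  obtain ⟨chi, hchi⟩ : ∃ chi, chi = uu lam del b (F.or G) ((1 - uu lam del b F)
      ((1 - uu lam del b G) p)) := ⟨_, rfl⟩
  have c1 : chi = (1 - uu lam del b F) (uu lam del b (F.or G) ((1 - uu lam del b G) p)) := by
    rw [hchi]
    exact world_comm h.wld (by omega) (hu (F.or G)) (hl F) hGp
  have c2 : chi = (1 - uu lam del b G) (uu lam del b (F.or G) ((1 - uu lam del b F) p)) := by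
    rw [hchi, world_comm h.wld (a := R) (b := R) (k := k) (by omega) (hl F) (hl G) hp]
    exact world_comm h.wld (by omega) (hu (F.or G)) (hl G) hFp
  rw [← hchi]
  -- norms
  have nu : ∀ (E : Bf ι) (v : H), ‖uu lam del b E v‖ ≤ (1 + η) * ‖v‖ := fun E v =>
    ((uu lam del b E).le_opNorm v).trans
      (mul_le_mul_of_nonneg_right (nrm_b h E (hτ E)).1 (norm_nonneg _))
  have nl : ∀ (E : Bf ι) (v : H), ‖(1 - uu lam del b E) v‖ ≤ (1 + η) * ‖v‖ := fun E v =>
    ((1 - uu lam del b E).le_opNorm v).trans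
      (mul_le_mul_of_nonneg_right (nrm_b h E (hτ E)).2 (norm_nonneg _))
  have h1e : 0 ≤ 1 + η := by linarith
  obtain ⟨ρ, hρ⟩ : ∃ ρ, ρ = 2 * η * ((1 + η) * ((1 + η) * ‖p‖)) := ⟨_, rfl⟩
  have hρ0 : 0 ≤ ρ := by
    rw [hρ]
    positivity
  have s1 := dif_top h (F.or G) ((1 - uu lam del b F) ((1 - uu lam del b G) p))
  rw [← hchi] at s1
  have s1' : 2 * η * ‖(1 - uu lam del b F) ((1 - uu lam del b G) p)‖ ≤ ρ := by
    rw [hρ]
    refine mul_le_mul_of_nonneg_left ?_ (by linarith)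
    exact (nl F _).trans (mul_le_mul_of_nonneg_left (nl G p) h1e)
  have s2 := dif_side h F (uu lam del b (F.or G) ((1 - uu lam del b G) p))
  rw [← c1] at s2
  have s2' : 2 * η * ‖uu lam del b (F.or G) ((1 - uu lam del b G) p)‖ ≤ ρ := by
    rw [hρ]
    refine mul_le_mul_of_nonneg_left ?_ (by linarith)
    exact (nu _ _).trans (mul_le_mul_of_nonneg_left (nl G p) h1e)
  have s3 := dif_side h G (uu lam del b (F.or G) ((1 - uu lam del b F) p))
  rw [← c2] at s3
  have s3' : 2 * η * ‖uu lam del b (F.or G) ((1 - uu lam del b F) p)‖ ≤ ρ := by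
    rw [hρ]
    refine mul_le_mul_of_nonneg_left ?_ (by linarith)
    exact (nu _ _).trans (mul_le_mul_of_nonneg_left (nl F p) h1e)
  -- the weights
  obtain ⟨a, hadef⟩ : ∃ a, a = wt lam del F := ⟨_, rfl⟩
  obtain ⟨a', hadef'⟩ : ∃ a', a' = wt lam del G := ⟨_, rfl⟩
  obtain ⟨r, hr⟩ : ∃ r, r = Real.sqrt (a ^ 2 + a' ^ 2) := ⟨_, rfl⟩
  have hwt : wt lam del (F.or G) = (1 + del) ^ 3 * r := by
    rw [hr, hadef, hadef']
    rfl
  have a0 : 0 < a := by rw [hadef]; exact ha
  have a0' : 0 < a' := by rw [hadef']; exact ha'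
  have hr2 : r ^ 2 = a ^ 2 + a' ^ 2 := by
    rw [hr]
    exact Real.sq_sqrt (by positivity)
  have hr0 : 0 < r := by
    rw [hr]
    exact Real.sqrt_pos.2 (by positivity)
  have hk1 : kap a a' = a / r := by rw [kap, hr]
  have hk2 : kap a' a = a' / r := by rw [kap, hr, add_comm]
  have har : a ≤ r := by nlinarith
  have har' : a' ≤ r := by nlinarith
  have hcop : cop lam del X (F.or G) = kap a a' • cop lam del X F + kap a' a • cop lam del X G := by
    rw [hadef, hadef']
    rfl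
  have hβ : (1 + del) * (kap a a' * (a * (1 + del) ^ 2) + kap a' a * (a' * (1 + del) ^ 2)) ≤
      wt lam del (F.or G) := by
    rw [hk1, hk2, hwt]
    have e1 : (1 + del) * (a / r * (a * (1 + del) ^ 2) + a' / r * (a' * (1 + del) ^ 2)) =
        (1 + del) ^ 3 * ((a ^ 2 + a' ^ 2) / r) := by ring
    rw [e1, ← hr2]
    have e2 : r ^ 2 / r = r := by
      field_simp
    rw [e2]
  have hMB : lam ^ 2 * wt lam del F ≤ lam ^ 2 * wt lam del (F.or G) :=
    mul_le_mul_of_nonneg_left (wt_or_left hlam1 hd.le F G) (by positivity)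
  have hMC : lam ^ 2 * wt lam del G ≤ lam ^ 2 * wt lam del (F.or G) :=
    mul_le_mul_of_nonneg_left (wt_or_right hlam1 hd.le F G) (by positivity)
  have key := falseL (dif_pos' h (F.or G)).1 (dif_pos' h F).1 (dif_pos' h G).1
    (dif_pos' h (F.or G)).2 (dif_pos' h F).2 (dif_pos' h G).2
    (κ := kap a a') (κ' := kap a' a) (α := wt lam del (F.or G)) (β := a * (1 + del) ^ 2)
    (β' := a' * (1 + del) ^ 2) (δ := del) (ρ := ρ) (l := lam)
    (by rw [hk1]; positivity) (by rw [hk2]; positivity)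
    (by rw [hk1, div_le_one hr0]; exact har) (by rw [hk2, div_le_one hr0]; exact har')
    haM (by positivity) (by positivity) hd (by linarith) hρ0 hlam1 hMB hMC hcop hβ (c := chi)
    (s1.trans s1') (by rw [hadef]; exact s2.trans s2') (by rw [hadef']; exact s3.trans s3')
  refine key.trans ?_
  have hsq : 0 < Real.sqrt del := Real.sqrt_pos.2 hd
  have e3 : 3 * lam * ρ / Real.sqrt del =
      (6 * (1 + η) ^ 2) * (lam * η / Real.sqrt del * ‖p‖) := by
    rw [hρ]
    ring
  have e4 : 7 * lam * η / Real.sqrt del * ‖p‖ = 7 * (lam * η / Real.sqrt del * ‖p‖) := by ring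
  rw [e3, e4]
  refine mul_le_mul_of_nonneg_right ?_ (by positivity)
  nlinarith

end Pool.H6.QL
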