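import Mathlib
import Pool.Agent.H6.QL.DiF

set_option autoImplicit false

/-!
# [H6 QL DIC] DICHOTOMY on low degree vectors

`g F := fc c(F) (gf N (wt F) δ)`. Claim `‖g F p‖ ≤ ef F ‖p‖` for `p ∈ L k`, `k + 5R ≤ K`, `wt F ≤ 1/4`.
* `dich_var`: `c(x) = fc? `: on `p`: `X i` has the eigenvalues `1, -1`, so `c(x)` has the eigenvalues
  `lam, lam⁻¹`. Proof: for `q` in the eigenbasis of `c(x)` (`fc_rep`) the eigenvalue `t` satisfies
  `(t - lam)(t - lam⁻¹) = 0` because `(c - lam)(c - lam⁻¹) = 0` (`X i * X i = 1`). By `gf_leaf`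
  `|gf t| ≤ η` there; so `‖g p‖ ≤ η ‖p‖ ≤ ef ‖p‖` (`ef ≥ 4 · 40 · 4 · η`).
* `dich_neg`: `c(¬F) = Ring.inverse c(F) = fc c(F) (·⁻¹)` (`inv_fc`), `fc_comp`, `gf_inv`, `fc_congr`:
  `g (¬F) = g F`; `wt`, `dp`, `ef` are the same.
* `dich_or`: `M = F ∨ G`, `l = 1 - uu`. `p = hh F p + (uu F - hh F) p + l_F p` and
  `l_F p = hh G (l_F p) + l_F ((uu G - hh G) p) + l_F (l_G p)` (`world_comm`).
  (1) `‖(uu F - hh F) q‖ ≤ ‖g F q‖ + 2η‖q‖` (`apx` twice, `fc_sub`).
  (2) `‖g M q‖ ≤ ‖(1 - hh M) q‖ + 2η‖q‖` (`fc_cmp` with `gf_abs_h`, `apx`).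
  (3) `‖g M q‖ ≤ ‖uu M q‖ + 2η‖q‖` (`fc_cmp` with `gf_abs_u`, `apx`).
  (4) `‖g M q‖ ≤ ‖q‖` (`gf_abs_one`).
  Hence, with `s = sqrt δ` and `e_F = ef F`, `e_G = ef G`:
  `‖g M hh F p‖ ≤ (7η/s + 2η(1+η))‖p‖` by (2), `locT`;
  `‖g M (uu F - hh F) p‖ ≤ (e_F + 2η)‖p‖` by (4), (1) and induction;
  `‖g M hh G (l_F p)‖ ≤ (7η/s + 2η(1+η))(1+η)‖p‖` by (2), `locT'` for the vector `l_F p ∈ L (k+R)`;
  `‖g M l_F (uu G - hh G) p‖ ≤ (1+η)(e_G + 2η)‖p‖`;
  `‖g M l_F l_G p‖ ≤ (7 lam η/s + 2η(1+η)²)‖p‖` by (3), `locF`.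
  Sum: `≤ 1.01 (e_F + e_G) + 40 lam η/s ≤ 4^(dp M + 1) (40 lam/s) η` since
  `e_F, e_G ≤ 4^(dp M) (40 lam/s) η` (`lam ≥ 4`, `s ≤ 1`, `η ≤ 1/100`).
  `wt F, wt G ≤ wt M ≤ 1/4` (`wt_or_left`, `wt_or_right`).
-/

namespace Pool.H6.QL

variable {H : Type} [NormedAddCommGroup H] [InnerProductSpace ℝ H] [FiniteDimensional ℝ H]
variable {ι : Type} {X : ι → Op H} {L : ℕ → Submodule ℝ H} {K N R : ℕ} {lam del η : ℝ}
  {b : Bf ι → ℝ → Op H}

/-- The spectral gap operator of `F`. -/
noncomputable def gg (lam del : ℝ) (N : ℕ) (X : ι → Op H) (F : Bf ι) : Op H :=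
  fc (cop lam del X F) (gf N (wt lam del F) del)

private theorem dic_lam1 (h : Par X L K lam del η N R b) : 1 ≤ lam := by
  linarith [h.lam4]

private theorem dic_pos (h : Par X L K lam del η N R b) (F : Bf ι) :
    Pos (cop lam del X F) (lam ^ 2 * wt lam del F)⁻¹ (lam ^ 2 * wt lam del F) :=
  cop_pos (dic_lam1 h) h.del0.le h.wld.sq h.wld.sym F

private theorem dic_lo (h : Par X L K lam del η N R b) (F : Bf ι) :
    0 < (lam ^ 2 * wt lam del F)⁻¹ := by
  have h1 := wt_pos (dic_lam1 h) h.del0.le F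
  have h2 := dic_lam1 h
  positivity

private theorem dic_tau (h : Par X L K lam del η N R b) (F : Bf ι) :
    0 < wt lam del F * (1 + del) := by
  have h1 := wt_pos (dic_lam1 h) h.del0.le F
  have h2 := h.del0
  positivity

theorem dich_var (h : Par X L K lam del η N R b) (i : ι) (p : H) :
    ‖gg lam del N X (.var i) p‖ ≤ η * ‖p‖ := by
  classical
  have hA := dic_pos h (.var i)
  have h4 := h.lam4
  have hl0 : 0 < lam := by linarith
  obtain ⟨hl1, hl2⟩ := gf_leaf h.odd h.lam4 h.del0 h.del1 h.win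
  have hwt : wt lam del (.var i : Bf ι) = lam⁻¹ := rfl
  have key : ∀ v : H, fc (cop lam del X (.var i)) (gf N (wt lam del (.var i : Bf ι)) del) v =
      fc (cop lam del X (.var i))
        (fun t => if t = lam ∨ t = lam⁻¹ then gf N lam⁻¹ del t else 0) v := by
    intro v
    obtain ⟨m, e, t, h1, h2, h3⟩ := fc_rep hA
    rw [h3, h3]
    refine Finset.sum_congr rfl fun j _ => ?_
    have hc : t j = lam ∨ t j = lam⁻¹ := by
      have e1 : ((lam + lam⁻¹) / 2) • e j + ((lam - lam⁻¹) / 2) • X i (e j) = t j • e j := by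
        rw [← h1 j]
        rfl
      have e2 : ((lam - lam⁻¹) / 2) • X i (e j) = (t j - (lam + lam⁻¹) / 2) • e j := by
        rw [sub_smul, ← e1]
        abel
      have e3 : X i (X i (e j)) = e j := by
        have := congrArg (fun A : Op H => A (e j)) (h.wld.sq i)
        exact this
      have e4 : ((lam - lam⁻¹) / 2) • (((lam - lam⁻¹) / 2) • e j) =
          (t j - (lam + lam⁻¹) / 2) • ((t j - (lam + lam⁻¹) / 2) • e j) := by
        have e5 := congrArg (fun v => ((lam - lam⁻¹) / 2) • X i v) e2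
        simp only [map_smul, e3] at e5
        rw [e5, smul_comm, e2]
      rw [smul_smul, smul_smul] at e4
      have hne : e j ≠ 0 := by
        intro h0
        have := e.orthonormal.1 j
        rw [h0, norm_zero] at this
        exact zero_ne_one this
      have e6 := smul_left_injective ℝ hne e4
      have e7 : (t j - lam) * (t j - lam⁻¹) = 0 := by
        have e8 : lam * lam⁻¹ = 1 := mul_inv_cancel₀ hl0.ne'
        nlinarith
      rcases mul_eq_zero.1 e7 with e9 | e9
      · left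
        linarith
      · right
        linarith
    rw [if_pos hc, hwt]
  unfold gg
  rw [key]
  refine fc_norm hA h.eta0.le (fun t _ _ => ?_) p
  by_cases hc : t = lam ∨ t = lam⁻¹
  · rw [if_pos hc]
    rcases hc with rfl | rfl
    · exact hl1
    · exact hl2
  · rw [if_neg hc, abs_zero]
    exact h.eta0.le

theorem dich_neg (h : Par X L K lam del η N R b) (F : Bf ι) (hw : wt lam del F ≤ 1 / 4) :
    gg lam del N X (.neg F) = gg lam del N X F := by
  have hA := dic_pos h F
  have hlo := dic_lo h F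
  have hle : (lam ^ 2 * wt lam del F)⁻¹ ≤ lam ^ 2 * wt lam del F := by
    have h1 := wt_ge (dic_lam1 h) h.del0.le F
    have h2 := dic_lam1 h
    have h3 : 1 ≤ lam ^ 2 * wt lam del F := by
      have h5 : lam ^ 2 * lam⁻¹ ≤ lam ^ 2 * wt lam del F :=
        mul_le_mul_of_nonneg_left h1 (by positivity)
      have h6 : lam ^ 2 * lam⁻¹ = lam := by
        have : lam ≠ 0 := by linarith
        field_simp
      linarith
    exact (inv_le_one_of_one_le₀ h3).trans h3
  have e1 : cop lam del X (.neg F) = Ring.inverse (cop lam del X F) := rfl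
  have e2 : wt lam del (.neg F) = wt lam del F := rfl
  have e3 := (inv_fc hA hlo).1
  have hg : Pos (fc (cop lam del X F) (fun t => t⁻¹)) (lam ^ 2 * wt lam del F)⁻¹
      (lam ^ 2 * wt lam del F)⁻¹⁻¹ := by
    rw [← e3]
    exact pos_inv hA hlo hle
  unfold gg
  rw [e1, e2, e3, fc_comp hA (fun t => t⁻¹) (gf N (wt lam del F) del) hg]
  refine fc_congr hA fun t ht _ => ?_
  exact gf_inv h.odd (wt_pos (dic_lam1 h) h.del0.le F) hw h.del0 h.del1 h.win
    (lt_of_lt_of_le hlo ht)

private theorem dic_gg (h : Par X L K lam del η N R b) (F : Bf ι) :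
    gg lam del N X F = fc (cop lam del X F) (bfn N (wt lam del F * (1 + del))) -
      fc (cop lam del X F) (bfn N (wt lam del F * (1 + del))⁻¹) := by
  rw [fc_sub (dic_pos h F)]
  rfl

private theorem dic_apx (h : Par X L K lam del η N R b) (F : Bf ι) {τ : ℝ} (hτ : 0 < τ) (q : H) :
    ‖b F τ q - fc (cop lam del X F) (bfn N τ) q‖ ≤ η * ‖q‖ := by
  have h1 := (b F τ - fc (cop lam del X F) (bfn N τ)).le_opNorm q
  have h2 := mul_le_mul_of_nonneg_right (h.apx F τ hτ) (norm_nonneg q)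
  have h3 : (b F τ - fc (cop lam del X F) (bfn N τ)) q =
      b F τ q - fc (cop lam del X F) (bfn N τ) q := rfl
  rw [h3] at h1
  exact h1.trans h2

theorem gg_uh (h : Par X L K lam del η N R b) (F : Bf ι) (hw : wt lam del F ≤ 1 / 4) (q : H) :
    ‖uu lam del b F q - hh lam del b F q‖ ≤ ‖gg lam del N X F q‖ + 2 * η * ‖q‖ := by
  have h1 := dic_apx h F (dic_tau h F) q
  have h2 := dic_apx h F (inv_pos.2 (dic_tau h F)) q
  have e : uu lam del b F q - hh lam del b F q = gg lam del N X F q +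
      (b F (wt lam del F * (1 + del)) q -
        fc (cop lam del X F) (bfn N (wt lam del F * (1 + del))) q) -
      (b F (wt lam del F * (1 + del))⁻¹ q -
        fc (cop lam del X F) (bfn N (wt lam del F * (1 + del))⁻¹) q) := by
    have e1 : gg lam del N X F q = fc (cop lam del X F) (bfn N (wt lam del F * (1 + del))) q -
        fc (cop lam del X F) (bfn N (wt lam del F * (1 + del))⁻¹) q := by
      rw [dic_gg h F]
      rfl
    rw [e1]
    unfold uu hh
    abel
  rw [e]
  refine (norm_sub_le _ _).trans ?_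
  have h3 := norm_add_le (gg lam del N X F q) (b F (wt lam del F * (1 + del)) q -
        fc (cop lam del X F) (bfn N (wt lam del F * (1 + del))) q)
  linarith

theorem gg_h (h : Par X L K lam del η N R b) (F : Bf ι) (hw : wt lam del F ≤ 1 / 4) (q : H) :
    ‖gg lam del N X F q‖ ≤ ‖q - hh lam del b F q‖ + 2 * η * ‖q‖ := by
  have hA := dic_pos h F
  have h1 := dic_apx h F (inv_pos.2 (dic_tau h F)) q
  have h2 := fc_cmp hA (f := gf N (wt lam del F) del)
    (g := fun t => 1 - bfn N (wt lam del F * (1 + del))⁻¹ t) h.eta0.le (fun t ht _ =>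
      gf_abs_h h.odd (wt_pos (dic_lam1 h) h.del0.le F) hw h.del0 h.del1 h.win
        (lt_of_lt_of_le (dic_lo h F) ht)) q
  have e : fc (cop lam del X F) (fun t => 1 - bfn N (wt lam del F * (1 + del))⁻¹ t) q =
      q - fc (cop lam del X F) (bfn N (wt lam del F * (1 + del))⁻¹) q := by
    have e1 := fc_sub hA (fun _ => 1) (bfn N (wt lam del F * (1 + del))⁻¹)
    rw [fc_const hA, one_smul] at e1
    rw [← e1]
    rfl
  rw [e] at h2
  have e3 : q - fc (cop lam del X F) (bfn N (wt lam del F * (1 + del))⁻¹) q =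
      (q - hh lam del b F q) + (b F (wt lam del F * (1 + del))⁻¹ q -
        fc (cop lam del X F) (bfn N (wt lam del F * (1 + del))⁻¹) q) := by
    unfold hh
    abel
  have h4 := norm_add_le (q - hh lam del b F q) (b F (wt lam del F * (1 + del))⁻¹ q -
        fc (cop lam del X F) (bfn N (wt lam del F * (1 + del))⁻¹) q)
  rw [← e3] at h4
  unfold gg
  linarith

theorem gg_u (h : Par X L K lam del η N R b) (F : Bf ι) (hw : wt lam del F ≤ 1 / 4) (q : H) :
    ‖gg lam del N X F q‖ ≤ ‖uu lam del b F q‖ + 2 * η * ‖q‖ := by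
  have hA := dic_pos h F
  have h1 := dic_apx h F (dic_tau h F) q
  have h2 := fc_cmp hA (f := gf N (wt lam del F) del)
    (g := bfn N (wt lam del F * (1 + del))) h.eta0.le (fun t ht _ =>
      gf_abs_u h.odd (wt_pos (dic_lam1 h) h.del0.le F) hw h.del0 h.del1 h.win
        (lt_of_lt_of_le (dic_lo h F) ht)) q
  have e3 : fc (cop lam del X F) (bfn N (wt lam del F * (1 + del))) q =
      uu lam del b F q - (b F (wt lam del F * (1 + del)) q -
        fc (cop lam del X F) (bfn N (wt lam del F * (1 + del))) q) := by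
    unfold uu
    abel
  have h4 := norm_sub_le (uu lam del b F q) (b F (wt lam del F * (1 + del)) q -
        fc (cop lam del X F) (bfn N (wt lam del F * (1 + del))) q)
  rw [← e3] at h4
  unfold gg
  linarith

theorem gg_one (h : Par X L K lam del η N R b) (F : Bf ι) (hw : wt lam del F ≤ 1 / 4) (q : H) :
    ‖gg lam del N X F q‖ ≤ ‖q‖ := by
  have h2 := fc_norm (dic_pos h F) (f := gf N (wt lam del F) del) zero_le_one (fun t ht _ =>
      gf_abs_one h.odd (wt_pos (dic_lam1 h) h.del0.le F) hw h.del0 h.del1 h.win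
        (lt_of_lt_of_le (dic_lo h F) ht)) q
  rw [one_mul] at h2
  exact h2

theorem dich_or (h : Par X L K lam del η N R b) (F G : Bf ι)
    (hw : wt lam del (F.or G) ≤ 1 / 4) {k : ℕ} (hk : k + 5 * R ≤ K) {p : H} (hp : p ∈ L k)
    {e1 e2 : ℝ} (h1 : ‖gg lam del N X F p‖ ≤ e1 * ‖p‖) (h2 : ‖gg lam del N X G p‖ ≤ e2 * ‖p‖) :
    ‖gg lam del N X (F.or G) p‖ ≤
      (1.01 * (e1 + e2) + 40 * lam / Real.sqrt del * η) * ‖p‖ := by
  have h4 := h.lam4
  have hd := h.del0
  have hd1 := h.del1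
  have he := h.eta0
  have he1 := h.eta1
  have hl1 := dic_lam1 h
  have hwF : wt lam del F ≤ 1 / 4 := (wt_or_left hl1 hd.le F G).trans hw
  have hwG : wt lam del G ≤ 1 / 4 := (wt_or_right hl1 hd.le F G).trans hw
  -- norms
  have nb : ∀ (E : Bf ι) (τ : ℝ), 0 < τ → ∀ v : H, ‖b E τ v‖ ≤ (1 + η) * ‖v‖ := fun E τ hτ v =>
    ((b E τ).le_opNorm v).trans
      (mul_le_mul_of_nonneg_right (nrm_b h E hτ).1 (norm_nonneg _))
  have nh : ∀ (E : Bf ι) (v : H), ‖hh lam del b E v‖ ≤ (1 + η) * ‖v‖ := fun E v =>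
    nb E _ (inv_pos.2 (dic_tau h E)) v
  have nl : ∀ (E : Bf ι) (v : H), ‖(1 - uu lam del b E) v‖ ≤ (1 + η) * ‖v‖ := fun E v =>
    ((1 - uu lam del b E).le_opNorm v).trans
      (mul_le_mul_of_nonneg_right (nrm_b h E (dic_tau h E)).2 (norm_nonneg _))
  -- words
  have wu : ∀ E, uu lam del b E ∈ W X R := fun E => h.mem E _ (dic_tau h E)
  have wh : ∀ E, hh lam del b E ∈ W X R := fun E => h.mem E _ (inv_pos.2 (dic_tau h E))
  have wl : ∀ E, 1 - uu lam del b E ∈ W X R := fun E => sub_mem (one_mem_W R) (wu E)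
  obtain ⟨q, hq⟩ : ∃ q, q = (1 - uu lam del b F) p := ⟨_, rfl⟩
  have hqL : q ∈ L (k + R) := by
    rw [hq]
    exact world_mem h.wld (by omega) (wl F) hp
  have hqn : ‖q‖ ≤ (1 + η) * ‖p‖ := by
    rw [hq]
    exact nl F p
  have c1 : uu lam del b G q - hh lam del b G q =
      (1 - uu lam del b F) (uu lam del b G p - hh lam del b G p) := by
    have := world_comm h.wld (a := R) (b := R) (k := k) (by omega) (wl F)
      (sub_mem (wu G) (wh G)) hp
    rw [hq]
    exact this.symm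
  have c2 : (1 - uu lam del b G) q = (1 - uu lam del b F) ((1 - uu lam del b G) p) := by
    rw [hq]
    exact world_comm h.wld (a := R) (b := R) (k := k) (by omega) (wl G) (wl F) hp
  -- the decomposition
  have d1 : p = hh lam del b F p + (uu lam del b F p - hh lam del b F p) + q := by
    have : q = p - uu lam del b F p := by
      rw [hq]
      rfl
    rw [this]
    abel
  have d2 : q = hh lam del b G q + (uu lam del b G q - hh lam del b G q) +
      (1 - uu lam del b G) q := by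
    have : (1 - uu lam del b G) q = q - uu lam del b G q := rfl
    rw [this]
    abel
  -- the five terms
  have tA : ‖gg lam del N X (F.or G) (hh lam del b F p)‖ ≤
      7 * η / Real.sqrt del * ‖p‖ + 2 * η * ((1 + η) * ‖p‖) := by
    have a1 := gg_h h (F.or G) hw (hh lam del b F p)
    have a2 := locT h F G hw (k := k) (by omega) hp
    have a3 := mul_le_mul_of_nonneg_left (nh F p) (by linarith : 0 ≤ 2 * η)
    linarith
  have tB : ‖gg lam del N X (F.or G) (uu lam del b F p - hh lam del b F p)‖ ≤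
      e1 * ‖p‖ + 2 * η * ‖p‖ := by
    have a1 := gg_one h (F.or G) hw (uu lam del b F p - hh lam del b F p)
    have a2 := gg_uh h F hwF p
    linarith
  have tC : ‖gg lam del N X (F.or G) (hh lam del b G q)‖ ≤
      7 * η / Real.sqrt del * ((1 + η) * ‖p‖) + 2 * η * ((1 + η) * ((1 + η) * ‖p‖)) := by
    have a1 := gg_h h (F.or G) hw (hh lam del b G q)
    have a2 := locT' h F G hw (k := k + R) (by omega) hqL
    have a3 := mul_le_mul_of_nonneg_left ((nh G q).trans
      (mul_le_mul_of_nonneg_left hqn (by linarith : 0 ≤ 1 + η))) (by linarith : 0 ≤ 2 * η)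
    have a4 := mul_le_mul_of_nonneg_left hqn (by positivity : 0 ≤ 7 * η / Real.sqrt del)
    linarith
  have tD : ‖gg lam del N X (F.or G) (uu lam del b G q - hh lam del b G q)‖ ≤
      (1 + η) * (e2 * ‖p‖ + 2 * η * ‖p‖) := by
    rw [c1]
    have a1 := gg_one h (F.or G) hw
      ((1 - uu lam del b F) (uu lam del b G p - hh lam del b G p))
    have a2 := nl F (uu lam del b G p - hh lam del b G p)
    have a3 := gg_uh h G hwG p
    have a4 := mul_le_mul_of_nonneg_left (a3.trans (by linarith :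
      ‖gg lam del N X G p‖ + 2 * η * ‖p‖ ≤ e2 * ‖p‖ + 2 * η * ‖p‖)) (by linarith : 0 ≤ 1 + η)
    linarith
  have tE : ‖gg lam del N X (F.or G) ((1 - uu lam del b G) q)‖ ≤
      7 * lam * η / Real.sqrt del * ‖p‖ + 2 * η * ((1 + η) * ((1 + η) * ‖p‖)) := by
    rw [c2]
    have a1 := gg_u h (F.or G) hw ((1 - uu lam del b F) ((1 - uu lam del b G) p))
    have a2 := locF h F G hw (k := k) (by omega) hp
    have a3 := mul_le_mul_of_nonneg_left ((nl F ((1 - uu lam del b G) p)).trans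
      (mul_le_mul_of_nonneg_left (nl G p) (by linarith : 0 ≤ 1 + η))) (by linarith : 0 ≤ 2 * η)
    linarith
  have s1 : ‖gg lam del N X (F.or G) p‖ ≤ ‖gg lam del N X (F.or G) (hh lam del b F p)‖ +
      ‖gg lam del N X (F.or G) (uu lam del b F p - hh lam del b F p)‖ +
      ‖gg lam del N X (F.or G) q‖ := by
    conv_lhs => rw [d1, map_add, map_add]
    refine (norm_add_le _ _).trans ?_
    exact add_le_add_left (norm_add_le _ _) _
  have s2 : ‖gg lam del N X (F.or G) q‖ ≤ ‖gg lam del N X (F.or G) (hh lam del b G q)‖ +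
      ‖gg lam del N X (F.or G) (uu lam del b G q - hh lam del b G q)‖ +
      ‖gg lam del N X (F.or G) ((1 - uu lam del b G) q)‖ := by
    conv_lhs => rw [d2, map_add, map_add]
    refine (norm_add_le _ _).trans ?_
    exact add_le_add_left (norm_add_le _ _) _
  -- numbers
  have hs0 : 0 < Real.sqrt del := Real.sqrt_pos.2 hd
  have hs1 : Real.sqrt del ≤ 1 := by
    rw [Real.sqrt_le_one]
    linarith
  obtain ⟨y, hy⟩ : ∃ y, y = η / Real.sqrt del * ‖p‖ := ⟨_, rfl⟩
  have hn := norm_nonneg p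
  have hy0 : 0 ≤ y := by
    rw [hy]
    positivity
  have hy1 : η * ‖p‖ ≤ y := by
    rw [hy]
    refine mul_le_mul_of_nonneg_right ?_ hn
    rw [le_div_iff₀ hs0]
    nlinarith
  have hx : 4 * y ≤ lam * y := mul_le_mul_of_nonneg_right h4 hy0
  have r1 : 7 * η / Real.sqrt del * ‖p‖ = 7 * y := by
    rw [hy]
    ring
  have r2 : 7 * η / Real.sqrt del * ((1 + η) * ‖p‖) = 7 * (1 + η) * y := by
    rw [hy]
    ring
  have r3 : 7 * lam * η / Real.sqrt del * ‖p‖ = 7 * (lam * y) := by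
    rw [hy]
    ring
  have r4 : 40 * lam / Real.sqrt del * η * ‖p‖ = 40 * (lam * y) := by
    rw [hy]
    ring
  have hE1 : 0 ≤ e1 * ‖p‖ := (norm_nonneg _).trans h1
  have hE2 : 0 ≤ e2 * ‖p‖ := (norm_nonneg _).trans h2
  have u0 : 0 ≤ η * ‖p‖ := by positivity
  have u1 : η * (η * ‖p‖) ≤ 1 / 100 * (η * ‖p‖) := mul_le_mul_of_nonneg_right he1 u0
  have u2 : η * (η * (η * ‖p‖)) ≤ 1 / 100 * (1 / 100 * (η * ‖p‖)) := by
    refine (mul_le_mul_of_nonneg_left u1 he.le).trans ?_
    have := mul_le_mul_of_nonneg_right he1 (by positivity : 0 ≤ 1 / 100 * (η * ‖p‖))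
    exact this
  have u3 : η * y ≤ 1 / 100 * y := mul_le_mul_of_nonneg_right he1 hy0
  have u4 : η * (e2 * ‖p‖) ≤ 1 / 100 * (e2 * ‖p‖) := mul_le_mul_of_nonneg_right he1 hE2
  rw [r1] at tA
  rw [r2] at tC
  rw [r3] at tE
  have fin : ‖gg lam del N X (F.or G) p‖ ≤
      1.01 * (e1 * ‖p‖ + e2 * ‖p‖) + 40 * (lam * y) := by
    nlinarith
  rw [← r4] at fin
  refine fin.trans (le_of_eq ?_)
  ring

theorem dich (h : Par X L K lam del η N R b) (F : Bf ι) (hw : wt lam del F ≤ 1 / 4)
    {k : ℕ} (hk : k + 5 * R ≤ K) {p : H} (hp : p ∈ L k) :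
    ‖gg lam del N X F p‖ ≤ ef lam del η F * ‖p‖ := by
  have h4 := h.lam4
  have hd := h.del0
  have hd1 := h.del1
  have he := h.eta0
  have hl1 := dic_lam1 h
  have hs0 : 0 < Real.sqrt del := Real.sqrt_pos.2 hd
  have hs1 : Real.sqrt del ≤ 1 := by
    rw [Real.sqrt_le_one]
    linarith
  induction F with
  | var i =>
    refine (dich_var h i p).trans (mul_le_mul_of_nonneg_right ?_ (norm_nonneg _))
    have e1 : ef lam del η (.var i : Bf ι) = 4 * (40 * lam / Real.sqrt del) * η := by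
      unfold ef
      have : (Bf.var i : Bf ι).dp = 0 := rfl
      rw [this]
      norm_num
    rw [e1]
    have e2 : 1 ≤ 40 * lam / Real.sqrt del := by
      rw [le_div_iff₀ hs0]
      linarith
    have e3 : 1 * η ≤ 4 * (40 * lam / Real.sqrt del) * η :=
      mul_le_mul_of_nonneg_right (by linarith) he.le
    linarith
  | neg F ih =>
    rw [dich_neg h F hw]
    exact ih hw
  | or F G ihF ihG =>
    have hwF : wt lam del F ≤ 1 / 4 := (wt_or_left hl1 hd.le F G).trans hw
    have hwG : wt lam del G ≤ 1 / 4 := (wt_or_right hl1 hd.le F G).trans hw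
    refine (dich_or h F G hw hk hp (ihF hwF) (ihG hwG)).trans
      (mul_le_mul_of_nonneg_right ?_ (norm_nonneg _))
    obtain ⟨D, hD⟩ : ∃ D, D = (F.or G).dp := ⟨_, rfl⟩
    have hDe : (F.or G).dp = max F.dp G.dp + 1 := rfl
    have hF : F.dp + 1 ≤ D := by
      rw [hD, hDe]
      omega
    have hG : G.dp + 1 ≤ D := by
      rw [hD, hDe]
      omega
    obtain ⟨y, hy⟩ : ∃ y, y = 40 * lam / Real.sqrt del * η := ⟨_, rfl⟩
    have hy0 : 0 ≤ y := by
      rw [hy]
      positivity
    have b1 : ef lam del η F ≤ 4 ^ D * y := by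
      unfold ef
      rw [hy, mul_assoc]
      refine mul_le_mul_of_nonneg_right ?_ (by positivity)
      exact pow_le_pow_right₀ (by norm_num) hF
    have b2 : ef lam del η G ≤ 4 ^ D * y := by
      unfold ef
      rw [hy, mul_assoc]
      refine mul_le_mul_of_nonneg_right ?_ (by positivity)
      exact pow_le_pow_right₀ (by norm_num) hG
    have b3 : ef lam del η (F.or G) = 4 * (4 ^ D * y) := by
      unfold ef
      rw [← hD, hy, pow_succ]
      ring
    have b4 : (1 : ℝ) ≤ 4 ^ D := one_le_pow₀ (by norm_num)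
    have b5 : 1 * y ≤ 4 ^ D * y := mul_le_mul_of_nonneg_right b4 hy0
    rw [b3, ← hy]
    linarith

end Pool.H6.QL
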