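import Mathlib
import Pool.Agent.H6.QL.DiC
import Pool.Agent.H6.QL.Ifc

set_option autoImplicit false

/-!
# [H6 QL HOA] The approximate homomorphism `T F = b F 1`

`E_F = ef F ≥ 600 η`. All for `wt ≤ 1/4`.
* `hom_var`: `c(x) = ((lam+lam⁻¹)/2) + ((lam-lam⁻¹)/2) X`; `fc c(x) (bfn N 1)` equals
  `(1/2)(1 + X)` up to `η`: on an eigenvector with eigenvalue `t ∈ {lam, lam⁻¹}` (see `dich_var`) the
  operator `X` is `1` (`t = lam`), `-1` (`t = lam⁻¹`) [from `c v = t v`, `lam > lam⁻¹`], and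
  `bfn 1 lam ≥ 1 - η`, `bfn 1 lam⁻¹ ≤ η` (`lam ≥ 4 ≥ 1 + δ`). So the error is at most `2η`.
* `hom_neg`: `c(¬F) = fc c(F) (·⁻¹)`, `bfn_inv` with `τ = 1`: `fc c(¬F) (bfn 1) = 1 - fc c(F) (bfn 1)`;
  error `2η`.
* `hom_h`: `‖T F q - hh F q‖ ≤ ‖gg F q‖ + 4η‖q‖` (`gf_one_h`, `fc_cmp`, `apx` twice); `hom_u` same with
  `uu`, `gf_one_u`.
* `hom_idem`: `gf_idem`: `‖T T q - T q‖ ≤ ‖gg F q‖ + 2η‖q‖ + 4η‖q‖` (`‖T - fc‖ ≤ η`,
  `‖T²-fc²‖ ≤ η(2 + η)`), then `dich`.
* `hom_or`: `M = F ∨ G`, `e = ef M` (`ef F, ef G ≤ e`, `η ≤ e/600`), `p ∈ L k`, `k + 8R ≤ K`.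
  (A) for `q ∈ L j`, `j + 6R ≤ K`: `‖(1 - T M) T F q‖ ≤ 4 e ‖q‖`: `T F q = hh F q + (T F - hh F) q`,
      `‖(1 - T M) v‖ ≤ ‖(1 - hh M) v‖ + ‖(T M - hh M) v‖`, `v = hh F q`, `locT`, `dich` for `q` and `v`.
      Same for `G` (`locT'`).
  (B) for `q ∈ L j`, `j + 7R ≤ K`: `‖T M (1 - T F)(1 - T G) q‖ ≤ 6 e ‖q‖`: replace `(1 - T G) q` by `l_G q`,
      `(1 - T F)` by `l_F`, `T M` by `uu M` (`hom_u`, `dich` for `q`, `l_G q`, `l_F l_G q`), `locF`.
  (C) `Y = T F + T G - T F T G`, `1 = Y + (1 - T F)(1 - T G)`, `Y p = T F p + T G ((1 - T F) p)`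
      (`world_comm`): `T M p - Y p = - (1 - T M) Y p + T M (1 - T F)(1 - T G) p`, norm
      `≤ 4e + 4e(1+η) + 6e ≤ 15 e`.
-/

namespace Pool.H6.QL

variable {H : Type} [NormedAddCommGroup H] [InnerProductSpace ℝ H] [FiniteDimensional ℝ H]
variable {ι : Type} {X : ι → Op H} {L : ℕ → Submodule ℝ H} {K N R : ℕ} {lam del η : ℝ}
  {b : Bf ι → ℝ → Op H}

private theorem hm_pos (h : Par X L K lam del η N R b) (F : Bf ι) :
    Pos (cop lam del X F) (lam ^ 2 * wt lam del F)⁻¹ (lam ^ 2 * wt lam del F) :=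
  cop_pos (by linarith [h.lam4]) h.del0.le h.wld.sq h.wld.sym F

omit [FiniteDimensional ℝ H] in
private theorem hm_wt (h : Par X L K lam del η N R b) (F : Bf ι) : 0 < wt lam del F :=
  wt_pos (by linarith [h.lam4]) h.del0.le F

private theorem hm_lo (h : Par X L K lam del η N R b) (F : Bf ι) :
    0 < (lam ^ 2 * wt lam del F)⁻¹ := by
  have h1 := hm_wt h F
  have h2 : 0 < lam := by linarith [h.lam4]
  positivity

omit [FiniteDimensional ℝ H] in
private theorem hm_apx (h : Par X L K lam del η N R b) (F : Bf ι) {τ : ℝ} (hτ : 0 < τ) (q : H) :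
    ‖b F τ q - fc (cop lam del X F) (bfn N τ) q‖ ≤ η * ‖q‖ := by
  have h1 := (b F τ - fc (cop lam del X F) (bfn N τ)).le_opNorm q
  rw [sub_apply] at h1
  exact h1.trans (mul_le_mul_of_nonneg_right (h.apx F τ hτ) (norm_nonneg _))

private theorem hm_T (h : Par X L K lam del η N R b) (F : Bf ι) {τ : ℝ} (hτ : 0 < τ) (q : H) :
    ‖b F τ q‖ ≤ (1 + η) * ‖q‖ ∧ ‖q - b F τ q‖ ≤ (1 + η) * ‖q‖ := by
  obtain ⟨h1, h2⟩ := nrm_b h F hτ
  have h3 := (b F τ).le_opNorm q
  have h4 := (1 - b F τ).le_opNorm q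
  rw [sub_apply] at h4
  have h5 : (1 : Op H) q = q := rfl
  rw [h5] at h4
  exact ⟨h3.trans (mul_le_mul_of_nonneg_right h1 (norm_nonneg _)),
    h4.trans (mul_le_mul_of_nonneg_right h2 (norm_nonneg _))⟩

omit [FiniteDimensional ℝ H] in
private theorem hm_s (h : Par X L K lam del η N R b) :
    0 < Real.sqrt del ∧ Real.sqrt del ≤ 1 := by
  refine ⟨Real.sqrt_pos.2 h.del0, ?_⟩
  rw [Real.sqrt_le_one]
  linarith [h.del1]

/-- `160 lam η / s ≤ ef F`. -/
private theorem ef_ge (h : Par X L K lam del η N R b) (F : Bf ι) :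
    160 * (lam * η / Real.sqrt del) ≤ ef lam del η F := by
  obtain ⟨h1, h2⟩ := hm_s h
  have h3 : (4 : ℝ) ≤ 4 ^ (F.dp + 1) := by
    rw [pow_succ]
    have : (1 : ℝ) ≤ 4 ^ F.dp := one_le_pow₀ (by norm_num)
    linarith
  have hl : 0 < lam := by linarith [h.lam4]
  have he := h.eta0
  unfold ef
  have h4 : 0 ≤ 40 * lam / Real.sqrt del * η := by positivity
  have h5 := mul_le_mul_of_nonneg_right h3 h4
  calc 160 * (lam * η / Real.sqrt del) = 4 * (40 * lam / Real.sqrt del * η) := by ring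
    _ ≤ 4 ^ (F.dp + 1) * (40 * lam / Real.sqrt del * η) := h5
    _ = 4 ^ (F.dp + 1) * (40 * lam / Real.sqrt del) * η := by ring

private theorem ef_ge1 (h : Par X L K lam del η N R b) (F : Bf ι) :
    640 * (η / Real.sqrt del) ≤ ef lam del η F := by
  obtain ⟨h1, h2⟩ := hm_s h
  have he := h.eta0
  have h3 : 0 ≤ η / Real.sqrt del := by positivity
  have h4 := ef_ge h F
  have h5 : lam * η / Real.sqrt del = lam * (η / Real.sqrt del) := by ring
  rw [h5] at h4
  have h6 := mul_le_mul_of_nonneg_right h.lam4 h3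
  linarith

private theorem ef_ge2 (h : Par X L K lam del η N R b) (F : Bf ι) :
    640 * η ≤ ef lam del η F := by
  obtain ⟨h1, h2⟩ := hm_s h
  have he := h.eta0
  have h3 : η ≤ η / Real.sqrt del := by
    rw [le_div_iff₀ h1]
    nlinarith
  have h4 := ef_ge1 h F
  linarith

private theorem ef_mono (h : Par X L K lam del η N R b) {m n : ℕ} (hmn : m ≤ n) :
    4 ^ (m + 1) * (40 * lam / Real.sqrt del) * η ≤ 4 ^ (n + 1) * (40 * lam / Real.sqrt del) * η := by
  obtain ⟨h1, h2⟩ := hm_s h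
  have hl : 0 < lam := by linarith [h.lam4]
  have he := h.eta0
  have h3 : (4 : ℝ) ^ (m + 1) ≤ 4 ^ (n + 1) := pow_le_pow_right₀ (by norm_num) (by omega)
  gcongr

theorem hom_var (h : Par X L K lam del η N R b) (i : ι) :
    ‖b (.var i) 1 - (1 / 2 : ℝ) • (1 + X i)‖ ≤ 2 * η := by
  classical
  have hP := hm_pos h (.var i)
  have hl4 := h.lam4
  have hl : 0 < lam := by linarith
  have he := h.eta0
  have hli : lam⁻¹ ≤ 1 / 4 := by
    rw [inv_le_comm₀ hl (by norm_num)]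
    linarith
  have hli0 : 0 < lam⁻¹ := inv_pos.2 hl
  obtain ⟨al, hal⟩ : ∃ al, al = (lam + lam⁻¹) / 2 := ⟨_, rfl⟩
  obtain ⟨be, hbe⟩ : ∃ be, be = (lam - lam⁻¹) / 2 := ⟨_, rfl⟩
  have hbe0 : be ≠ 0 := by
    rw [hbe]
    have : 0 < lam - lam⁻¹ := by linarith
    positivity
  obtain ⟨C, hC⟩ : ∃ C, C = cop lam del X (.var i) := ⟨_, rfl⟩
  have hCe : C = al • (1 : Op H) + be • X i := by
    rw [hC, hal, hbe]
    rfl
  rw [← hC] at hP
  -- the function `(1 + X) / 2`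
  have h1 : (1 / 2 : ℝ) • (1 + X i) = fc C (fun t => 1 / 2 * (1 + (t - al) / be)) := by
    have e1 : X i = be⁻¹ • (C - al • (1 : Op H)) := by
      rw [hCe, add_sub_cancel_left, smul_smul, inv_mul_cancel₀ hbe0, one_smul]
    have e2 : fc C (fun t => 1 / 2 * (1 + (t - al) / be)) =
        fc C (fun t => (1 / 2 * (1 - al / be)) + (1 / 2 * be⁻¹) * t) := by
      congr 1
      funext t
      field_simp
      ring
    rw [e2, ← fc_add hP, fc_const hP, ← fc_smul hP, fc_id hP, e1]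
    have e3 : al / be = be⁻¹ * al := by rw [div_eq_mul_inv, mul_comm]
    rw [e3]
    module
  -- spectrum
  have hXX : ∀ v : H, C (C v) = (lam + lam⁻¹) • C v - v := by
    intro v
    have hx : X i (X i v) = v := congrArg (fun A : Op H => A v) (h.wld.sq i)
    have hv : ∀ u : H, C u = al • u + be • X i u := by
      intro u
      rw [hCe]
      rfl
    rw [hv (C v), hv v, map_add, map_smul, map_smul, hx]
    have e1 : lam + lam⁻¹ = 2 * al := by rw [hal]; ring
    have e2 : be * be = al * al - 1 := by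
      rw [hal, hbe]
      field_simp
      ring
    rw [e1]
    have e3 : al • (al • v + be • X i v) + be • (al • X i v + be • v) =
        (al * al + be * be) • v + (2 * al * be) • X i v := by module
    rw [e3, e2]
    module
  obtain ⟨m, e, t, r1, r2, r3⟩ := fc_rep hP
  have hsp : ∀ j, t j = lam ∨ t j = lam⁻¹ := by
    intro j
    have e1 := hXX (e j)
    rw [r1, map_smul, r1] at e1
    have e2 : (t j * t j - (lam + lam⁻¹) * t j + 1) • e j = 0 := by
      have e3 : (t j * t j - (lam + lam⁻¹) * t j + 1) • e j =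
        t j • t j • e j - ((lam + lam⁻¹) • t j • e j - e j) := by module
      rw [e3, e1, sub_self]
    have e4 : e j ≠ 0 := e.orthonormal.ne_zero j
    have e5 := (smul_eq_zero.1 e2).resolve_right e4
    have e6 : (t j - lam) * (t j - lam⁻¹) = 0 := by
      have : lam * lam⁻¹ = 1 := mul_inv_cancel₀ hl.ne'
      linear_combination e5 + this
    rcases mul_eq_zero.1 e6 with e7 | e7
    · left; linarith
    · right; linarith
  obtain ⟨f, hf⟩ : ∃ f : ℝ → ℝ, f = fun t => bfn N 1 t - 1 / 2 * (1 + (t - al) / be) := ⟨_, rfl⟩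
  have hflam : |f lam| ≤ η := by
    have e1 : 1 / 2 * (1 + (lam - al) / be) = 1 := by
      have : lam - al = be := by rw [hal, hbe]; ring
      rw [this, div_self hbe0]
      norm_num
    have e2 := bfn_hi h.odd one_pos h.del0 (by linarith [h.del1]) h.win
      (t := lam) (by linarith [h.del1])
    have e3 := (bfn_mem N one_pos hl).2
    rw [hf]
    show |bfn N 1 lam - 1 / 2 * (1 + (lam - al) / be)| ≤ η
    rw [e1, abs_le]
    constructor <;> linarith
  have hflam' : |f lam⁻¹| ≤ η := by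
    have e1 : 1 / 2 * (1 + (lam⁻¹ - al) / be) = 0 := by
      have : lam⁻¹ - al = -be := by rw [hal, hbe]; ring
      rw [this, neg_div, div_self hbe0]
      norm_num
    have e2 := bfn_lo (N := N) one_pos hli0 h.del0 (by linarith [h.del1]) h.win
      (by nlinarith [h.del1, h.del0])
    have e3 := (bfn_mem N one_pos hli0).1
    rw [hf]
    show |bfn N 1 lam⁻¹ - 1 / 2 * (1 + (lam⁻¹ - al) / be)| ≤ η
    rw [e1, abs_le]
    constructor <;> linarith
  have h2 : fc C f = fc C (fun s => if s = lam ∨ s = lam⁻¹ then f s else 0) := by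
    refine ContinuousLinearMap.ext fun v => ?_
    rw [r3, r3]
    refine Finset.sum_congr rfl fun j _ => ?_
    rw [if_pos (hsp j)]
  have h3 : ∀ v, ‖fc C f v‖ ≤ η * ‖v‖ := by
    intro v
    rw [h2]
    refine fc_norm hP he.le (fun s _ _ => ?_) v
    by_cases hs : s = lam ∨ s = lam⁻¹
    · rw [if_pos hs]
      rcases hs with rfl | rfl
      · exact hflam
      · exact hflam'
    · rw [if_neg hs, abs_zero]
      exact he.le
  refine ContinuousLinearMap.opNorm_le_bound _ (by positivity) fun v => ?_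
  have h4 := hm_apx h (.var i) one_pos v
  rw [← hC] at h4
  have h5 : fc C (bfn N 1) v - ((1 / 2 : ℝ) • (1 + X i)) v = fc C f v := by
    rw [h1, hf, ← fc_sub hP]
    rfl
  have h6 : (b (.var i) 1 - (1 / 2 : ℝ) • (1 + X i)) v =
      (b (.var i) 1 v - fc C (bfn N 1) v) + fc C f v := by
    rw [← h5, sub_apply]
    abel
  rw [h6]
  refine (norm_add_le _ _).trans ?_
  have := h3 v
  linarith

theorem hom_neg (h : Par X L K lam del η N R b) (F : Bf ι) :
    ‖b (.neg F) 1 - (1 - b F 1)‖ ≤ 2 * η := by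
  have hP := hm_pos h F
  have hlo := hm_lo h F
  have hPn := hm_pos h (.neg F)
  have e0 : cop lam del X (.neg F) = Ring.inverse (cop lam del X F) := rfl
  have e1 := (inv_fc hP hlo).1
  rw [e0, e1] at hPn
  have e2 : fc (cop lam del X (.neg F)) (bfn N 1) = 1 - fc (cop lam del X F) (bfn N 1) := by
    rw [e0, e1, fc_comp hP _ _ hPn]
    have e3 : fc (cop lam del X F) (fun t => bfn N 1 t⁻¹) =
        fc (cop lam del X F) (fun t => 1 - bfn N 1 t) := by
      refine fc_congr hP fun t h1 _ => ?_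
      have ht : 0 < t := lt_of_lt_of_le hlo h1
      have e4 := bfn_inv h.odd one_pos ht
      rw [inv_one] at e4
      exact e4
    rw [e3, ← fc_sub hP, fc_const hP, one_smul]
  have h1 := h.apx (.neg F) 1 one_pos
  have h2 := h.apx F 1 one_pos
  rw [e2] at h1
  have e5 : b (.neg F) 1 - (1 - b F 1) =
      (b (.neg F) 1 - (1 - fc (cop lam del X F) (bfn N 1))) +
        (b F 1 - fc (cop lam del X F) (bfn N 1)) := by abel
  rw [e5]
  refine (norm_add_le _ _).trans ?_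
  linarith

private theorem hm_cmp (h : Par X L K lam del η N R b) (F : Bf ι) {τ : ℝ} (hτ : 0 < τ)
    (hc : ∀ t, 0 < t → |bfn N 1 t - bfn N τ t| ≤ |gf N (wt lam del F) del t| + 2 * η) (q : H) :
    ‖b F 1 q - b F τ q‖ ≤ ‖gg lam del N X F q‖ + 4 * η * ‖q‖ := by
  have hP := hm_pos h F
  have hlo := hm_lo h F
  have h1 := hm_apx h F one_pos q
  have h2 := hm_apx h F hτ q
  have h3 : ‖fc (cop lam del X F) (fun t => bfn N 1 t - bfn N τ t) q‖ ≤
      ‖gg lam del N X F q‖ + 2 * η * ‖q‖ :=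
    fc_cmp hP (by linarith [h.eta0]) (fun t ht _ => hc t (lt_of_lt_of_le hlo ht)) q
  rw [← fc_sub hP, sub_apply] at h3
  have e1 : b F 1 q - b F τ q = (b F 1 q - fc (cop lam del X F) (bfn N 1) q) -
      (b F τ q - fc (cop lam del X F) (bfn N τ) q) +
      (fc (cop lam del X F) (bfn N 1) q - fc (cop lam del X F) (bfn N τ) q) := by abel
  rw [e1]
  refine (norm_add_le _ _).trans ?_
  have h4 := norm_sub_le (b F 1 q - fc (cop lam del X F) (bfn N 1) q)
    (b F τ q - fc (cop lam del X F) (bfn N τ) q)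
  have h5 : ‖fc (cop lam del X F) (bfn N 1) q - fc (cop lam del X F) (bfn N τ) q‖ ≤
    ‖gg lam del N X F q‖ + 2 * η * ‖q‖ := h3
  linarith

theorem hom_h (h : Par X L K lam del η N R b) (F : Bf ι) (hw : wt lam del F ≤ 1 / 4) (q : H) :
    ‖b F 1 q - hh lam del b F q‖ ≤ ‖gg lam del N X F q‖ + 4 * η * ‖q‖ := by
  have hwt := hm_wt h F
  have hd := h.del0
  refine hm_cmp h F (by positivity) (fun t ht => ?_) q
  exact gf_one_h h.odd hwt hw hd h.del1 h.win ht

theorem hom_u (h : Par X L K lam del η N R b) (F : Bf ι) (hw : wt lam del F ≤ 1 / 4) (q : H) :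
    ‖b F 1 q - uu lam del b F q‖ ≤ ‖gg lam del N X F q‖ + 4 * η * ‖q‖ := by
  have hwt := hm_wt h F
  have hd := h.del0
  refine hm_cmp h F (by positivity) (fun t ht => ?_) q
  exact gf_one_u h.odd hwt hw hd h.del1 h.win ht

theorem hom_idem (h : Par X L K lam del η N R b) (F : Bf ι) (hw : wt lam del F ≤ 1 / 4)
    {k : ℕ} (hk : k + 5 * R ≤ K) {p : H} (hp : p ∈ L k) :
    ‖b F 1 (b F 1 p) - b F 1 p‖ ≤ 2 * ef lam del η F * ‖p‖ := by
  have hP := hm_pos h F
  have hlo := hm_lo h F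
  have he := h.eta0
  have he1 := h.eta1
  have hwt := hm_wt h F
  obtain ⟨A, hA⟩ : ∃ A, A = fc (cop lam del X F) (bfn N 1) := ⟨_, rfl⟩
  obtain ⟨q, hq⟩ : ∃ q, q = A p := ⟨_, rfl⟩
  have h1 : ∀ v, ‖b F 1 v - A v‖ ≤ η * ‖v‖ := by
    intro v
    rw [hA]
    exact hm_apx h F one_pos v
  have h2 : ‖A q - q‖ ≤ ‖gg lam del N X F p‖ + 2 * η * ‖p‖ := by
    have h3 : ‖fc (cop lam del X F) (fun t => bfn N 1 t * bfn N 1 t - bfn N 1 t) p‖ ≤
        ‖gg lam del N X F p‖ + 2 * η * ‖p‖ :=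
      fc_cmp hP (by linarith) (fun t ht _ =>
        gf_idem h.odd hwt hw h.del0 h.del1 h.win (lt_of_lt_of_le hlo ht)) p
    rw [← fc_sub hP, ← fc_mul hP] at h3
    rw [hq, hA]
    exact h3
  have h4 : ‖A p‖ ≤ 1 * ‖p‖ := by
    rw [hA]
    refine fc_norm hP zero_le_one (fun t ht _ => ?_) p
    obtain ⟨e1, e2⟩ := bfn_mem N one_pos (lt_of_lt_of_le hlo ht)
    rw [abs_of_nonneg e1]
    exact e2
  have h5 := (hm_T h F one_pos (b F 1 p - A p)).1
  have h6 := dich h F hw hk hp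
  have e1 : b F 1 (b F 1 p) - b F 1 p = b F 1 (b F 1 p - A p) + (b F 1 q - A q) -
      (b F 1 p - A p) + (A q - q) := by
    rw [map_sub, ← hq]
    abel
  rw [e1]
  have n1 := norm_add_le (b F 1 (b F 1 p - A p) + (b F 1 q - A q) - (b F 1 p - A p)) (A q - q)
  have n2 := norm_sub_le (b F 1 (b F 1 p - A p) + (b F 1 q - A q)) (b F 1 p - A p)
  have n3 := norm_add_le (b F 1 (b F 1 p - A p)) (b F 1 q - A q)
  have n4 := h1 p
  have n5 := h1 q
  have n6 := ef_ge2 h F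
  have hp0 := norm_nonneg p
  have n7 : (1 + η) * ‖b F 1 p - A p‖ ≤ 1.01 * (η * ‖p‖) := by
    refine (mul_le_mul_of_nonneg_left n4 (by linarith)).trans ?_
    refine mul_le_mul_of_nonneg_right (by linarith) (by positivity)
  have n8 : η * ‖q‖ ≤ η * ‖p‖ := by
    rw [hq]
    refine mul_le_mul_of_nonneg_left ?_ he.le
    linarith
  have n9 : 640 * η * ‖p‖ ≤ ef lam del η F * ‖p‖ := mul_le_mul_of_nonneg_right n6 hp0
  have n10 : 2 * η * ‖p‖ = 2 * (η * ‖p‖) := by ring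
  have n11 : 640 * η * ‖p‖ = 640 * (η * ‖p‖) := by ring
  have n12 : 2 * ef lam del η F * ‖p‖ = 2 * (ef lam del η F * ‖p‖) := by ring
  have n13 : 0 ≤ η * ‖p‖ := by positivity
  rw [n12]
  rw [n10] at h2
  rw [n11] at n9
  linarith

omit [FiniteDimensional ℝ H] in
private theorem hm_mem (h : Par X L K lam del η N R b) (F : Bf ι) {τ : ℝ} (hτ : 0 < τ) {j : ℕ}
    (hj : j + R ≤ K) {q : H} (hq : q ∈ L j) : b F τ q ∈ L (j + R) ∧ q - b F τ q ∈ L (j + R) := by
  have h1 := world_mem h.wld (a := R) (k := j) (by omega) (h.mem F τ hτ) hq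
  exact ⟨h1, Submodule.sub_mem _ (h.wld.mono (Nat.le_add_right j R) hq) h1⟩

/-- Step (A). -/
private theorem hm_A (h : Par X L K lam del η N R b) (F M : Bf ι)
    (hwF : wt lam del F ≤ 1 / 4) (hwM : wt lam del M ≤ 1 / 4)
    (hFM : ef lam del η F ≤ ef lam del η M) {j : ℕ} (hj : j + 6 * R ≤ K) {q : H} (hq : q ∈ L j)
    (hloc : ‖hh lam del b F q - hh lam del b M (hh lam del b F q)‖ ≤
      7 * η / Real.sqrt del * ‖q‖) :
    ‖b F 1 q - b M 1 (b F 1 q)‖ ≤ 4 * ef lam del η M * ‖q‖ := by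
  have he := h.eta0
  have he1 := h.eta1
  have hd := h.del0
  have hwtF := hm_wt h F
  have hwtM := hm_wt h M
  obtain ⟨e, hee⟩ : ∃ e, e = ef lam del η M := ⟨_, rfl⟩
  obtain ⟨v, hv⟩ : ∃ v, v = hh lam del b F q := ⟨_, rfl⟩
  have hτ : 0 < (wt lam del F * (1 + del))⁻¹ := by positivity
  have hvm : v ∈ L (j + R) := by
    rw [hv]
    exact (hm_mem h F hτ (by omega) hq).1
  have hvn : ‖v‖ ≤ (1 + η) * ‖q‖ := by
    rw [hv]
    exact (hm_T h F hτ q).1
  have hq0 := norm_nonneg q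
  -- first term
  have a1 := hom_h h F hwF q
  have a2 := dich h F hwF (by omega : j + 5 * R ≤ K) hq
  have a3 := (hm_T h M one_pos (b F 1 q - v)).2
  -- second term
  have b1 := hom_h h M hwM v
  have b2 := dich h M hwM (by omega : j + R + 5 * R ≤ K) hvm
  have g1 := ef_ge2 h M
  have g2 := ef_ge1 h M
  rw [← hee] at hFM b2 g1 g2 ⊢
  rw [← hv] at a1 hloc
  have he0 : 0 ≤ e := by linarith
  have c1 : ‖b F 1 q - v‖ ≤ (e + 4 * η) * ‖q‖ := by
    have : ef lam del η F * ‖q‖ ≤ e * ‖q‖ := mul_le_mul_of_nonneg_right hFM hq0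
    linarith
  have c2 : ‖b F 1 q - v - b M 1 (b F 1 q - v)‖ ≤ 1.01 * ((e + 4 * η) * ‖q‖) := by
    refine a3.trans ?_
    refine mul_le_mul (by linarith) c1 (norm_nonneg _) (by norm_num)
  have c3 : ‖b M 1 v - hh lam del b M v‖ ≤ 1.01 * ((e + 4 * η) * ‖q‖) := by
    have e1 : ‖b M 1 v - hh lam del b M v‖ ≤ (e + 4 * η) * ‖v‖ := by linarith
    refine e1.trans ?_
    have e2 : (e + 4 * η) * ‖v‖ ≤ (e + 4 * η) * ((1 + η) * ‖q‖) :=
      mul_le_mul_of_nonneg_left hvn (by linarith)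
    refine e2.trans ?_
    have e3 : (e + 4 * η) * ((1 + η) * ‖q‖) = (1 + η) * ((e + 4 * η) * ‖q‖) := by ring
    rw [e3]
    refine mul_le_mul_of_nonneg_right (by linarith) ?_
    have : 0 ≤ e + 4 * η := by linarith
    positivity
  have c4 : 7 * η / Real.sqrt del * ‖q‖ ≤ 7 / 640 * (e * ‖q‖) := by
    have e1 : 7 * η / Real.sqrt del ≤ 7 / 640 * e := by
      have : 7 * η / Real.sqrt del = 7 * (η / Real.sqrt del) := by ring
      rw [this]
      linarith
    refine (mul_le_mul_of_nonneg_right e1 hq0).trans (le_of_eq ?_)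
    ring
  have e0 : b F 1 q - b M 1 (b F 1 q) = (b F 1 q - v - b M 1 (b F 1 q - v)) +
      ((v - hh lam del b M v) - (b M 1 v - hh lam del b M v)) := by
    rw [map_sub]
    abel
  rw [e0]
  have n1 := norm_add_le (b F 1 q - v - b M 1 (b F 1 q - v))
    ((v - hh lam del b M v) - (b M 1 v - hh lam del b M v))
  have n2 := norm_sub_le (v - hh lam del b M v) (b M 1 v - hh lam del b M v)
  have n3 : (e + 4 * η) * ‖q‖ ≤ (1 + 4 / 640) * (e * ‖q‖) := by
    have : (e + 4 * η) ≤ (1 + 4 / 640) * e := by linarith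
    refine (mul_le_mul_of_nonneg_right this hq0).trans (le_of_eq ?_)
    ring
  have n4 : 4 * e * ‖q‖ = 4 * (e * ‖q‖) := by ring
  have n5 : 0 ≤ e * ‖q‖ := by positivity
  rw [n4]
  linarith

/-- Step (B). -/
private theorem hm_B (h : Par X L K lam del η N R b) (F G : Bf ι)
    (hwF : wt lam del F ≤ 1 / 4) (hwG : wt lam del G ≤ 1 / 4)
    (hwM : wt lam del (F.or G) ≤ 1 / 4)
    (hFM : ef lam del η F ≤ ef lam del η (F.or G)) (hGM : ef lam del η G ≤ ef lam del η (F.or G))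
    {j : ℕ} (hj : j + 7 * R ≤ K) {q : H} (hq : q ∈ L j) :
    ‖b (F.or G) 1 ((1 - b F 1) ((1 - b G 1) q))‖ ≤ 6 * ef lam del η (F.or G) * ‖q‖ := by
  have he := h.eta0
  have he1 := h.eta1
  have hd := h.del0
  have hwtF := hm_wt h F
  have hwtG := hm_wt h G
  have hwtM := hm_wt h (F.or G)
  have hloc := locF h F G hwM (by omega : j + 3 * R ≤ K) hq
  obtain ⟨e, hee⟩ : ∃ e, e = ef lam del η (F.or G) := ⟨_, rfl⟩
  obtain ⟨w, hw⟩ : ∃ w, w = (1 - uu lam del b G) q := ⟨_, rfl⟩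
  obtain ⟨z, hz⟩ : ∃ z, z = (1 - uu lam del b F) w := ⟨_, rfl⟩
  have hτF : 0 < wt lam del F * (1 + del) := by positivity
  have hτG : 0 < wt lam del G * (1 + del) := by positivity
  have hw' : w = q - b G (wt lam del G * (1 + del)) q := by
    rw [hw]
    rfl
  have hz' : z = w - b F (wt lam del F * (1 + del)) w := by
    rw [hz]
    rfl
  have hwm : w ∈ L (j + R) := by
    rw [hw']
    exact (hm_mem h G hτG (by omega) hq).2
  have hwn : ‖w‖ ≤ (1 + η) * ‖q‖ := by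
    rw [hw']
    exact (hm_T h G hτG q).2
  have hzm : z ∈ L (j + R + R) := by
    rw [hz']
    exact (hm_mem h F hτF (by omega) hwm).2
  have hzn : ‖z‖ ≤ (1 + η) * ‖w‖ := by
    rw [hz']
    exact (hm_T h F hτF w).2
  have hq0 := norm_nonneg q
  have g1 := ef_ge2 h (F.or G)
  have g3 := ef_ge h (F.or G)
  -- the three replacements
  have a1 := hom_u h G hwG q
  have a2 := dich h G hwG (by omega : j + 5 * R ≤ K) hq
  have b1 := hom_u h F hwF w
  have b2 := dich h F hwF (by omega : j + R + 5 * R ≤ K) hwm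
  have c1 := hom_u h (F.or G) hwM z
  have c2 := dich h (F.or G) hwM (by omega : j + R + R + 5 * R ≤ K) hzm
  rw [← hw, ← hz] at hloc
  rw [← hee] at hFM hGM c2 g1 g3 ⊢
  have he0 : 0 ≤ e := by linarith
  have hc : 0 ≤ e + 4 * η := by linarith
  obtain ⟨r, hr⟩ : ∃ r, r = (e + 4 * η) * ‖q‖ := ⟨_, rfl⟩
  have hr0 : 0 ≤ r := by
    rw [hr]
    positivity
  have d1 : ‖b G 1 q - uu lam del b G q‖ ≤ r := by
    have : ef lam del η G * ‖q‖ ≤ e * ‖q‖ := mul_le_mul_of_nonneg_right hGM hq0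
    rw [hr]
    linarith
  have hwn' : (e + 4 * η) * ‖w‖ ≤ 1.01 * r := by
    have e2 : (e + 4 * η) * ‖w‖ ≤ (e + 4 * η) * ((1 + η) * ‖q‖) :=
      mul_le_mul_of_nonneg_left hwn hc
    have e3 : (e + 4 * η) * ((1 + η) * ‖q‖) = (1 + η) * r := by
      rw [hr]
      ring
    rw [e3] at e2
    refine e2.trans (mul_le_mul_of_nonneg_right (by linarith) hr0)
  have d2 : ‖b F 1 w - uu lam del b F w‖ ≤ 1.01 * r := by
    have : ef lam del η F * ‖w‖ ≤ e * ‖w‖ := mul_le_mul_of_nonneg_right hFM (norm_nonneg _)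
    linarith
  have d3 : ‖b (F.or G) 1 z - uu lam del b (F.or G) z‖ ≤ 1.0201 * r := by
    have e1 : (e + 4 * η) * ‖z‖ ≤ (e + 4 * η) * ((1 + η) * ‖w‖) :=
      mul_le_mul_of_nonneg_left hzn hc
    have e2 : (e + 4 * η) * ((1 + η) * ‖w‖) = (1 + η) * ((e + 4 * η) * ‖w‖) := by ring
    rw [e2] at e1
    have e3 : (1 + η) * ((e + 4 * η) * ‖w‖) ≤ 1.01 * (1.01 * r) :=
      mul_le_mul (by linarith) hwn' (by positivity) (by norm_num)
    linarith
  -- decomposition
  obtain ⟨y, hy⟩ : ∃ y, y = b G 1 q - uu lam del b G q := ⟨_, rfl⟩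
  obtain ⟨x, hx⟩ : ∃ x, x = b F 1 w - uu lam del b F w := ⟨_, rfl⟩
  have e1 : (1 - b G 1) q = w - y := by
    rw [hw, hy]
    show q - b G 1 q = (q - uu lam del b G q) - (b G 1 q - uu lam del b G q)
    abel
  have e2 : (1 - b F 1) (w - y) = z - x - (y - b F 1 y) := by
    rw [hz, hx]
    show (w - y) - b F 1 (w - y) = (w - uu lam del b F w) - (b F 1 w - uu lam del b F w) -
      (y - b F 1 y)
    rw [map_sub]
    abel
  have e3 : b (F.or G) 1 ((1 - b F 1) ((1 - b G 1) q)) =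
      uu lam del b (F.or G) z + (b (F.or G) 1 z - uu lam del b (F.or G) z) -
        b (F.or G) 1 x - b (F.or G) 1 (y - b F 1 y) := by
    rw [e1, e2, map_sub, map_sub]
    abel
  rw [← hy] at d1
  rw [← hx] at d2
  have m1 : ‖b (F.or G) 1 x‖ ≤ 1.01 * (1.01 * r) :=
    ((hm_T h (F.or G) one_pos x).1).trans
      (mul_le_mul (by linarith) d2 (norm_nonneg _) (by norm_num))
  have m2 : ‖y - b F 1 y‖ ≤ 1.01 * r :=
    ((hm_T h F one_pos y).2).trans (mul_le_mul (by linarith) d1 (norm_nonneg _) (by norm_num))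
  have m3 : ‖b (F.or G) 1 (y - b F 1 y)‖ ≤ 1.01 * (1.01 * r) :=
    ((hm_T h (F.or G) one_pos (y - b F 1 y)).1).trans
      (mul_le_mul (by linarith) m2 (norm_nonneg _) (by norm_num))
  have n1 := norm_sub_le (uu lam del b (F.or G) z + (b (F.or G) 1 z - uu lam del b (F.or G) z) -
        b (F.or G) 1 x) (b (F.or G) 1 (y - b F 1 y))
  have n2 := norm_sub_le (uu lam del b (F.or G) z +
    (b (F.or G) 1 z - uu lam del b (F.or G) z)) (b (F.or G) 1 x)
  have n3 := norm_add_le (uu lam del b (F.or G) z)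
    (b (F.or G) 1 z - uu lam del b (F.or G) z)
  have n4 : 7 * lam * η / Real.sqrt del * ‖q‖ ≤ 7 / 160 * (e * ‖q‖) := by
    have e1 : 7 * lam * η / Real.sqrt del ≤ 7 / 160 * e := by
      have : 7 * lam * η / Real.sqrt del = 7 * (lam * η / Real.sqrt del) := by ring
      rw [this]
      linarith
    refine (mul_le_mul_of_nonneg_right e1 hq0).trans (le_of_eq ?_)
    ring
  have n5 : r ≤ (1 + 4 / 640) * (e * ‖q‖) := by
    have : (e + 4 * η) ≤ (1 + 4 / 640) * e := by linarith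
    rw [hr]
    refine (mul_le_mul_of_nonneg_right this hq0).trans (le_of_eq ?_)
    ring
  have n6 : 6 * e * ‖q‖ = 6 * (e * ‖q‖) := by ring
  have n7 : 0 ≤ e * ‖q‖ := by positivity
  rw [e3, n6]
  linarith

theorem hom_or (h : Par X L K lam del η N R b) (F G : Bf ι)
    (hw : wt lam del (F.or G) ≤ 1 / 4) {k : ℕ} (hk : k + 8 * R ≤ K) {p : H} (hp : p ∈ L k) :
    ‖b (F.or G) 1 p - (b F 1 p + b G 1 p - b F 1 (b G 1 p))‖ ≤
      15 * ef lam del η (F.or G) * ‖p‖ := by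
  have hl1 : 1 ≤ lam := by linarith [h.lam4]
  have hwF : wt lam del F ≤ 1 / 4 := (wt_or_left hl1 h.del0.le F G).trans hw
  have hwG : wt lam del G ≤ 1 / 4 := (wt_or_right hl1 h.del0.le F G).trans hw
  have he := h.eta0
  have he1 := h.eta1
  have hFM : ef lam del η F ≤ ef lam del η (F.or G) := by
    have : F.dp ≤ (F.or G).dp := (le_max_left _ _).trans (Nat.le_succ _)
    exact ef_mono h this
  have hGM : ef lam del η G ≤ ef lam del η (F.or G) := by
    have : G.dp ≤ (F.or G).dp := (le_max_right _ _).trans (Nat.le_succ _)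
    exact ef_mono h this
  have hA := hm_A h F (F.or G) hwF hw hFM (by omega : k + 6 * R ≤ K) hp
    (locT h F G hw (by omega) hp)
  obtain ⟨q, hq⟩ : ∃ q, q = p - b F 1 p := ⟨_, rfl⟩
  have hqm : q ∈ L (k + R) := by
    rw [hq]
    exact (hm_mem h F one_pos (by omega) hp).2
  have hqn : ‖q‖ ≤ (1 + η) * ‖p‖ := by
    rw [hq]
    exact (hm_T h F one_pos p).2
  have hA' := hm_A h G (F.or G) hwG hw hGM (by omega : k + R + 6 * R ≤ K) hqm
    (locT' h F G hw (by omega) hqm)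
  have hB := hm_B h F G hwF hwG hw hFM hGM (by omega : k + 7 * R ≤ K) hp
  have hcomm : b F 1 (b G 1 p) = b G 1 (b F 1 p) :=
    world_comm h.wld (by omega : R + R + k ≤ K) (h.mem F 1 one_pos) (h.mem G 1 one_pos) hp
  have g1 := ef_ge2 h (F.or G)
  obtain ⟨e, hee⟩ : ∃ e, e = ef lam del η (F.or G) := ⟨_, rfl⟩
  rw [← hee] at hA hA' hB g1 ⊢
  have he0 : 0 ≤ e := by linarith
  have hp0 := norm_nonneg p
  have e1 : b (F.or G) 1 p - (b F 1 p + b G 1 p - b F 1 (b G 1 p)) =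
      b (F.or G) 1 ((1 - b F 1) ((1 - b G 1) p)) - (b F 1 p - b (F.or G) 1 (b F 1 p)) -
        (b G 1 q - b (F.or G) 1 (b G 1 q)) := by
    have e2 : (1 - b F 1) ((1 - b G 1) p) = p - b G 1 p - (b F 1 p - b F 1 (b G 1 p)) := by
      show (p - b G 1 p) - b F 1 (p - b G 1 p) = _
      rw [map_sub]
    have e3 : b G 1 q = b G 1 p - b F 1 (b G 1 p) := by
      rw [hq, map_sub, hcomm]
    rw [e2, e3]
    simp only [map_sub]
    abel
  rw [e1]
  have n1 := norm_sub_le (b (F.or G) 1 ((1 - b F 1) ((1 - b G 1) p)) -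
    (b F 1 p - b (F.or G) 1 (b F 1 p))) (b G 1 q - b (F.or G) 1 (b G 1 q))
  have n2 := norm_sub_le (b (F.or G) 1 ((1 - b F 1) ((1 - b G 1) p)))
    (b F 1 p - b (F.or G) 1 (b F 1 p))
  have n3 : 4 * e * ‖q‖ ≤ 4.04 * (e * ‖p‖) := by
    have a1 : 4 * e * ‖q‖ ≤ 4 * e * ((1 + η) * ‖p‖) :=
      mul_le_mul_of_nonneg_left hqn (by positivity)
    have a2 : 4 * e * ((1 + η) * ‖p‖) = (4 * (1 + η)) * (e * ‖p‖) := by ring
    rw [a2] at a1
    refine a1.trans (mul_le_mul_of_nonneg_right (by linarith) (by positivity))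
  have n4 : 15 * e * ‖p‖ = 15 * (e * ‖p‖) := by ring
  have n5 : 4 * e * ‖p‖ = 4 * (e * ‖p‖) := by ring
  have n6 : 6 * e * ‖p‖ = 6 * (e * ‖p‖) := by ring
  have n7 : 0 ≤ e * ‖p‖ := by positivity
  rw [n4]
  rw [n5] at hA
  rw [n6] at hB
  linarith

/-- The homomorphism for all formulas with `wt ≤ 1/4` and depth at most `d`. -/
theorem bhom_of_par (h : Par X L K lam del η N R b) (d : ℕ) :
    BHom X L K R (15 * (4 ^ (d + 1) * (40 * lam / Real.sqrt del) * η))
      (fun F => wt lam del F ≤ 1 / 4 ∧ F.dp ≤ d) (fun F => b F 1) := by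
  have he := h.eta0
  obtain ⟨E, hE⟩ : ∃ E, E = 4 ^ (d + 1) * (40 * lam / Real.sqrt del) * η := ⟨_, rfl⟩
  rw [← hE]
  have hef : ∀ F : Bf ι, F.dp ≤ d → ef lam del η F ≤ E := by
    intro F hF
    rw [hE]
    exact ef_mono h hF
  have hE0 : 640 * η ≤ E := by
    obtain ⟨h1, h2⟩ := hm_s h
    have hl : 0 < lam := by linarith [h.lam4]
    have h3 : (4 : ℝ) ≤ 4 ^ (d + 1) := by
      rw [pow_succ]
      have : (1 : ℝ) ≤ 4 ^ d := one_le_pow₀ (by norm_num)
      linarith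
    have h4 : (160 : ℝ) ≤ 40 * lam / Real.sqrt del := by
      rw [le_div_iff₀ h1]
      nlinarith [h.lam4]
    rw [hE]
    have h5 : (4 : ℝ) * 160 ≤ 4 ^ (d + 1) * (40 * lam / Real.sqrt del) :=
      mul_le_mul h3 h4 (by norm_num) (by positivity)
    have h6 := mul_le_mul_of_nonneg_right h5 he.le
    linarith
  refine ⟨fun F _ => h.mem F 1 one_pos, fun F _ => ?_, fun i => ?_, fun F _ => ?_, ?_, ?_⟩
  · obtain ⟨h1, h2⟩ := nrm_b h F one_pos
    exact ⟨by linarith, by linarith⟩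
  · exact (hom_var h i).trans (by linarith)
  · exact (hom_neg h F).trans (by linarith)
  · intro F hF k hk p hp
    refine (hom_idem h F hF.1 (by omega : k + 5 * R ≤ K) hp).trans ?_
    refine mul_le_mul_of_nonneg_right ?_ (norm_nonneg _)
    have := hef F hF.2
    linarith
  · intro F G hF k hk p hp
    refine (hom_or h F G hF.1 hk hp).trans ?_
    refine mul_le_mul_of_nonneg_right ?_ (norm_nonneg _)
    have := hef (F.or G) hF.2
    linarith

end Pool.H6.QL
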