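import Mathlib
import Pool.Agent.H6.QL.Bfs

set_option autoImplicit false

/-!
# [H6 QL NUM] Choice of the parameters (pure real analysis)

Given `s, d ≥ 1`, `0 < E ≤ 1`. `del = 1/(10 d)`, `lam = 8 sqrt s`, so
`(1 + del)^(3d) sqrt s / lam ≤ e^(3/10)/8 ≤ 1/4`. `η := E / (15 · 4^(d+1) · 40 · lam / sqrt del)`
(`≤ 1/100`). `N` odd with `18 log(1/η)/del² ≤ N ≤ 18 log(1/η)/del² + 2`. `mu = (lam-1)/(lam+1)`,
`1 - mu = 2/(lam+1)`, `mu^(J+1) ≤ exp(-2(J+1)/(lam+1))` (`1 - x ≤ exp(-x)`). `J = ⌈lam (log(1/η) + 3N + 3 + lam')⌉`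
with `lam' = log lam + 1`, so that `N 3^N mu^(J+1) (lam+1)/2 ≤ η` (`log N + N log 3 ≤ 3N`); this also
gives `mu^(J+1)/(1-mu) ≤ 1` (`N 3^N ≥ 1`).
With `Λ = log(1/E) + d + log s + 1`: `log(1/η) ≤ C Λ`, `N ≤ C d² Λ`, `J ≤ C sqrt s · d² Λ`, so
`N J ≤ C sqrt s d⁴ Λ²`.
-/

namespace Pool.H6.QL

private theorem exists_odd (x : ℝ) (hx : 0 ≤ x) : ∃ N : ℕ, Odd N ∧ x ≤ N ∧ (N : ℝ) ≤ x + 2 := by
  have h1 := Nat.le_ceil x
  have h2 := Nat.ceil_lt_add_one hx
  rcases Nat.even_or_odd ⌈x⌉₊ with h | h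
  · refine ⟨⌈x⌉₊ + 1, h.add_one, ?_, ?_⟩
    · push_cast; linarith
    · push_cast; linarith
  · exact ⟨⌈x⌉₊, h, h1, by linarith⟩

private theorem mu_est {lam B η : ℝ} {N J : ℕ} (hlam : 4 ≤ lam) (hN : 1 ≤ N)
    (hη : 0 < η) (hη1 : η ≤ 1) (hB : B = Real.log (1 / η) + 3 * N + Real.log lam + 1)
    (hB0 : 0 ≤ B) (hJ : lam * B ≤ J) :
    mu lam ^ (J + 1) / (1 - mu lam) ≤ 1 ∧ N * 3 ^ N * (mu lam ^ (J + 1) / (1 - mu lam)) ≤ η := by
  have hl0 : 0 < lam := by linarith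
  have hmu1 : 1 - mu lam = 2 / (lam + 1) := by
    unfold mu
    field_simp
    ring
  have hmu0 : 0 ≤ mu lam := by
    unfold mu
    apply div_nonneg <;> linarith
  have hmu2 : mu lam ≤ Real.exp (-(2 / (lam + 1))) := by
    have h1 := Real.one_sub_le_exp_neg (2 / (lam + 1))
    have h2 : mu lam = 1 - 2 / (lam + 1) := by rw [← hmu1]; ring
    rw [h2]; exact h1
  have hpow : mu lam ^ (J + 1) ≤ Real.exp (-B) := by
    calc mu lam ^ (J + 1) ≤ Real.exp (-(2 / (lam + 1))) ^ (J + 1) :=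
          pow_le_pow_left₀ hmu0 hmu2 _
      _ = Real.exp (((J + 1 : ℕ) : ℝ) * (-(2 / (lam + 1)))) := by rw [Real.exp_nat_mul]
      _ ≤ Real.exp (-B) := by
          apply Real.exp_le_exp.2
          have h1 : B ≤ ((J : ℝ) + 1) * (2 / (lam + 1)) := by
            rw [← mul_div_assoc, le_div_iff₀ (by linarith)]
            nlinarith
          push_cast
          linarith
  have hexp : Real.exp (-B) = η * Real.exp (-(3 * N)) * (1 / lam) * Real.exp (-1) := by
    have h1 : -B = Real.log η + (-(3 * (N : ℝ))) + (-Real.log lam) + (-1) := by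
      rw [hB, one_div, Real.log_inv]; ring
    rw [h1, Real.exp_add, Real.exp_add, Real.exp_add, Real.exp_log hη, Real.exp_neg (Real.log lam),
      Real.exp_log hl0, one_div]
  have hP : (N : ℝ) * 3 ^ N ≤ Real.exp (3 * N) := by
    have h1 : (N : ℝ) ≤ Real.exp N := by
      have := Real.add_one_le_exp (N : ℝ)
      linarith
    have h2 : (3 : ℝ) ^ N ≤ Real.exp (N * 2) := by
      rw [Real.exp_nat_mul]
      apply pow_le_pow_left₀ (by norm_num)
      have := Real.add_one_le_exp (2 : ℝ)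
      linarith
    calc (N : ℝ) * 3 ^ N ≤ Real.exp N * Real.exp (N * 2) :=
          mul_le_mul h1 h2 (by positivity) (Real.exp_pos _).le
      _ = Real.exp (3 * N) := by
          rw [← Real.exp_add]; congr 1; ring
  have hP1 : (1 : ℝ) ≤ (N : ℝ) * 3 ^ N := by
    have h1 : (1 : ℝ) ≤ N := by exact_mod_cast hN
    have h2 : (1 : ℝ) ≤ 3 ^ N := one_le_pow₀ (by norm_num)
    exact one_le_mul_of_one_le_of_one_le h1 h2
  have hx0 : 0 ≤ mu lam ^ (J + 1) / (1 - mu lam) := by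
    rw [hmu1]; positivity
  have hx1 : mu lam ^ (J + 1) / (1 - mu lam) ≤ Real.exp (-B) * ((lam + 1) / 2) := by
    rw [hmu1, div_div_eq_mul_div, mul_div_assoc]
    exact mul_le_mul_of_nonneg_right hpow (by positivity)
  have hmain : N * 3 ^ N * (mu lam ^ (J + 1) / (1 - mu lam)) ≤ η := by
    calc N * 3 ^ N * (mu lam ^ (J + 1) / (1 - mu lam))
        ≤ Real.exp (3 * N) * (Real.exp (-B) * ((lam + 1) / 2)) :=
          mul_le_mul hP hx1 hx0 (Real.exp_pos _).le
      _ = (Real.exp (3 * N) * Real.exp (-(3 * N))) * η * (Real.exp (-1) * ((lam + 1) / (2 * lam))) := by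
          rw [hexp]
          field_simp
      _ = η * (Real.exp (-1) * ((lam + 1) / (2 * lam))) := by
          rw [← Real.exp_add]
          simp
      _ ≤ η * 1 := by
          apply mul_le_mul_of_nonneg_left _ hη.le
          have h1 : Real.exp (-1) ≤ 1 := Real.exp_le_one_iff.2 (by norm_num)
          have h2 : (lam + 1) / (2 * lam) ≤ 1 := by
            rw [div_le_one (by positivity)]; linarith
          have h3 : 0 ≤ (lam + 1) / (2 * lam) := by positivity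
          exact mul_le_one₀ h1 h3 h2
      _ = η := mul_one _
  refine ⟨?_, hmain⟩
  calc mu lam ^ (J + 1) / (1 - mu lam) = 1 * (mu lam ^ (J + 1) / (1 - mu lam)) := (one_mul _).symm
    _ ≤ N * 3 ^ N * (mu lam ^ (J + 1) / (1 - mu lam)) := mul_le_mul_of_nonneg_right hP1 hx0
    _ ≤ η := hmain
    _ ≤ 1 := hη1

theorem num : ∃ C : ℝ, 0 < C ∧ ∀ (s d : ℕ) (E : ℝ), 1 ≤ s → 1 ≤ d → 0 < E → E ≤ 1 →
    ∃ (lam del η : ℝ) (N J : ℕ), 4 ≤ lam ∧ 0 < del ∧ del ≤ 1 / 10 ∧ 0 < η ∧ η ≤ 1 / 100 ∧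
      Odd N ∧ Real.exp (-(N : ℝ) * del ^ 2 / 18) ≤ η ∧
      (1 + del) ^ (3 * d) * Real.sqrt s / lam ≤ 1 / 4 ∧
      15 * (4 ^ (d + 1) * (40 * lam / Real.sqrt del) * η) ≤ E ∧
      mu lam ^ (J + 1) / (1 - mu lam) ≤ 1 ∧
      N * 3 ^ N * (mu lam ^ (J + 1) / (1 - mu lam)) ≤ η ∧
      ((N * J : ℕ) : ℝ) ≤
        C * Real.sqrt s * (d : ℝ) ^ 4 * (Real.log (1 / E) + d + Real.log s + 1) ^ 2 := by
  refine ⟨113402 * 2722217, by norm_num, ?_⟩
  intro s d E hs hd hE0 hE1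
  have hsR : (1 : ℝ) ≤ s := by exact_mod_cast hs
  have hdR : (1 : ℝ) ≤ d := by exact_mod_cast hd
  set r : ℝ := Real.sqrt s with hr
  have hr1 : 1 ≤ r := by
    rw [hr]; exact Real.one_le_sqrt.2 hsR
  have hr0 : 0 < r := by linarith
  set D : ℝ := 1 / (10 * d) with hD
  have hD0 : 0 < D := by positivity
  have hD1 : D ≤ 1 / 10 := by
    rw [hD]
    apply one_div_le_one_div_of_le (by norm_num)
    linarith
  have hsD0 : 0 < Real.sqrt D := Real.sqrt_pos.2 hD0
  have hsD1 : Real.sqrt D ≤ 1 := Real.sqrt_le_one.2 (by linarith)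
  set l1 : ℝ := Real.log (1 / E) with hl1
  have hl10 : 0 ≤ l1 := Real.log_nonneg (by rw [le_div_iff₀ hE0]; linarith)
  set l2 : ℝ := Real.log s with hl2
  have hl20 : 0 ≤ l2 := Real.log_nonneg hsR
  set Lam : ℝ := l1 + d + l2 + 1 with hLam
  have hLam1 : 1 ≤ Lam := by rw [hLam]; linarith
  set lam : ℝ := 8 * r with hlam
  have hlam8 : 8 ≤ lam := by rw [hlam]; linarith
  have hlam0 : 0 < lam := by linarith
  set T : ℝ := 15 * (4 ^ (d + 1) * (40 * lam / Real.sqrt D)) with hT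
  have hq : 320 ≤ 40 * lam / Real.sqrt D := by
    rw [le_div_iff₀ hsD0]
    nlinarith
  have hT1 : 4800 ≤ T := by
    rw [hT]
    have h1 : (1 : ℝ) ≤ 4 ^ (d + 1) := one_le_pow₀ (by norm_num)
    nlinarith
  have hT0 : 0 < T := by linarith
  set η : ℝ := E / T with hη
  have hη0 : 0 < η := by positivity
  have hη1 : η ≤ 1 / 100 := by
    rw [hη, div_le_iff₀ hT0]
    linarith
  have hTη : 15 * (4 ^ (d + 1) * (40 * lam / Real.sqrt D) * η) = E := by
    have h1 : 15 * (4 ^ (d + 1) * (40 * lam / Real.sqrt D) * η) = T * η := by rw [hT]; ring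
    rw [h1, hη]
    field_simp
  -- logarithms
  have hlogr : Real.log r = l2 / 2 := by
    rw [hr, Real.log_sqrt (by linarith)]
  have hloglam : Real.log lam ≤ 7 + l2 / 2 := by
    rw [hlam, Real.log_mul (by norm_num) hr0.ne', hlogr]
    have := Real.log_le_sub_one_of_pos (show (0 : ℝ) < 8 by norm_num)
    linarith
  have hloglam0 : 0 ≤ Real.log lam := Real.log_nonneg (by linarith)
  have hlogD : -Real.log (Real.sqrt D) ≤ 5 * d := by
    rw [Real.log_sqrt hD0.le, hD, one_div, Real.log_inv]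
    have := Real.log_le_sub_one_of_pos (show (0 : ℝ) < 10 * d by positivity)
    linarith
  have hlogT : Real.log T ≤ 63 + 8 * d + l2 / 2 := by
    have h15 := Real.log_le_sub_one_of_pos (show (0 : ℝ) < 15 by norm_num)
    have h4 := Real.log_le_sub_one_of_pos (show (0 : ℝ) < 4 by norm_num)
    have h40 := Real.log_le_sub_one_of_pos (show (0 : ℝ) < 40 by norm_num)
    have h1 : Real.log T = Real.log 15 + (((d + 1 : ℕ) : ℝ) * Real.log 4 +
        ((Real.log 40 + Real.log lam) - Real.log (Real.sqrt D))) := by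
      rw [hT, Real.log_mul (by norm_num) (by positivity), Real.log_mul (by positivity) (by positivity),
        Real.log_pow, Real.log_div (by positivity) hsD0.ne', Real.log_mul (by norm_num) hlam0.ne']
    rw [h1]
    push_cast
    nlinarith
  have hL : Real.log (1 / η) = l1 + Real.log T := by
    have h1 : 1 / η = (1 / E) * T := by
      rw [hη]; field_simp
    rw [h1, Real.log_mul (by positivity) hT0.ne']
  set L : ℝ := Real.log (1 / η) with hLdef
  have hL0 : 0 ≤ L := by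
    rw [hL]
    have := Real.log_nonneg (show (1 : ℝ) ≤ T by linarith)
    linarith
  have hL63 : L ≤ 63 * Lam := by
    rw [hL, hLam]
    linarith
  obtain ⟨N, hNodd, hN1, hN2⟩ := exists_odd (18 * L / D ^ 2) (by positivity)
  have hD2 : 18 * L / D ^ 2 = 1800 * (d : ℝ) ^ 2 * L := by
    rw [hD]
    field_simp
    ring
  have hNpos : 1 ≤ N := hNodd.pos
  have hd2 : (1 : ℝ) ≤ (d : ℝ) ^ 2 := one_le_pow₀ hdR
  have hdL : (1 : ℝ) ≤ (d : ℝ) ^ 2 * Lam := one_le_mul_of_one_le_of_one_le hd2 hLam1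
  have hLdL : Lam ≤ (d : ℝ) ^ 2 * Lam := le_mul_of_one_le_left (by linarith) hd2
  have hNb : (N : ℝ) ≤ 113402 * ((d : ℝ) ^ 2 * Lam) := by
    have h1 : (d : ℝ) ^ 2 * L ≤ (d : ℝ) ^ 2 * (63 * Lam) :=
      mul_le_mul_of_nonneg_left hL63 (by positivity)
    rw [hD2] at hN2
    linarith
  set B : ℝ := L + 3 * N + Real.log lam + 1 with hB
  have hB0 : 0 ≤ B := by rw [hB]; positivity
  have hBb : B ≤ 340277 * ((d : ℝ) ^ 2 * Lam) := by
    rw [hB]
    have h1 : l2 / 2 ≤ Lam := by rw [hLam]; linarith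
    have h2 : (1 : ℝ) ≤ Lam := hLam1
    linarith
  have hJ1 : lam * B ≤ (⌈lam * B⌉₊ : ℕ) := Nat.le_ceil _
  have hJ2 : ((⌈lam * B⌉₊ : ℕ) : ℝ) ≤ 2722217 * (r * ((d : ℝ) ^ 2 * Lam)) := by
    have h1 := (Nat.ceil_lt_add_one (show 0 ≤ lam * B by positivity)).le
    have h2 : lam * B ≤ lam * (340277 * ((d : ℝ) ^ 2 * Lam)) := mul_le_mul_of_nonneg_left hBb hlam0.le
    have h3 : lam * (340277 * ((d : ℝ) ^ 2 * Lam)) = 2722216 * (r * ((d : ℝ) ^ 2 * Lam)) := by
      rw [hlam]; ring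
    have h4 : 1 ≤ r * ((d : ℝ) ^ 2 * Lam) := one_le_mul_of_one_le_of_one_le hr1 hdL
    linarith
  obtain ⟨hm1, hm2⟩ := mu_est (lam := lam) (B := B) (η := η) (N := N) (J := ⌈lam * B⌉₊)
    (by linarith) hNpos hη0 (by linarith) (by rw [hB, hLdef]) hB0 hJ1
  refine ⟨lam, D, η, N, ⌈lam * B⌉₊, by linarith, hD0, hD1, hη0, hη1, hNodd, ?_, ?_, hTη.le, hm1, hm2, ?_⟩
  · have h1 : L ≤ N * D ^ 2 / 18 := by
      rw [div_le_iff₀ (by positivity)] at hN1
      linarith
    have h2 : Real.exp (-L) = η := by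
      rw [hLdef, one_div, Real.log_inv, neg_neg, Real.exp_log hη0]
    calc Real.exp (-(N : ℝ) * D ^ 2 / 18) ≤ Real.exp (-L) := by
          apply Real.exp_le_exp.2
          have : -(N : ℝ) * D ^ 2 / 18 = -(N * D ^ 2 / 18) := by ring
          rw [this]
          linarith
      _ = η := h2
  · have h1 : (1 + D) ^ (3 * d) ≤ 2 := by
      have h2 : (1 + D) ^ (3 * d) ≤ Real.exp D ^ (3 * d) := by
        apply pow_le_pow_left₀ (by positivity)
        have := Real.add_one_le_exp D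
        linarith
      have h3 : Real.exp D ^ (3 * d) = Real.exp (3 / 10) := by
        rw [← Real.exp_nat_mul]
        congr 1
        rw [hD]
        push_cast
        field_simp
      have h4 : Real.exp (3 / 10) ≤ 2 := by
        have h5 := Real.exp_bound_div_one_sub_of_interval (x := (3 / 10 : ℝ)) (by norm_num) (by norm_num)
        refine h5.trans ?_
        norm_num
      rw [h3] at h2
      linarith
    rw [div_le_iff₀ hlam0]
    have h2 : (1 + D) ^ (3 * d) * r ≤ 2 * r := mul_le_mul_of_nonneg_right h1 hr0.le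
    rw [hlam]
    linarith
  · push_cast
    calc (N : ℝ) * (⌈lam * B⌉₊ : ℝ)
        ≤ (113402 * ((d : ℝ) ^ 2 * Lam)) * (2722217 * (r * ((d : ℝ) ^ 2 * Lam))) :=
          mul_le_mul hNb hJ2 (by positivity) (by positivity)
      _ = 113402 * 2722217 * r * (d : ℝ) ^ 4 * Lam ^ 2 := by ring

end Pool.H6.QL
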