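import Mathlib
import Pool.Agent.H6.QL.HomA
import Pool.Agent.H6.QL.Num
import Pool.Agent.H6.QL.Bh

set_option autoImplicit false

/-!
# [H6 QL HOZ] Chapters 0-4 together: the approximate homomorphism on formulas of size `≤ s`, depth `≤ d`

`num` gives the parameters, `bh_exists` the operators `b`, so `Par` holds with `R = N * J`;
`bhom_of_par`; `wt_le`: `sz F ≤ s`, `dp F ≤ d` imply `wt F ≤ (1+del)^(3d) sqrt s/lam ≤ 1/4`; `BHom` is
monotone in `E` and antitone in the predicate.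
-/

namespace Pool.H6.QL

theorem bhom_exists : ∃ C : ℝ, 0 < C ∧ ∀ (H : Type) [NormedAddCommGroup H]
    [InnerProductSpace ℝ H] [FiniteDimensional ℝ H] (ι : Type) (X : ι → Op H)
    (L : ℕ → Submodule ℝ H) (K : ℕ), IsWorld X L K →
    ∀ (s d : ℕ) (E : ℝ), 1 ≤ s → 1 ≤ d → 0 < E → E ≤ 1 →
    ∃ (R : ℕ) (T : Bf ι → Op H),
      (R : ℝ) ≤ C * Real.sqrt s * (d : ℝ) ^ 4 * (Real.log (1 / E) + d + Real.log s + 1) ^ 2 ∧
      BHom X L K R E (fun F => F.sz ≤ s ∧ F.dp ≤ d) T := by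
  obtain ⟨C, hC, hnum⟩ := num
  refine ⟨C, hC, ?_⟩
  intro H _ _ _ ι X L K hW s d E hs hd hE0 hE1
  obtain ⟨lam, del, η, N, J, hl, hd0, hd1, he0, he1, hodd, hwin, hwt, hE, hm1, hm2, hR⟩ :=
    hnum s d E hs hd hE0 hE1
  have hlam1 : 1 ≤ lam := by linarith
  obtain ⟨b, hb⟩ := bh_exists (X := X) hlam1 hd0.le hW.sq hW.sym N J hm1 hm2
  have hpar : Par X L K lam del η N (N * J) b :=
    { wld := hW, lam4 := hl, del0 := hd0, del1 := hd1, eta0 := he0, eta1 := he1, odd := hodd,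
      win := hwin, mem := fun F τ hτ => (hb F τ hτ).1, apx := fun F τ hτ => (hb F τ hτ).2 }
  have hB := bhom_of_par hpar d
  refine ⟨N * J, fun F => b F 1, hR, ?_⟩
  have hP : ∀ F : Bf ι, F.sz ≤ s ∧ F.dp ≤ d → wt lam del F ≤ 1 / 4 ∧ F.dp ≤ d := by
    intro F hF
    refine ⟨?_, hF.2⟩
    refine le_trans (wt_le hlam1 hd0.le F) (le_trans ?_ hwt)
    have h1 : (1 + del) ^ (3 * F.dp) ≤ (1 + del) ^ (3 * d) :=
      pow_le_pow_right₀ (by linarith) (by have := hF.2; omega)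
    have h2 : Real.sqrt (F.sz : ℝ) ≤ Real.sqrt (s : ℝ) :=
      Real.sqrt_le_sqrt (by exact_mod_cast hF.1)
    have h3 : 0 < lam := by linarith
    gcongr
  have hEp : ∀ q : H, 15 * (4 ^ (d + 1) * (40 * lam / Real.sqrt del) * η) * ‖q‖ ≤ E * ‖q‖ :=
    fun q => mul_le_mul_of_nonneg_right hE (norm_nonneg q)
  constructor
  · exact fun F hF => hB.deg F (hP F hF)
  · intro F hF
    have := hB.norm F (hP F hF)
    exact ⟨by linarith [this.1], by linarith [this.2]⟩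
  · exact fun i => le_trans (hB.var i) hE
  · exact fun F hF => le_trans (hB.neg F (hP F hF)) hE
  · intro F hF k hk p hp
    exact le_trans (hB.idem F (hP F hF) k hk p hp) (hEp p)
  · intro F G hFG k hk p hp
    exact le_trans (hB.or F G (hP _ hFG) k hk p hp) (hEp p)

end Pool.H6.QL
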