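import Mathlib

set_option autoImplicit false

/-!
# [H6 QL NM2] Choice of the parameters for the final theorem (pure real analysis)

Constants `C1 > 0`, `C2 : ℕ`, `e > 0`. `del := e / 100`, `x := K ^ del` (real power), `E := 2 ^ (-x) / ((C2 + 1) s ^ C2)`,
`s' := ⌊C2 s ^ (1 + e/2)⌋₊ + 1`, `d := C2 (log₂ s + 1)² + 1`. For `K ≥ K0` and `1 ≤ s ≤ K²`:
`2 ≤ x`, `C1 ≤ x`, `C2 + 1 ≤ x`, `log₂ s + 1 ≤ x`, `log s' ≤ x` (`Tendsto` of `K ^ del` and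
`isLittleO_log_rpow_atTop`; `log s' ≤ log (C2 + 1) + (2 + e) log K` or so). Then `d ≤ x ^ 4`,
`log (1/E) = x log 2 + log (C2 + 1) + C2 log s ≤ x ^ 3`, `log (1/E) + d + log s' + 1 ≤ x ^ 6`,
`sqrt s' ≤ sqrt ((C2 + 1) s ^ (1 + e/2)) ≤ x sqrt s K ^ (e/2)` (`s ^ (e/4) ≤ K ^ (e/2)`), so
`R ≤ C1 sqrt s' d ^ 4 (..)² ≤ x · x sqrt s K^(e/2) · x ^ 16 · x ^ 12 = x ^ 30 sqrt s K ^ (e/2)` and
`C2 (log₂ s + 1)(R + 1) ≤ x · x · 2 x ^ 30 sqrt s K ^ (e/2) ≤ x ^ 33 sqrt s K ^ (e/2) ≤ K ^ e sqrt s`.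
(Everything very wasteful; any other choice of `del` is fine, but the statement must stay.)
-/

namespace Pool.H6.QL

private theorem ev_bd (A B del : ℝ) (hdel : 0 < del) :
    ∃ K0 : ℕ, ∀ K : ℕ, K0 ≤ K → A + B * Real.log (K : ℝ) ≤ (K : ℝ) ^ del := by
  have h1 : ∀ᶠ t : ℝ in Filter.atTop, A ≤ t ^ del / 2 :=
    ((tendsto_rpow_atTop hdel).atTop_div_const (by norm_num)).eventually_ge_atTop A
  have h2 : ∀ᶠ t : ℝ in Filter.atTop, B * Real.log t ≤ t ^ del / 2 := by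
    have h3 : (fun t => B * Real.log t) =o[Filter.atTop] fun t : ℝ => t ^ del :=
      (isLittleO_log_rpow_atTop hdel).const_mul_left B
    filter_upwards [h3.def (show (0 : ℝ) < 1 / 2 by norm_num), Filter.eventually_gt_atTop 0] with t ht ht0
    have h4 := le_abs_self (B * Real.log t)
    rw [Real.norm_eq_abs, Real.norm_eq_abs, abs_of_pos (Real.rpow_pos_of_pos ht0 del)] at ht
    linarith
  have h3 := tendsto_natCast_atTop_atTop (R := ℝ) |>.eventually (h1.and h2)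
  obtain ⟨K0, hK0⟩ := Filter.eventually_atTop.1 h3
  exact ⟨K0, fun K hK => by
    obtain ⟨h4, h5⟩ := hK0 K hK
    linarith⟩

theorem num2 (e : ℝ) (he : 0 < e) : ∃ del : ℝ, 0 < del ∧ ∀ (C1 : ℝ) (C2 : ℕ), 0 < C1 →
    ∃ K0 : ℕ, ∀ K s : ℕ, K0 ≤ K → 1 ≤ s → (s : ℝ) ≤ (K : ℝ) ^ 2 →
    ∃ E : ℝ, 0 < E ∧ E ≤ 1 ∧ (C2 : ℝ) * (s : ℝ) ^ C2 * E ≤ (2 : ℝ) ^ (-(K : ℝ) ^ del) ∧
      ∀ R : ℝ, 0 ≤ R →
        R ≤ C1 * Real.sqrt ((⌊(C2 : ℝ) * (s : ℝ) ^ (1 + e / 2)⌋₊ + 1 : ℕ) : ℝ) *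
          ((C2 * (Nat.log 2 s + 1) ^ 2 + 1 : ℕ) : ℝ) ^ 4 *
          (Real.log (1 / E) + ((C2 * (Nat.log 2 s + 1) ^ 2 + 1 : ℕ) : ℝ) +
            Real.log ((⌊(C2 : ℝ) * (s : ℝ) ^ (1 + e / 2)⌋₊ + 1 : ℕ) : ℝ) + 1) ^ 2 →
        (C2 : ℝ) * (Nat.log 2 s + 1) * (R + 1) ≤ (K : ℝ) ^ e * Real.sqrt s := by
  refine ⟨e / 100, by positivity, fun C1 C2 hC1 => ?_⟩
  obtain ⟨K1, hK1⟩ := ev_bd (3 + C1 + (C2 + 1) + Real.log (C2 + 1)) (5 + e) (e / 100) (by positivity)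
  refine ⟨max K1 1, fun K s hK hs hsK => ?_⟩
  have hK' := hK1 K ((le_max_left _ _).trans hK)
  have hKn : 1 ≤ K := (le_max_right _ _).trans hK
  have hK1r : (1 : ℝ) ≤ K := by exact_mod_cast hKn
  have hK0r : (0 : ℝ) < K := by linarith
  have hs1 : (1 : ℝ) ≤ s := by exact_mod_cast hs
  have hs0 : (0 : ℝ) < s := by linarith
  obtain ⟨x, hx⟩ : ∃ x : ℝ, x = (K : ℝ) ^ (e / 100) := ⟨_, rfl⟩
  obtain ⟨L, hL⟩ : ∃ L : ℝ, L = Real.log K := ⟨_, rfl⟩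
  have hL0 : 0 ≤ L := by
    rw [hL]
    exact Real.log_nonneg hK1r
  have hC2 : (0 : ℝ) ≤ C2 := Nat.cast_nonneg C2
  have hlC2 : 0 ≤ Real.log (C2 + 1 : ℝ) := Real.log_nonneg (by linarith)
  rw [← hx, ← hL] at hK'
  have heL : 0 ≤ (5 + e) * L := by positivity
  have hx3 : 3 ≤ x := by linarith
  have hxC1 : C1 ≤ x := by linarith
  have hxC2 : (C2 : ℝ) + 1 ≤ x := by linarith
  have heL1 : 0 ≤ e * L := by positivity
  have hxL : 1 + 3 * L ≤ x := by nlinarith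
  have hxL2 : Real.log (C2 + 1 : ℝ) + (2 + e) * L ≤ x := by nlinarith
  have hls : Real.log s ≤ 2 * L := by
    have h1 := Real.log_le_log hs0 hsK
    rw [Real.log_pow, ← hL] at h1
    simpa using h1
  have hls0 : 0 ≤ Real.log s := Real.log_nonneg hs1
  -- the logarithm to the base two
  have hl2 : ((Nat.log 2 s : ℕ) : ℝ) + 1 ≤ x := by
    have h1 : (2 : ℝ) ^ (Nat.log 2 s) ≤ s := by
      exact_mod_cast Nat.pow_log_le_self 2 (by omega)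
    have h2 := Real.log_le_log (by positivity) h1
    rw [Real.log_pow] at h2
    have h3 := Real.log_two_gt_d9
    have h4 : (0 : ℝ) ≤ (Nat.log 2 s : ℕ) := Nat.cast_nonneg _
    nlinarith
  obtain ⟨l, hl⟩ : ∃ l : ℝ, l = ((Nat.log 2 s : ℕ) : ℝ) + 1 := ⟨_, rfl⟩
  have hl0 : 1 ≤ l := by
    rw [hl]
    have h4 : (0 : ℝ) ≤ (Nat.log 2 s : ℕ) := Nat.cast_nonneg _
    linarith
  rw [← hl] at hl2
  -- the size
  obtain ⟨s', hs'⟩ : ∃ s' : ℝ, s' = ((⌊(C2 : ℝ) * (s : ℝ) ^ (1 + e / 2)⌋₊ + 1 : ℕ) : ℝ) := ⟨_, rfl⟩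
  have hsp : 1 ≤ (s : ℝ) ^ (1 + e / 2) := Real.one_le_rpow hs1 (by linarith)
  have hs'1 : 1 ≤ s' := by
    rw [hs']
    push_cast
    have : (0 : ℝ) ≤ (⌊(C2 : ℝ) * (s : ℝ) ^ (1 + e / 2)⌋₊ : ℝ) := Nat.cast_nonneg _
    linarith
  have hs'2 : s' ≤ (C2 + 1) * (s : ℝ) ^ (1 + e / 2) := by
    rw [hs']
    push_cast
    have h1 : (⌊(C2 : ℝ) * (s : ℝ) ^ (1 + e / 2)⌋₊ : ℝ) ≤ (C2 : ℝ) * (s : ℝ) ^ (1 + e / 2) :=
      Nat.floor_le (by positivity)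
    linarith
  have hlogs' : Real.log s' ≤ x := by
    have h1 := Real.log_le_log (by linarith) hs'2
    rw [Real.log_mul (by linarith) (by linarith), Real.log_rpow hs0] at h1
    have h2 : (1 + e / 2) * Real.log s ≤ (1 + e / 2) * (2 * L) :=
      mul_le_mul_of_nonneg_left hls (by linarith)
    nlinarith
  -- the degree
  obtain ⟨dd, hdd⟩ : ∃ dd : ℝ, dd = ((C2 * (Nat.log 2 s + 1) ^ 2 + 1 : ℕ) : ℝ) := ⟨_, rfl⟩
  have hdd1 : dd = C2 * l ^ 2 + 1 := by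
    rw [hdd, hl]
    push_cast
    ring
  have hdd0 : 1 ≤ dd := by
    rw [hdd1]
    have : 0 ≤ (C2 : ℝ) * l ^ 2 := by positivity
    linarith
  have hx0 : 0 < x := by linarith
  have hdd2 : dd ≤ x ^ 4 := by
    rw [hdd1]
    have h1 : l ^ 2 ≤ x ^ 2 := pow_le_pow_left₀ (by linarith) hl2 2
    have h2 : (C2 : ℝ) * l ^ 2 ≤ x * x ^ 2 :=
      mul_le_mul (by linarith) h1 (by positivity) hx0.le
    have h3 : 1 ≤ x ^ 3 := one_le_pow₀ (by linarith)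
    nlinarith
  -- the error
  obtain ⟨E, hE⟩ : ∃ E : ℝ, E = (2 : ℝ) ^ (-x) / ((C2 + 1) * (s : ℝ) ^ C2) := ⟨_, rfl⟩
  have hsC : 1 ≤ (s : ℝ) ^ C2 := one_le_pow₀ hs1
  have hden : 1 ≤ ((C2 : ℝ) + 1) * (s : ℝ) ^ C2 := by nlinarith
  have h2x : 0 < (2 : ℝ) ^ (-x) := Real.rpow_pos_of_pos (by norm_num) _
  have h2x1 : (2 : ℝ) ^ (-x) ≤ 1 := Real.rpow_le_one_of_one_le_of_nonpos (by norm_num) (by linarith)
  have hE0 : 0 < E := by
    rw [hE]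
    positivity
  have hE1 : E ≤ 1 := by
    rw [hE, div_le_one (by linarith)]
    linarith
  have hEC : (C2 : ℝ) * (s : ℝ) ^ C2 * E ≤ (2 : ℝ) ^ (-x) := by
    rw [hE, ← mul_div_assoc, div_le_iff₀ (by linarith)]
    have h1 : (C2 : ℝ) * (s : ℝ) ^ C2 ≤ (C2 + 1) * (s : ℝ) ^ C2 := by nlinarith
    calc (C2 : ℝ) * (s : ℝ) ^ C2 * (2 : ℝ) ^ (-x) ≤ ((C2 + 1) * (s : ℝ) ^ C2) * (2 : ℝ) ^ (-x) :=
          mul_le_mul_of_nonneg_right h1 h2x.le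
      _ = (2 : ℝ) ^ (-x) * ((C2 + 1) * (s : ℝ) ^ C2) := by ring
  have hlE : Real.log (1 / E) ≤ x ^ 3 := by
    have h1 : Real.log (1 / E) = x * Real.log 2 + (Real.log (C2 + 1) + C2 * Real.log s) := by
      rw [one_div, Real.log_inv, hE, Real.log_div h2x.ne' (by linarith), Real.log_rpow (by norm_num),
        Real.log_mul (by linarith) (by linarith), Real.log_pow]
      ring
    rw [h1]
    have h2 : Real.log 2 ≤ 1 := by
      have := Real.log_two_lt_d9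
      linarith
    have h3 : x * Real.log 2 ≤ x * 1 := mul_le_mul_of_nonneg_left h2 hx0.le
    have h4 : (C2 : ℝ) * Real.log s ≤ x * x := by
      apply mul_le_mul (by linarith) _ hls0 hx0.le
      linarith
    have h5 : Real.log (C2 + 1 : ℝ) ≤ x := by
      have : 0 ≤ (2 + e) * L := by positivity
      linarith
    nlinarith [mul_pos hx0 hx0]
  have hlE0 : 0 ≤ Real.log (1 / E) := Real.log_nonneg (by
    rw [le_div_iff₀ hE0]
    linarith)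
  refine ⟨E, hE0, hE1, ?_, fun R hR0 hR => ?_⟩
  · rw [← hx]
    exact hEC
  rw [← hs', ← hdd] at hR
  have hlogs0 : 0 ≤ Real.log s' := Real.log_nonneg hs'1
  obtain ⟨S, hS⟩ : ∃ S : ℝ, S = Real.log (1 / E) + dd + Real.log s' + 1 := ⟨_, rfl⟩
  rw [← hS] at hR
  have hS0 : 0 ≤ S := by
    rw [hS]
    linarith
  have hS1 : S ≤ x ^ 6 := by
    rw [hS]
    have h1 : x ^ 3 ≤ x ^ 4 := pow_le_pow_right₀ (by linarith) (by norm_num)
    have h2 : x ≤ x ^ 4 := by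
      calc x = x ^ 1 := (pow_one x).symm
        _ ≤ x ^ 4 := pow_le_pow_right₀ (by linarith) (by norm_num)
    have h3 : (1 : ℝ) ≤ x ^ 4 := one_le_pow₀ (by linarith)
    have h4 : 4 * x ^ 4 ≤ x ^ 6 := by
      have h5 : 4 ≤ x ^ 2 := by nlinarith
      have h6 : x ^ 6 = x ^ 2 * x ^ 4 := by ring
      rw [h6]
      exact mul_le_mul_of_nonneg_right h5 (by positivity)
    linarith
  obtain ⟨q, hq⟩ : ∃ q : ℝ, q = Real.sqrt s := ⟨_, rfl⟩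
  have hq1 : 1 ≤ q := by
    rw [hq]
    exact Real.one_le_sqrt.2 hs1
  obtain ⟨w, hw⟩ : ∃ w : ℝ, w = (K : ℝ) ^ (e / 2) := ⟨_, rfl⟩
  have hw1 : 1 ≤ w := by
    rw [hw]
    exact Real.one_le_rpow hK1r (by linarith)
  have hsq : Real.sqrt s' ≤ x * q * w := by
    apply Real.sqrt_le_iff.2
    refine ⟨by positivity, hs'2.trans ?_⟩
    have h1 : (s : ℝ) ^ (1 + e / 2) = s * (s : ℝ) ^ (e / 2) := by
      rw [Real.rpow_add hs0, Real.rpow_one]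
    have h2 : (s : ℝ) ^ (e / 2) ≤ w ^ 2 := by
      calc (s : ℝ) ^ (e / 2) ≤ ((K : ℝ) ^ 2) ^ (e / 2) := Real.rpow_le_rpow hs0.le hsK (by linarith)
        _ = w ^ 2 := by
          rw [hw, ← Real.rpow_natCast, ← Real.rpow_mul hK0r.le, ← Real.rpow_natCast,
            ← Real.rpow_mul hK0r.le]
          congr 1
          ring
    have h3 : q ^ 2 = s := by
      rw [hq]
      exact Real.sq_sqrt hs0.le
    rw [h1]
    have h4 : (C2 : ℝ) + 1 ≤ x ^ 2 := by nlinarith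
    calc ((C2 : ℝ) + 1) * (s * (s : ℝ) ^ (e / 2)) ≤ x ^ 2 * (s * w ^ 2) :=
          mul_le_mul h4 (mul_le_mul_of_nonneg_left h2 hs0.le) (by positivity) (by positivity)
      _ = (x * q * w) ^ 2 := by
        rw [← h3]
        ring
  have hR1 : R ≤ x ^ 30 * q * w := by
    refine hR.trans ?_
    have h1 : dd ^ 4 ≤ (x ^ 4) ^ 4 := pow_le_pow_left₀ (by linarith) hdd2 4
    have h2 : S ^ 2 ≤ (x ^ 6) ^ 2 := pow_le_pow_left₀ hS0 hS1 2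
    calc C1 * Real.sqrt s' * dd ^ 4 * S ^ 2 ≤ x * (x * q * w) * (x ^ 4) ^ 4 * (x ^ 6) ^ 2 := by
          gcongr
      _ = x ^ 30 * q * w := by ring
  have hfin : (C2 : ℝ) * l * (R + 1) ≤ x ^ 33 * q * w := by
    obtain ⟨T, hT⟩ : ∃ T : ℝ, T = x ^ 30 * q * w := ⟨_, rfl⟩
    have h1 : (1 : ℝ) ≤ T := by
      rw [hT]
      have h2 : (1 : ℝ) ≤ x ^ 30 := one_le_pow₀ (by linarith)
      exact one_le_mul_of_one_le_of_one_le (one_le_mul_of_one_le_of_one_le h2 hq1) hw1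
    rw [← hT] at hR1
    have h2 : R + 1 ≤ x * T := by
      have h3 : 2 * T ≤ x * T := mul_le_mul_of_nonneg_right (by linarith) (by linarith)
      linarith
    have h4 : (C2 : ℝ) * l ≤ x * x := mul_le_mul (by linarith) hl2 (by linarith) hx0.le
    have h5 : (C2 : ℝ) * l * (R + 1) ≤ x * x * (x * T) :=
      mul_le_mul h4 h2 (by linarith) (by positivity)
    refine h5.trans (le_of_eq ?_)
    rw [hT]
    ring
  have hpow : x ^ 33 * w ≤ (K : ℝ) ^ e := by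
    rw [hx, hw, ← Real.rpow_natCast, ← Real.rpow_mul hK0r.le, ← Real.rpow_add hK0r]
    apply Real.rpow_le_rpow_of_exponent_le hK1r
    push_cast
    linarith
  calc (C2 : ℝ) * (Nat.log 2 s + 1) * (R + 1) = (C2 : ℝ) * l * (R + 1) := by rw [hl]
    _ ≤ x ^ 33 * q * w := hfin
    _ = (x ^ 33 * w) * q := by ring
    _ ≤ (K : ℝ) ^ e * Real.sqrt s := by
      rw [← hq]
      exact mul_le_mul_of_nonneg_right hpow (by linarith)

end Pool.H6.QL
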