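import Mathlib
import Pool.Agent.H6.QL.Brg
import Pool.Agent.H6.QL.HomZ
import Pool.Agent.H6.QL.Nm2

set_option autoImplicit false

/-!
# THEOREM QL: the approximate valuation with all parameters chosen

`master`: for every `e > 0` there is `del > 0` such that in every ring world of degree `K ≥ K0` and for
every `s ≤ K²` there is an approximate valuation of all formulas with at most `s` occurrences of
variables, of degree at most `K ^ e sqrt s`, with error `2 ^ (- K ^ del)`.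
-/

namespace Pool.H6.QL

open Pool.Agent.H3.Frg Pool.Agent.H81.QG

theorem master (hV : ViExists) (e : ℝ) (he : 0 < e) : ∃ del : ℝ, 0 < del ∧
    ∃ K0 : ℕ, ∀ (m n K : ℕ)
    (Gam : Set (List (Fin n × Bool))) (X : Option (Fin n) → Op (EuclideanSpace ℝ (Fin m)))
    (L : ℕ → Submodule ℝ (EuclideanSpace ℝ (Fin m)))
    (cl : Rn n →ₗ[ℝ] EuclideanSpace ℝ (Fin m)) (dg : ℕ → Submodule ℝ (Rn n)),
    RW n K Gam X L cl dg → K0 ≤ K → ∀ s : ℕ, 1 ≤ s → (s : ℝ) ≤ (K : ℝ) ^ 2 →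
    ∃ (V : Fm (Fin n) → Rn n) (Wd : ℕ), (Wd : ℝ) ≤ (K : ℝ) ^ e * Real.sqrt s ∧
      ∀ k, k + Wd ≤ K → VI cl dg V yy Wd s k ((2 : ℝ) ^ (-(K : ℝ) ^ del)) := by
  obtain ⟨C1, hC1, hB⟩ := bhom_exists
  obtain ⟨C2, hC2⟩ := hV (e / 2) (by positivity)
  obtain ⟨del, hdel, hN⟩ := num2 e he
  obtain ⟨K0, hK0⟩ := hN C1 C2 hC1
  refine ⟨del, hdel, K0, ?_⟩
  intro m n K Gam X L cl dg hRW hK s hs hsK
  obtain ⟨E, hE0, hE1, hE2, hR⟩ := hK0 K s hK hs hsK
  obtain ⟨R, T, hRb, hT⟩ := hB (EuclideanSpace ℝ (Fin m)) (Option (Fin n)) X L K hRW.wld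
    (⌊(C2 : ℝ) * (s : ℝ) ^ (1 + e / 2)⌋₊ + 1) (C2 * (Nat.log 2 s + 1) ^ 2 + 1) E
    (by omega) (by omega) hE0 hE1
  have hE3 : (C2 : ℝ) * (s : ℝ) ^ C2 * E ≤ 1 := by
    refine hE2.trans ?_
    apply Real.rpow_le_one_of_one_le_of_nonpos (by norm_num)
    have : 0 ≤ (K : ℝ) ^ del := by positivity
    linarith
  have hP : ∀ F : Bf (Option (Fin n)), ((F.sz : ℝ) ≤ C2 * (s : ℝ) ^ (1 + e / 2) ∧
      F.dp ≤ C2 * (Nat.log 2 s + 1) ^ 2) →
      F.sz ≤ ⌊(C2 : ℝ) * (s : ℝ) ^ (1 + e / 2)⌋₊ + 1 ∧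
        F.dp ≤ C2 * (Nat.log 2 s + 1) ^ 2 + 1 := by
    intro F hF
    refine ⟨?_, by have := hF.2; omega⟩
    have := Nat.le_floor hF.1
    omega
  have hT' : BHom X L K R E (fun F => (F.sz : ℝ) ≤ C2 * (s : ℝ) ^ (1 + e / 2) ∧
      F.dp ≤ C2 * (Nat.log 2 s + 1) ^ 2) T :=
    { deg := fun F hF => hT.deg F (hP F hF)
      norm := fun F hF => hT.norm F (hP F hF)
      var := hT.var
      neg := fun F hF => hT.neg F (hP F hF)
      idem := fun F hF => hT.idem F (hP F hF)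
      or := fun F G hF => hT.or F G (hP _ hF) }
  obtain ⟨V, hVI⟩ := hC2 m n K Gam X L cl dg hRW s R E T hs hE0 hE3 hT'
  refine ⟨V, C2 * (Nat.log 2 s + 1) * (R + 1), ?_, ?_⟩
  · have h1 := hR R (Nat.cast_nonneg R) hRb
    push_cast
    exact h1
  · intro k hk
    have h := hVI k hk
    exact
      { deg := h.deg
        degy := h.degy
        idy := h.idy
        idem := fun F hF p hp => (h.idem F hF p hp).trans
          (mul_le_mul_of_nonneg_right hE2 (norm_nonneg _))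
        var := fun i p hp => (h.var i p hp).trans
          (mul_le_mul_of_nonneg_right hE2 (norm_nonneg _))
        neg := fun F hF p hp => (h.neg F hF p hp).trans
          (mul_le_mul_of_nonneg_right hE2 (norm_nonneg _))
        imp := fun A B hF p hp => (h.imp A B hF p hp).trans
          (mul_le_mul_of_nonneg_right hE2 (norm_nonneg _)) }

end Pool.H6.QL
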