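import Mathlib

set_option autoImplicit false

/-!
# THEOREM QL: numerics for the final theorem
-/

namespace Pool.H6.QL

open Filter Real

private theorem ev_rpow (a b : ℝ) (ha : 0 < a) : ∀ᶠ K : ℕ in atTop, b ≤ (K : ℝ) ^ a :=
  ((tendsto_rpow_atTop ha).comp tendsto_natCast_atTop_atTop).eventually_ge_atTop b

private theorem ev_log (a : ℝ) (ha : 0 < a) : ∀ᶠ K : ℕ in atTop, Real.log K ≤ (K : ℝ) ^ a := by
  have h1 := (isLittleO_log_rpow_atTop ha).comp_tendsto tendsto_natCast_atTop_atTop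
  have h2 := h1.bound (c := 1) one_pos
  filter_upwards [h2] with K hK
  simp only [Function.comp_apply, Real.norm_eq_abs, one_mul] at hK
  have h3 : |(K : ℝ) ^ a| = (K : ℝ) ^ a := abs_of_nonneg (by positivity)
  rw [h3] at hK
  exact (le_abs_self _).trans hK

theorem num3 (e d0 : ℝ) (he : 0 < e) (hd0 : 0 < d0) : ∃ δ : ℝ, 0 < δ ∧ ∃ K0 : ℕ, ∀ K : ℕ, K0 ≤ K →
    1 ≤ (K : ℝ) ∧ 1 ≤ (K : ℝ) ^ δ ∧ 100 * (K : ℝ) ^ δ * (K : ℝ) ^ (1 - 3 * e / 8) ≤ K ∧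
    2 ≤ (K : ℝ) ^ e ∧
    10 ^ 6 * (K : ℝ) ^ 6 * (2 : ℝ) ^ ((K : ℝ) ^ δ) * (100 : ℝ) ^ (4 * (K : ℝ) ^ δ) *
      (2 : ℝ) ^ (-(K : ℝ) ^ d0) ≤ 1 := by
  obtain ⟨δ, hδ⟩ : ∃ δ, δ = min (e / 8) (d0 / 2) := ⟨_, rfl⟩
  have hδ0 : 0 < δ := by rw [hδ]; exact lt_min (by positivity) (by positivity)
  have hδ1 : δ ≤ e / 8 := by rw [hδ]; exact min_le_left _ _
  have hδ2 : δ ≤ d0 / 2 := by rw [hδ]; exact min_le_right _ _
  have hev : ∀ᶠ K : ℕ in atTop, 1 ≤ (K : ℝ) ∧ 1 ≤ (K : ℝ) ^ δ ∧ 100 ≤ (K : ℝ) ^ (e / 4) ∧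
      2 ≤ (K : ℝ) ^ e ∧ Real.log K ≤ (K : ℝ) ^ (d0 / 2) ∧ 60 ≤ (K : ℝ) ^ (d0 / 2) := by
    filter_upwards [ev_rpow 1 1 one_pos, ev_rpow δ 1 hδ0, ev_rpow (e / 4) 100 (by positivity),
      ev_rpow e 2 he, ev_log (d0 / 2) (by positivity), ev_rpow (d0 / 2) 60 (by positivity)]
      with K h1 h2 h3 h4 h5 h6
    exact ⟨by simpa using h1, h2, h3, h4, h5, h6⟩
  obtain ⟨K0, hK0⟩ := Filter.eventually_atTop.mp hev
  refine ⟨δ, hδ0, K0, fun K hK => ?_⟩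
  obtain ⟨h1, h2, h3, h4, h5, h6⟩ := hK0 K hK
  have hKpos : (0 : ℝ) < K := by linarith
  refine ⟨h1, h2, ?_, h4, ?_⟩
  · have e1 : (K : ℝ) ^ δ * (K : ℝ) ^ (1 - 3 * e / 8) ≤ (K : ℝ) ^ (1 - e / 4) := by
      rw [← Real.rpow_add hKpos]
      exact Real.rpow_le_rpow_of_exponent_le h1 (by linarith)
    have e2 : (K : ℝ) ^ (e / 4) * (K : ℝ) ^ (1 - e / 4) = K := by
      rw [← Real.rpow_add hKpos]
      have : e / 4 + (1 - e / 4) = 1 := by ring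
      rw [this, Real.rpow_one]
    have e3 : 0 < (K : ℝ) ^ (1 - e / 4) := Real.rpow_pos_of_pos hKpos _
    calc 100 * (K : ℝ) ^ δ * (K : ℝ) ^ (1 - 3 * e / 8)
        = 100 * ((K : ℝ) ^ δ * (K : ℝ) ^ (1 - 3 * e / 8)) := by ring
      _ ≤ 100 * (K : ℝ) ^ (1 - e / 4) := by linarith
      _ ≤ (K : ℝ) ^ (e / 4) * (K : ℝ) ^ (1 - e / 4) := mul_le_mul_of_nonneg_right h3 e3.le
      _ = K := e2
  · obtain ⟨z, hz⟩ : ∃ z, z = (K : ℝ) ^ (d0 / 2) := ⟨_, rfl⟩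
    have hzz : (K : ℝ) ^ d0 = z * z := by
      rw [hz, ← Real.rpow_add hKpos]
      congr 1
      ring
    have hx : (K : ℝ) ^ δ ≤ z := by
      rw [hz]
      exact Real.rpow_le_rpow_of_exponent_le h1 hδ2
    rw [← hz] at h5 h6
    rw [hzz]
    have l2 : 0 < Real.log 2 := Real.log_pos (by norm_num)
    have l2' : Real.log 2 < 0.6931471808 := Real.log_two_lt_d9
    have l2'' : 0.6931471803 < Real.log 2 := Real.log_two_gt_d9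
    have e0 : (2 : ℝ) ^ ((K : ℝ) ^ δ) ≤ (2 : ℝ) ^ z := Real.rpow_le_rpow_of_exponent_le (by norm_num) hx
    have e1 : (100 : ℝ) ^ (4 * (K : ℝ) ^ δ) ≤ (2 : ℝ) ^ (28 * z) := by
      have a1 : (100 : ℝ) ^ (4 * (K : ℝ) ^ δ) ≤ (100 : ℝ) ^ (4 * z) :=
        Real.rpow_le_rpow_of_exponent_le (by norm_num) (by linarith)
      have a2 : (100 : ℝ) ^ (4 * z) ≤ ((2 : ℝ) ^ (7 : ℝ)) ^ (4 * z) :=
        Real.rpow_le_rpow (by norm_num) (by norm_num) (by linarith)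
      have a3 : ((2 : ℝ) ^ (7 : ℝ)) ^ (4 * z) = (2 : ℝ) ^ (28 * z) := by
        rw [← Real.rpow_mul (by norm_num)]
        congr 1
        ring
      exact a1.trans (a2.trans a3.le)
    have e2 : (K : ℝ) ^ 6 ≤ (2 : ℝ) ^ (9 * z) := by
      have a1 : (K : ℝ) = Real.exp (Real.log K) := (Real.exp_log hKpos).symm
      have a2 : (K : ℝ) ^ 6 = Real.exp (6 * Real.log K) := by
        rw [show (6 : ℝ) * Real.log K = ((6 : ℕ) : ℝ) * Real.log K by norm_num, Real.exp_nat_mul,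
          Real.exp_log hKpos]
      rw [a2, Real.rpow_def_of_pos (by norm_num)]
      apply Real.exp_le_exp.mpr
      nlinarith
    have e3 : (10 : ℝ) ^ 6 ≤ (2 : ℝ) ^ (20 : ℝ) := by
      have : (2 : ℝ) ^ (20 : ℝ) = (2 : ℝ) ^ (20 : ℕ) := by
        rw [← Real.rpow_natCast]
        norm_num
      rw [this]
      norm_num
    have e4 : 10 ^ 6 * (K : ℝ) ^ 6 * (2 : ℝ) ^ ((K : ℝ) ^ δ) * (100 : ℝ) ^ (4 * (K : ℝ) ^ δ) *
        (2 : ℝ) ^ (-(z * z)) ≤ (2 : ℝ) ^ (20 : ℝ) * (2 : ℝ) ^ (9 * z) * (2 : ℝ) ^ z *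
          (2 : ℝ) ^ (28 * z) * (2 : ℝ) ^ (-(z * z)) := by
      gcongr
    refine e4.trans ?_
    rw [← Real.rpow_add (by norm_num), ← Real.rpow_add (by norm_num), ← Real.rpow_add (by norm_num),
      ← Real.rpow_add (by norm_num)]
    apply Real.rpow_le_one_of_one_le_of_nonpos (by norm_num)
    nlinarith

end Pool.H6.QL
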