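import Mathlib
import Pool.Agent.H3.Frg4.Defs4

set_option autoImplicit false

/-!
# THEOREM QL: derivations on a blackboard (total space)
-/

namespace Pool.H6.QL

open Pool.Agent.H3.Frg

/-- A derivation on a blackboard with `T` steps and total space `S`. `M t` is the set of the formulas
on the blackboard at the time `t`; at the beginning it is empty. In one step a formula of `Γ`, an
instance of a scheme in `Sch` or a consequence by modus ponens of two formulas on the blackboard may
be written, and any formulas may be erased. At all times the formulas on the blackboard have together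
at most `S` occurrences of variables. -/
def BB {V : Type} (Sch : Set (Fm ℕ)) (Γ : Set (Fm V)) (S T : ℕ) (M : ℕ → Finset (Fm V)) : Prop :=
  M 0 = ∅ ∧ (∀ t, t ≤ T → ∑ A ∈ M t, A.leaves ≤ S) ∧
    ∀ t, t < T → ∃ A, (∀ B ∈ M (t + 1), B ∈ M t ∨ B = A) ∧
      (A ∈ Γ ∨ (∃ ψ ∈ Sch, ∃ σ : ℕ → Fm V, A = ψ.bind σ) ∨ ∃ B ∈ M t, Fm.imp B A ∈ M t)

end Pool.H6.QL
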