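import Mathlib
import Pool.Agent.H81.QG.Chain
import Pool.Agent.H81.QG.Glue
import Pool.Agent.H6.QL.Bb

set_option autoImplicit false

/-!
# THEOREM QL: total space of Frege derivations

`VC l`: the value of the conjunction of the formulas in the list `l`. A blackboard with a
contradiction has a value which is nearly `0`; the value of the empty blackboard is `1`, and it changes
little in one step (the errors are additive).
-/

namespace Pool.H6.QL

open Finset Classical Pool.Agent.H3.Frg Pool.Agent.H3.Frg2 Pool.Agent.H81.QG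

variable {R H ι : Type} [CommRing R] [Algebra ℝ R] [NormedAddCommGroup H] [InnerProductSpace ℝ H]
variable {cl : R →ₗ[ℝ] H} {dg : ℕ → Submodule ℝ R} {K : ℕ}

/-- The conjunction of `A` and the formulas in the list. -/
private def cF : Fm ι → List (Fm ι) → Fm ι
  | A, [] => A
  | A, B :: l => .neg (.imp (cF B l) (.neg A))

private theorem cF_leaves (A : Fm ι) (l : List (Fm ι)) :
    (cF A l).leaves = A.leaves + (l.map Fm.leaves).sum := by
  induction l generalizing A with
  | nil => simp [cF]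
  | cons B l ih =>
    show (cF B l).leaves + A.leaves = _
    rw [ih, List.map_cons, List.sum_cons]
    omega

/-- The value of the conjunction of the formulas in the list. -/
private def VC (V : Fm ι → R) : List (Fm ι) → R
  | [] => 1
  | A :: l => V (cF A l)

private def ls (l : List (Fm ι)) : ℕ := (l.map Fm.leaves).sum

private theorem ls_cons (A : Fm ι) (l : List (Fm ι)) : ls (A :: l) = A.leaves + ls l := by
  unfold ls
  rw [List.map_cons, List.sum_cons]

private theorem leaves_le_ls {l : List (Fm ι)} {A : Fm ι} (h : A ∈ l) : A.leaves ≤ ls l := by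
  induction l with
  | nil => simp at h
  | cons B l ih =>
    rw [ls_cons]
    rcases List.mem_cons.mp h with rfl | h
    · omega
    · have := ih h
      omega

private theorem leaves_pos (A : Fm ι) : 1 ≤ A.leaves := by
  induction A with
  | var i => exact le_rfl
  | neg A ih => exact ih
  | imp A B ihA ihB => exact le_trans ihA (Nat.le_add_right _ _)

private theorem length_le_ls (l : List (Fm ι)) : l.length ≤ ls l := by
  induction l with
  | nil => simp
  | cons B l ih =>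
    rw [ls_cons, List.length_cons]
    have := leaves_pos B
    omega

section

variable {V : Fm ι → R} {y : ι → R} {W s k : ℕ} {η : ℝ}

private theorem vc_mem (hL : Liar cl dg K) (hV : VI cl dg V y W s k η) {l : List (Fm ι)}
    (hl : ls l ≤ s) : VC V l ∈ dg W := by
  cases l with
  | nil => exact hL.mono (Nat.zero_le W) hL.one
  | cons A l =>
    refine hV.deg _ ?_
    rw [cF_leaves]
    rw [ls_cons] at hl
    exact hl

private theorem vc_bd (hL : Liar cl dg K) (hV : VI cl dg V y W s k η) (hη : 0 ≤ η)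
    (hK : k + 2 * W ≤ K) {l : List (Fm ι)} (hl : ls l ≤ s) :
    Sml cl dg k (1 + η) (VC V l) ∧ Sml cl dg k (1 + η) (1 - VC V l) := by
  cases l with
  | nil =>
    refine ⟨Sml.one' (by linarith), ?_⟩
    show Sml cl dg k (1 + η) (1 - 1)
    rw [sub_self]
    exact Sml.zero (by linarith)
  | cons A l =>
    have h1 : (cF A l).leaves ≤ s := by
      rw [cF_leaves]
      rw [ls_cons] at hl
      exact hl
    exact vbd hL (hV.deg _ h1) hη (hV.idem _ h1) hK

private theorem v_bd (hL : Liar cl dg K) (hV : VI cl dg V y W s k η) (hη : 0 ≤ η)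
    (hK : k + 2 * W ≤ K) {A : Fm ι} (hl : A.leaves ≤ s) :
    Sml cl dg k (1 + η) (V A) ∧ Sml cl dg k (1 + η) (1 - V A) :=
  vbd hL (hV.deg _ hl) hη (hV.idem _ hl) hK

private theorem vc_cons (hL : Liar cl dg K) (hV : VI cl dg V y W s k η) (hη : 0 ≤ η)
    (hη1 : η ≤ 1) (hK : k + 2 * W ≤ K) {A : Fm ι} {l : List (Fm ι)} (hl : ls (A :: l) ≤ s)
    {k' : ℕ} (hk : k' + W ≤ k) : Sml cl dg k' (10 * η) (VC V (A :: l) - VC V l * V A) := by
  cases l with
  | nil =>
    show Sml cl dg k' (10 * η) (V A - 1 * V A)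
    rw [one_mul, sub_self]
    exact Sml.zero (by linarith)
  | cons B l =>
    show Sml cl dg k' (10 * η) (V (.neg (.imp (cF B l) (.neg A))) - V (cF B l) * V A)
    refine and_sml hL hV hη hη1 hK ?_ hk
    rw [ls_cons, ls_cons] at hl
    rw [cF_leaves]
    unfold ls at hl
    omega

/-- (i) the conjunction implies its members -/
private theorem vc_in (hL : Liar cl dg K) (hV : VI cl dg V y W s k η) (hη : 0 ≤ η)
    (hη1 : η ≤ 1) (hK : k + 2 * W ≤ K) {k' : ℕ} (hk : k' + 3 * W ≤ k) {B : Fm ι}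
    (l : List (Fm ι)) (hl : ls l ≤ s) (hB : B ∈ l) :
    Sml cl dg k' (22 * η * l.length * (1 + η) ^ l.length) (VC V l * (1 - V B)) := by
  induction l with
  | nil => simp at hB
  | cons A l ih =>
    have hl' : ls l ≤ s := by rw [ls_cons] at hl; omega
    have hA : A.leaves ≤ s := by rw [ls_cons] at hl; omega
    have hBs : B.leaves ≤ s := le_trans (leaves_le_ls hB) hl
    have hn : (0 : ℝ) ≤ l.length := Nat.cast_nonneg _
    have hp : (1 : ℝ) ≤ (1 + η) ^ l.length := one_le_pow₀ (by linarith)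
    obtain ⟨b1, b2⟩ := v_bd hL hV hη hK hBs
    obtain ⟨a1, a2⟩ := v_bd hL hV hη hK hA
    have mB : 1 - V B ∈ dg W := sub_mem (hL.mono (Nat.zero_le W) hL.one) (hV.deg B hBs)
    have t1 : Sml cl dg (k' + W) (10 * η) (VC V (A :: l) - VC V l * V A) :=
      vc_cons hL hV hη hη1 hK hl (by omega)
    have t2 : Sml cl dg k' (10 * η * (1 + η)) ((1 - V B) * (VC V (A :: l) - VC V l * V A)) :=
      Sml.mulb hL t1 (by linarith) mB (b2.mono hL (by omega) le_rfl) le_rfl
    rw [List.length_cons, pow_succ]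
    push_cast
    rcases List.mem_cons.mp hB with rfl | hB'
    · have t3 : Sml cl dg (k' + W) η (V B * V B - V B) := (hV.idem B hA).mono hL (by omega) le_rfl
      have t4 : Sml cl dg k' (η * (1 + η)) (VC V l * (V B * V B - V B)) :=
        Sml.mulb hL t3 hη (vc_mem hL hV hl')
          ((vc_bd hL hV hη hK hl').1.mono hL (by omega) le_rfl) le_rfl
      have e : VC V (B :: l) * (1 - V B) =
          (1 - V B) * (VC V (B :: l) - VC V l * V B) - VC V l * (V B * V B - V B) := by ring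
      rw [e]
      refine (t2.sub t4).mono hL le_rfl ?_
      have h1 : 22 * η * 1 * (1 + η) ≤ 22 * η * (l.length + 1) * ((1 + η) ^ l.length * (1 + η)) := by
        have h2 : 1 * (1 + η) ≤ (1 + η) ^ l.length * (1 + η) :=
          mul_le_mul_of_nonneg_right hp (by linarith)
        have h3 : 22 * η * 1 ≤ 22 * η * (l.length + 1) := by nlinarith
        calc 22 * η * 1 * (1 + η) ≤ 22 * η * (l.length + 1) * (1 + η) :=
              mul_le_mul_of_nonneg_right h3 (by linarith)
          _ ≤ _ := mul_le_mul_of_nonneg_left (by linarith) (by positivity)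
      nlinarith
    · have t3 := ih hl' hB'
      have m3 : VC V l * (1 - V B) ∈ dg (W + W) := hL.mul _ _ _ _ (vc_mem hL hV hl') mB
      have t4 : Sml cl dg k' ((1 + η) * (22 * η * l.length * (1 + η) ^ l.length))
          (V A * (VC V l * (1 - V B))) :=
        Sml.mula hL t3 m3 (by linarith) a1 (by omega)
      have e : VC V (A :: l) * (1 - V B) =
          (1 - V B) * (VC V (A :: l) - VC V l * V A) + V A * (VC V l * (1 - V B)) := by ring
      rw [e]
      refine (t2.add t4).mono hL le_rfl ?_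
      have h1 : 22 * η * 1 * (1 + η) ≤ 22 * η * 1 * ((1 + η) ^ l.length * (1 + η)) := by
        have h2 : 1 * (1 + η) ≤ (1 + η) ^ l.length * (1 + η) :=
          mul_le_mul_of_nonneg_right hp (by linarith)
        exact mul_le_mul_of_nonneg_left (by linarith) (by positivity)
      nlinarith

/-- (iii) what implies all members implies the conjunction -/
private theorem vc_all (hL : Liar cl dg K) (hV : VI cl dg V y W s k η) (hη : 0 ≤ η)
    (hη1 : η ≤ 1) (hK : k + 2 * W ≤ K) {k' : ℕ} (hk : k' + 3 * W ≤ k) {P : R} {α : ℝ}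
    (hα : 0 ≤ α) (hP : P ∈ dg W) (bP : Sml cl dg k 2 P) (l : List (Fm ι)) (hl : ls l ≤ s)
    (h : ∀ B ∈ l, Sml cl dg k' α (P * (1 - V B))) :
    Sml cl dg k' ((α + 20 * η) * l.length * (1 + η) ^ l.length) (P * (1 - VC V l)) := by
  induction l with
  | nil =>
    show Sml cl dg k' _ (P * (1 - 1))
    rw [sub_self, mul_zero]
    refine Sml.zero ?_
    simp
  | cons A l ih =>
    have hl' : ls l ≤ s := by rw [ls_cons] at hl; omega
    have hA : A.leaves ≤ s := by rw [ls_cons] at hl; omega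
    have hn : (0 : ℝ) ≤ l.length := Nat.cast_nonneg _
    have hp : (1 : ℝ) ≤ (1 + η) ^ l.length := one_le_pow₀ (by linarith)
    obtain ⟨a1, a2⟩ := v_bd hL hV hη hK hA
    have t1 : Sml cl dg (k' + W) (10 * η) (VC V (A :: l) - VC V l * V A) :=
      vc_cons hL hV hη hη1 hK hl (by omega)
    have t2 : Sml cl dg k' (10 * η * 2) (P * (VC V (A :: l) - VC V l * V A)) :=
      Sml.mulb hL t1 (by linarith) hP (bP.mono hL (by omega) le_rfl) le_rfl
    have t3 := ih hl' fun B hB => h B (List.mem_cons_of_mem _ hB)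
    have m1 : 1 - VC V l ∈ dg W := sub_mem (hL.mono (Nat.zero_le W) hL.one) (vc_mem hL hV hl')
    have m3 : P * (1 - VC V l) ∈ dg (W + W) := hL.mul _ _ _ _ hP m1
    have t4 : Sml cl dg k' ((1 + η) * ((α + 20 * η) * l.length * (1 + η) ^ l.length))
        (V A * (P * (1 - VC V l))) := Sml.mula hL t3 m3 (by linarith) a1 (by omega)
    have t5 := h A List.mem_cons_self
    have e : P * (1 - VC V (A :: l)) = P * (1 - V A) + V A * (P * (1 - VC V l)) -
        P * (VC V (A :: l) - VC V l * V A) := by ring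
    rw [e]
    refine ((t5.add t4).sub t2).mono hL le_rfl ?_
    rw [List.length_cons, pow_succ]
    push_cast
    have h2 : 1 * 1 ≤ (1 + η) ^ l.length * (1 + η) :=
      mul_le_mul hp (by linarith) (by norm_num) (by linarith)
    have h3 : (α + 20 * η) * (1 * 1) ≤ (α + 20 * η) * ((1 + η) ^ l.length * (1 + η)) :=
      mul_le_mul_of_nonneg_left h2 (by linarith)
    nlinarith

/-- (ii) a step: what was on the blackboard implies the new line -/
private theorem new_line (hL : Liar cl dg K) (hW : 1 ≤ W) (hV : VI cl dg V y W s k η) (hη : 0 ≤ η)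
    (hη1 : η ≤ 1) (hK : k + 2 * W ≤ K) {ℓ : ℕ}
    {Sch : Set (Fm ℕ)} {Γ : Set (Fm ι)} (hS : ∀ ψ ∈ Sch, ψ.len ≤ ℓ ∧ ∀ x, ψ.eval x = true)
    (hΓ : ∀ A ∈ Γ, A.len ≤ ℓ ∧ ∀ p ∈ dg k, cl ((1 - ev y A) * p) = 0)
    {k' : ℕ} (hk : k' + (2 * ℓ + 5) * W ≤ k) {n : ℕ} (hn : (1 + η) ^ n ≤ 2)
    (l : List (Fm ι)) (hl : ls l ≤ s) (hln : l.length ≤ n) {A : Fm ι} (hAs : A.leaves ≤ s)
    (hA : A ∈ Γ ∨ (∃ ψ ∈ Sch, ∃ σ : ℕ → Fm ι, A = ψ.bind σ) ∨ ∃ B ∈ l, Fm.imp B A ∈ l) :
    Sml cl dg k' (300 * (n + 1) * 100 ^ ℓ * η) (VC V l * (1 - V A)) := by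
  have hp : (1 : ℝ) ≤ 100 ^ ℓ := one_le_pow₀ (by norm_num)
  have hn0 : (0 : ℝ) ≤ n := Nat.cast_nonneg _
  have hk5 : k' + 5 * W ≤ k := by
    have : 5 * W ≤ (2 * ℓ + 5) * W := Nat.mul_le_mul_right W (by omega)
    omega
  have mP : VC V l ∈ dg W := vc_mem hL hV hl
  have bP := (vc_bd hL hV hη hK hl).1
  have mA : 1 - V A ∈ dg W := sub_mem (hL.mono (Nat.zero_le W) hL.one) (hV.deg A hAs)
  have key : ∀ r : R, Sml cl dg (k' + W) (100 ^ ℓ * η) r →
      Sml cl dg k' (300 * (n + 1) * 100 ^ ℓ * η) (VC V l * r) := by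
    intro r hr
    refine (Sml.mulb hL hr (by positivity) mP (bP.mono hL (by omega) le_rfl) le_rfl).mono hL le_rfl ?_
    have h1 : 100 ^ ℓ * η * (1 + η) ≤ 100 ^ ℓ * η * 2 :=
      mul_le_mul_of_nonneg_left (by linarith) (by positivity)
    have h2 : (100 ^ ℓ * η) * 2 ≤ (100 ^ ℓ * η) * (300 * (n + 1)) :=
      mul_le_mul_of_nonneg_left (by linarith) (by positivity)
    nlinarith
  rcases hA with hA | ⟨ψ, hψ, σ, rfl⟩ | ⟨B, hB, hBA⟩
  · obtain ⟨h1, h2⟩ := hΓ A hA
    refine key _ ((ax_sml hL hW hV hη hη1 hK A h2 hAs (k' := k' + W) ?_).mono hL le_rfl ?_)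
    · have : A.len * W ≤ (2 * ℓ + 4) * W := Nat.mul_le_mul_right W (by omega)
      have h3 : (2 * ℓ + 5) * W = (2 * ℓ + 4) * W + W := by ring
      omega
    · exact mul_le_mul_of_nonneg_right (pow_le_pow_right₀ (by norm_num) h1) hη
  · obtain ⟨h1, h2⟩ := hS ψ hψ
    refine key _ ((inst_sml hL hV hη hη1 hK ψ σ h2 hAs (k' := k' + W) ?_).mono hL le_rfl ?_)
    · have : 2 * ψ.len * W ≤ (2 * ℓ + 4) * W := Nat.mul_le_mul_right W (by omega)
      have h3 : (2 * ℓ + 5) * W = (2 * ℓ + 4) * W + W := by ring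
      omega
    · exact mul_le_mul_of_nonneg_right (pow_le_pow_right₀ (by norm_num) h1) hη
  · have hIs : (Fm.imp B A).leaves ≤ s := le_trans (leaves_le_ls hBA) hl
    have hBs : B.leaves ≤ s := le_trans (leaves_le_ls hB) hl
    obtain ⟨a1, a2⟩ := v_bd hL hV hη hK hAs
    obtain ⟨b1, b2⟩ := v_bd hL hV hη hK hBs
    obtain ⟨c1, c2⟩ := v_bd hL hV hη hK hIs
    have mB : V B ∈ dg W := hV.deg B hBs
    have hmono : ∀ a : ℝ, 0 ≤ a → a ≤ 1 + η → a ≤ 2 := fun a _ h => by linarith
    have hc : ∀ C : Fm ι, C ∈ l → Sml cl dg (k' + 2 * W) (44 * (n + 1) * η) (VC V l * (1 - V C)) := by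
      intro C hC
      refine (vc_in hL hV hη hη1 hK (by omega) l hl hC).mono hL le_rfl ?_
      have h1 : (l.length : ℝ) ≤ n := by exact_mod_cast hln
      have h2 : (1 + η) ^ l.length ≤ 2 :=
        (pow_le_pow_right₀ (by linarith) hln).trans hn
      have h3 : (0 : ℝ) ≤ l.length := Nat.cast_nonneg _
      calc 22 * η * l.length * (1 + η) ^ l.length ≤ 22 * η * l.length * 2 :=
            mul_le_mul_of_nonneg_left h2 (by positivity)
        _ ≤ 44 * (n + 1) * η := by nlinarith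
    have t1 : Sml cl dg (k' + W) (10 * η) (V B * V (Fm.imp B A) * (1 - V A)) :=
      mp_sml hL hV hη hη1 hK hIs (by omega)
    have t2 : Sml cl dg k' (10 * η * (1 + η)) (VC V l * (V B * V (Fm.imp B A) * (1 - V A))) :=
      Sml.mulb hL t1 (by linarith) mP (bP.mono hL (by omega) le_rfl) le_rfl
    have t3 : Sml cl dg k' (44 * (n + 1) * η * (1 + η)) ((1 - V A) * (VC V l * (1 - V B))) :=
      Sml.mulb hL ((hc B hB).mono hL (by omega) le_rfl) (by positivity) mA
        (a2.mono hL (by omega) le_rfl) (k := k' + W) le_rfl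
    have m4 : (1 - V A) * V B ∈ dg (W + W) := hL.mul _ _ _ _ mA mB
    have b4 : Sml cl dg k' ((1 + η) * (1 + η)) ((1 - V A) * V B) := by
      have h1 := Sml.mulb hL (b1.mono hL (show k' + W ≤ k by omega) le_rfl) (by linarith) mA
        (a2.mono hL (show k' ≤ k by omega) le_rfl) le_rfl
      exact h1
    have t4 : Sml cl dg k' (44 * (n + 1) * η * ((1 + η) * (1 + η)))
        ((1 - V A) * V B * (VC V l * (1 - V (Fm.imp B A)))) :=
      Sml.mulb hL (hc _ hBA) (by positivity) m4 b4 (by omega)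
    have e : VC V l * (1 - V A) = VC V l * (V B * V (Fm.imp B A) * (1 - V A)) +
        (1 - V A) * (VC V l * (1 - V B)) + (1 - V A) * V B * (VC V l * (1 - V (Fm.imp B A))) := by
      ring
    rw [e]
    refine ((t2.add t3).add t4).mono hL le_rfl ?_
    have h1 : (1 + η) * (1 + η) ≤ 4 := by nlinarith
    have h0 : 0 ≤ (n + 1 : ℝ) * η := by positivity
    have h2 : 44 * (n + 1) * η * (1 + η) ≤ 88 * ((n + 1) * η) := by nlinarith
    have h3 : 44 * (n + 1) * η * ((1 + η) * (1 + η)) ≤ 176 * ((n + 1) * η) := by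
      calc 44 * (n + 1) * η * ((1 + η) * (1 + η)) ≤ 44 * (n + 1) * η * 4 :=
            mul_le_mul_of_nonneg_left h1 (by positivity)
        _ = _ := by ring
    have h4 : 10 * η * (1 + η) ≤ 20 * ((n + 1) * η) := by nlinarith
    have h5 : (n + 1 : ℝ) * η ≤ (n + 1) * η * 100 ^ ℓ := le_mul_of_one_le_right h0 hp
    nlinarith

private theorem ls_toList (M : Finset (Fm ι)) : ls M.toList = ∑ A ∈ M, A.leaves := by
  unfold ls
  exact Finset.sum_map_toList M Fm.leaves

private theorem toList_len (M : Finset (Fm ι)) : M.toList.length ≤ ∑ A ∈ M, A.leaves := by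
  rw [← ls_toList]
  exact length_le_ls _

/-- **total space**: the blackboard cannot become contradictory -/
theorem fin_space (hL : Liar cl dg K) (hW : 1 ≤ W) (hV : VI cl dg V y W s k η) (hη : 0 ≤ η)
    (hK : k + 2 * W ≤ K) {ℓ S T : ℕ}
    {Sch : Set (Fm ℕ)} {Γ : Set (Fm ι)} (hS : ∀ ψ ∈ Sch, ψ.len ≤ ℓ ∧ ∀ x, ψ.eval x = true)
    (hΓ : ∀ A ∈ Γ, A.len ≤ ℓ ∧ ∀ p ∈ dg k, cl ((1 - ev y A) * p) = 0)
    (hk : (2 * ℓ + 5) * W ≤ k)
    (hη2 : 4000 * ((T : ℝ) + 1) * ((S : ℝ) + 1) ^ 2 * (100 ^ ℓ * η) ≤ 1)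
    {M : ℕ → Finset (Fm ι)} (hM : BB Sch Γ S T M) (hc : ∃ A ∈ M T, Fm.neg A ∈ M T)
    (hs : S ≤ s) : False := by
  obtain ⟨hM0, hMS, hMst⟩ := hM
  have hp : (1 : ℝ) ≤ 100 ^ ℓ := one_le_pow₀ (by norm_num)
  have hT0 : (0 : ℝ) ≤ T := Nat.cast_nonneg _
  have hS0 : (0 : ℝ) ≤ S := Nat.cast_nonneg _
  obtain ⟨ζ, hζ⟩ : ∃ ζ : ℝ, ζ = 100 ^ ℓ * η := ⟨_, rfl⟩
  have hζ0 : 0 ≤ ζ := by rw [hζ]; positivity
  have hηζ : η ≤ ζ := by rw [hζ]; exact le_mul_of_one_le_left hη hp
  rw [← hζ] at hη2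
  have hb1 : ((T : ℝ) + S + 1) * ζ ≤ 1 / 4000 := by
    have h1 : (T : ℝ) + S + 1 ≤ (T + 1) * (S + 1) ^ 2 := by nlinarith [mul_nonneg hT0 hS0, sq_nonneg (S : ℝ)]
    have h2 : ((T : ℝ) + S + 1) * ζ ≤ (T + 1) * (S + 1) ^ 2 * ζ := mul_le_mul_of_nonneg_right h1 hζ0
    nlinarith
  have hη1 : η ≤ 1 := by nlinarith [mul_nonneg hT0 hζ0, mul_nonneg hS0 hζ0]
  have hpow : ∀ n : ℕ, n ≤ T + S → (1 + η) ^ n ≤ 2 := by
    intro n hn
    have h1 : (1 + η) ^ n ≤ Real.exp (n * η) := by
      rw [mul_comm, Real.exp_mul]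
      rw [Real.rpow_natCast]
      exact pow_le_pow_left₀ (by linarith) (by rw [add_comm]; exact Real.add_one_le_exp η) n
    have h2 : (n : ℝ) * η ≤ 1 / 2 := by
      have h3 : (n : ℝ) ≤ T + S := by exact_mod_cast hn
      have h4 : (n : ℝ) * η ≤ (T + S) * ζ := mul_le_mul h3 hηζ hη (by positivity)
      nlinarith
    have h5 : Real.exp (n * η) ≤ Real.exp (1 / 2) := Real.exp_le_exp.mpr h2
    have h6 : Real.exp (1 / 2) ≤ 2 := by
      have h7 := Real.exp_one_lt_d9
      have h8 : Real.exp (1 / 2) ^ 2 = Real.exp 1 := by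
        rw [← Real.exp_nat_mul]
        norm_num
      have h9 := Real.exp_pos (1 / 2)
      nlinarith
    linarith
  obtain ⟨ε, hε⟩ : ∃ ε : ℝ, ε = 640 * (S + 1) ^ 2 * ζ := ⟨_, rfl⟩
  have hε0 : 0 ≤ ε := by rw [hε]; positivity
  have hk3 : 0 + 3 * W ≤ k := by
    have : 3 * W ≤ (2 * ℓ + 5) * W := Nat.mul_le_mul_right W (by omega)
    omega
  have hlsM : ∀ t, t ≤ T → ls (M t).toList ≤ s := fun t ht => by
    rw [ls_toList]
    exact (hMS t ht).trans hs
  have hlen : ∀ t, t ≤ T → (M t).toList.length ≤ S := fun t ht => (toList_len _).trans (hMS t ht)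
  have hin : ∀ t, t ≤ T → ∀ C ∈ M t,
      Sml cl dg 0 (44 * (S + 1) * η) (VC V (M t).toList * (1 - V C)) := by
    intro t ht C hC
    refine (vc_in hL hV hη hη1 hK hk3 _ (hlsM t ht) (Finset.mem_toList.mpr hC)).mono hL le_rfl ?_
    have h1 : ((M t).toList.length : ℝ) ≤ S := by exact_mod_cast hlen t ht
    have h2 : (1 + η) ^ (M t).toList.length ≤ 2 := hpow _ (by have := hlen t ht; omega)
    have h3 : (0 : ℝ) ≤ (M t).toList.length := Nat.cast_nonneg _
    calc 22 * η * (M t).toList.length * (1 + η) ^ (M t).toList.length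
        ≤ 22 * η * (M t).toList.length * 2 := mul_le_mul_of_nonneg_left h2 (by positivity)
      _ ≤ 44 * (S + 1) * η := by nlinarith
  -- one step
  have hstep : ∀ t, t < T → Sml cl dg 0 ε (VC V (M t).toList * (1 - VC V (M (t + 1)).toList)) := by
    intro t ht
    obtain ⟨A, hA1, hA2⟩ := hMst t ht
    have hls := hlsM t ht.le
    have hls' := hlsM (t + 1) ht
    have hα : ∀ B ∈ (M (t + 1)).toList,
        Sml cl dg 0 (300 * (S + 1) * ζ) (VC V (M t).toList * (1 - V B)) := by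
      intro B hB
      rw [Finset.mem_toList] at hB
      rcases hA1 B hB with hB' | rfl
      · refine (hin t ht.le B hB').mono hL le_rfl ?_
        have h1 : 44 * ((S : ℝ) + 1) * η ≤ 44 * (S + 1) * ζ :=
          mul_le_mul_of_nonneg_left hηζ (by positivity)
        nlinarith [mul_nonneg (show (0 : ℝ) ≤ S + 1 by linarith) hζ0]
      · have h1 : B.leaves ≤ s := by
          have h2 : B.leaves ≤ ls (M (t + 1)).toList := leaves_le_ls (Finset.mem_toList.mpr hB)
          omega
        have h2 : B ∈ Γ ∨ (∃ ψ ∈ Sch, ∃ σ : ℕ → Fm ι, B = ψ.bind σ) ∨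
            ∃ C ∈ (M t).toList, Fm.imp C B ∈ (M t).toList := by
          rcases hA2 with h | h | ⟨C, hC, hC'⟩
          · exact Or.inl h
          · exact Or.inr (Or.inl h)
          · exact Or.inr (Or.inr ⟨C, Finset.mem_toList.mpr hC, Finset.mem_toList.mpr hC'⟩)
        refine (new_line hL hW hV hη hη1 hK hS hΓ (k' := 0) (by omega) (n := S)
          (hpow S (by omega)) _ hls (hlen t ht.le) h1 h2).mono hL le_rfl ?_
        rw [hζ]
        exact le_of_eq (by ring)
    have h3 := vc_all hL hV hη hη1 hK hk3 (by positivity) (vc_mem hL hV hls)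
      ((vc_bd hL hV hη hK hls).1.mono hL le_rfl (by linarith)) _ hls' hα
    refine h3.mono hL le_rfl ?_
    have h4 : (1 + η) ^ (M (t + 1)).toList.length ≤ 2 :=
      hpow _ (by have := hlen (t + 1) ht; omega)
    have h5 : ((M (t + 1)).toList.length : ℝ) ≤ S := by exact_mod_cast hlen (t + 1) ht
    have h6 : (0 : ℝ) ≤ (M (t + 1)).toList.length := Nat.cast_nonneg _
    have h7 : 300 * ((S : ℝ) + 1) * ζ + 20 * η ≤ 320 * (S + 1) * ζ := by nlinarith [mul_nonneg hS0 hζ0]
    calc (300 * ((S : ℝ) + 1) * ζ + 20 * η) * (M (t + 1)).toList.length *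
          (1 + η) ^ (M (t + 1)).toList.length
        ≤ (320 * (S + 1) * ζ) * (S + 1) * 2 := by
          refine mul_le_mul (mul_le_mul h7 (by linarith) h6 (by positivity)) h4 (by positivity)
            (by positivity)
      _ = ε := by rw [hε]; ring
  -- all steps
  have hall : ∀ t, t ≤ T → Sml cl dg 0 (t * ε * (1 + η) ^ t) (1 - VC V (M t).toList) := by
    intro t
    induction t with
    | zero =>
      intro _
      rw [hM0, Finset.toList_empty]
      show Sml cl dg 0 _ (1 - 1)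
      rw [sub_self]
      refine Sml.zero ?_
      simp
    | succ t ih =>
      intro ht
      have h1 := ih (by omega)
      have h2 := hstep t (by omega)
      have hls := hlsM t (by omega)
      have hls' := hlsM (t + 1) ht
      have m1 : 1 - VC V (M t).toList ∈ dg W :=
        sub_mem (hL.mono (Nat.zero_le W) hL.one) (vc_mem hL hV hls)
      have h3 : Sml cl dg 0 ((1 + η) * (t * ε * (1 + η) ^ t))
          ((1 - VC V (M (t + 1)).toList) * (1 - VC V (M t).toList)) :=
        Sml.mula hL h1 m1 (by linarith) (vc_bd hL hV hη hK hls').2 (by omega)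
      have e : 1 - VC V (M (t + 1)).toList =
          (1 - VC V (M (t + 1)).toList) * (1 - VC V (M t).toList) +
            VC V (M t).toList * (1 - VC V (M (t + 1)).toList) := by ring
      rw [e]
      refine (h3.add h2).mono hL le_rfl ?_
      have hp1 : (1 : ℝ) ≤ (1 + η) ^ (t + 1) := one_le_pow₀ (by linarith)
      have ht0 : (0 : ℝ) ≤ t := Nat.cast_nonneg _
      rw [pow_succ] at hp1 ⊢
      push_cast
      nlinarith [mul_le_mul_of_nonneg_left hp1 hε0]
  -- the end
  obtain ⟨A, hA, hnA⟩ := hc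
  have hls := hlsM T le_rfl
  have hAs : A.leaves ≤ s := le_trans (leaves_le_ls (Finset.mem_toList.mpr hA)) hls
  obtain ⟨a1, a2⟩ := v_bd hL hV hη hK hAs
  have mA : V A ∈ dg W := hV.deg A hAs
  have mP := vc_mem hL hV hls
  have bP := (vc_bd hL hV hη hK hls).1
  have t1 := hin T le_rfl A hA
  have t2 := hin T le_rfl _ hnA
  have mnA : 1 - V (.neg A) ∈ dg W :=
    sub_mem (hL.mono (Nat.zero_le W) hL.one) (hV.deg (.neg A) hAs)
  have m2 : VC V (M T).toList * (1 - V (.neg A)) ∈ dg (W + W) := hL.mul _ _ _ _ mP mnA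
  have t3 : Sml cl dg 0 ((1 + η) * (44 * (S + 1) * η))
      (V A * (VC V (M T).toList * (1 - V (.neg A)))) :=
    Sml.mula hL t2 m2 (by linarith) a1 (by omega)
  have t4 : Sml cl dg W (10 * η) (V A * V (.neg A)) := neg_sml hL hV hη hη1 hK hAs (by omega)
  have t5 : Sml cl dg 0 (10 * η * (1 + η)) (VC V (M T).toList * (V A * V (.neg A))) :=
    Sml.mulb hL t4 (by linarith) mP (bP.mono hL (by omega) le_rfl) (by omega)
  have t6 := hall T le_rfl
  have e : (1 : R) = (1 - VC V (M T).toList) + (VC V (M T).toList * (1 - V A) +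
      V A * (VC V (M T).toList * (1 - V (.neg A))) + VC V (M T).toList * (V A * V (.neg A))) := by
    ring
  have t7 := t6.add ((t1.add t3).add t5)
  rw [← e] at t7
  have h1 := t7 1 hL.one
  rw [mul_one, hL.nrm, mul_one] at h1
  have h2 : (1 + η) ^ T ≤ 2 := hpow T (by omega)
  have h3 : (T : ℝ) * ε * (1 + η) ^ T ≤ T * ε * 2 := mul_le_mul_of_nonneg_left h2 (by positivity)
  have h4 : (T : ℝ) * ε * 2 = 1280 * (T * (S + 1) ^ 2 * ζ) := by rw [hε]; ring
  have h5 : 44 * ((S : ℝ) + 1) * η ≤ 44 * ((S + 1) * ζ) := by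
    have := mul_le_mul_of_nonneg_left hηζ (show (0 : ℝ) ≤ S + 1 by linarith)
    nlinarith
  have h6 : (1 + η) * (44 * ((S : ℝ) + 1) * η) ≤ 88 * ((S + 1) * ζ) := by
    have h7 : 0 ≤ 44 * ((S : ℝ) + 1) * η := by positivity
    nlinarith
  have h8 : 10 * η * (1 + η) ≤ 20 * ((S + 1) * ζ) := by
    have h9 : 10 * η * (1 + η) ≤ 20 * η := by nlinarith
    have h10 : η ≤ (S + 1) * ζ := by nlinarith [mul_nonneg hS0 hζ0]
    linarith
  have h11 : ((S : ℝ) + 1) * ζ ≤ (T + 1) * (S + 1) ^ 2 * ζ := by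
    refine mul_le_mul_of_nonneg_right ?_ hζ0
    nlinarith [mul_nonneg hT0 hS0, mul_nonneg hT0 (sq_nonneg (S : ℝ)), sq_nonneg (S : ℝ)]
  have h12 : (T : ℝ) * (S + 1) ^ 2 * ζ ≤ (T + 1) * (S + 1) ^ 2 * ζ := by
    refine mul_le_mul_of_nonneg_right ?_ hζ0
    nlinarith [sq_nonneg ((S : ℝ) + 1)]
  nlinarith

end

end Pool.H6.QL
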