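import Mathlib
import Pool.Agent.H6.QL.Mst
import Pool.Agent.H6.QL.Evc
import Pool.Agent.H6.QL.Nm3
import Pool.Agent.H6.QL.Sps
import Pool.Agent.H81.QG.FinTr

set_option autoImplicit false

/-!
# THEOREM QL: the general theorem

Modulo the bridges `RwExists`, `ViExists`.
-/

namespace Pool.H6.QL

open Finset Classical Pool.Agent.H3.Frg Pool.Agent.H3.Frg2 Pool.Agent.H3.Frg4 Pool.Agent.H81.QG

private theorem setup (hR : RwExists) (hV : ViExists) (e : ℝ) (he : 0 < e) : ∃ δ : ℝ, 0 < δ ∧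
    ∃ d0 : ℝ, ∃ K0 : ℕ, ∀ K : ℕ, K0 ≤ K → (1 ≤ (K : ℝ) ∧ 1 ≤ (K : ℝ) ^ δ ∧
      100 * (K : ℝ) ^ δ * (K : ℝ) ^ (1 - 3 * e / 8) ≤ K ∧ 2 ≤ (K : ℝ) ^ e ∧
      10 ^ 6 * (K : ℝ) ^ 6 * (2 : ℝ) ^ ((K : ℝ) ^ δ) * (100 : ℝ) ^ (4 * (K : ℝ) ^ δ) *
        (2 : ℝ) ^ (-(K : ℝ) ^ d0) ≤ 1) ∧
      ∀ (n : ℕ) (Γ : Set (List (Fin n × Bool))), PE n K Γ →
      (∀ c ∈ Γ, (c.length : ℝ) ≤ (K : ℝ) ^ δ) →
      ∀ s : ℕ, 1 ≤ s → (s : ℝ) ≤ (K : ℝ) ^ 2 →
      ∃ (m : ℕ) (cl : Rn n →ₗ[ℝ] EuclideanSpace ℝ (Fin m)) (dg : ℕ → Submodule ℝ (Rn n))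
        (V : Fm (Fin n) → Rn n) (Wd : ℕ), Liar cl dg K ∧ 1 ≤ Wd ∧
        (Wd : ℝ) ≤ 2 * (K : ℝ) ^ (e / 8) * Real.sqrt s ∧
        ∀ k, k + 2 * Wd + 4 * ⌊(K : ℝ) ^ δ⌋₊ ≤ K →
          VI cl dg V yy Wd s k ((2 : ℝ) ^ (-(K : ℝ) ^ d0)) ∧
          ∀ A ∈ Cls Γ, A.len ≤ 4 * ⌊(K : ℝ) ^ δ⌋₊ ∧ ∀ p ∈ dg k, cl ((1 - ev yy A) * p) = 0 := by
  obtain ⟨d0, hd0, K1, hM⟩ := master hV (e / 8) (by positivity)
  obtain ⟨δ, hδ, K2, hN⟩ := num3 e d0 he hd0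
  refine ⟨δ, hδ, d0, max K1 K2, fun K hK => ?_⟩
  have hK1 : K1 ≤ K := (le_max_left _ _).trans hK
  have hn := hN K ((le_max_right _ _).trans hK)
  refine ⟨hn, ?_⟩
  obtain ⟨n1, n2, -, -, -⟩ := hn
  intro n Γ hPE hΓ s hs hsK
  obtain ⟨m, X, L, cl, dg, hRW⟩ := hR n K Γ hPE
  obtain ⟨V, Wd, hWd, hVI⟩ := hM m n K Γ X L cl dg hRW hK1 s hs hsK
  have hL := hRW.liar
  refine ⟨m, cl, dg, V, Wd + 1, hL, by omega, ?_, ?_⟩
  · have h1 : 1 ≤ (K : ℝ) ^ (e / 8) := Real.one_le_rpow n1 (by positivity)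
    have h2 : 1 ≤ Real.sqrt s := by
      rw [Real.one_le_sqrt]
      exact_mod_cast hs
    push_cast
    nlinarith
  · intro k hk
    have h := hVI k (by omega)
    refine ⟨{ deg := fun F hF => hL.mono (Nat.le_succ _) (h.deg F hF)
              degy := h.degy
              idy := h.idy
              idem := h.idem
              var := h.var
              neg := h.neg
              imp := h.imp }, ?_⟩
    rintro A ⟨a, c, hac, rfl⟩
    have h1 : (c.length + 1 : ℕ) ≤ ⌊(K : ℝ) ^ δ⌋₊ := by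
      apply Nat.le_floor
      have := hΓ _ hac
      rw [List.length_cons] at this
      exact this
    refine ⟨(len_clF a c).trans (Nat.mul_le_mul_left 4 h1), ?_⟩
    intro p hp
    rw [ev_clF]
    refine hRW.null _ hac k ?_ p hp
    rw [List.length_cons]
    omega

private theorem floor_pow {x : ℝ} (hx : 0 ≤ x) : (100 : ℝ) ^ (4 * ⌊x⌋₊) ≤ (100 : ℝ) ^ (4 * x) := by
  rw [← Real.rpow_natCast]
  apply Real.rpow_le_rpow_of_exponent_le (by norm_num)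
  push_cast
  have := Nat.floor_le hx
  linarith

theorem gen (hR : RwExists) (hV : ViExists) (e : ℝ) (he : 0 < e) : ∃ δ : ℝ, 0 < δ ∧ ∃ K0 : ℕ,
    ∀ (n K : ℕ) (Γ : Set (List (Fin n × Bool))), K0 ≤ K → PE n K Γ →
    (∀ c ∈ Γ, (c.length : ℝ) ≤ (K : ℝ) ^ δ) →
    ∀ Sch : Set (Fm ℕ), (∀ ψ ∈ Sch, (ψ.len : ℝ) ≤ (K : ℝ) ^ δ ∧ ∀ x : ℕ → Bool, ψ.eval x = true) →
    (∀ (S T : ℕ) (M : ℕ → Finset (Fm (Fin n))), BB Sch (Cls Γ) S T M →
      (∃ A ∈ M T, Fm.neg A ∈ M T) → (S : ℝ) < (K : ℝ) ^ (2 - e) →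
      (2 : ℝ) ^ ((K : ℝ) ^ δ) ≤ T) ∧
    (∀ (L : ℕ) (pf : Fin L → Fm (Fin n)), IsDer Sch (Cls Γ) pf →
      (∃ i j, pf i = Fm.neg (pf j)) → (K : ℝ) ^ (2 - e) ≤ ((∑ i, (pf i).leaves : ℕ) : ℝ)) ∧
    (∀ (s N N' : ℕ) (A : Fm (Fin n)), TD Sch (Cls Γ) s N A → TD Sch (Cls Γ) s N' (Fm.neg A) →
      (2 : ℝ) ^ ((K : ℝ) ^ (1 - e) / Real.sqrt s) ≤ N + N') ∧
    (∀ (s h : ℕ) (A : Fm (Fin n)), HD Sch (Cls Γ) s h A → HD Sch (Cls Γ) s h (Fm.neg A) →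
      (K : ℝ) ^ (1 - e) / Real.sqrt s ≤ h + 1) := by
  obtain ⟨δ, hδ, d0, K0, hS0⟩ := setup hR hV e he
  refine ⟨δ, hδ, K0, ?_⟩
  intro n K Γ hK hPE hΓ Sch hSch
  obtain ⟨⟨n1, n2, n3, n4, n5⟩, hS⟩ := hS0 K hK
  have hS := hS n Γ hPE hΓ
  have hKpos : (0 : ℝ) < K := by linarith
  obtain ⟨x, hx⟩ : ∃ x, x = (K : ℝ) ^ δ := ⟨_, rfl⟩
  rw [← hx] at n2 n3 n5 hS ⊢
  obtain ⟨ℓ, hℓ⟩ : ∃ ℓ, ℓ = 4 * ⌊x⌋₊ := ⟨_, rfl⟩
  have hℓx : (ℓ : ℝ) ≤ 4 * x := by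
    rw [hℓ]
    push_cast
    have := Nat.floor_le (show 0 ≤ x by linarith)
    linarith
  have hpow : (100 : ℝ) ^ ℓ ≤ (100 : ℝ) ^ (4 * x) := by
    rw [hℓ]
    exact floor_pow (by linarith)
  rw [← hℓ] at hS
  obtain ⟨η, hη⟩ : ∃ η, η = (2 : ℝ) ^ (-(K : ℝ) ^ d0) := ⟨_, rfl⟩
  have hη0 : 0 ≤ η := by rw [hη]; positivity
  rw [← hη] at n5 hS
  have hSchl : ∀ ψ ∈ Sch, ψ.len ≤ ℓ ∧ ∀ y : ℕ → Bool, ψ.eval y = true := by
    intro ψ hψ
    obtain ⟨h1, h2⟩ := hSch ψ hψ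
    rw [← hx] at h1
    refine ⟨?_, h2⟩
    have h3 : ψ.len ≤ ⌊x⌋₊ := Nat.le_floor h1
    omega
  have h2x : (1 : ℝ) ≤ (2 : ℝ) ^ x := Real.one_le_rpow (by norm_num) (by linarith)
  have hζ : 0 ≤ (100 : ℝ) ^ ℓ * η := by positivity
  have h100 : (1 : ℝ) ≤ 100 ^ ℓ := one_le_pow₀ (by norm_num)
  have n5' : 10 ^ 6 * (K : ℝ) ^ 6 * (2 : ℝ) ^ x * ((100 : ℝ) ^ ℓ * η) ≤ 1 := by
    have h1 : (100 : ℝ) ^ ℓ * η ≤ (100 : ℝ) ^ (4 * x) * η := mul_le_mul_of_nonneg_right hpow hη0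
    have h2 : 10 ^ 6 * (K : ℝ) ^ 6 * (2 : ℝ) ^ x * ((100 : ℝ) ^ ℓ * η) ≤
        10 ^ 6 * (K : ℝ) ^ 6 * (2 : ℝ) ^ x * ((100 : ℝ) ^ (4 * x) * η) :=
      mul_le_mul_of_nonneg_left h1 (by positivity)
    linarith
  have hK2e : 2 * (K : ℝ) ^ (2 - e) ≤ (K : ℝ) ^ 2 := by
    have h1 : (K : ℝ) ^ e * (K : ℝ) ^ (2 - e) = (K : ℝ) ^ 2 := by
      rw [← Real.rpow_add hKpos, ← Real.rpow_natCast]
      congr 1
      norm_num
    have h2 : 0 ≤ (K : ℝ) ^ (2 - e) := by positivity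
    nlinarith
  have hK2e1 : (K : ℝ) ^ (2 - e) + 1 ≤ (K : ℝ) ^ 2 ∨ (K : ℝ) ^ (2 - e) < 1 := by
    by_cases h : (K : ℝ) ^ (2 - e) < 1
    · exact Or.inr h
    · left
      push Not at h
      linarith
  -- the core of (a)
  have core : ∀ (S T : ℕ) (M : ℕ → Finset (Fm (Fin n))), BB Sch (Cls Γ) S T M →
      (∃ A ∈ M T, Fm.neg A ∈ M T) → (S : ℝ) < (K : ℝ) ^ (2 - e) →
      ¬ (T : ℝ) ≤ (2 : ℝ) ^ x * (K : ℝ) ^ 2 := by
    intro S T M hM hc hSK hT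
    have hS1 : 1 ≤ S := by
      obtain ⟨A, hA, _⟩ := hc
      have h1 : A.leaves ≤ ∑ B ∈ M T, B.leaves :=
        Finset.single_le_sum (f := fun B : Fm (Fin n) => B.leaves) (fun _ _ => Nat.zero_le _) hA
      have h2 := hM.2.1 T le_rfl
      have h3 : 1 ≤ A.leaves := by
        clear * -
        induction A with
        | var i => exact le_rfl
        | neg A ih => exact ih
        | imp A B ihA ihB => exact le_trans ihA (Nat.le_add_right _ _)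
      omega
    have hS1' : (1 : ℝ) ≤ S := by exact_mod_cast hS1
    have hSK2 : (S : ℝ) ≤ (K : ℝ) ^ 2 := by linarith [show (0 : ℝ) ≤ (K : ℝ) ^ (2 - e) by positivity]
    obtain ⟨m, cl, dg, V, Wd, hL, hW1, hWd, hVI⟩ := hS S hS1 hSK2
    have hsq : Real.sqrt S ≤ (K : ℝ) ^ (1 - e / 2) := by
      rw [Real.sqrt_le_left (by positivity)]
      have h1 : ((K : ℝ) ^ (1 - e / 2)) ^ 2 = (K : ℝ) ^ (2 - e) := by
        rw [← Real.rpow_natCast, ← Real.rpow_mul hKpos.le]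
        congr 1
        push_cast
        ring
      rw [h1]
      exact hSK.le
    have hWK : (Wd : ℝ) ≤ 2 * (K : ℝ) ^ (1 - 3 * e / 8) := by
      have h1 : (K : ℝ) ^ (e / 8) * (K : ℝ) ^ (1 - e / 2) = (K : ℝ) ^ (1 - 3 * e / 8) := by
        rw [← Real.rpow_add hKpos]
        congr 1
        ring
      have h2 : (K : ℝ) ^ (e / 8) * Real.sqrt S ≤ (K : ℝ) ^ (e / 8) * (K : ℝ) ^ (1 - e / 2) :=
        mul_le_mul_of_nonneg_left hsq (by positivity)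
      linarith
    have hdeg : (2 * ℓ + 5) * Wd + 2 * Wd + ℓ ≤ K := by
      have h1 : ℓ ≤ ℓ * Wd := Nat.le_mul_of_pos_right ℓ (by omega)
      have h2 : (2 * ℓ + 5) * Wd + 2 * Wd + ℓ ≤ (3 * ℓ + 7) * Wd := by
        have : (3 * ℓ + 7) * Wd = (2 * ℓ + 5) * Wd + 2 * Wd + ℓ * Wd := by ring
        omega
      have h3 : (((3 * ℓ + 7) * Wd : ℕ) : ℝ) ≤ K := by
        push_cast
        have h4 : 3 * (ℓ : ℝ) + 7 ≤ 19 * x := by linarith
        have h5 : (3 * (ℓ : ℝ) + 7) * Wd ≤ 19 * x * (2 * (K : ℝ) ^ (1 - 3 * e / 8)) :=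
          mul_le_mul h4 hWK (Nat.cast_nonneg _) (by linarith)
        have h6 : 0 ≤ x * (K : ℝ) ^ (1 - 3 * e / 8) := by
          have : 0 ≤ (K : ℝ) ^ (1 - 3 * e / 8) := by positivity
          nlinarith
        nlinarith
      have h4 : (3 * ℓ + 7) * Wd ≤ K := by exact_mod_cast h3
      omega
    obtain ⟨k, hk⟩ : ∃ k, k + 2 * Wd + ℓ = K := ⟨K - (2 * Wd + ℓ), by omega⟩
    obtain ⟨hVk, hAx⟩ := hVI k (by omega)
    refine fin_space hL hW1 hVk hη0 (by omega) (ℓ := ℓ) hSchl hAx (by omega) ?_ hM hc le_rfl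
    have h1 : (S : ℝ) + 1 ≤ (K : ℝ) ^ 2 := by
      rcases hK2e1 with h | h
      · linarith
      · linarith
    have h2 : ((S : ℝ) + 1) ^ 2 ≤ (K : ℝ) ^ 4 := by
      calc ((S : ℝ) + 1) ^ 2 ≤ ((K : ℝ) ^ 2) ^ 2 := pow_le_pow_left₀ (by positivity) h1 2
        _ = (K : ℝ) ^ 4 := by ring
    have h3 : (T : ℝ) + 1 ≤ 2 * ((2 : ℝ) ^ x * (K : ℝ) ^ 2) := by
      have h4 : 1 * 1 ≤ (2 : ℝ) ^ x * (K : ℝ) ^ 2 :=
        mul_le_mul h2x (one_le_pow₀ n1) (by norm_num) (by linarith)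
      linarith
    calc 4000 * ((T : ℝ) + 1) * ((S : ℝ) + 1) ^ 2 * (100 ^ ℓ * η)
        ≤ 4000 * (2 * ((2 : ℝ) ^ x * (K : ℝ) ^ 2)) * (K : ℝ) ^ 4 * (100 ^ ℓ * η) := by
          refine mul_le_mul_of_nonneg_right ?_ hζ
          refine mul_le_mul (by linarith) h2 (by positivity) (by positivity)
      _ = 8000 * ((K : ℝ) ^ 6 * (2 : ℝ) ^ x * (100 ^ ℓ * η)) := by ring
      _ ≤ 1 := by
          have h5 : 0 ≤ (K : ℝ) ^ 6 * (2 : ℝ) ^ x * (100 ^ ℓ * η) := by positivity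
          nlinarith
  refine ⟨?_, ?_, ?_, ?_⟩
  · -- (a') total space
    intro S T M hM hc hSK
    by_contra hT
    push Not at hT
    refine core S T M hM hc hSK ?_
    have h1 : (1 : ℝ) ≤ (K : ℝ) ^ 2 := one_le_pow₀ n1
    nlinarith
  · -- (a) total size
    intro L pf hpf hc
    by_contra hlt
    push Not at hlt
    obtain ⟨Z, hZ⟩ : ∃ Z : ℕ, Z = ∑ i, (pf i).leaves := ⟨_, rfl⟩
    rw [← hZ] at hlt
    obtain ⟨M, hMd⟩ : ∃ M : ℕ → Finset (Fm (Fin n)),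
        M = fun t => ((univ : Finset (Fin L)).filter fun i : Fin L => i.val < t).image pf := ⟨_, rfl⟩
    have hmem : ∀ t A, A ∈ M t ↔ ∃ i : Fin L, (i : ℕ) < t ∧ pf i = A := by
      intro t A
      rw [hMd]
      simp
    have hpos : ∀ A : Fm (Fin n), 1 ≤ A.leaves := by
      intro A
      induction A with
      | var i => exact le_rfl
      | neg A ih => exact ih
      | imp A B ihA ihB => exact le_trans ihA (Nat.le_add_right _ _)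
    have hLZ : L ≤ Z := by
      rw [hZ]
      calc L = ∑ _i : Fin L, 1 := by simp
        _ ≤ ∑ i, (pf i).leaves := Finset.sum_le_sum fun i _ => hpos _
    have hBB : BB Sch (Cls Γ) Z L M := by
      refine ⟨?_, ?_, ?_⟩
      · rw [hMd]
        simp
      · intro t _
        rw [hMd]
        calc ∑ A ∈ ((univ : Finset (Fin L)).filter fun i : Fin L => i.val < t).image pf, A.leaves
            ≤ ∑ i ∈ (univ : Finset (Fin L)).filter fun i : Fin L => i.val < t, (pf i).leaves :=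
              Finset.sum_image_le_of_nonneg (fun _ _ => Nat.zero_le _)
          _ ≤ ∑ i, (pf i).leaves :=
              Finset.sum_le_sum_of_subset_of_nonneg (Finset.filter_subset _ _)
                (fun _ _ _ => Nat.zero_le _)
          _ = Z := hZ.symm
      · intro t ht
        refine ⟨pf ⟨t, ht⟩, ?_, ?_⟩
        · intro B hB
          obtain ⟨i, hi, rfl⟩ := (hmem _ _).mp hB
          by_cases h : (i : ℕ) < t
          · exact Or.inl ((hmem _ _).mpr ⟨i, h, rfl⟩)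
          · right
            have h1 : (i : ℕ) = t := by omega
            congr 1
            exact Fin.ext h1
        · rcases hpf ⟨t, ht⟩ with h | h | ⟨j, l, hj, hl, h⟩
          · exact Or.inl h
          · exact Or.inr (Or.inl h)
          · right
            right
            refine ⟨pf j, (hmem _ _).mpr ⟨j, hj, rfl⟩, (hmem _ _).mpr ⟨l, hl, h⟩⟩
    refine core Z L M hBB ?_ hlt ?_
    · obtain ⟨i, j, hij⟩ := hc
      refine ⟨pf j, (hmem _ _).mpr ⟨j, j.2, rfl⟩, (hmem _ _).mpr ⟨i, i.2, hij⟩⟩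
    · have h1 : (L : ℝ) ≤ Z := by exact_mod_cast hLZ
      have h2 : (0 : ℝ) ≤ (K : ℝ) ^ (2 - e) := by positivity
      have h3 : 0 ≤ (K : ℝ) ^ 2 := by positivity
      nlinarith
  · -- (b) tree-like
    intro s N N' A hA hA'
    by_contra hlt
    push Not at hlt
    have hposA : 1 ≤ A.leaves := by
      clear * -
      induction A with
      | var i => exact le_rfl
      | neg A ih => exact ih
      | imp A B ihA ihB => exact le_trans ihA (Nat.le_add_right _ _)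
    have hs1 : 1 ≤ s := hposA.trans hA.leaves
    have hN1 : ∀ {B : Fm (Fin n)} {N : ℕ}, TD Sch (Cls Γ) s N B → 1 ≤ N := by
      intro B N h
      cases h with
      | hyp => exact le_rfl
      | inst => exact le_rfl
      | mp => omega
    have hNN : (2 : ℝ) ≤ N + N' := by
      have h1 := hN1 hA
      have h2 := hN1 hA'
      have h3 : (1 : ℝ) ≤ N := by exact_mod_cast h1
      have h4 : (1 : ℝ) ≤ N' := by exact_mod_cast h2
      linarith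
    obtain ⟨q, hq⟩ : ∃ q, q = (K : ℝ) ^ (1 - e) / Real.sqrt s := ⟨_, rfl⟩
    rw [← hq] at hlt
    have hsq1 : 1 ≤ Real.sqrt s := by
      rw [Real.one_le_sqrt]
      exact_mod_cast hs1
    have hq1 : 1 < q := by
      by_contra h
      push Not at h
      have : (2 : ℝ) ^ q ≤ (2 : ℝ) ^ (1 : ℝ) := Real.rpow_le_rpow_of_exponent_le (by norm_num) h
      rw [Real.rpow_one] at this
      linarith
    have hqs : q * Real.sqrt s = (K : ℝ) ^ (1 - e) := by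
      rw [hq]
      exact div_mul_cancel₀ _ (by linarith)
    have hsqK : Real.sqrt s ≤ (K : ℝ) ^ (1 - e) := by nlinarith
    have hK1e : (K : ℝ) ^ (1 - e) ≤ K := by
      calc (K : ℝ) ^ (1 - e) ≤ (K : ℝ) ^ (1 : ℝ) :=
            Real.rpow_le_rpow_of_exponent_le n1 (by linarith)
        _ = K := Real.rpow_one _
    have hsK : (s : ℝ) ≤ (K : ℝ) ^ 2 := by
      have h1 : (s : ℝ) = Real.sqrt s * Real.sqrt s := (Real.mul_self_sqrt (Nat.cast_nonneg _)).symm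
      rw [h1]
      nlinarith
    obtain ⟨m, cl, dg, V, Wd, hL, hW1, hWd, hVI⟩ := hS s hs1 hsK
    obtain ⟨r, hr⟩ : ∃ r, r = ⌈q⌉₊ := ⟨_, rfl⟩
    have hrq : (r : ℝ) ≤ 2 * q := by
      rw [hr]
      have := Nat.ceil_lt_add_one (show 0 ≤ q by linarith)
      linarith
    have hqr : q ≤ r := by
      rw [hr]
      exact Nat.le_ceil q
    have h2r : (2 : ℝ) ^ q ≤ (2 : ℝ) ^ r := by
      rw [← Real.rpow_natCast]
      exact Real.rpow_le_rpow_of_exponent_le (by norm_num) hqr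
    have hNr : N ≤ 2 ^ r := by
      have h1 : (N : ℝ) ≤ (2 : ℝ) ^ r := by
        have : (0 : ℝ) ≤ N' := Nat.cast_nonneg _
        linarith
      exact_mod_cast h1
    have hNr' : N' ≤ 2 ^ r := by
      have h1 : (N' : ℝ) ≤ (2 : ℝ) ^ r := by
        have : (0 : ℝ) ≤ N := Nat.cast_nonneg _
        linarith
      exact_mod_cast h1
    have hWs : (Wd : ℝ) ≤ 2 * (K : ℝ) ^ (e / 8) * (K : ℝ) ^ (1 - e) := by
      have h1 : 2 * (K : ℝ) ^ (e / 8) * Real.sqrt s ≤ 2 * (K : ℝ) ^ (e / 8) * (K : ℝ) ^ (1 - e) :=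
        mul_le_mul_of_nonneg_left hsqK (by positivity)
      linarith
    have hWq : q * (Wd : ℝ) ≤ 2 * (K : ℝ) ^ (e / 8) * (K : ℝ) ^ (1 - e) := by
      rw [← hqs]
      have h1 : q * (Wd : ℝ) ≤ q * (2 * (K : ℝ) ^ (e / 8) * Real.sqrt s) :=
        mul_le_mul_of_nonneg_left hWd (by linarith)
      linarith
    have hKe : (K : ℝ) ^ (e / 8) * (K : ℝ) ^ (1 - e) ≤ (K : ℝ) ^ (1 - 3 * e / 8) := by
      rw [← Real.rpow_add hKpos]
      exact Real.rpow_le_rpow_of_exponent_le n1 (by linarith)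
    have hdeg : (4 * r + 7) * Wd + (2 * ℓ + 2) * Wd + 2 * Wd + ℓ ≤ K := by
      have h1 : ℓ ≤ ℓ * Wd := Nat.le_mul_of_pos_right ℓ (by omega)
      have h2 : (4 * r + 7) * Wd + (2 * ℓ + 2) * Wd + 2 * Wd + ℓ ≤ (4 * r + 3 * ℓ + 11) * Wd := by
        have : (4 * r + 3 * ℓ + 11) * Wd =
            (4 * r + 7) * Wd + (2 * ℓ + 2) * Wd + 2 * Wd + ℓ * Wd := by ring
        omega
      have h3 : (((4 * r + 3 * ℓ + 11) * Wd : ℕ) : ℝ) ≤ K := by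
        push_cast
        have h4 : 3 * (ℓ : ℝ) + 11 ≤ 23 * x := by linarith
        have h5 : (3 * (ℓ : ℝ) + 11) * Wd ≤ 23 * x * (2 * (K : ℝ) ^ (1 - 3 * e / 8)) := by
          refine mul_le_mul h4 ?_ (Nat.cast_nonneg _) (by linarith)
          linarith
        have h6 : 4 * (r : ℝ) * Wd ≤ 8 * (2 * (K : ℝ) ^ (1 - 3 * e / 8)) := by
          have h7 : (r : ℝ) * Wd ≤ 2 * q * Wd := mul_le_mul_of_nonneg_right hrq (Nat.cast_nonneg _)
          nlinarith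
        have h8 : 0 ≤ (K : ℝ) ^ (1 - 3 * e / 8) := by positivity
        have h9 : (K : ℝ) ^ (1 - 3 * e / 8) ≤ x * (K : ℝ) ^ (1 - 3 * e / 8) :=
          le_mul_of_one_le_left h8 n2
        nlinarith
      have h4 : (4 * r + 3 * ℓ + 11) * Wd ≤ K := by exact_mod_cast h3
      omega
    obtain ⟨k, hk⟩ : ∃ k, k + 2 * Wd + ℓ = K := ⟨K - (2 * Wd + ℓ), by omega⟩
    obtain ⟨k', hk'⟩ : ∃ k', k' + (2 * ℓ + 2) * Wd = k := ⟨k - (2 * ℓ + 2) * Wd, by omega⟩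
    obtain ⟨hVk, hAx⟩ := hVI k (by omega)
    have hrK : (r : ℝ) ≤ 2 * K := by
      have h1 : q ≤ K := by
        have h2 : q * 1 ≤ q * Real.sqrt s := mul_le_mul_of_nonneg_left hsq1 (by linarith)
        linarith
      linarith
    have hfin : 10 * (4 * (r : ℝ) + 8) ^ 2 * (10 * 100 ^ ℓ * η) ≤ 1 := by
      have h1 : 4 * (r : ℝ) + 8 ≤ 16 * K := by linarith
      have h2 : (4 * (r : ℝ) + 8) ^ 2 ≤ (16 * K) ^ 2 := pow_le_pow_left₀ (by positivity) h1 2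
      have h3 : (K : ℝ) ^ 2 ≤ (K : ℝ) ^ 6 := pow_le_pow_right₀ n1 (by norm_num)
      have h4 : 10 * (4 * (r : ℝ) + 8) ^ 2 * 10 ≤ 25600 * ((K : ℝ) ^ 6 * (2 : ℝ) ^ x) := by
        have h5 : (K : ℝ) ^ 6 * 1 ≤ (K : ℝ) ^ 6 * (2 : ℝ) ^ x :=
          mul_le_mul_of_nonneg_left h2x (by positivity)
        nlinarith
      have h6 : 10 * (4 * (r : ℝ) + 8) ^ 2 * (10 * 100 ^ ℓ * η) =
          10 * (4 * (r : ℝ) + 8) ^ 2 * 10 * (100 ^ ℓ * η) := by ring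
      rw [h6]
      have h7 : 10 * (4 * (r : ℝ) + 8) ^ 2 * 10 * (100 ^ ℓ * η) ≤
          25600 * ((K : ℝ) ^ 6 * (2 : ℝ) ^ x) * (100 ^ ℓ * η) := mul_le_mul_of_nonneg_right h4 hζ
      have h8 : 0 ≤ (K : ℝ) ^ 6 * (2 : ℝ) ^ x * (100 ^ ℓ * η) := by positivity
      nlinarith
    have hη1 : η ≤ 1 := by
      have h1 : η ≤ 100 ^ ℓ * η := le_mul_of_one_le_left hη0 h100
      have h2 : 1 ≤ 10 ^ 6 * (K : ℝ) ^ 6 * (2 : ℝ) ^ x := by
        have h3 : 1 * 1 ≤ (K : ℝ) ^ 6 * (2 : ℝ) ^ x :=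
          mul_le_mul (one_le_pow₀ n1) h2x (by norm_num) (by positivity)
        nlinarith
      have h3 : 1 * (100 ^ ℓ * η) ≤ 10 ^ 6 * (K : ℝ) ^ 6 * (2 : ℝ) ^ x * (100 ^ ℓ * η) :=
        mul_le_mul_of_nonneg_right h2 hζ
      linarith
    refine fin_tree hL hW1 hVk hη0 (by omega) hSchl (k' := k') (η' := 10 * 100 ^ ℓ * η) hk'.le
      le_rfl ?_ (r := r) (by omega) hfin hA hA' hNr hNr'
    intro B hB hBs
    obtain ⟨h1, h2⟩ := hAx B hB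
    refine (ax_sml hL hW1 hVk hη0 hη1 (by omega) B h2 hBs (k' := k') ?_).mono hL le_rfl ?_
    · have : B.len * Wd ≤ (2 * ℓ + 2) * Wd := Nat.mul_le_mul_right Wd (by omega)
      omega
    · have h3 : (100 : ℝ) ^ B.len ≤ 100 ^ ℓ := pow_le_pow_right₀ (by norm_num) h1
      have h4 : 0 ≤ (100 : ℝ) ^ ℓ * η := hζ
      calc (100 : ℝ) ^ B.len * η ≤ 100 ^ ℓ * η := mul_le_mul_of_nonneg_right h3 hη0
        _ ≤ 10 * 100 ^ ℓ * η := by nlinarith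
  · -- (c) height
    intro s h A hA hA'
    by_contra hlt
    push Not at hlt
    have hposA : 1 ≤ A.leaves := by
      clear * -
      induction A with
      | var i => exact le_rfl
      | neg A ih => exact ih
      | imp A B ihA ihB => exact le_trans ihA (Nat.le_add_right _ _)
    have hs1 : 1 ≤ s := by
      refine hposA.trans ?_
      cases hA with
      | hyp _ _ _ h => exact h
      | inst _ _ _ _ h => exact h
      | mp _ _ _ _ _ h => exact h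
    obtain ⟨q, hq⟩ : ∃ q, q = (K : ℝ) ^ (1 - e) / Real.sqrt s := ⟨_, rfl⟩
    rw [← hq] at hlt
    have hsq1 : 1 ≤ Real.sqrt s := by
      rw [Real.one_le_sqrt]
      exact_mod_cast hs1
    have hh0 : (0 : ℝ) ≤ h := Nat.cast_nonneg _
    have hq1 : 1 < q := by linarith
    have hqs : q * Real.sqrt s = (K : ℝ) ^ (1 - e) := by
      rw [hq]
      exact div_mul_cancel₀ _ (by linarith)
    have hsqK : Real.sqrt s ≤ (K : ℝ) ^ (1 - e) := by nlinarith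
    have hK1e : (K : ℝ) ^ (1 - e) ≤ K := by
      calc (K : ℝ) ^ (1 - e) ≤ (K : ℝ) ^ (1 : ℝ) :=
            Real.rpow_le_rpow_of_exponent_le n1 (by linarith)
        _ = K := Real.rpow_one _
    have hsK : (s : ℝ) ≤ (K : ℝ) ^ 2 := by
      have h1 : (s : ℝ) = Real.sqrt s * Real.sqrt s := (Real.mul_self_sqrt (Nat.cast_nonneg _)).symm
      rw [h1]
      nlinarith
    obtain ⟨m, cl, dg, V, Wd, hL, hW1, hWd, hVI⟩ := hS s hs1 hsK
    have hWs : (Wd : ℝ) ≤ 2 * (K : ℝ) ^ (e / 8) * (K : ℝ) ^ (1 - e) := by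
      have h1 : 2 * (K : ℝ) ^ (e / 8) * Real.sqrt s ≤ 2 * (K : ℝ) ^ (e / 8) * (K : ℝ) ^ (1 - e) :=
        mul_le_mul_of_nonneg_left hsqK (by positivity)
      linarith
    have hWq : q * (Wd : ℝ) ≤ 2 * (K : ℝ) ^ (e / 8) * (K : ℝ) ^ (1 - e) := by
      rw [← hqs]
      have h1 : q * (Wd : ℝ) ≤ q * (2 * (K : ℝ) ^ (e / 8) * Real.sqrt s) :=
        mul_le_mul_of_nonneg_left hWd (by linarith)
      linarith
    have hKe : (K : ℝ) ^ (e / 8) * (K : ℝ) ^ (1 - e) ≤ (K : ℝ) ^ (1 - 3 * e / 8) := by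
      rw [← Real.rpow_add hKpos]
      exact Real.rpow_le_rpow_of_exponent_le n1 (by linarith)
    have hdeg : (2 * h + 2) * Wd + (2 * ℓ + 2) * Wd + 2 * Wd + ℓ ≤ K := by
      have h1 : ℓ ≤ ℓ * Wd := Nat.le_mul_of_pos_right ℓ (by omega)
      have h2 : (2 * h + 2) * Wd + (2 * ℓ + 2) * Wd + 2 * Wd + ℓ ≤ (2 * h + 3 * ℓ + 6) * Wd := by
        have : (2 * h + 3 * ℓ + 6) * Wd =
            (2 * h + 2) * Wd + (2 * ℓ + 2) * Wd + 2 * Wd + ℓ * Wd := by ring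
        omega
      have h3 : (((2 * h + 3 * ℓ + 6) * Wd : ℕ) : ℝ) ≤ K := by
        push_cast
        have h4 : 3 * (ℓ : ℝ) + 6 ≤ 18 * x := by linarith
        have h5 : (3 * (ℓ : ℝ) + 6) * Wd ≤ 18 * x * (2 * (K : ℝ) ^ (1 - 3 * e / 8)) := by
          refine mul_le_mul h4 ?_ (Nat.cast_nonneg _) (by linarith)
          linarith
        have h6 : 2 * (h : ℝ) * Wd ≤ 2 * (2 * (K : ℝ) ^ (1 - 3 * e / 8)) := by
          have h7 : (h : ℝ) * Wd ≤ q * Wd := mul_le_mul_of_nonneg_right (by linarith) (Nat.cast_nonneg _)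
          nlinarith
        have h8 : 0 ≤ (K : ℝ) ^ (1 - 3 * e / 8) := by positivity
        have h9 : (K : ℝ) ^ (1 - 3 * e / 8) ≤ x * (K : ℝ) ^ (1 - 3 * e / 8) :=
          le_mul_of_one_le_left h8 n2
        nlinarith
      have h4 : (2 * h + 3 * ℓ + 6) * Wd ≤ K := by exact_mod_cast h3
      omega
    obtain ⟨k, hk⟩ : ∃ k, k + 2 * Wd + ℓ = K := ⟨K - (2 * Wd + ℓ), by omega⟩
    obtain ⟨k', hk'⟩ : ∃ k', k' + (2 * ℓ + 2) * Wd = k := ⟨k - (2 * ℓ + 2) * Wd, by omega⟩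
    obtain ⟨hVk, hAx⟩ := hVI k (by omega)
    have hhK : (h : ℝ) ≤ K := by
      have h1 : q ≤ K := by
        have h2 : q * 1 ≤ q * Real.sqrt s := mul_le_mul_of_nonneg_left hsq1 (by linarith)
        linarith
      linarith
    have hfin : 10 * (2 * (h : ℝ) + 3) ^ 2 * (10 * 100 ^ ℓ * η) ≤ 1 := by
      have h1 : 2 * (h : ℝ) + 3 ≤ 16 * K := by linarith
      have h2 : (2 * (h : ℝ) + 3) ^ 2 ≤ (16 * K) ^ 2 := pow_le_pow_left₀ (by positivity) h1 2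
      have h3 : (K : ℝ) ^ 2 ≤ (K : ℝ) ^ 6 := pow_le_pow_right₀ n1 (by norm_num)
      have h4 : 10 * (2 * (h : ℝ) + 3) ^ 2 * 10 ≤ 25600 * ((K : ℝ) ^ 6 * (2 : ℝ) ^ x) := by
        have h5 : (K : ℝ) ^ 6 * 1 ≤ (K : ℝ) ^ 6 * (2 : ℝ) ^ x :=
          mul_le_mul_of_nonneg_left h2x (by positivity)
        nlinarith
      have h6 : 10 * (2 * (h : ℝ) + 3) ^ 2 * (10 * 100 ^ ℓ * η) =
          10 * (2 * (h : ℝ) + 3) ^ 2 * 10 * (100 ^ ℓ * η) := by ring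
      rw [h6]
      have h7 : 10 * (2 * (h : ℝ) + 3) ^ 2 * 10 * (100 ^ ℓ * η) ≤
          25600 * ((K : ℝ) ^ 6 * (2 : ℝ) ^ x) * (100 ^ ℓ * η) := mul_le_mul_of_nonneg_right h4 hζ
      have h8 : 0 ≤ (K : ℝ) ^ 6 * (2 : ℝ) ^ x * (100 ^ ℓ * η) := by positivity
      nlinarith
    have hη1 : η ≤ 1 := by
      have h1 : η ≤ 100 ^ ℓ * η := le_mul_of_one_le_left hη0 h100
      have h2 : 1 ≤ 10 ^ 6 * (K : ℝ) ^ 6 * (2 : ℝ) ^ x := by
        have h3 : 1 * 1 ≤ (K : ℝ) ^ 6 * (2 : ℝ) ^ x :=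
          mul_le_mul (one_le_pow₀ n1) h2x (by norm_num) (by positivity)
        nlinarith
      have h3 : 1 * (100 ^ ℓ * η) ≤ 10 ^ 6 * (K : ℝ) ^ 6 * (2 : ℝ) ^ x * (100 ^ ℓ * η) :=
        mul_le_mul_of_nonneg_right h2 hζ
      linarith
    refine fin_height hL hW1 hVk hη0 (by omega) hSchl (k' := k') (η' := 10 * 100 ^ ℓ * η) hk'.le
      le_rfl ?_ (h := h) (by omega) hfin hA hA'
    intro B hB hBs
    obtain ⟨h1, h2⟩ := hAx B hB
    refine (ax_sml hL hW1 hVk hη0 hη1 (by omega) B h2 hBs (k' := k') ?_).mono hL le_rfl ?_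
    · have : B.len * Wd ≤ (2 * ℓ + 2) * Wd := Nat.mul_le_mul_right Wd (by omega)
      omega
    · have h3 : (100 : ℝ) ^ B.len ≤ 100 ^ ℓ := pow_le_pow_right₀ (by norm_num) h1
      have h4 : 0 ≤ (100 : ℝ) ^ ℓ * η := hζ
      calc (100 : ℝ) ^ B.len * η ≤ 100 ^ ℓ * η := mul_le_mul_of_nonneg_right h3 hη0
        _ ≤ 10 * 100 ^ ℓ * η := by nlinarith

end Pool.H6.QL
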