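import Mathlib
import Pool.Agent.H6.QL.Gen
import Pool.Agent.H90.QL.Rg
import Pool.Agent.H24.QL.Vi

set_option autoImplicit false

/-!
# THEOREM QL: the general theorem
-/

namespace Pool.H6.QL

open Finset Classical Pool.Agent.H3.Frg Pool.Agent.H3.Frg2 Pool.Agent.H3.Frg4 Pool.Agent.H81.QG

theorem rw_ex : RwExists := fun _ _ _ h => Pool.H90.QL.rw_exists h

theorem vi_ex : ViExists := by
  intro eps heps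
  obtain ⟨C, hC⟩ := Pool.Agent.H24.QL.vi_exists eps heps
  exact ⟨C, fun m n K Gam X L cl dg hRW s R E T hs hE hCE hT =>
    hC _ n K Gam X L cl dg hRW s R E T hs hE hCE hT⟩

theorem sos (e : ℝ) (he : 0 < e) : ∃ δ : ℝ, 0 < δ ∧ ∃ K0 : ℕ,
    ∀ (n K : ℕ) (Γ : Set (List (Fin n × Bool))), K0 ≤ K → PE n K Γ →
    (∀ c ∈ Γ, (c.length : ℝ) ≤ (K : ℝ) ^ δ) →
    ∀ Sch : Set (Fm ℕ), (∀ ψ ∈ Sch, (ψ.len : ℝ) ≤ (K : ℝ) ^ δ ∧ ∀ x : ℕ → Bool, ψ.eval x = true) →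
    (∀ (S T : ℕ) (M : ℕ → Finset (Fm (Fin n))), BB Sch (Cls Γ) S T M →
      (∃ A ∈ M T, Fm.neg A ∈ M T) → (S : ℝ) < (K : ℝ) ^ (2 - e) →
      (2 : ℝ) ^ ((K : ℝ) ^ δ) ≤ T) ∧
    (∀ (L : ℕ) (pf : Fin L → Fm (Fin n)), IsDer Sch (Cls Γ) pf →
      (∃ i j, pf i = Fm.neg (pf j)) → (K : ℝ) ^ (2 - e) ≤ ((∑ i, (pf i).leaves : ℕ) : ℝ)) ∧
    (∀ (s N N' : ℕ) (A : Fm (Fin n)), TD Sch (Cls Γ) s N A → TD Sch (Cls Γ) s N' (Fm.neg A) →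
      (2 : ℝ) ^ ((K : ℝ) ^ (1 - e) / Real.sqrt s) ≤ N + N') ∧
    (∀ (s h : ℕ) (A : Fm (Fin n)), HD Sch (Cls Γ) s h A → HD Sch (Cls Γ) s h (Fm.neg A) →
      (K : ℝ) ^ (1 - e) / Real.sqrt s ≤ h + 1) :=
  gen rw_ex vi_ex e he

end Pool.H6.QL
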