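import Mathlib
import Pool.Agent.H6.QL.Evc
import Pool.Agent.H6.QL.Bb
import Pool.Agent.H81.QG.Defs

set_option autoImplicit false

/-!
# THEOREM QL: definitions for the final statement

`cnj A l`: the conjunction of the formulas `A` and `l` (`B ∧ C` is `¬(B → ¬C)`). `Hard Γ K e δ`: the
lower bounds for refutations of the clauses in `Γ`.
-/

namespace Pool.H6.QL

open Finset Classical Pool.Agent.H3.Frg Pool.Agent.H3.Frg2 Pool.Agent.H3.Frg4 Pool.Agent.H81.QG

/-- The conjunction `A ∧ (B ∧ (C ∧ …))` of `A` and the formulas in the list. -/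
def cnj {V : Type} : Fm V → List (Fm V) → Fm V
  | A, [] => A
  | A, B :: l => Fm.neg (Fm.imp A (Fm.neg (cnj B l)))

/-- Lower bounds for all systems with modus ponens and sound axiom schemes of size at most `K ^ δ`; the
axioms are the clauses in `Γ`. The number of occurrences of variables is the size of a formula.
(1) A refutation on a blackboard with total space less than `K ^ (2 - e)` has at least `2 ^ (K ^ δ)` steps.
(2) A refutation has total size at least `K ^ (2 - e)`.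
(3) So does a proof of the negation of a conjunction of clauses in `Γ`.
(4) A tree-like refutation with lines of size at most `s` has at least `2 ^ (K ^ (1 - e) / sqrt s)` lines.
(5) A refutation with lines of size at most `s` has height at least `K ^ (1 - e) / sqrt s - 1`. -/
def Hard {V : Type} (Γ : Set (List (V × Bool))) (K e δ : ℝ) : Prop :=
  ∀ Sch : Set (Fm ℕ), (∀ ψ ∈ Sch, (ψ.len : ℝ) ≤ K ^ δ ∧ ∀ x : ℕ → Bool, ψ.eval x = true) →
    (∀ (S T : ℕ) (M : ℕ → Finset (Fm V)), BB Sch (Cls Γ) S T M →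
      (∃ A ∈ M T, Fm.neg A ∈ M T) → (S : ℝ) < K ^ (2 - e) → (2 : ℝ) ^ (K ^ δ) ≤ T) ∧
    (∀ (L : ℕ) (pf : Fin L → Fm V), IsDer Sch (Cls Γ) pf → (∃ i j, pf i = Fm.neg (pf j)) →
      K ^ (2 - e) ≤ ((∑ i, (pf i).leaves : ℕ) : ℝ)) ∧
    (∀ (A : Fm V) (l : List (Fm V)), A ∈ Cls Γ → (∀ B ∈ l, B ∈ Cls Γ) →
      ∀ (L : ℕ) (pf : Fin L → Fm V), IsDer Sch ∅ pf → (∃ i, pf i = Fm.neg (cnj A l)) →
      K ^ (2 - e) ≤ ((∑ i, (pf i).leaves : ℕ) : ℝ)) ∧
    (∀ (s N N' : ℕ) (A : Fm V), TD Sch (Cls Γ) s N A → TD Sch (Cls Γ) s N' (Fm.neg A) →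
      (2 : ℝ) ^ (K ^ (1 - e) / Real.sqrt s) ≤ N + N') ∧
    (∀ (s h : ℕ) (A : Fm V), HD Sch (Cls Γ) s h A → HD Sch (Cls Γ) s h (Fm.neg A) →
      K ^ (1 - e) / Real.sqrt s ≤ h + 1)

end Pool.H6.QL
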