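import Mathlib
import Pool.Agent.H6.QL.Stm
import Pool.Agent.H6.QL.Sos

set_option autoImplicit false

/-!
# THEOREM QL: proofs of the negations of conjunctions of clauses; the final general theorem
-/

namespace Pool.H6.QL

open Finset Classical Pool.Agent.H3.Frg Pool.Agent.H3.Frg2 Pool.Agent.H3.Frg4 Pool.Agent.H81.QG

variable {V : Type}

private theorem lpos (A : Fm V) : 1 ≤ A.leaves := by
  induction A with
  | var i => exact le_rfl
  | neg A ih => exact ih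
  | imp A B ihA ihB => exact le_trans ihA (Nat.le_add_right _ _)

/-- The blackboard `P` can be reached in `T` steps with space `S`. -/
private def Rch (Sch : Set (Fm ℕ)) (Γ : Set (Fm V)) (S T : ℕ) (P : Finset (Fm V)) : Prop :=
  ∃ M, BB Sch Γ S T M ∧ M T = P

private theorem rch_zero (Sch : Set (Fm ℕ)) (Γ : Set (Fm V)) (S : ℕ) : Rch Sch Γ S 0 ∅ := by
  refine ⟨fun _ => ∅, ⟨rfl, fun t _ => ?_, fun t ht => ?_⟩, rfl⟩
  · simp
  · omega

private theorem rch_step {Sch : Set (Fm ℕ)} {Γ : Set (Fm V)} {S T : ℕ} {P P' : Finset (Fm V)}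
    (h : Rch Sch Γ S T P) (A : Fm V) (h1 : ∀ B ∈ P', B ∈ P ∨ B = A)
    (h2 : A ∈ Γ ∨ (∃ ψ ∈ Sch, ∃ σ : ℕ → Fm V, A = ψ.bind σ) ∨ ∃ B ∈ P, Fm.imp B A ∈ P)
    (h3 : ∑ B ∈ P', B.leaves ≤ S) : Rch Sch Γ S (T + 1) P' := by
  obtain ⟨M, ⟨hM0, hMS, hMst⟩, hMT⟩ := h
  refine ⟨fun t => if t ≤ T then M t else P', ⟨?_, ?_, ?_⟩, ?_⟩
  · simp only [Nat.zero_le, if_true]
    exact hM0
  · intro t ht
    by_cases h : t ≤ T
    · simp only [h, if_true]
      exact hMS t h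
    · simp only [h, if_false]
      exact h3
  · intro t ht
    by_cases h : t < T
    · obtain ⟨A', hA1, hA2⟩ := hMst t h
      refine ⟨A', ?_, ?_⟩
      · have e1 : t + 1 ≤ T := h
        have e2 : t ≤ T := h.le
        simp only [e1, e2, if_true]
        exact hA1
      · have e2 : t ≤ T := h.le
        simp only [e2, if_true]
        exact hA2
    · have e : t = T := by omega
      subst e
      refine ⟨A, ?_, ?_⟩
      · have e1 : ¬ t + 1 ≤ t := by omega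
        simp only [e1, if_false, le_refl, if_true]
        rw [hMT]
        exact h1
      · simp only [le_refl, if_true]
        rw [hMT]
        exact h2
  · have e1 : ¬ T + 1 ≤ T := by omega
    simp only [e1, if_false]

/-- The scheme `p → (q → (p ∧ q))`. -/
private def psi : Fm ℕ :=
  .imp (.var 0) (.imp (.var 1) (.neg (.imp (.var 0) (.neg (.var 1)))))

private theorem sum_ins_le (A : Fm V) (P : Finset (Fm V)) :
    ∑ B ∈ insert A P, B.leaves ≤ A.leaves + ∑ B ∈ P, B.leaves := by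
  by_cases h : A ∈ P
  · rw [Finset.insert_eq_of_mem h]
    exact Nat.le_add_left _ _
  · rw [Finset.sum_insert h]

private theorem cnj_cons (A B : Fm V) (l : List (Fm V)) :
    cnj A (B :: l) = Fm.neg (Fm.imp A (Fm.neg (cnj B l))) := rfl

private theorem rch_cnj {Sch : Set (Fm ℕ)} {Γ : Set (Fm V)} {S : ℕ} (hpsi : psi ∈ Sch)
    (l : List (Fm V)) (A : Fm V) (hA : A ∈ Γ) (hl : ∀ B ∈ l, B ∈ Γ)
    (hS : 3 * (cnj A l).leaves ≤ S) :
    ∃ T, T ≤ 4 * (cnj A l).leaves ∧ Rch Sch Γ S T {cnj A l} := by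
  induction l generalizing A with
  | nil =>
    have hp := lpos A
    refine ⟨1, ?_, ?_⟩
    · show 1 ≤ 4 * A.leaves
      omega
    · refine rch_step (rch_zero Sch Γ S) A ?_ (Or.inl hA) ?_
      · intro B hB
        right
        exact Finset.mem_singleton.mp hB
      · rw [Finset.sum_singleton]
        have h3 : 3 * A.leaves ≤ S := hS
        show A.leaves ≤ S
        omega
  | cons B l ih =>
    obtain ⟨c, hc⟩ : ∃ c, c = cnj B l := ⟨_, rfl⟩
    have e : cnj A (B :: l) = Fm.neg (Fm.imp A (Fm.neg c)) := by rw [hc]; rfl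
    have hlv : (cnj A (B :: l)).leaves = A.leaves + c.leaves := by rw [e]; rfl
    rw [hlv] at hS ⊢
    have hpA := lpos A
    have hpc := lpos c
    obtain ⟨T0, hT0, h0⟩ := ih B (hl B List.mem_cons_self)
      (fun C hC => hl C (List.mem_cons_of_mem _ hC)) (by rw [← hc]; omega)
    rw [← hc] at hT0 h0
    obtain ⟨I2, hI2⟩ : ∃ I2 : Fm V, I2 = Fm.imp c (Fm.neg (Fm.imp A (Fm.neg c))) := ⟨_, rfl⟩
    obtain ⟨I1, hI1⟩ : ∃ I1 : Fm V, I1 = Fm.imp A I2 := ⟨_, rfl⟩
    have hI2l : I2.leaves = c.leaves + (A.leaves + c.leaves) := by rw [hI2]; rfl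
    have hI1l : I1.leaves = A.leaves + (c.leaves + (A.leaves + c.leaves)) := by
      rw [hI1, ← hI2l]
      rfl
    have s1 : Rch Sch Γ S (T0 + 1) {A, c} := by
      refine rch_step h0 A ?_ (Or.inl hA) ?_
      · intro C hC
        rw [Finset.mem_insert, Finset.mem_singleton] at hC
        rcases hC with rfl | rfl
        · exact Or.inr rfl
        · exact Or.inl (Finset.mem_singleton_self _)
      · refine (sum_ins_le _ _).trans ?_
        rw [Finset.sum_singleton]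
        omega
    have s2 : Rch Sch Γ S (T0 + 1 + 1) {I1, A, c} := by
      refine rch_step s1 I1 ?_ (Or.inr (Or.inl ⟨psi, hpsi, fun i => if i = 0 then A else c, ?_⟩)) ?_
      · intro C hC
        rw [Finset.mem_insert] at hC
        rcases hC with rfl | hC
        · exact Or.inr rfl
        · exact Or.inl hC
      · rw [hI1, hI2]
        rfl
      · refine (sum_ins_le _ _).trans ?_
        have := (sum_ins_le A {c})
        rw [Finset.sum_singleton] at this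
        omega
    have s3 : Rch Sch Γ S (T0 + 1 + 1 + 1) {I2, c} := by
      refine rch_step s2 I2 ?_ (Or.inr (Or.inr ⟨A, ?_, ?_⟩)) ?_
      · intro C hC
        rw [Finset.mem_insert, Finset.mem_singleton] at hC
        rcases hC with rfl | rfl
        · exact Or.inr rfl
        · left
          simp
      · simp
      · rw [← hI1]
        simp
      · refine (sum_ins_le _ _).trans ?_
        rw [Finset.sum_singleton]
        omega
    have s4 : Rch Sch Γ S (T0 + 1 + 1 + 1 + 1) {cnj A (B :: l)} := by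
      rw [e]
      refine rch_step s3 (Fm.neg (Fm.imp A (Fm.neg c))) ?_ (Or.inr (Or.inr ⟨c, ?_, ?_⟩)) ?_
      · intro C hC
        exact Or.inr (Finset.mem_singleton.mp hC)
      · simp
      · rw [← hI2]
        simp
      · rw [Finset.sum_singleton, ← e, hlv]
        omega
    refine ⟨_, ?_, s4⟩
    omega

private theorem rch_pf {Sch : Set (Fm ℕ)} {Γ : Set (Fm V)} {S T : ℕ} {c : Fm V}
    (h : Rch Sch Γ S T {c}) {L : ℕ} {pf : Fin L → Fm V} (hpf : IsDer Sch ∅ pf)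
    (hS : c.leaves + ∑ i, (pf i).leaves ≤ S) (t : ℕ) (ht : t ≤ L) :
    Rch Sch Γ S (T + t)
      (insert c (((univ : Finset (Fin L)).filter fun i : Fin L => i.val < t).image pf)) := by
  induction t with
  | zero =>
    have e : (insert c (((univ : Finset (Fin L)).filter fun i : Fin L => i.val < 0).image pf) :
        Finset (Fm V)) = {c} := by
      ext A
      simp
    rw [e]
    exact h
  | succ t ih =>
    have ht' : t < L := ht
    refine rch_step (ih ht'.le) (pf ⟨t, ht'⟩) ?_ ?_ ?_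
    · intro B hB
      rw [Finset.mem_insert, Finset.mem_image] at hB
      rcases hB with rfl | ⟨i, hi, rfl⟩
      · left
        exact Finset.mem_insert_self _ _
      · rw [Finset.mem_filter] at hi
        by_cases h1 : i.val < t
        · left
          refine Finset.mem_insert_of_mem (Finset.mem_image.mpr ⟨i, ?_, rfl⟩)
          exact Finset.mem_filter.mpr ⟨Finset.mem_univ _, h1⟩
        · right
          have h2 : i.val = t := by
            have := hi.2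
            omega
          congr 1
          exact Fin.ext h2
    · rcases hpf ⟨t, ht'⟩ with h1 | h1 | ⟨j, k, hj, hk, h1⟩
      · exact absurd h1 (Set.notMem_empty _)
      · exact Or.inr (Or.inl h1)
      · refine Or.inr (Or.inr ⟨pf j, ?_, ?_⟩)
        · refine Finset.mem_insert_of_mem (Finset.mem_image.mpr ⟨j, ?_, rfl⟩)
          exact Finset.mem_filter.mpr ⟨Finset.mem_univ _, hj⟩
        · refine Finset.mem_insert_of_mem (Finset.mem_image.mpr ⟨k, ?_, h1⟩)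
          exact Finset.mem_filter.mpr ⟨Finset.mem_univ _, hk⟩
    · refine (sum_ins_le _ _).trans (le_trans ?_ hS)
      refine Nat.add_le_add_left ?_ _
      calc ∑ A ∈ ((univ : Finset (Fin L)).filter fun i : Fin L => i.val < t + 1).image pf, A.leaves
          ≤ ∑ i ∈ (univ : Finset (Fin L)).filter fun i : Fin L => i.val < t + 1, (pf i).leaves :=
            Finset.sum_image_le_of_nonneg (fun _ _ => Nat.zero_le _)
        _ ≤ ∑ i, (pf i).leaves :=
            Finset.sum_le_sum_of_subset_of_nonneg (Finset.filter_subset _ _)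
              (fun _ _ _ => Nat.zero_le _)

/-- From a proof of `¬ (C₁ ∧ (C₂ ∧ …))` to a refutation of `C₁, C₂, …` on a blackboard. -/
theorem bb_of_proof {Sch : Set (Fm ℕ)} {Γ : Set (Fm V)} (hpsi : psi ∈ Sch) {A : Fm V}
    {l : List (Fm V)} (hA : A ∈ Γ) (hl : ∀ B ∈ l, B ∈ Γ) {L : ℕ} {pf : Fin L → Fm V}
    (hpf : IsDer Sch ∅ pf) {i : Fin L} (hi : pf i = Fm.neg (cnj A l)) :
    ∃ (T : ℕ) (M : ℕ → Finset (Fm V)), T ≤ 5 * ∑ i, (pf i).leaves ∧
      BB Sch Γ (3 * ∑ i, (pf i).leaves) T M ∧ ∃ B ∈ M T, Fm.neg B ∈ M T := by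
  have hz : (cnj A l).leaves ≤ ∑ i, (pf i).leaves := by
    have h1 : (pf i).leaves ≤ ∑ i, (pf i).leaves :=
      Finset.single_le_sum (f := fun i => (pf i).leaves) (fun _ _ => Nat.zero_le _)
        (Finset.mem_univ i)
    rw [hi] at h1
    exact h1
  have hLZ : L ≤ ∑ i, (pf i).leaves := by
    calc L = ∑ _i : Fin L, 1 := by simp
      _ ≤ ∑ i, (pf i).leaves := Finset.sum_le_sum fun i _ => lpos _
  obtain ⟨T, hT, hR⟩ := rch_cnj (S := 3 * ∑ i, (pf i).leaves) hpsi l A hA hl (by omega)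
  obtain ⟨M, hM, hMT⟩ := rch_pf hR hpf (by omega) L le_rfl
  refine ⟨T + L, M, by omega, hM, cnj A l, ?_, ?_⟩
  · rw [hMT]
    exact Finset.mem_insert_self _ _
  · rw [hMT, ← hi]
    refine Finset.mem_insert_of_mem (Finset.mem_image.mpr ⟨i, ?_, rfl⟩)
    exact Finset.mem_filter.mpr ⟨Finset.mem_univ _, i.2⟩

open Filter in
private theorem numT (e d : ℝ) (he : 0 < e) (hd : 0 < d) : ∃ K0 : ℕ, ∀ K : ℕ, K0 ≤ K →
    1 ≤ (K : ℝ) ∧ 9 ≤ (K : ℝ) ^ d ∧ 3 ≤ (K : ℝ) ^ (e / 2) ∧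
    5 * (K : ℝ) ^ 2 < (2 : ℝ) ^ ((K : ℝ) ^ d) := by
  obtain ⟨δ, hδ, K1, h1⟩ := num3 1 d one_pos hd
  have h2 : ∀ᶠ K : ℕ in atTop, 9 ≤ (K : ℝ) ^ d :=
    ((tendsto_rpow_atTop hd).comp tendsto_natCast_atTop_atTop).eventually_ge_atTop 9
  have h3 : ∀ᶠ K : ℕ in atTop, 3 ≤ (K : ℝ) ^ (e / 2) :=
    ((tendsto_rpow_atTop (by positivity : 0 < e / 2)).comp
      tendsto_natCast_atTop_atTop).eventually_ge_atTop 3
  obtain ⟨K2, hK2⟩ := eventually_atTop.mp (h2.and h3)
  refine ⟨max K1 K2, fun K hK => ?_⟩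
  obtain ⟨a1, a2, -, -, a5⟩ := h1 K ((le_max_left _ _).trans hK)
  obtain ⟨b1, b2⟩ := hK2 K ((le_max_right _ _).trans hK)
  refine ⟨a1, b1, b2, ?_⟩
  have c1 : (1 : ℝ) ≤ (2 : ℝ) ^ ((K : ℝ) ^ δ) := Real.one_le_rpow (by norm_num) (by linarith)
  have c2 : (1 : ℝ) ≤ (100 : ℝ) ^ (4 * (K : ℝ) ^ δ) :=
    Real.one_le_rpow (by norm_num) (by linarith)
  have c3 : (2 : ℝ) ^ (-(K : ℝ) ^ d) * (2 : ℝ) ^ ((K : ℝ) ^ d) = 1 := by
    rw [← Real.rpow_add (by norm_num), neg_add_cancel, Real.rpow_zero]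
  have c4 : 0 < (2 : ℝ) ^ (-(K : ℝ) ^ d) := by positivity
  have c5 : 0 < (2 : ℝ) ^ ((K : ℝ) ^ d) := by positivity
  have c6 : (K : ℝ) ^ 2 ≤ (K : ℝ) ^ 6 := pow_le_pow_right₀ a1 (by norm_num)
  have c7 : (1 : ℝ) ≤ (K : ℝ) ^ 2 := one_le_pow₀ a1
  have c8 : 10 ^ 6 * (K : ℝ) ^ 6 ≤ 10 ^ 6 * (K : ℝ) ^ 6 * (2 : ℝ) ^ ((K : ℝ) ^ δ) *
      (100 : ℝ) ^ (4 * (K : ℝ) ^ δ) := by
    have d1 : 10 ^ 6 * (K : ℝ) ^ 6 * 1 ≤ 10 ^ 6 * (K : ℝ) ^ 6 * (2 : ℝ) ^ ((K : ℝ) ^ δ) :=
      mul_le_mul_of_nonneg_left c1 (by positivity)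
    have d2 : 10 ^ 6 * (K : ℝ) ^ 6 * (2 : ℝ) ^ ((K : ℝ) ^ δ) * 1 ≤
        10 ^ 6 * (K : ℝ) ^ 6 * (2 : ℝ) ^ ((K : ℝ) ^ δ) * (100 : ℝ) ^ (4 * (K : ℝ) ^ δ) :=
      mul_le_mul_of_nonneg_left c2 (by positivity)
    linarith
  have c9 : 10 ^ 6 * (K : ℝ) ^ 6 * (2 : ℝ) ^ (-(K : ℝ) ^ d) ≤ 1 :=
    le_trans (mul_le_mul_of_nonneg_right c8 c4.le) a5
  have c10 : 10 ^ 6 * (K : ℝ) ^ 6 ≤ (2 : ℝ) ^ ((K : ℝ) ^ d) := by
    have d1 := mul_le_mul_of_nonneg_right c9 c5.le
    rw [mul_assoc, c3, mul_one, one_mul] at d1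
    exact d1
  nlinarith

/-- **THEOREM QL**, general form. -/
theorem hard (e : ℝ) (he : 0 < e) : ∃ δ : ℝ, 0 < δ ∧ ∃ K0 : ℕ,
    ∀ (n K : ℕ) (Γ : Set (List (Fin n × Bool))), K0 ≤ K → PE n K Γ →
    (∀ c ∈ Γ, (c.length : ℝ) ≤ (K : ℝ) ^ δ) → Hard Γ (K : ℝ) e δ := by
  obtain ⟨δ, hδ, K1, h1⟩ := sos (e / 2) (by positivity)
  obtain ⟨K2, h2⟩ := numT e δ he hδ
  refine ⟨δ, hδ, max K1 K2, fun n K Γ hK hPE hΓ => ?_⟩
  obtain ⟨n1, n2, n3, n4⟩ := h2 K ((le_max_right _ _).trans hK)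
  have h1' := h1 n K Γ ((le_max_left _ _).trans hK) hPE hΓ
  have hKpos : (0 : ℝ) < K := by linarith
  have m1 : (K : ℝ) ^ (2 - e) ≤ (K : ℝ) ^ (2 - e / 2) :=
    Real.rpow_le_rpow_of_exponent_le n1 (by linarith)
  have m2 : (K : ℝ) ^ (1 - e) ≤ (K : ℝ) ^ (1 - e / 2) :=
    Real.rpow_le_rpow_of_exponent_le n1 (by linarith)
  intro Sch hSch
  obtain ⟨s1, s2, s4, s5⟩ := h1' Sch hSch
  refine ⟨?_, ?_, ?_, ?_, ?_⟩
  · intro S T M hM hc hS
    exact s1 S T M hM hc (lt_of_lt_of_le hS m1)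
  · intro L pf hpf hc
    exact m1.trans (s2 L pf hpf hc)
  · intro A l hA hl L pf hpf hi
    by_contra hlt
    push Not at hlt
    obtain ⟨i, hi⟩ := hi
    have hSch' : ∀ ψ ∈ insert psi Sch, (ψ.len : ℝ) ≤ (K : ℝ) ^ δ ∧
        ∀ x : ℕ → Bool, ψ.eval x = true := by
      intro ψ hψ
      rcases Set.mem_insert_iff.mp hψ with rfl | hψ
      · refine ⟨?_, ?_⟩
        · have : ((psi.len : ℕ) : ℝ) = 9 := by
            show ((9 : ℕ) : ℝ) = 9
            norm_num
          rw [this]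
          exact n2
        · intro x
          show (!(x 0) || (!(x 1) || !(!(x 0) || !(x 1)))) = true
          cases x 0 <;> cases x 1 <;> rfl
      · exact hSch ψ hψ
    have hpf' : IsDer (insert psi Sch) ∅ pf := by
      intro j
      rcases hpf j with h | ⟨ψ, hψ, σ, h⟩ | h
      · exact Or.inl h
      · exact Or.inr (Or.inl ⟨ψ, Set.mem_insert_of_mem _ hψ, σ, h⟩)
      · exact Or.inr (Or.inr h)
    obtain ⟨T, M, hT, hM, hc⟩ := bb_of_proof (Set.mem_insert psi Sch) hA hl hpf' hi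
    obtain ⟨Z, hZ⟩ : ∃ Z : ℕ, Z = ∑ i, (pf i).leaves := ⟨_, rfl⟩
    rw [← hZ] at hlt hT hM
    have h3 := (h1' (insert psi Sch) hSch').1 (3 * Z) T M hM hc ?_
    · have h4 : (T : ℝ) ≤ 5 * Z := by exact_mod_cast hT
      have h5 : (K : ℝ) ^ (2 - e) ≤ (K : ℝ) ^ 2 := by
        rw [← Real.rpow_natCast]
        exact Real.rpow_le_rpow_of_exponent_le n1 (by push_cast; linarith)
      linarith
    · have h6 : (K : ℝ) ^ (e / 2) * (K : ℝ) ^ (2 - e) = (K : ℝ) ^ (2 - e / 2) := by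
        rw [← Real.rpow_add hKpos]
        congr 1
        ring
      have h7 : 0 ≤ (K : ℝ) ^ (2 - e) := by positivity
      push_cast
      nlinarith
  · intro s N N' A hA hA'
    refine le_trans ?_ (s4 s N N' A hA hA')
    refine Real.rpow_le_rpow_of_exponent_le (by norm_num) ?_
    exact div_le_div_of_nonneg_right m2 (Real.sqrt_nonneg _)
  · intro s h A hA hA'
    refine le_trans ?_ (s5 s h A hA hA')
    exact div_le_div_of_nonneg_right m2 (Real.sqrt_nonneg _)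

end Pool.H6.QL
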